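import Pool.Agent.Lib.MP_1f562f_co.Al
import Pool.Agent.Lib.MP_1f562f_co.Count

/-!
# Erdős–Sauer: averaging
-/

set_option autoImplicit false

open Finset

namespace ES

/-- averaging inequality: for `r ≤ p ≤ m ≤ n`,
`|H| C(n-r,m-r) ≤ C(n,m) α(m,p,r) + C(m,r) |copies H| C(n-p,m-p)`.

Proof.  For an `m`-set `M` let `H_M` be the set of the `e ∈ H` with `e ⊆ M`.  `∑_M |H_M| = |H| C(n-r,m-r)`
(`card_sup_eq`).  If `H_M` contains no copy then `|H_M| ≤ α(m,p,r)` by `card_le_al_of_subset`; if it does, then
`|H_M| ≤ C(m,r) ≤ C(m,r) · #{Q ∈ copies H : Q ⊆ M}`.  In any case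
`|H_M| ≤ α(m,p,r) + C(m,r) #{Q ∈ copies H : Q ⊆ M}`; sum over all `M`. -/
theorem averaging {n p r m : ℕ} (hrp : r ≤ p) (hpm : p ≤ m) (H : Finset (Finset (Fin n)))
    (hH : ∀ e ∈ H, e.card = r) :
    H.card * (n - r).choose (m - r) ≤
      n.choose m * al m p r + m.choose r * ((copies p r H).card * (n - p).choose (m - p)) := by
  classical
  set 𝓜 : Finset (Finset (Fin n)) := univ.powersetCard m with h𝓜
  have hswap : ∀ (S : Finset (Finset (Fin n))) (j : ℕ), j ≤ m → (∀ e ∈ S, e.card = j) →
      ∑ M ∈ 𝓜, (S.filter (fun e => e ⊆ M)).card = S.card * (n - j).choose (m - j) := by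
    intro S j hj hS
    have h1 : ∀ M ∈ 𝓜, (S.filter (fun e => e ⊆ M)).card = ∑ e ∈ S, if e ⊆ M then 1 else 0 := by
      intro M _
      rw [card_filter]
    rw [sum_congr rfl h1, sum_comm]
    have h2 : ∀ e ∈ S, (∑ M ∈ 𝓜, if e ⊆ M then 1 else 0) = (n - j).choose (m - j) := by
      intro e he
      rw [← card_filter, h𝓜, card_sup_eq (p := m) e ((hS e he).le.trans hj), hS e he]
    rw [sum_congr rfl h2, sum_const, smul_eq_mul]
  have hpt : ∀ M ∈ 𝓜, (H.filter (fun e => e ⊆ M)).card ≤
      al m p r + m.choose r * ((copies p r H).filter (fun Q => Q ⊆ M)).card := by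
    intro M hM
    rw [h𝓜, mem_powersetCard] at hM
    by_cases hc : ((copies p r H).filter (fun Q => Q ⊆ M)).card = 0
    · rw [hc, mul_zero, add_zero]
      refine card_le_al_of_subset M hM.2 _ ?_ (fun e he => (mem_filter.1 he).2)
      refine ⟨fun e he => hH e (mem_filter.1 he).1, fun S hS hsub => ?_⟩
      rw [card_eq_zero, filter_eq_empty_iff] at hc
      have hSM : S ⊆ M := by
        intro x hx
        -- choose an r-subset containing x; if r = 0 use emptiness
        rcases Nat.eq_zero_or_pos r with h0 | h0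
        · -- r = 0: then powersetCard 0 S = {∅}; no information, argue through Q ⊆ M
          exfalso
          subst h0
          have hemp : (∅ : Finset (Fin n)) ∈ H := by
            have : (∅ : Finset (Fin n)) ∈ S.powersetCard 0 := by simp
            exact (mem_filter.1 (hsub this)).1
          obtain ⟨S', hS'M, hS'c⟩ := exists_subset_card_eq (s := M) (n := p) (by omega)
          refine hc (mem_copies.2 ⟨hS'c, ?_⟩) hS'M
          intro e he
          rw [mem_powersetCard, card_eq_zero] at he
          rw [he.2]; exact hemp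
        · obtain ⟨e, hxe, heS, hec⟩ : ∃ e : Finset (Fin n), x ∈ e ∧ e ⊆ S ∧ e.card = r := by
            obtain ⟨e, h1, h2, h3⟩ := exists_subsuperset_card_eq (s := {x}) (t := S) (n := r)
              (singleton_subset_iff.2 hx) (by rw [card_singleton]; omega) (by omega)
            exact ⟨e, singleton_subset_iff.1 h1, h2, h3⟩
          exact (mem_filter.1 (hsub (mem_powersetCard.2 ⟨heS, hec⟩))).2 hxe
      exact hc (mem_copies.2 ⟨hS, fun e he => (mem_filter.1 (hsub he)).1⟩) hSM
    · have h1 : (H.filter (fun e => e ⊆ M)).card ≤ m.choose r := by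
        rw [← hM.2, ← card_powersetCard]
        refine card_le_card fun e he => ?_
        rw [mem_filter] at he
        exact mem_powersetCard.2 ⟨he.2, hH e he.1⟩
      have h2 : 1 ≤ ((copies p r H).filter (fun Q => Q ⊆ M)).card := Nat.one_le_iff_ne_zero.2 hc
      calc (H.filter (fun e => e ⊆ M)).card ≤ m.choose r * 1 := by rw [mul_one]; exact h1
        _ ≤ m.choose r * ((copies p r H).filter (fun Q => Q ⊆ M)).card :=
            Nat.mul_le_mul_left _ h2
        _ ≤ _ := Nat.le_add_left _ _
  have hsum := sum_le_sum hpt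
  rw [hswap H r (hrp.trans hpm) hH, sum_add_distrib, sum_const, ← mul_sum,
    hswap (copies p r H) p hpm (fun Q hQ => (mem_copies.1 hQ).1), h𝓜, card_powersetCard,
    card_univ, Fintype.card_fin, smul_eq_mul] at hsum
  exact hsum

end ES
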