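import Mathlib

section

/-!
# Erdős–Sauer: definitions

`r`-graphs on `Fin n` are finsets of `r`-element finsets.  `k = C(p,r)` is the number of edges of
`K_p^r`.  `wt`, `Phi`, `WW`: weights of copies, the dual functional of the spread fractional
packing problem (every copy gets weight at most `κ`) and its infimum.
-/

set_option autoImplicit false

open Finset

namespace ES

variable {n : ℕ}

/-- the copies of `K_p^r` in `H` (as vertex sets) -/
def copies (p r : ℕ) (H : Finset (Finset (Fin n))) : Finset (Finset (Fin n)) :=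
  (univ.powersetCard p).filter (fun Q => Q.powersetCard r ⊆ H)

/-- `G` is a `K_p^r`-free `r`-graph -/
def Free (p r : ℕ) (G : Finset (Finset (Fin n))) : Prop :=
  (∀ e ∈ G, e.card = r) ∧ ∀ S : Finset (Fin n), S.card = p → ¬ S.powersetCard r ⊆ G

open Classical in
/-- the Turán number `α(n,p,r)` -/
noncomputable def al (n p r : ℕ) : ℕ :=
  ((univ : Finset (Finset (Finset (Fin n)))).filter (Free p r)).sup card

/-- total weight of the edges of the copy `Q` -/
noncomputable def wt (r : ℕ) (w : Finset (Fin n) → ℝ) (Q : Finset (Fin n)) : ℝ :=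
  ∑ e ∈ Q.powersetCard r, w e

/-- dual functional of the spread packing problem -/
noncomputable def Phi (p r : ℕ) (κ : ℝ) (H : Finset (Finset (Fin n)))
    (w : Finset (Fin n) → ℝ) : ℝ :=
  ∑ e ∈ H, w e + κ * ∑ Q ∈ copies p r H, max 0 (1 - wt r w Q)

/-- optimum of the dual problem -/
noncomputable def WW (p r : ℕ) (κ : ℝ) (H : Finset (Finset (Fin n))) : ℝ :=
  sInf {x | ∃ w : Finset (Fin n) → ℝ, (∀ e, 0 ≤ w e) ∧ x = Phi p r κ H w}

end ES
end

section

/-!
# Erdős–Sauer: basic facts on copies, free families, weights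
-/

set_option autoImplicit false

open Finset

namespace ES

variable {n : ℕ}

theorem mem_copies {p r : ℕ} {H : Finset (Finset (Fin n))} {Q : Finset (Fin n)} :
    Q ∈ copies p r H ↔ Q.card = p ∧ Q.powersetCard r ⊆ H := by
  simp [copies, mem_powersetCard]

theorem copies_mono {p r : ℕ} {H H' : Finset (Finset (Fin n))} (h : H ⊆ H') :
    copies p r H ⊆ copies p r H' := by
  intro Q hQ
  rw [mem_copies] at *
  exact ⟨hQ.1, hQ.2.trans h⟩

theorem free_iff {p r : ℕ} {G : Finset (Finset (Fin n))} :
    Free p r G ↔ (∀ e ∈ G, e.card = r) ∧ copies p r G = ∅ := by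
  unfold Free
  refine and_congr_right fun _ => ?_
  rw [Finset.eq_empty_iff_forall_notMem]
  refine forall_congr' fun Q => ?_
  rw [mem_copies]
  tauto

theorem card_le_al {p r : ℕ} {G : Finset (Finset (Fin n))} (hG : Free p r G) :
    G.card ≤ al n p r := by
  classical
  unfold al
  exact Finset.le_sup (f := card) (by simp [hG])

theorem exists_al {p r : ℕ} (hrp : r ≤ p) :
    ∃ G : Finset (Finset (Fin n)), Free p r G ∧ G.card = al n p r := by
  classical
  have h0 : Free p r (∅ : Finset (Finset (Fin n))) := by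
    refine ⟨by simp, fun S hS h => ?_⟩
    have : (S.powersetCard r).Nonempty := powersetCard_nonempty.2 (hS ▸ hrp)
    rw [subset_empty] at h
    rw [h] at this
    exact this.ne_empty rfl
  obtain ⟨G, hG, h⟩ := Finset.exists_mem_eq_sup
    ((univ : Finset (Finset (Finset (Fin n)))).filter (Free p r)) ⟨∅, by simp [h0]⟩ card
  refine ⟨G, by simpa using hG, ?_⟩
  unfold al
  rw [h]

theorem wt_nonneg {r : ℕ} {w : Finset (Fin n) → ℝ} (hw : ∀ e, 0 ≤ w e) (Q : Finset (Fin n)) :
    0 ≤ wt r w Q := sum_nonneg fun e _ => hw e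

theorem card_le_pow {r : ℕ} {H : Finset (Finset (Fin n))} (hH : ∀ e ∈ H, e.card = r) :
    (H.card : ℝ) ≤ (n : ℝ) ^ r := by
  have h1 : H ⊆ univ.powersetCard r := by
    intro e he
    rw [mem_powersetCard]
    exact ⟨subset_univ _, hH e he⟩
  have h2 := card_le_card h1
  rw [card_powersetCard, card_univ, Fintype.card_fin] at h2
  have h3 : n.choose r ≤ n ^ r := Nat.choose_le_pow n r
  exact_mod_cast h2.trans h3

end ES
end
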