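import Pool.Agent.Lib.MP_1f562f_co.Basic

/-!
# Erdős–Sauer: the dual functional, elementary inequalities
-/

set_option autoImplicit false

open Finset

namespace ES

variable {n : ℕ}

/-- restricting to a subgraph: `copies (H \ X) ⊆ copies H` and the penalties are nonnegative -/
theorem Phi_sdiff {p r : ℕ} {κ : ℝ} (hκ : 0 ≤ κ) {H X : Finset (Finset (Fin n))} (hX : X ⊆ H)
    (w : Finset (Fin n) → ℝ) :
    Phi p r κ (H \ X) w + ∑ e ∈ X, w e ≤ Phi p r κ H w := by
  classical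
  unfold Phi
  have h1 : ∑ e ∈ H \ X, w e + ∑ e ∈ X, w e = ∑ e ∈ H, w e := sum_sdiff hX
  have h2 : ∑ Q ∈ copies p r (H \ X), max 0 (1 - wt r w Q) ≤
      ∑ Q ∈ copies p r H, max 0 (1 - wt r w Q) :=
    sum_le_sum_of_subset_of_nonneg (copies_mono sdiff_subset) fun Q _ _ => le_max_left _ _
  have h3 := mul_le_mul_of_nonneg_left h2 hκ
  linarith

/-- few copies have weight below `1 - η` (each such copy has penalty at least `η`) -/
theorem exc_bound {p r : ℕ} {κ η : ℝ} (hκ : 0 ≤ κ) (hη : 0 ≤ η) (H : Finset (Finset (Fin n)))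
    {w : Finset (Fin n) → ℝ} (hw : ∀ e, 0 ≤ w e) :
    κ * η * ((copies p r H).filter (fun Q => wt r w Q < 1 - η)).card ≤ Phi p r κ H w := by
  classical
  unfold Phi
  have h1 : η * ((copies p r H).filter (fun Q => wt r w Q < 1 - η)).card ≤
      ∑ Q ∈ (copies p r H).filter (fun Q => wt r w Q < 1 - η), max 0 (1 - wt r w Q) := by
    rw [mul_comm, ← nsmul_eq_mul]
    refine card_nsmul_le_sum _ _ _ fun Q hQ => ?_
    rw [mem_filter] at hQ
    exact le_trans (by linarith) (le_max_right _ _)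
  have h2 : ∑ Q ∈ (copies p r H).filter (fun Q => wt r w Q < 1 - η), max 0 (1 - wt r w Q) ≤
      ∑ Q ∈ copies p r H, max 0 (1 - wt r w Q) :=
    sum_le_sum_of_subset_of_nonneg (filter_subset _ _) fun Q _ _ => le_max_left _ _
  have h3 := mul_le_mul_of_nonneg_left (h1.trans h2) hκ
  have h4 : 0 ≤ ∑ e ∈ H, w e := sum_nonneg fun e _ => hw e
  rw [mul_assoc]
  linarith

/-- Markov: the number of edges of weight at least `c` -/
theorem markov {p r : ℕ} {κ c : ℝ} (hκ : 0 ≤ κ) (H : Finset (Finset (Fin n)))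
    {w : Finset (Fin n) → ℝ} (hw : ∀ e, 0 ≤ w e) :
    c * (H.filter (fun e => c ≤ w e)).card ≤ Phi p r κ H w := by
  classical
  unfold Phi
  have h1 : c * (H.filter (fun e => c ≤ w e)).card ≤ ∑ e ∈ H.filter (fun e => c ≤ w e), w e := by
    rw [mul_comm, ← nsmul_eq_mul]
    refine card_nsmul_le_sum _ _ _ fun e he => ?_
    rw [mem_filter] at he
    exact he.2
  have h2 : ∑ e ∈ H.filter (fun e => c ≤ w e), w e ≤ ∑ e ∈ H, w e :=
    sum_le_sum_of_subset_of_nonneg (filter_subset _ _) fun e _ _ => hw e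
  have h3 : 0 ≤ ∑ Q ∈ copies p r H, max 0 (1 - wt r w Q) := sum_nonneg fun Q _ => le_max_left _ _
  have h4 := mul_nonneg hκ h3
  linarith

end ES
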