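import Pool.Agent.Lib.MP_1f562f_co.Dual1

/-!
# Erdős–Sauer: support bound for nearly optimal dual solutions
-/

set_option autoImplicit false

open Finset

namespace ES

variable {n : ℕ}

/-- support bound: if `w` is `ξ`-nearly optimal, then the number of edges of weight at least `c` is at
most `k Φ(w) + ξ / c`.

Proof.  Let `k = C(p,r)`, `E = {e ∈ H : c ≤ w e}` and `w' e = (1 + c k) w e - c [e ∈ E]`.  Then `w' ≥ 0`
(on `E` we have `w e ≥ c`, off `E` clear).  For a copy `Q ∈ copies H`: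
`wt w' Q = (1 + c k) wt w Q - c |E ∩ powersetCard r Q| ≥ (1 + c k) wt w Q - c k`, so
`1 - wt w' Q ≤ (1 + c k) (1 - wt w Q)` and `max 0 (1 - wt w' Q) ≤ (1 + c k) max 0 (1 - wt w Q)`.
Hence `Φ(w') ≤ (1 + c k) Φ(w) - c |E|`.  As `Φ(w') ≥ WW ≥ Φ(w) - ξ`, we get
`c |E| ≤ c k Φ(w) + ξ`. -/
theorem supp_bound {p r : ℕ} {κ c ξ : ℝ} (hκ : 0 ≤ κ) (hc : 0 ≤ c) (H : Finset (Finset (Fin n)))
    {w : Finset (Fin n) → ℝ} (hw : ∀ e, 0 ≤ w e) (hnear : Phi p r κ H w ≤ WW p r κ H + ξ) :
    c * (H.filter (fun e => c ≤ w e)).card ≤ c * (p.choose r) * Phi p r κ H w + ξ := by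
  classical
  obtain ⟨k, hk⟩ : ∃ k : ℝ, k = (p.choose r : ℝ) := ⟨_, rfl⟩
  have hk0 : 0 ≤ k := by rw [hk]; positivity
  rw [← hk]
  obtain ⟨E, hE⟩ : ∃ E, E = H.filter (fun e => c ≤ w e) := ⟨_, rfl⟩
  rw [← hE]
  have hEH : E ⊆ H := by rw [hE]; exact filter_subset _ _
  have hck : 0 ≤ c * k := mul_nonneg hc hk0
  let w' : Finset (Fin n) → ℝ := fun e => (1 + c * k) * w e - if e ∈ E then c else 0
  have hw' : ∀ e, 0 ≤ w' e := by
    intro e
    have h1 : 0 ≤ c * k * w e := mul_nonneg hck (hw e)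
    have h2 := hw e
    by_cases he : e ∈ E
    · have h3 : c ≤ w e := by
        rw [hE, mem_filter] at he
        exact he.2
      simp only [w', if_pos he]
      linarith
    · simp only [w', if_neg he]
      linarith
  have hsum : ∑ e ∈ H, w' e = (1 + c * k) * ∑ e ∈ H, w e - c * E.card := by
    simp only [w', sum_sub_distrib, ← mul_sum]
    congr 1
    rw [← sum_filter, filter_mem_eq_inter, inter_eq_right.2 hEH, sum_const, nsmul_eq_mul, mul_comm]
  have hwt : ∀ Q ∈ copies p r H, max 0 (1 - wt r w' Q) ≤ (1 + c * k) * max 0 (1 - wt r w Q) := by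
    intro Q hQ
    rw [mem_copies] at hQ
    have h1 : (1 + c * k) * wt r w Q - c * k ≤ wt r w' Q := by
      unfold wt
      simp only [w', sum_sub_distrib, ← mul_sum]
      have h2 : ∑ e ∈ Q.powersetCard r, (if e ∈ E then c else 0) ≤ c * k := by
        have h3 : ∑ e ∈ Q.powersetCard r, (if e ∈ E then c else 0) ≤ (Q.powersetCard r).card • c := by
          refine sum_le_card_nsmul _ _ _ fun e _ => ?_
          by_cases he : e ∈ E
          · rw [if_pos he]
          · rw [if_neg he]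
            exact hc
        rw [card_powersetCard, hQ.1, nsmul_eq_mul, ← hk, mul_comm] at h3
        exact h3
      linarith
    refine max_le (mul_nonneg (by linarith) (le_max_left _ _)) ?_
    have h2 : 1 - wt r w' Q ≤ (1 + c * k) * (1 - wt r w Q) := by linarith
    exact h2.trans (mul_le_mul_of_nonneg_left (le_max_right _ _) (by linarith))
  have hPhi : Phi p r κ H w' ≤ (1 + c * k) * Phi p r κ H w - c * E.card := by
    unfold Phi
    rw [hsum]
    have h1 : ∑ Q ∈ copies p r H, max 0 (1 - wt r w' Q) ≤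
        (1 + c * k) * ∑ Q ∈ copies p r H, max 0 (1 - wt r w Q) := by
      rw [mul_sum]
      exact sum_le_sum hwt
    have h2 := mul_le_mul_of_nonneg_left h1 hκ
    linarith
  have hW : WW p r κ H ≤ Phi p r κ H w' := WW_le hκ H hw'
  linarith

end ES
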