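import Pool.Agent.Lib.MP_1f562f_co.Basic

/-!
# Erdős–Sauer: a dense `K_{r+1}^r`-free subgraph
-/

set_option autoImplicit false

open Finset

namespace ES

variable {n : ℕ}

private theorem pat1_bern (k : ℕ) : (k + 1) ^ k ≤ (k + 1) * k ^ k := by
  rcases Nat.eq_zero_or_pos k with rfl | hk
  · simp
  have hk1 : (0 : ℝ) < (k : ℝ) + 1 := by positivity
  have h := one_add_mul_le_pow (a := -(1 / ((k : ℝ) + 1))) (by
    have : 1 / ((k : ℝ) + 1) ≤ 1 := by
      rw [div_le_one hk1]; have : (0 : ℝ) ≤ k := Nat.cast_nonneg k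
      linarith
    linarith) k
  have e1 : 1 + (k : ℝ) * -(1 / ((k : ℝ) + 1)) = 1 / ((k : ℝ) + 1) := by
    field_simp
    ring
  have e2 : 1 + -(1 / ((k : ℝ) + 1)) = (k : ℝ) / ((k : ℝ) + 1) := by
    field_simp
    ring
  rw [e1, e2, div_pow, div_le_div_iff₀ hk1 (by positivity)] at h
  have h' : (((k + 1) ^ k : ℕ) : ℝ) ≤ (((k + 1) * k ^ k : ℕ) : ℝ) := by
    push_cast
    linarith
  exact_mod_cast h'

private theorem pat1_count {r : ℕ} (hr : 2 ≤ r) (z : Fin r) (e : Finset (Fin n)) (he : e.card = r) :
    r ^ n ≤ r * ((univ : Finset (Fin n → Fin r)).filter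
      (fun c => (e.filter (fun v => c v = z)).card = 1)).card := by
  classical
  let A : Fin n → Finset (Fin n → Fin r) := fun v =>
    Fintype.piFinset (fun u => if u = v then {z} else if u ∈ e then univ.erase z else univ)
  have hA : ∀ v ∈ e, (A v).card = (r - 1) ^ (r - 1) * r ^ (n - r) := by
    intro v hv
    have h1 : (A v).card = ∏ u : Fin n, (if u = v then 1 else if u ∈ e then r - 1 else r) := by
      simp only [A]
      rw [Fintype.card_piFinset]
      refine prod_congr rfl fun u _ => ?_
      split_ifs
      · simp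
      · rw [card_erase_of_mem (mem_univ _)]; simp
      · simp
    rw [h1]
    have h2 : ∏ u : Fin n, (if u = v then 1 else if u ∈ e then r - 1 else r) =
        (∏ u ∈ e.erase v, (r - 1)) * ∏ u ∈ univ \ e, r := by
      rw [← prod_sdiff (subset_univ e), mul_comm]
      congr 1
      · rw [← mul_prod_erase e _ hv]
        simp only [if_true, one_mul]
        refine prod_congr rfl fun u hu => ?_
        rw [mem_erase] at hu
        rw [if_neg hu.1, if_pos hu.2]
      · refine prod_congr rfl fun u hu => ?_
        rw [mem_sdiff] at hu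
        rw [if_neg (by rintro rfl; exact hu.2 hv), if_neg hu.2]
    rw [h2, prod_const, prod_const, card_erase_of_mem hv, he, card_sdiff_of_subset (subset_univ _), he]
    simp
  have hd : ∀ v ∈ e, ∀ w ∈ e, v ≠ w → Disjoint (A v) (A w) := by
    intro v hv w hw hvw
    rw [Finset.disjoint_left]
    intro c h1 h2
    simp only [A, Fintype.mem_piFinset] at h1 h2
    have a1 := h1 v
    have a2 := h2 v
    simp only [if_true, mem_singleton] at a1
    rw [if_neg hvw, if_pos hv, mem_erase] at a2
    exact a2.1 a1
  have hsub : e.biUnion A ⊆ (univ : Finset (Fin n → Fin r)).filter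
      (fun c => (e.filter (fun v => c v = z)).card = 1) := by
    intro c hc
    rw [mem_biUnion] at hc
    obtain ⟨v, hv, hc⟩ := hc
    simp only [A, Fintype.mem_piFinset] at hc
    simp only [mem_filter, mem_univ, true_and]
    rw [card_eq_one]
    refine ⟨v, ?_⟩
    ext u
    simp only [mem_filter, mem_singleton]
    constructor
    · rintro ⟨hu, hz⟩
      by_contra hne
      have := hc u
      rw [if_neg hne, if_pos hu, mem_erase] at this
      exact this.1 hz
    · rintro rfl
      have := hc u
      simp only [if_true, mem_singleton] at this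
      exact ⟨hv, this⟩
  have hcard : (e.biUnion A).card = r * ((r - 1) ^ (r - 1) * r ^ (n - r)) := by
    rw [card_biUnion hd, sum_congr rfl hA, sum_const, he, smul_eq_mul]
  have hle := card_le_card hsub
  rw [hcard] at hle
  have hrn : r ≤ n := by
    rw [← he]
    simpa using card_le_univ e
  obtain ⟨k, rfl⟩ : ∃ k, r = k + 1 := ⟨r - 1, by omega⟩
  have hb := pat1_bern k
  simp only [Nat.add_sub_cancel] at hle
  calc (k + 1) ^ n = (k + 1) ^ (k + 1) * (k + 1) ^ (n - (k + 1)) := by
        rw [← pow_add]; congr 1; omega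
    _ = (k + 1) * (k + 1) ^ k * (k + 1) ^ (n - (k + 1)) := by rw [pow_succ]; ring
    _ ≤ (k + 1) * ((k + 1) * k ^ k) * (k + 1) ^ (n - (k + 1)) := by gcongr
    _ = (k + 1) * ((k + 1) * (k ^ k * (k + 1) ^ (n - (k + 1)))) := by ring
    _ ≤ _ := Nat.mul_le_mul_left _ hle

/-- Every `r`-graph `E` contains a subgraph `R` with at least `|E| / r` edges and without `K_{r+1}^r`.

Proof.  For `c : Fin n → Fin r` let `R_c` be the set of the `e ∈ E` with exactly one vertex `v` with `c v = 0`.
`R_c` contains no `K_{r+1}^r`: let `|S| = r+1 ≥ 3` and suppose all `S \ {v}` have exactly one vertex of color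
`0`.  If `S` has at least two vertices of color `0`: if there is a vertex `v ∈ S` with color `≠ 0`, then `S \ {v}`
has `≥ 2`; otherwise all `r + 1 ≥ 3` vertices have color `0` and `S \ {v}` has `≥ 2`.  If `S` has one such
vertex `v`, then `S \ {v}` has none; if none, then none.
Counting: for `e` with `|e| = r` the number of `c` with exactly one vertex of color `0` in `e` is
`r (r-1)^(r-1) r^(n-r)` (choose the vertex; a product count, `Fintype.piFinset`), and
`r · r (r-1)^(r-1) r^(n-r) ≥ r^n` by Bernoulli: `r² (r-1)^(r-1) ≥ r^r`, as `(1 - 1/r)^(r-1) ≥ 1 - (r-1)/r = 1/r`.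
Averaging over the `r^n` colorings `c` gives one with `r |R_c| ≥ |E|`. -/
theorem pattern_one {r : ℕ} (hr : 2 ≤ r) (E : Finset (Finset (Fin n)))
    (hE : ∀ e ∈ E, e.card = r) :
    ∃ R ⊆ E, (∀ S : Finset (Fin n), S.card = r + 1 → ¬ S.powersetCard r ⊆ R) ∧
      E.card ≤ r * R.card := by
  classical
  let z : Fin r := ⟨0, by omega⟩
  have havg : ∃ c ∈ (univ : Finset (Fin n → Fin r)),
      E.card ≤ r * (E.filter (fun e => (e.filter (fun v => c v = z)).card = 1)).card := by
    refine Finset.exists_le_of_sum_le ⟨fun _ => z, mem_univ _⟩ ?_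
    rw [sum_const, smul_eq_mul, ← mul_sum]
    have h1 : ∑ c : Fin n → Fin r, (E.filter (fun e => (e.filter (fun v => c v = z)).card = 1)).card =
        ∑ e ∈ E, ((univ : Finset (Fin n → Fin r)).filter
          (fun c => (e.filter (fun v => c v = z)).card = 1)).card := by
      simp only [card_filter]
      rw [sum_comm]
    rw [h1, mul_sum]
    have h2 : (univ : Finset (Fin n → Fin r)).card * E.card = ∑ e ∈ E, r ^ n := by
      rw [sum_const, smul_eq_mul, mul_comm]
      simp
    rw [h2]
    exact sum_le_sum fun e he => pat1_count hr z e (hE e he)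
  obtain ⟨c, -, hc⟩ := havg
  refine ⟨_, filter_subset _ _, ?_, hc⟩
  intro S hS hsub
  have key : ∀ v ∈ S, ((S.filter (fun v => c v = z)).erase v).card = 1 := by
    intro v hv
    have hm : S.erase v ∈ S.powersetCard r := by
      rw [mem_powersetCard]
      exact ⟨erase_subset _ _, by rw [card_erase_of_mem hv, hS]; rfl⟩
    have := (mem_filter.1 (hsub hm)).2
    have e1 : (S.erase v).filter (fun v => c v = z) = (S.filter (fun v => c v = z)).erase v := by
      ext u
      simp only [mem_filter, mem_erase]
      tauto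
    rwa [e1] at this
  set Z := S.filter (fun v => c v = z) with hZ
  have hZS : Z ⊆ S := filter_subset _ _
  rcases Z.eq_empty_or_nonempty with h0 | ⟨v, hv⟩
  · have hne : S.Nonempty := by rw [← card_pos, hS]; omega
    obtain ⟨v, hv⟩ := hne
    have := key v hv
    rw [h0] at this
    simp at this
  · have h1 := key v (hZS hv)
    rw [card_erase_of_mem hv] at h1
    have hlt : Z.card < S.card := by omega
    obtain ⟨w, hw, hwZ⟩ := exists_mem_notMem_of_card_lt_card hlt
    have h2 := key w hw
    rw [erase_eq_of_notMem hwZ] at h2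
    omega

end ES
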