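import Pool.Agent.Lib.MP_1f562f_co.Dual1
import Pool.Agent.Lib.MP_1f562f_co.Dual2
import Pool.Agent.Lib.MP_1f562f_co.Dual3
import Pool.Agent.Lib.MP_1f562f_co.Pat1

/-!
# Erdős–Sauer: the cover lemma
-/

set_option autoImplicit false

open Finset

namespace ES

variable {n : ℕ}

/-- From the support: let all copies `Q` in a family `C` have all their edges in `E`; then there is `D ⊆ E` with
`r |D| ≤ (r-1) |E|` meeting all of them (`D = E \ R`, `R` from `pattern_one`; a copy `Q` has an `(r+1)`-subset `S`,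
one of whose `r`-subsets is not in `R`, hence in `D`). -/
theorem pattern_cover {p r : ℕ} (hr : 2 ≤ r) (hrp : r < p) (E : Finset (Finset (Fin n)))
    (hE : ∀ e ∈ E, e.card = r) :
    ∃ D ⊆ E, r * D.card ≤ (r - 1) * E.card ∧
      ∀ Q : Finset (Fin n), Q.card = p → Q.powersetCard r ⊆ E → ∃ e ∈ D, e ∈ Q.powersetCard r := by
  classical
  obtain ⟨R, hRE, hfree, hcard⟩ := pattern_one hr E hE
  refine ⟨E \ R, sdiff_subset, ?_, ?_⟩
  · have h1 := card_sdiff_add_card_eq_card hRE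
    obtain ⟨t, rfl⟩ : ∃ t, r = t + 1 := ⟨r - 1, by omega⟩
    have h2 : (t + 1) * (E \ R).card + (t + 1) * R.card = (t + 1) * E.card := by
      rw [← mul_add, h1]
    have h3 : (t + 1 - 1) * E.card + E.card = (t + 1) * E.card := by
      rw [Nat.add_sub_cancel]
      ring
    omega
  · intro Q hQ hQE
    obtain ⟨S, hSQ, hS⟩ := exists_subset_card_eq (show r + 1 ≤ Q.card by omega)
    have h1 := hfree S hS
    rw [not_subset] at h1
    obtain ⟨e, he, heR⟩ := h1
    have h2 : e ∈ Q.powersetCard r := powersetCard_mono hSQ he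
    exact ⟨e, mem_sdiff.2 ⟨hQE h2, heR⟩, h2⟩

/-- The cover lemma.

Proof.  Let `k = C(p,r) ≥ r + 1 ≥ 3`, `κ = K / n^(p-r)`, `W = WW p r κ`, `lam = (k-1)(1+τ)`, `η = c = τ/8`,
`θ = (1 - τ/4)/(k-1)`, `ξ = τ/(4 lam)`.
Choose `H' ⊆ H` minimizing `J(H') = |H \ H'| + lam W(H')` (`Finset.exists_min_image` on `H.powerset`); so
`J(H') ≤ J(H) = lam W(H)`.  Let `w ≥ 0` with `Phi H' w ≤ W(H') + ξ` (`exists_near`).
Claim: `w e < θ` for all `e ∈ H'`.  Let `X = {e ∈ H' : θ ≤ w e}`.  By minimality for `H' \ X` (note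
`|H \ (H' \ X)| = |H \ H'| + |X|`): `lam W(H') ≤ |X| + lam W(H' \ X)`; by `Phi_sdiff` and `WW_le`
`W(H' \ X) ≤ Phi (H' \ X) w ≤ Phi H' w - θ |X| ≤ W(H') + ξ - θ |X|`.  So `(lam θ - 1)|X| ≤ lam ξ = τ/4`, and
`lam θ = (1+τ)(1-τ/4) ≥ 1 + τ/2`, so `|X| ≤ 1/2`, `X = ∅`.
Let `E = {e ∈ H' : c ≤ w e}`; by `supp_bound`, `|E| ≤ k (W(H')+ξ) + ξ/c ≤ k W(H') + 3/2`
(`k ξ ≤ 1/2` as `k/(k-1) ≤ 3/2`, `ξ/c = 2/lam ≤ 1`).  `D₁ ⊆ E` from `pattern_cover`;
`D = (H \ H') ∪ D₁`.  `|D₁| ≤ (1-1/r)|E| ≤ (k-1) W(H') + 3/2` since `(1-1/r) k ≤ k - 1`.  So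
`|D| ≤ J(H') + 2 ≤ lam W(H) + 2`.
A copy `Q` of `H \ D` is a copy of `H'`; if `wt w Q ≥ 1 - η` then every edge `e` of `Q` has
`w e ≥ 1 - η - (k-1) θ = τ/8 = c` (the other `k-1` edges have weight `< θ`), so all edges are in `E` and one of them is
in `D₁`, a contradiction.  So `wt w Q < 1 - η` and by `exc_bound` the number of copies of `H \ D` is at most
`(W(H')+ξ)/(κ η) ≤ 2 n^r · 8 n^(p-r) / (K τ)` (`W(H') ≤ |H'| ≤ n^r`, `ξ ≤ 1 ≤ n^r`). -/
theorem cover {p r : ℕ} (hr : 2 ≤ r) (hrp : r < p) {K τ : ℝ} (hK : 0 < K) (hτ : 0 < τ)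
    (hτ1 : τ ≤ 1) (hn : 1 ≤ n) (H : Finset (Finset (Fin n))) (hH : ∀ e ∈ H, e.card = r) :
    ∃ D ⊆ H, (D.card : ℝ) ≤ ((p.choose r : ℝ) - 1) * (1 + τ) * WW p r (K / (n : ℝ) ^ (p - r)) H + 2 ∧
      ((copies p r (H \ D)).card : ℝ) ≤ 16 / (K * τ) * (n : ℝ) ^ p := by
  classical
  have hkr : r + 1 ≤ p.choose r := by
    calc r + 1 = (r + 1).choose r := (Nat.choose_succ_self_right r).symm
      _ ≤ p.choose r := Nat.choose_le_choose r hrp
  obtain ⟨k, hk⟩ : ∃ k : ℝ, k = (p.choose r : ℝ) := ⟨_, rfl⟩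
  have hkr' : (r : ℝ) + 1 ≤ k := by rw [hk]; exact_mod_cast hkr
  have hr2 : (2 : ℝ) ≤ r := by exact_mod_cast hr
  have hk3 : 3 ≤ k := by linarith
  have hn0 : (0 : ℝ) < n := by exact_mod_cast hn
  have hn1 : (1 : ℝ) ≤ n := by exact_mod_cast hn
  obtain ⟨κ, hκdef⟩ : ∃ κ : ℝ, κ = K / (n : ℝ) ^ (p - r) := ⟨_, rfl⟩
  have hκ : 0 < κ := by rw [hκdef]; positivity
  rw [← hκdef, ← hk]
  obtain ⟨lam, hlam⟩ : ∃ lam : ℝ, lam = (k - 1) * (1 + τ) := ⟨_, rfl⟩
  have hlamk : k - 1 ≤ lam := by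
    rw [hlam]
    exact le_mul_of_one_le_right (by linarith) (by linarith)
  have hlam2 : 2 ≤ lam := by linarith
  obtain ⟨θ, hθ⟩ : ∃ θ : ℝ, θ = (1 - τ / 4) / (k - 1) := ⟨_, rfl⟩
  have hθk : (k - 1) * θ = 1 - τ / 4 := by
    rw [hθ]
    exact mul_div_cancel₀ _ (by linarith)
  obtain ⟨ξ, hξdef⟩ : ∃ ξ : ℝ, ξ = τ / (4 * lam) := ⟨_, rfl⟩
  have hξ : 0 < ξ := by rw [hξdef]; positivity
  have hlamξ : lam * ξ = τ / 4 := by
    rw [hξdef]
    field_simp
  have hlamθ : 1 + τ / 2 ≤ lam * θ := by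
    have h1 : lam * θ = (1 + τ) * (1 - τ / 4) := by
      rw [hlam, ← hθk]
      ring
    rw [h1]
    have h2 : 0 ≤ τ * (1 - τ) := mul_nonneg hτ.le (by linarith)
    linarith
  -- the minimizer
  obtain ⟨H', hH'mem, hmin⟩ := Finset.exists_min_image H.powerset
    (fun G => ((H \ G).card : ℝ) + lam * WW p r κ G) ⟨H, by simp⟩
  rw [mem_powerset] at hH'mem
  have hJ : ((H \ H').card : ℝ) + lam * WW p r κ H' ≤ lam * WW p r κ H := by
    have := hmin H (by simp)
    simpa using this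
  have hW0 : 0 ≤ WW p r κ H' := WW_nonneg hκ.le H'
  obtain ⟨w, hw, hnear⟩ := exists_near (p := p) (r := r) (κ := κ) H' hξ
  -- no heavy edge
  have hlight : ∀ e ∈ H', w e < θ := by
    by_contra hcon
    push Not at hcon
    obtain ⟨e0, he0, he0w⟩ := hcon
    have hXsub : H'.filter (fun e => θ ≤ w e) ⊆ H' := filter_subset _ _
    obtain ⟨X, hX⟩ : ∃ X, X = H'.filter (fun e => θ ≤ w e) := ⟨_, rfl⟩
    rw [← hX] at hXsub
    have hX1 : 1 ≤ X.card := by
      rw [Nat.one_le_iff_ne_zero, ← Nat.pos_iff_ne_zero, card_pos]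
      exact ⟨e0, by rw [hX]; exact mem_filter.2 ⟨he0, he0w⟩⟩
    have hm := hmin (H' \ X) (by rw [mem_powerset]; exact sdiff_subset.trans hH'mem)
    have hc : (H \ (H' \ X)).card ≤ (H \ H').card + X.card := by
      refine le_trans (card_le_card ?_) (card_union_le _ _)
      intro e he
      rw [mem_sdiff, mem_sdiff] at he
      rw [mem_union, mem_sdiff]
      tauto
    have hc' : ((H \ (H' \ X)).card : ℝ) ≤ ((H \ H').card : ℝ) + X.card := by exact_mod_cast hc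
    have h1 : WW p r κ (H' \ X) ≤ Phi p r κ (H' \ X) w := WW_le hκ.le _ hw
    have h2 := Phi_sdiff (p := p) (r := r) hκ.le hXsub w
    have h3 : θ * X.card ≤ ∑ e ∈ X, w e := by
      rw [mul_comm, ← nsmul_eq_mul]
      refine card_nsmul_le_sum _ _ _ fun e he => ?_
      rw [hX, mem_filter] at he
      exact he.2
    have h4 : WW p r κ (H' \ X) ≤ WW p r κ H' + ξ - θ * X.card := by linarith
    have h5 : lam * WW p r κ (H' \ X) ≤ lam * (WW p r κ H' + ξ - θ * X.card) :=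
      mul_le_mul_of_nonneg_left h4 (by linarith)
    have h6 : (lam * θ - 1) * X.card ≤ τ / 4 := by
      have hm' : ((H \ H').card : ℝ) + lam * WW p r κ H' ≤
        ((H \ (H' \ X)).card : ℝ) + lam * WW p r κ (H' \ X) := hm
      have e1 : lam * (WW p r κ H' + ξ - θ * X.card) =
        lam * WW p r κ H' + lam * ξ - lam * θ * X.card := by ring
      have e2 : (lam * θ - 1) * (X.card : ℝ) = lam * θ * X.card - X.card := by ring
      linarith
    have h7 : (1 : ℝ) ≤ X.card := by exact_mod_cast hX1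
    have h8 : τ / 2 * 1 ≤ (lam * θ - 1) * X.card :=
      mul_le_mul (by linarith) h7 zero_le_one (by linarith)
    linarith
  -- the support
  obtain ⟨E, hE⟩ : ∃ E, E = H'.filter (fun e => τ / 8 ≤ w e) := ⟨_, rfl⟩
  have hEH' : E ⊆ H' := by rw [hE]; exact filter_subset _ _
  have hs := supp_bound (p := p) (r := r) hκ.le (show (0:ℝ) ≤ τ / 8 by positivity) H' hw hnear
  rw [← hE, ← hk] at hs
  have hEcard : (E.card : ℝ) ≤ k * WW p r κ H' + 3 / 2 := by
    have h1 : τ / 8 * k * Phi p r κ H' w ≤ τ / 8 * k * (WW p r κ H' + ξ) :=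
      mul_le_mul_of_nonneg_left hnear (by positivity)
    have h2 : ξ ≤ τ / 8 := by
      rw [hξdef, div_le_div_iff₀ (by positivity) (by norm_num)]
      exact mul_le_mul_of_nonneg_left (by linarith) hτ.le
    have h3 : k * ξ ≤ 1 / 2 := by
      have h4 : k ≤ 3 / 2 * lam := by linarith
      have h5 : k * ξ ≤ 3 / 2 * lam * ξ := mul_le_mul_of_nonneg_right h4 hξ.le
      have h6 : 3 / 2 * lam * ξ = 3 / 2 * (τ / 4) := by rw [← hlamξ]; ring
      linarith
    have h4 : τ / 8 * (E.card : ℝ) ≤ τ / 8 * (k * WW p r κ H' + 3 / 2) := by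
      have h5 : τ / 8 * k * ξ ≤ τ / 8 * (1 / 2) := by
        have := mul_le_mul_of_nonneg_left h3 (show (0:ℝ) ≤ τ / 8 by positivity)
        linarith
      linarith
    exact le_of_mul_le_mul_left h4 (by positivity)
  obtain ⟨D₁, hD₁E, hD₁card, hD₁⟩ := pattern_cover (p := p) hr hrp E
    (fun e he => hH e (hH'mem (hEH' he)))
  have hD₁c : (D₁.card : ℝ) ≤ (k - 1) * WW p r κ H' + 3 / 2 := by
    have h1 : (r : ℝ) * D₁.card ≤ ((r : ℝ) - 1) * E.card := by
      have h2 : ((r * D₁.card : ℕ) : ℝ) ≤ (((r - 1) * E.card : ℕ) : ℝ) := by exact_mod_cast hD₁card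
      rw [Nat.cast_mul, Nat.cast_mul, Nat.cast_sub (by omega), Nat.cast_one] at h2
      exact h2
    have h2 : ((r : ℝ) - 1) * E.card ≤ ((r : ℝ) - 1) * (k * WW p r κ H' + 3 / 2) :=
      mul_le_mul_of_nonneg_left hEcard (by linarith)
    have h3 : ((r : ℝ) - 1) * (k * WW p r κ H' + 3 / 2) ≤ (r : ℝ) * ((k - 1) * WW p r κ H' + 3 / 2) := by
      have h4 : (r : ℝ) * WW p r κ H' ≤ k * WW p r κ H' := mul_le_mul_of_nonneg_right (by linarith) hW0
      linarith
    exact le_of_mul_le_mul_left (h1.trans (h2.trans h3)) (by linarith)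
  refine ⟨(H \ H') ∪ D₁, union_subset sdiff_subset (hD₁E.trans (hEH'.trans hH'mem)), ?_, ?_⟩
  · have h1 : (((H \ H') ∪ D₁).card : ℝ) ≤ ((H \ H').card : ℝ) + D₁.card := by
      exact_mod_cast card_union_le _ _
    have h2 : (k - 1) * WW p r κ H' ≤ lam * WW p r κ H' := mul_le_mul_of_nonneg_right hlamk hW0
    rw [← hlam]
    linarith
  · have hsub : copies p r (H \ ((H \ H') ∪ D₁)) ⊆
        (copies p r H').filter (fun Q => wt r w Q < 1 - τ / 8) := by
      intro Q hQ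
      rw [mem_copies] at hQ
      obtain ⟨hQp, hQs⟩ := hQ
      have hQ' : Q.powersetCard r ⊆ H' := by
        intro e he
        have h1 := hQs he
        rw [mem_sdiff, mem_union, mem_sdiff] at h1
        by_contra h2
        exact h1.2 (Or.inl ⟨h1.1, h2⟩)
      rw [mem_filter, mem_copies]
      refine ⟨⟨hQp, hQ'⟩, ?_⟩
      by_contra hwt
      push Not at hwt
      have hQE : Q.powersetCard r ⊆ E := by
        intro e he
        rw [hE, mem_filter]
        refine ⟨hQ' he, ?_⟩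
        have h1 : wt r w Q = w e + ∑ e' ∈ (Q.powersetCard r).erase e, w e' :=
          (add_sum_erase _ _ he).symm
        have h2 : ∑ e' ∈ (Q.powersetCard r).erase e, w e' ≤ (k - 1) * θ := by
          have h3 : ∑ e' ∈ (Q.powersetCard r).erase e, w e' ≤ ((Q.powersetCard r).erase e).card • θ :=
            sum_le_card_nsmul _ _ _ fun e' he' => (hlight e' (hQ' (mem_of_mem_erase he'))).le
          have h4 : (((Q.powersetCard r).erase e).card : ℝ) = k - 1 := by
            rw [card_erase_of_mem he, card_powersetCard, hQp, Nat.cast_sub (by omega), hk, Nat.cast_one]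
          rw [nsmul_eq_mul, h4] at h3
          exact h3
        rw [hθk] at h2
        linarith
      obtain ⟨e, heD, he⟩ := hD₁ Q hQp hQE
      have h1 := hQs he
      rw [mem_sdiff, mem_union] at h1
      exact h1.2 (Or.inr heD)
    have hexc := exc_bound (p := p) (r := r) hκ.le (show (0:ℝ) ≤ τ / 8 by positivity) H' hw
    have h1 : ((copies p r (H \ ((H \ H') ∪ D₁))).card : ℝ) ≤
        (((copies p r H').filter (fun Q => wt r w Q < 1 - τ / 8)).card : ℝ) := by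
      exact_mod_cast card_le_card hsub
    have h2 : Phi p r κ H' w ≤ 2 * (n : ℝ) ^ r := by
      have h3 : WW p r κ H' ≤ H'.card := WW_le_card hκ.le hrp.le H'
      have h4 : (H'.card : ℝ) ≤ (n : ℝ) ^ r := card_le_pow fun e he => hH e (hH'mem he)
      have h5 : ξ ≤ 1 := by
        have h7 : 2 * ξ ≤ lam * ξ := mul_le_mul_of_nonneg_right hlam2 hξ.le
        linarith
      have h6 : (1 : ℝ) ≤ (n : ℝ) ^ r := one_le_pow₀ hn1
      linarith
    have h3 : κ * (τ / 8) * ((copies p r (H \ ((H \ H') ∪ D₁))).card : ℝ) ≤ 2 * (n : ℝ) ^ r :=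
      le_trans (mul_le_mul_of_nonneg_left h1 (by positivity)) (hexc.trans h2)
    have h4 : κ * (τ / 8) * (16 / (K * τ) * (n : ℝ) ^ p) = 2 * (n : ℝ) ^ r := by
      have h5 : (n : ℝ) ^ p = (n : ℝ) ^ r * (n : ℝ) ^ (p - r) := by
        rw [← pow_add]
        congr 1
        omega
      rw [h5, hκdef]
      have h6 : (n : ℝ) ^ (p - r) ≠ 0 := by positivity
      generalize (n : ℝ) ^ (p - r) = y at h6 ⊢
      generalize (n : ℝ) ^ r = z
      field_simp
      ring
    rw [← h4] at h3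
    exact le_of_mul_le_mul_left h3 (by positivity)

end ES
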