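import Pool.Agent.Lib.SqCyc.NibDefs

/-!
# Erdős–Sauer: completing a fractional matching by dummy edges
-/

set_option autoImplicit false
set_option linter.unusedSectionVars false
set_option linter.unusedVariables false

open Finset SqCyc

namespace ES

section
variable {α ι : Type} [DecidableEq α] [DecidableEq ι]

/-- vertices: the old ones and `N` new ones -/
def augV (V : Finset α) (N : ℕ) : Finset (α ⊕ Fin N) := V.disjSum univ

/-- edges: the old ones and all pairs (old vertex, `(k-1)`-set of new vertices) -/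
def augI (k : ℕ) (V : Finset α) (I : Finset ι) (N : ℕ) : Finset (ι ⊕ (α × Finset (Fin N))) :=
  I.disjSum (V ×ˢ (univ : Finset (Fin N)).powersetCard (k - 1))

def augE (e : ι → Finset α) (N : ℕ) : ι ⊕ (α × Finset (Fin N)) → Finset (α ⊕ Fin N)
  | Sum.inl i => (e i).map Function.Embedding.inl
  | Sum.inr (v, T) => insert (Sum.inl v) (T.map Function.Embedding.inr)

noncomputable def augW (k : ℕ) (I : Finset ι) (e : ι → Finset α) (w : ι → ℝ) (N : ℕ) :
    ι ⊕ (α × Finset (Fin N)) → ℝ
  | Sum.inl i => w i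
  | Sum.inr (v, _) => (1 - deg I e w v) / (N.choose (k - 1) : ℝ)

/-- double counting: `∑_v deg v = k ∑ w` -/
theorem sum_deg {k : ℕ} {δ : ℝ} {V : Finset α} {I : Finset ι} {e : ι → Finset α} {w : ι → ℝ}
    (h : NibSys k δ V I e w) : defc V I e w = V.card - k * ∑ i ∈ I, w i := by
  unfold defc
  rw [Finset.sum_sub_distrib]
  have h1 : ∑ v ∈ V, deg I e w v = k * ∑ i ∈ I, w i := by
    unfold deg
    simp_rw [Finset.sum_filter]
    rw [Finset.sum_comm, Finset.mul_sum]
    refine Finset.sum_congr rfl fun i hi => ?_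
    rw [← Finset.sum_filter, Finset.sum_const, nsmul_eq_mul]
    have h2 : V.filter (fun v => v ∈ e i) = e i := by
      ext v
      simp only [Finset.mem_filter]
      exact ⟨fun h' => h'.2, fun h' => ⟨h.sub i hi h', h'⟩⟩
    rw [h2, h.card i hi]
  rw [h1]
  simp

/-- number of supersets -/
private theorem card_sup {N j : ℕ} (S : Finset (Fin N)) (hS : S.card ≤ j) :
    (((univ : Finset (Fin N)).powersetCard j).filter (fun T => S ⊆ T)).card =
      (N - S.card).choose (j - S.card) := by
  have h1 : (Sᶜ.powersetCard (j - S.card)).card = (N - S.card).choose (j - S.card) := by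
    rw [Finset.card_powersetCard, Finset.card_compl, Fintype.card_fin]
  rw [← h1]
  refine Finset.card_nbij' (fun T => T \ S) (fun T => T ∪ S) ?_ ?_ ?_ ?_
  · intro T hT
    simp only [Finset.coe_filter, Finset.mem_powersetCard, Set.mem_ofPred_eq] at hT
    simp only [Finset.mem_coe, Finset.mem_powersetCard]
    refine ⟨?_, ?_⟩
    · intro x hx
      rw [Finset.mem_sdiff] at hx
      rw [Finset.mem_compl]
      exact hx.2
    · rw [Finset.card_sdiff_of_subset hT.2, hT.1.2]
  · intro T hT
    simp only [Finset.mem_coe, Finset.mem_powersetCard] at hT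
    simp only [Finset.coe_filter, Finset.mem_powersetCard, Set.mem_ofPred_eq]
    refine ⟨⟨Finset.subset_univ _, ?_⟩, Finset.subset_union_right⟩
    rw [Finset.card_union_of_disjoint, hT.2]
    · omega
    · rw [Finset.disjoint_left]
      intro x hx hxS
      have := hT.1 hx
      rw [Finset.mem_compl] at this
      exact this hxS
  · intro T hT
    simp only [Finset.coe_filter, Finset.mem_powersetCard, Set.mem_ofPred_eq] at hT
    exact Finset.sdiff_union_of_subset hT.2
  · intro T hT
    simp only [Finset.mem_coe, Finset.mem_powersetCard] at hT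
    have hd : Disjoint T S := by
      rw [Finset.disjoint_left]
      intro x hx hxS
      have := hT.1 hx
      rw [Finset.mem_compl] at this
      exact this hxS
    exact Finset.union_sdiff_cancel_right hd

private theorem card_mem {N k : ℕ} (hk : 2 ≤ k) (hN : 1 ≤ N) (x : Fin N) :
    ((((univ : Finset (Fin N)).powersetCard (k - 1)).filter (fun T => x ∈ T)).card : ℝ) * N =
      (N.choose (k - 1) : ℝ) * ((k : ℝ) - 1) := by
  have h1 := card_sup (N := N) (j := k - 1) {x} (by simp; omega)
  have h2 : ((univ : Finset (Fin N)).powersetCard (k - 1)).filter (fun T => ({x} : Finset (Fin N)) ⊆ T) =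
      ((univ : Finset (Fin N)).powersetCard (k - 1)).filter (fun T => x ∈ T) := by
    ext T
    simp
  rw [h2, Finset.card_singleton] at h1
  rw [h1]
  obtain ⟨N', rfl⟩ : ∃ N', N = N' + 1 := ⟨N - 1, by omega⟩
  obtain ⟨k', rfl⟩ : ∃ k', k = k' + 2 := ⟨k - 2, by omega⟩
  have h3 := Nat.add_one_mul_choose_eq N' k'
  have h4 : (((N'.choose k' * (N' + 1) : ℕ)) : ℝ) = ((((N' + 1).choose (k' + 1)) * (k' + 1) : ℕ) : ℝ) := by
    rw [Nat.mul_comm (N'.choose k')]
    exact_mod_cast h3
  push_cast at h4
  have e1 : N' + 1 - 1 = N' := by omega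
  have e2 : k' + 2 - 1 - 1 = k' := by omega
  have e3 : k' + 2 - 1 = k' + 1 := by omega
  rw [e1, e2, e3]
  push_cast
  linarith

private theorem card_mem2 {N k : ℕ} (hk : 2 ≤ k) {x y : Fin N} (hxy : x ≠ y) :
    ((((univ : Finset (Fin N)).powersetCard (k - 1)).filter (fun T => x ∈ T ∧ y ∈ T)).card : ℝ) *
      (N * ((N : ℝ) - 1)) = (N.choose (k - 1) : ℝ) * (((k : ℝ) - 1) * ((k : ℝ) - 2)) := by
  have hN : 2 ≤ N := by
    have h1 := x.2
    have h2 := y.2
    have h3 : (x : ℕ) ≠ y := fun h => hxy (Fin.ext h)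
    omega
  have hS : ({x, y} : Finset (Fin N)).card = 2 := Finset.card_pair hxy
  have h2 : ((univ : Finset (Fin N)).powersetCard (k - 1)).filter (fun T => ({x, y} : Finset (Fin N)) ⊆ T) =
      ((univ : Finset (Fin N)).powersetCard (k - 1)).filter (fun T => x ∈ T ∧ y ∈ T) := by
    ext T
    simp [Finset.insert_subset_iff]
  rcases Nat.lt_or_ge k 3 with hk3 | hk3
  · have hk2 : k = 2 := by omega
    subst hk2
    have h3 : ((univ : Finset (Fin N)).powersetCard (2 - 1)).filter (fun T => x ∈ T ∧ y ∈ T) = ∅ := by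
      rw [Finset.filter_eq_empty_iff]
      intro T hT h4
      rw [Finset.mem_powersetCard] at hT
      have h5 : ({x, y} : Finset (Fin N)) ⊆ T := by
        simp [Finset.insert_subset_iff, h4.1, h4.2]
      have := Finset.card_le_card h5
      omega
    rw [h3]
    norm_num
  · have h1 := card_sup (N := N) (j := k - 1) {x, y} (by rw [hS]; omega)
    rw [h2, hS] at h1
    rw [h1]
    obtain ⟨N', rfl⟩ : ∃ N', N = N' + 2 := ⟨N - 2, by omega⟩
    obtain ⟨k', rfl⟩ : ∃ k', k = k' + 3 := ⟨k - 3, by omega⟩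
    have e1 : N' + 2 - 2 = N' := by omega
    have e2 : k' + 3 - 1 - 2 = k' := by omega
    have e3 : k' + 3 - 1 = k' + 2 := by omega
    rw [e1, e2, e3]
    have h3 := Nat.add_one_mul_choose_eq N' k'
    have h4 := Nat.add_one_mul_choose_eq (N' + 1) (k' + 1)
    have h5 : ((N' : ℝ) + 1) * (N'.choose k' : ℝ) = ((N' + 1).choose (k' + 1) : ℝ) * ((k' : ℝ) + 1) := by
      exact_mod_cast h3
    have h6 : ((N' : ℝ) + 2) * ((N' + 1).choose (k' + 1) : ℝ) =
        ((N' + 2).choose (k' + 2) : ℝ) * ((k' : ℝ) + 2) := by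
      exact_mod_cast h4
    push_cast
    calc (N'.choose k' : ℝ) * (((N' : ℝ) + 2) * ((N' : ℝ) + 2 - 1))
        = ((N' : ℝ) + 2) * (((N' : ℝ) + 1) * (N'.choose k' : ℝ)) := by ring
      _ = (((N' : ℝ) + 2) * ((N' + 1).choose (k' + 1) : ℝ)) * ((k' : ℝ) + 1) := by rw [h5]; ring
      _ = _ := by rw [h6]; ring

private theorem sum_aug {k : ℕ} {V : Finset α} {I : Finset ι} {e : ι → Finset α} {w : ι → ℝ} {N : ℕ}
    (p : ι ⊕ (α × Finset (Fin N)) → Prop) [DecidablePred p] :
    ∑ j ∈ (augI k V I N).filter p, augW k I e w N j =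
      ∑ i ∈ I.filter (fun i => p (Sum.inl i)), w i +
      ∑ v ∈ V, ((((univ : Finset (Fin N)).powersetCard (k - 1)).filter
        (fun T => p (Sum.inr (v, T)))).card : ℝ) * ((1 - deg I e w v) / (N.choose (k - 1) : ℝ)) := by
  rw [Finset.sum_filter, augI, Finset.sum_disjSum, Finset.sum_filter, Finset.sum_product]
  congr 1
  refine Finset.sum_congr rfl fun v _ => ?_
  rw [← Finset.sum_filter]
  simp only [augW]
  rw [Finset.sum_const, nsmul_eq_mul]

private theorem deg_inl {k : ℕ} {V : Finset α} {I : Finset ι} {e : ι → Finset α} {w : ι → ℝ} {N : ℕ}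
    (hN : k - 1 ≤ N) {v : α} (hv : v ∈ V) :
    deg (augI k V I N) (augE e N) (augW k I e w N) (Sum.inl v) = 1 := by
  have hC : (0:ℝ) < (N.choose (k - 1) : ℝ) := by exact_mod_cast Nat.choose_pos hN
  unfold SqCyc.deg
  rw [sum_aug]
  have h1 : I.filter (fun i => (Sum.inl v : α ⊕ Fin N) ∈ augE e N (Sum.inl i)) =
      I.filter (fun i => v ∈ e i) := by
    refine Finset.filter_congr fun i _ => ?_
    simp [augE]
  rw [h1]
  have h2 : ∀ u ∈ V, ((((univ : Finset (Fin N)).powersetCard (k - 1)).filter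
        (fun T => (Sum.inl v : α ⊕ Fin N) ∈ augE e N (Sum.inr (u, T)))).card : ℝ) *
        ((1 - deg I e w u) / (N.choose (k - 1) : ℝ)) = if u = v then (1 - deg I e w u) else 0 := by
    intro u _
    by_cases huv : u = v
    · subst huv
      rw [if_pos rfl]
      have h3 : ((univ : Finset (Fin N)).powersetCard (k - 1)).filter
        (fun T => (Sum.inl u : α ⊕ Fin N) ∈ augE e N (Sum.inr (u, T))) =
          (univ : Finset (Fin N)).powersetCard (k - 1) := by
        rw [Finset.filter_eq_self]
        intro T _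
        simp [augE]
      rw [h3, Finset.card_powersetCard, Finset.card_univ, Fintype.card_fin]
      field_simp
    · rw [if_neg huv]
      have h3 : ((univ : Finset (Fin N)).powersetCard (k - 1)).filter
        (fun T => (Sum.inl v : α ⊕ Fin N) ∈ augE e N (Sum.inr (u, T))) = ∅ := by
        rw [Finset.filter_eq_empty_iff]
        intro T _
        simp [augE, Ne.symm huv]
      rw [h3]
      simp
  rw [Finset.sum_congr rfl h2, Finset.sum_ite_eq' V v, if_pos hv]
  unfold SqCyc.deg
  ring

private theorem deg_inr {k : ℕ} (hk : 2 ≤ k) {V : Finset α} {I : Finset ι} {e : ι → Finset α}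
    {w : ι → ℝ} {N : ℕ} (hN : k - 1 ≤ N) (x : Fin N) :
    deg (augI k V I N) (augE e N) (augW k I e w N) (Sum.inr x) * N = defc V I e w * ((k : ℝ) - 1) := by
  have hC : (0:ℝ) < (N.choose (k - 1) : ℝ) := by exact_mod_cast Nat.choose_pos hN
  unfold SqCyc.deg
  rw [sum_aug]
  have h1 : I.filter (fun i => (Sum.inr x : α ⊕ Fin N) ∈ augE e N (Sum.inl i)) = ∅ := by
    rw [Finset.filter_eq_empty_iff]
    intro i _
    simp [augE]
  rw [h1, Finset.sum_empty, zero_add]
  have h2 : ∀ u ∈ V, ((univ : Finset (Fin N)).powersetCard (k - 1)).filter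
        (fun T => (Sum.inr x : α ⊕ Fin N) ∈ augE e N (Sum.inr (u, T))) =
        ((univ : Finset (Fin N)).powersetCard (k - 1)).filter (fun T => x ∈ T) := by
    intro u _
    refine Finset.filter_congr fun T _ => ?_
    simp [augE]
  rw [Finset.sum_congr rfl fun u hu => by rw [h2 u hu]]
  rw [← Finset.mul_sum, ← Finset.sum_div]
  have h3 := card_mem hk (by have := x.2; omega) x
  unfold defc
  calc _ = ((((univ : Finset (Fin N)).powersetCard (k - 1)).filter (fun T => x ∈ T)).card : ℝ) * N *
        ((∑ v ∈ V, (1 - SqCyc.deg I e w v)) / (N.choose (k - 1) : ℝ)) := by ring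
    _ = _ := by
      rw [h3]
      field_simp

private theorem defc_nonneg {k : ℕ} {δ : ℝ} {V : Finset α} {I : Finset ι} {e : ι → Finset α}
    {w : ι → ℝ} (h : NibSys k δ V I e w) : 0 ≤ defc V I e w :=
  Finset.sum_nonneg fun v hv => by linarith [h.deg_le v hv]

private theorem deg_nonneg {k : ℕ} {δ : ℝ} {V : Finset α} {I : Finset ι} {e : ι → Finset α}
    {w : ι → ℝ} (h : NibSys k δ V I e w) (v : α) : 0 ≤ SqCyc.deg I e w v :=
  Finset.sum_nonneg fun i hi => h.nonneg i (Finset.mem_filter.1 hi).1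

private theorem pdeg_comm' (I : Finset ι) (e : ι → Finset α) (w : ι → ℝ) (u v : α) :
    pdeg I e w u v = pdeg I e w v u := by
  unfold pdeg
  refine Finset.sum_congr (Finset.filter_congr fun i _ => and_comm) fun _ _ => rfl

private theorem deg_inl' {k : ℕ} {V : Finset α} {I : Finset ι} {e : ι → Finset α} {w : ι → ℝ} {N : ℕ}
    (hN : N < k - 1) (v : α) :
    deg (augI k V I N) (augE e N) (augW k I e w N) (Sum.inl v) = deg I e w v := by
  unfold SqCyc.deg
  rw [sum_aug]
  have hP : (univ : Finset (Fin N)).powersetCard (k - 1) = ∅ := by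
    rw [Finset.powersetCard_eq_empty, Finset.card_univ, Fintype.card_fin]
    exact hN
  have h1 : I.filter (fun i => (Sum.inl v : α ⊕ Fin N) ∈ augE e N (Sum.inl i)) =
      I.filter (fun i => v ∈ e i) := by
    refine Finset.filter_congr fun i _ => ?_
    simp [augE]
  rw [h1, hP]
  simp

private theorem deg_inr' {k : ℕ} {V : Finset α} {I : Finset ι} {e : ι → Finset α} {w : ι → ℝ} {N : ℕ}
    (hN : N < k - 1) (x : Fin N) :
    deg (augI k V I N) (augE e N) (augW k I e w N) (Sum.inr x) = 0 := by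
  unfold SqCyc.deg
  rw [sum_aug]
  have hP : (univ : Finset (Fin N)).powersetCard (k - 1) = ∅ := by
    rw [Finset.powersetCard_eq_empty, Finset.card_univ, Fintype.card_fin]
    exact hN
  have h1 : I.filter (fun i => (Sum.inr x : α ⊕ Fin N) ∈ augE e N (Sum.inl i)) = ∅ := by
    rw [Finset.filter_eq_empty_iff]
    intro i _
    simp [augE]
  rw [h1, hP]
  simp

private theorem pdeg_ll {k : ℕ} {V : Finset α} {I : Finset ι} {e : ι → Finset α} {w : ι → ℝ} {N : ℕ}
    {u v : α} (huv : u ≠ v) :
    pdeg (augI k V I N) (augE e N) (augW k I e w N) (Sum.inl u) (Sum.inl v) = pdeg I e w u v := by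
  unfold pdeg
  rw [sum_aug]
  have h1 : I.filter (fun i => (Sum.inl u : α ⊕ Fin N) ∈ augE e N (Sum.inl i) ∧
      (Sum.inl v : α ⊕ Fin N) ∈ augE e N (Sum.inl i)) = I.filter (fun i => u ∈ e i ∧ v ∈ e i) := by
    refine Finset.filter_congr fun i _ => ?_
    simp [augE]
  rw [h1]
  have h2 : ∀ a ∈ V, ((univ : Finset (Fin N)).powersetCard (k - 1)).filter
        (fun T => (Sum.inl u : α ⊕ Fin N) ∈ augE e N (Sum.inr (a, T)) ∧
          (Sum.inl v : α ⊕ Fin N) ∈ augE e N (Sum.inr (a, T))) = ∅ := by
    intro a _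
    rw [Finset.filter_eq_empty_iff]
    intro T _
    simp only [augE, Finset.mem_insert, Finset.mem_map, Function.Embedding.inr_apply, reduceCtorEq,
      and_false, exists_false, or_false, Sum.inl.injEq]
    rintro ⟨rfl, rfl⟩
    exact huv rfl
  rw [Finset.sum_eq_zero (s := V), add_zero]
  intro a ha
  rw [h2 a ha]
  simp

private theorem pdeg_lr {k : ℕ} (hk : 2 ≤ k) {V : Finset α} {I : Finset ι} {e : ι → Finset α}
    {w : ι → ℝ} {N : ℕ} {v : α} (hv : v ∈ V) (hd : SqCyc.deg I e w v ≤ 1)
    (hd0 : 0 ≤ SqCyc.deg I e w v) (x : Fin N) :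
    pdeg (augI k V I N) (augE e N) (augW k I e w N) (Sum.inl v) (Sum.inr x) * N ≤ (k : ℝ) - 1 := by
  unfold pdeg
  rw [sum_aug]
  have h1 : I.filter (fun i => (Sum.inl v : α ⊕ Fin N) ∈ augE e N (Sum.inl i) ∧
      (Sum.inr x : α ⊕ Fin N) ∈ augE e N (Sum.inl i)) = ∅ := by
    rw [Finset.filter_eq_empty_iff]
    intro i _
    simp [augE]
  rw [h1, Finset.sum_empty, zero_add]
  have h2 : ∀ u ∈ V, ((((univ : Finset (Fin N)).powersetCard (k - 1)).filter
        (fun T => (Sum.inl v : α ⊕ Fin N) ∈ augE e N (Sum.inr (u, T)) ∧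
          (Sum.inr x : α ⊕ Fin N) ∈ augE e N (Sum.inr (u, T)))).card : ℝ) *
        ((1 - deg I e w u) / (N.choose (k - 1) : ℝ)) = if u = v then
        ((((univ : Finset (Fin N)).powersetCard (k - 1)).filter (fun T => x ∈ T)).card : ℝ) *
        ((1 - deg I e w u) / (N.choose (k - 1) : ℝ)) else 0 := by
    intro u _
    by_cases huv : u = v
    · subst huv
      rw [if_pos rfl]
      congr 3
      refine Finset.filter_congr fun T _ => ?_
      simp [augE]
    · rw [if_neg huv]
      have h3 : ((univ : Finset (Fin N)).powersetCard (k - 1)).filter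
        (fun T => (Sum.inl v : α ⊕ Fin N) ∈ augE e N (Sum.inr (u, T)) ∧
          (Sum.inr x : α ⊕ Fin N) ∈ augE e N (Sum.inr (u, T))) = ∅ := by
        rw [Finset.filter_eq_empty_iff]
        intro T _
        simp [augE, Ne.symm huv]
      rw [h3]
      simp
  rw [Finset.sum_congr rfl h2, Finset.sum_ite_eq' V v, if_pos hv]
  have h3 := card_mem hk (by have := x.2; omega) x
  have hk0 : (2:ℝ) ≤ k := by exact_mod_cast hk
  have hCdiv : (N.choose (k - 1) : ℝ) / (N.choose (k - 1) : ℝ) ≤ 1 := div_self_le_one _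
  have hCdiv0 : 0 ≤ (N.choose (k - 1) : ℝ) / (N.choose (k - 1) : ℝ) := by positivity
  calc _ = (((((univ : Finset (Fin N)).powersetCard (k - 1)).filter (fun T => x ∈ T)).card : ℝ) * N) *
        ((1 - SqCyc.deg I e w v) / (N.choose (k - 1) : ℝ)) := by ring
    _ = ((N.choose (k - 1) : ℝ) / (N.choose (k - 1) : ℝ)) * (((k : ℝ) - 1) *
        (1 - SqCyc.deg I e w v)) := by rw [h3]; ring
    _ ≤ 1 * (((k : ℝ) - 1) * 1) := by
        apply mul_le_mul hCdiv _ _ (by norm_num)
        · apply mul_le_mul_of_nonneg_left _ (by linarith)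
          linarith
        · apply mul_nonneg (by linarith) (by linarith)
    _ = (k : ℝ) - 1 := by ring

private theorem pdeg_rr {k : ℕ} (hk : 2 ≤ k) {V : Finset α} {I : Finset ι} {e : ι → Finset α}
    {w : ι → ℝ} {N : ℕ} {x y : Fin N} (hxy : x ≠ y) (hd : 0 ≤ defc V I e w)
    (hN : ((k : ℝ) - 1) * defc V I e w ≤ N) :
    pdeg (augI k V I N) (augE e N) (augW k I e w N) (Sum.inr x) (Sum.inr y) *
      (N * ((N : ℝ) - 1)) ≤ ((k : ℝ) - 2) * N := by
  unfold pdeg
  rw [sum_aug]
  have h1 : I.filter (fun i => (Sum.inr x : α ⊕ Fin N) ∈ augE e N (Sum.inl i) ∧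
      (Sum.inr y : α ⊕ Fin N) ∈ augE e N (Sum.inl i)) = ∅ := by
    rw [Finset.filter_eq_empty_iff]
    intro i _
    simp [augE]
  rw [h1, Finset.sum_empty, zero_add]
  have h2 : ∀ u ∈ V, ((univ : Finset (Fin N)).powersetCard (k - 1)).filter
        (fun T => (Sum.inr x : α ⊕ Fin N) ∈ augE e N (Sum.inr (u, T)) ∧
          (Sum.inr y : α ⊕ Fin N) ∈ augE e N (Sum.inr (u, T))) =
        ((univ : Finset (Fin N)).powersetCard (k - 1)).filter (fun T => x ∈ T ∧ y ∈ T) := by
    intro u _
    refine Finset.filter_congr fun T _ => ?_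
    simp [augE]
  rw [Finset.sum_congr rfl fun u hu => by rw [h2 u hu]]
  rw [← Finset.mul_sum, ← Finset.sum_div]
  have h3 := card_mem2 hk hxy
  have hk0 : (2:ℝ) ≤ k := by exact_mod_cast hk
  have hCdiv : (N.choose (k - 1) : ℝ) / (N.choose (k - 1) : ℝ) ≤ 1 := div_self_le_one _
  have hCdiv0 : 0 ≤ (N.choose (k - 1) : ℝ) / (N.choose (k - 1) : ℝ) := by positivity
  calc _ = ((((univ : Finset (Fin N)).powersetCard (k - 1)).filter
          (fun T => x ∈ T ∧ y ∈ T)).card : ℝ) * (N * ((N : ℝ) - 1)) *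
        ((∑ v ∈ V, (1 - SqCyc.deg I e w v)) / (N.choose (k - 1) : ℝ)) := by ring
    _ = ((N.choose (k - 1) : ℝ) / (N.choose (k - 1) : ℝ)) * (((k : ℝ) - 2) *
        (((k : ℝ) - 1) * defc V I e w)) := by rw [h3]; unfold defc; ring
    _ ≤ 1 * (((k : ℝ) - 2) * N) := by
        apply mul_le_mul hCdiv _ _ (by norm_num)
        · exact mul_le_mul_of_nonneg_left hN (by linarith)
        · apply mul_nonneg (by linarith) (mul_nonneg (by linarith) hd)
    _ = ((k : ℝ) - 2) * N := by ring

/-- the augmented system is a `NibSys` with pair degrees at most `δ₁`.  (Degrees and pair degrees are computed in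
the doc-string of `nibble_gen`, file `NibGen.lean`.) -/
theorem aug_sys {k : ℕ} (hk : 2 ≤ k) {δ δ₁ : ℝ} (hδ : δ ≤ δ₁) (hδ₁ : 0 < δ₁) {V : Finset α}
    {I : Finset ι} {e : ι → Finset α} {w : ι → ℝ} (h : NibSys k δ V I e w) {N : ℕ}
    (hN : ((k : ℝ) - 1) * defc V I e w ≤ N) (hNk : (k : ℝ) / δ₁ ≤ (N : ℝ) - 1) :
    NibSys k δ₁ (augV V N) (augI k V I N) (augE e N) (augW k I e w N) := by
  have hk0 : (2:ℝ) ≤ k := by exact_mod_cast hk
  have hkd : 0 < (k : ℝ) / δ₁ := by positivity
  have hN1 : (1:ℝ) < N := by linarith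
  have hNp : (0:ℝ) < N := by linarith
  have hdN : 0 ≤ defc V I e w := defc_nonneg h
  -- `k - 1 ≤ N` or the system is trivial: if `N < k - 1` the binomial coefficient is `0`
  have hCle : (0:ℝ) ≤ (N.choose (k - 1) : ℝ) := by positivity
  have hdeg0 : ∀ v, 0 ≤ SqCyc.deg I e w v := deg_nonneg h
  have hCdiv : (N.choose (k - 1) : ℝ) / (N.choose (k - 1) : ℝ) ≤ 1 := div_self_le_one _
  refine ⟨?_, ?_, ?_, ?_, ?_⟩
  · intro j hj
    rcases j with i | ⟨v, T⟩
    · rw [augI, Finset.inl_mem_disjSum] at hj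
      intro y hy
      simp only [augE, Finset.mem_map, Function.Embedding.inl_apply] at hy
      obtain ⟨u, hu, rfl⟩ := hy
      rw [augV, Finset.inl_mem_disjSum]
      exact h.sub i hj hu
    · rw [augI, Finset.inr_mem_disjSum, Finset.mem_product] at hj
      intro y hy
      simp only [augE, Finset.mem_insert, Finset.mem_map, Function.Embedding.inr_apply] at hy
      rw [augV]
      rcases hy with rfl | ⟨x, _, rfl⟩
      · rw [Finset.inl_mem_disjSum]
        exact hj.1
      · rw [Finset.inr_mem_disjSum]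
        exact Finset.mem_univ _
  · intro j hj
    rcases j with i | ⟨v, T⟩
    · rw [augI, Finset.inl_mem_disjSum] at hj
      simp only [augE, Finset.card_map]
      exact h.card i hj
    · rw [augI, Finset.inr_mem_disjSum, Finset.mem_product, Finset.mem_powersetCard] at hj
      simp only [augE]
      rw [Finset.card_insert_of_notMem (by simp), Finset.card_map, hj.2.2]
      omega
  · intro j hj
    rcases j with i | ⟨v, T⟩
    · rw [augI, Finset.inl_mem_disjSum] at hj
      exact h.nonneg i hj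
    · rw [augI, Finset.inr_mem_disjSum, Finset.mem_product] at hj
      simp only [augW]
      have := h.deg_le v hj.1
      apply div_nonneg _ hCle
      linarith
  · intro y hy
    rcases y with v | x
    · rw [augV, Finset.inl_mem_disjSum] at hy
      by_cases hkN : k - 1 ≤ N
      · exact (deg_inl hkN hy).le
      · rw [deg_inl' (by omega) v]
        exact h.deg_le v hy
    · by_cases hkN : k - 1 ≤ N
      · have h1 := deg_inr (w := w) hk (V := V) (I := I) (e := e) hkN x
        have h2 : SqCyc.deg (augI k V I N) (augE e N) (augW k I e w N) (Sum.inr x) * N ≤ 1 * N := by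
          rw [h1]
          linarith
        exact le_of_mul_le_mul_right h2 hNp
      · rw [deg_inr' (by omega) x]
        norm_num
  · have hkN : (k : ℝ) ≤ δ₁ * ((N : ℝ) - 1) := by
      rw [div_le_iff₀ hδ₁] at hNk
      linarith
    have hlr : ∀ v ∈ V, ∀ x : Fin N,
        pdeg (augI k V I N) (augE e N) (augW k I e w N) (Sum.inl v) (Sum.inr x) ≤ δ₁ := by
      intro v hv x
      have h1 := pdeg_lr (w := w) (e := e) (I := I) hk hv (h.deg_le v hv) (hdeg0 v) x
      refine le_of_mul_le_mul_right (h1.trans ?_) hNp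
      nlinarith
    intro y hy y' hy' hne
    rcases y with u | x <;> rcases y' with v | x'
    · rw [pdeg_ll (by simpa using hne)]
      rw [augV, Finset.inl_mem_disjSum] at hy hy'
      exact (h.pdeg_le u hy v hy' (by simpa using hne)).trans hδ
    · rw [augV, Finset.inl_mem_disjSum] at hy
      exact hlr u hy x'
    · rw [augV, Finset.inl_mem_disjSum] at hy'
      rw [pdeg_comm']
      exact hlr v hy' x
    · have h1 := pdeg_rr (w := w) (e := e) (I := I) (V := V) (k := k) (x := x) (y := x') hk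
        (by simpa using hne) hdN hN
      have hNN : 0 < (N : ℝ) * ((N : ℝ) - 1) := by
        apply mul_pos hNp
        linarith
      refine le_of_mul_le_mul_right (h1.trans ?_) hNN
      nlinarith

/-- its total deficiency is `N - (k-1) d` -/
theorem aug_defc {k : ℕ} (hk : 2 ≤ k) {δ : ℝ} {V : Finset α} {I : Finset ι} {e : ι → Finset α}
    {w : ι → ℝ} (h : NibSys k δ V I e w) {N : ℕ} (hN : k ≤ N) :
    defc (augV V N) (augI k V I N) (augE e N) (augW k I e w N) =
      N - ((k : ℝ) - 1) * defc V I e w := by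
  have hN0 : (0:ℝ) < N := by
    have : 0 < N := by omega
    exact_mod_cast this
  conv_lhs => unfold defc
  rw [augV, Finset.sum_disjSum]
  have h1 : ∑ v ∈ V, (1 - SqCyc.deg (augI k V I N) (augE e N) (augW k I e w N) (Sum.inl v)) = 0 := by
    refine Finset.sum_eq_zero fun v hv => ?_
    rw [deg_inl (by omega) hv]
    ring
  have h2 : ∀ x : Fin N, SqCyc.deg (augI k V I N) (augE e N) (augW k I e w N) (Sum.inr x) =
      defc V I e w * ((k : ℝ) - 1) / N := by
    intro x
    rw [eq_div_iff hN0.ne']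
    exact deg_inr hk (by omega) x
  rw [h1, zero_add]
  simp_rw [h2]
  rw [Finset.sum_const, Finset.card_univ, Fintype.card_fin, nsmul_eq_mul]
  field_simp

/-- a matching of the augmented system gives a matching of the old one; it has at most `N / (k-1)` dummy
edges -/
theorem aug_matching {k : ℕ} (hk : 2 ≤ k) {V : Finset α} {I : Finset ι} {e : ι → Finset α} {N : ℕ}
    {M' : Finset (ι ⊕ (α × Finset (Fin N)))} (hM' : M' ⊆ augI k V I N)
    (hdis : ∀ i ∈ M', ∀ j ∈ M', i ≠ j → Disjoint (augE e N i) (augE e N j)) :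
    ∃ M ⊆ I, (∀ i ∈ M, ∀ j ∈ M, i ≠ j → Disjoint (e i) (e j)) ∧
      (k - 1) * M'.card ≤ (k - 1) * M.card + N := by
  refine ⟨M'.toLeft, ?_, ?_, ?_⟩
  · intro i hi
    rw [Finset.mem_toLeft] at hi
    have := hM' hi
    rw [augI, Finset.inl_mem_disjSum] at this
    exact this
  · intro i hi j hj hij
    rw [Finset.mem_toLeft] at hi hj
    have := hdis _ hi _ hj (by simpa using hij)
    simp only [augE, Finset.disjoint_map] at this
    exact this
  · rw [← Finset.card_toLeft_add_card_toRight (u := M')]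
    rw [mul_add]
    apply Nat.add_le_add_left
    have hT : ∀ q ∈ M'.toRight, q.2.card = k - 1 := by
      intro q hq
      rw [Finset.mem_toRight] at hq
      have := hM' hq
      rw [augI, Finset.inr_mem_disjSum, Finset.mem_product, Finset.mem_powersetCard] at this
      exact this.2.2
    have h1 : (M'.toRight.biUnion (fun q => q.2)).card = ∑ q ∈ M'.toRight, q.2.card := by
      apply Finset.card_biUnion
      intro q hq q' hq' hne
      rw [Finset.mem_coe, Finset.mem_toRight] at hq hq'
      have := hdis _ hq _ hq' (by simpa using hne)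
      simp only [augE] at this
      have h2 := this.mono (Finset.subset_insert _ _) (Finset.subset_insert _ _)
      rwa [Finset.disjoint_map] at h2
    rw [Finset.sum_congr rfl hT, Finset.sum_const, smul_eq_mul] at h1
    have h2 : (M'.toRight.biUnion (fun q => q.2)).card ≤ N := by
      have := Finset.card_le_univ (M'.toRight.biUnion (fun q => q.2))
      rwa [Fintype.card_fin] at this
    rw [mul_comm]
    omega

end

end ES
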