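import Pool.Agent.Lib.SqCyc.Nib7
import Pool.Agent.Lib.MP_1f562f_co.NibAug

/-!
# Erdős–Sauer: nibble theorem for fractional matchings that are not perfect
-/

set_option autoImplicit false

open Finset SqCyc

namespace ES

private theorem nibSys_mono {k : ℕ} {δ δ' : ℝ} (hδ : δ ≤ δ') {α ι : Type} [DecidableEq α]
    [DecidableEq ι] {V : Finset α} {I : Finset ι} {e : ι → Finset α} {w : ι → ℝ}
    (h : NibSys k δ V I e w) : NibSys k δ' V I e w where
  sub := h.sub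
  card := h.card
  nonneg := h.nonneg
  deg_le := h.deg_le
  pdeg_le := fun u hu v hv huv => (h.pdeg_le u hu v hv huv).trans hδ

/-- Fractional matchings with small pair degrees can be rounded: there is a matching with at least
`∑ w - ε |V|` edges.

Proof (from `SqCyc.nibble`, by adding dummy edges).  Let `δ₁` be the constant of `SqCyc.nibble k ε₁` with
`ε₁ = ε / 4` (say) and let `δ` be a small multiple of `δ₁`-powers, see below (also `δ ≤ 1`).
Let `d = defc V I e w = ∑_{v ∈ V} (1 - deg v) = |V| - k ∑ w ≥ 0` (double counting: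
`∑_v deg v = ∑_i w i |e i| = k ∑_i w i`).

Case 1: `d ≤ δ₁ |V|`: apply `nibble` directly (NibSys is monotone in `δ`): `k |M| ≥ (1-ε₁)|V|` and
`∑ w ≤ |V|/k`, so `|M| ≥ ∑ w - ε₁ |V| / k`.

Case 2: `d > δ₁ |V|`.  Let `N = ⌈(k-1) d⌉₊` (so `(k-1) d ≤ N < (k-1) d + 1`, `N ≥ (k-1) δ₁ |V| ≥ δ₁ / δ`,
as large as we want, in particular `N ≥ k`; also `N ≤ (k-1)|V| + 1 ≤ k |V|`).  New system:
vertices `V' = V ⊕ Fin N` (as a finset of `α ⊕ Fin N` : `V.disjSum univ`), index type `ι ⊕ (α × Finset (Fin N))`,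
edges: the old ones `(e i).map inl` with weight `w i`, and the dummy edges
`{inl v} ∪ T.map inr`, `v ∈ V`, `T ∈ powersetCard (k-1) univ`, with weight `(1 - deg v) / C(N, k-1)`.
All edges have `k` elements.  Degrees: `deg' (inl v) = deg v + (1 - deg v) = 1`;
`deg' (inr x) = d C(N-1,k-2) / C(N,k-1) = d (k-1) / N ≤ 1`.
Pair degrees: `(inl u, inl v)`: the old ones `≤ δ`; `(inl v, inr x)`: `(1 - deg v)(k-1)/N ≤ (k-1)/N`;
`(inr x, inr y)`, `x ≠ y`: `d C(N-2,k-3) / C(N,k-1) = d (k-1)(k-2)/(N(N-1)) ≤ (k-2)/(N-1)` (it is `0` if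
`k = 2`); all `≤ δ₁` if `N - 1 ≥ k / δ₁`.  Total deficiency: `N - (k-1) d < 1 ≤ δ₁ |V'|`.
`nibble` gives a matching `M'` with `k |M'| ≥ (1 - ε₁)(|V| + N)`.  Its dummy edges use `k-1` elements of
`Fin N` each and are disjoint, so there are at most `N / (k-1) ≤ d + 1` of them.
The old edges in `M'`: at least
`(1-ε₁)(|V|+N)/k - N/(k-1) ≥ (|V| + N)/k - N/(k-1) - ε₁ (|V| + k |V|)/k
  ≥ |V|/k - N/(k(k-1)) - 2 ε₁ |V| ≥ |V|/k - d/k - 1/(k(k-1)) - 2 ε₁ |V| ≥ ∑ w - 1 - 2 ε₁ |V|`,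
and `1 ≤ ε₁ |V|` if `|V| ≥ 1/δ` and `δ ≤ ε₁`. -/
theorem nibble_gen (k : ℕ) (hk : 2 ≤ k) (ε : ℝ) (hε : 0 < ε) : ∃ δ : ℝ, 0 < δ ∧
    ∀ (α ι : Type) [DecidableEq α] [DecidableEq ι] (V : Finset α) (I : Finset ι)
      (e : ι → Finset α) (w : ι → ℝ), NibSys k δ V I e w → 1 / δ ≤ V.card →
      ∃ M ⊆ I, (∀ i ∈ M, ∀ j ∈ M, i ≠ j → Disjoint (e i) (e j)) ∧
        ∑ i ∈ I, w i - ε * V.card ≤ M.card := by
  obtain ⟨δ₁, hδ₁, hnib⟩ := nibble k hk (ε / 4) (by positivity)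
  have hk1 : (2 : ℝ) ≤ k := by exact_mod_cast hk
  have hk0 : (0 : ℝ) < k := by linarith
  set δ₂ : ℝ := min δ₁ 1 with hδ₂def
  have hδ₂ : 0 < δ₂ := lt_min hδ₁ one_pos
  have hδ₂1 : δ₂ ≤ 1 := min_le_right _ _
  have hδ₂δ₁ : δ₂ ≤ δ₁ := min_le_left _ _
  set δ : ℝ := min (min (ε / 4) δ₂) (δ₂ / (k / δ₂ + 1)) with hδdef
  have hq : 0 < (k : ℝ) / δ₂ + 1 := by positivity
  have hδ : 0 < δ := lt_min (lt_min (by positivity) hδ₂) (by positivity)
  have hδε : δ ≤ ε / 4 := (min_le_left _ _).trans (min_le_left _ _)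
  have hδδ₂ : δ ≤ δ₂ := (min_le_left _ _).trans (min_le_right _ _)
  have hδq : δ ≤ δ₂ / (k / δ₂ + 1) := min_le_right _ _
  refine ⟨δ, hδ, fun α ι _ _ V I e w h hV => ?_⟩
  have hsum := sum_deg h
  set d := defc V I e w with hd
  set n : ℝ := (V.card : ℝ) with hn
  set s : ℝ := ∑ i ∈ I, w i with hs
  have hd0 : 0 ≤ d := Finset.sum_nonneg fun v hv => by linarith [h.deg_le v hv]
  have hs0 : 0 ≤ s := Finset.sum_nonneg fun i hi => h.nonneg i hi
  have hn1 : 1 ≤ δ * n := by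
    rw [div_le_iff₀ hδ] at hV
    linarith
  have hn0 : 0 < n := by
    by_contra hcon
    push Not at hcon
    have : δ * n ≤ 0 := mul_nonpos_of_nonneg_of_nonpos hδ.le hcon
    linarith
  have hεn : δ * n ≤ ε / 4 * n := mul_le_mul_of_nonneg_right hδε hn0.le
  by_cases hcase : d ≤ δ₁ * n
  · obtain ⟨M, hM, hdis, hle⟩ := hnib α ι V I e w (nibSys_mono (hδδ₂.trans hδ₂δ₁) h) hcase
    refine ⟨M, hM, hdis, ?_⟩
    have h1 : (k : ℝ) * (s - ε * n) ≤ k * M.card := by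
      have h2 : ε / 4 * n ≤ k * (ε * n) := by
        have h3 : 0 ≤ ε * n := by positivity
        have h4 : 2 * (ε * n) ≤ k * (ε * n) := mul_le_mul_of_nonneg_right hk1 h3
        linarith
      linarith
    exact le_of_mul_le_mul_left h1 hk0
  · push Not at hcase
    set N : ℕ := ⌈((k : ℝ) - 1) * d⌉₊ with hNdef
    have hkd : 0 ≤ ((k : ℝ) - 1) * d := mul_nonneg (by linarith) hd0
    have hN1 : ((k : ℝ) - 1) * d ≤ N := Nat.le_ceil _
    have hN2 : (N : ℝ) < (k - 1) * d + 1 := Nat.ceil_lt_add_one hkd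
    have hN3 : (k : ℝ) / δ₂ + 1 ≤ N := by
      have h1 : δ₂ * n ≤ d := (mul_le_mul_of_nonneg_right hδ₂δ₁ hn0.le).trans hcase.le
      have h2 : d ≤ ((k : ℝ) - 1) * d := by
        have h3 : 0 ≤ ((k : ℝ) - 2) * d := mul_nonneg (by linarith) hd0
        linarith
      have h3 : (k : ℝ) / δ₂ + 1 ≤ δ₂ / δ := by
        rw [le_div_iff₀ hδ]
        have h4 := (le_div_iff₀ hq).1 hδq
        linarith
      have h5 : δ₂ / δ ≤ δ₂ * n := by
        rw [div_le_iff₀ hδ]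
        have := mul_le_mul_of_nonneg_left hn1 hδ₂.le
        linarith
      linarith
    have hkN : k ≤ N := by
      have h1 : (k : ℝ) ≤ k / δ₂ := by
        rw [le_div_iff₀ hδ₂]
        have h2 : (k : ℝ) * δ₂ ≤ k * 1 := mul_le_mul_of_nonneg_left hδ₂1 hk0.le
        linarith
      have h2 : (k : ℝ) ≤ N := by linarith
      exact_mod_cast h2
    have hsys := aug_sys hk hδδ₂ hδ₂ h hN1 (by linarith)
    have hdef := aug_defc hk h hkN
    have hcard : ((augV V N).card : ℝ) = n + N := by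
      unfold augV
      rw [Finset.card_disjSum, Finset.card_univ, Fintype.card_fin]
      push_cast
      rfl
    have hdle : defc (augV V N) (augI k V I N) (augE e N) (augW k I e w N) ≤
        δ₁ * (augV V N).card := by
      rw [hdef, hcard]
      have h1 : δ * n ≤ δ₁ * n := mul_le_mul_of_nonneg_right (hδδ₂.trans hδ₂δ₁) hn0.le
      have h2 : 0 ≤ δ₁ * N := by positivity
      linarith
    obtain ⟨M', hM', hdis', hle'⟩ := hnib _ _ (augV V N) (augI k V I N) (augE e N)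
      (augW k I e w N) (nibSys_mono hδ₂δ₁ hsys) hdle
    obtain ⟨M, hM, hdis, hle⟩ := aug_matching hk hM' hdis'
    refine ⟨M, hM, hdis, ?_⟩
    rw [hcard] at hle'
    have hle2 : ((k : ℝ) - 1) * M'.card ≤ (k - 1) * M.card + N := by
      have h1 : (((k - 1) * M'.card : ℕ) : ℝ) ≤ (((k - 1) * M.card + N : ℕ) : ℝ) := by
        exact_mod_cast hle
      push_cast [Nat.cast_sub (show 1 ≤ k by omega)] at h1
      exact h1
    have hdn : d ≤ n := by
      have : 0 ≤ (k : ℝ) * s := by positivity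
      linarith
    -- multiply everything by `k (k - 1)`
    have hkk : (0 : ℝ) < k * (k - 1) := mul_pos hk0 (by linarith)
    refine le_of_mul_le_mul_left ?_ hkk
    have e1 : (k : ℝ) * (k - 1) * (s - ε * n) = (k - 1) * (n - d) - k * (k - 1) * (ε * n) := by
      have : (k : ℝ) * s = n - d := by linarith
      linear_combination ((k : ℝ) - 1) * this
    rw [e1]
    -- `k (k-1) |M| ≥ (k-1) k |M'| - k N ≥ (k-1) (1-ε/4) (n+N) - k N`
    have h1 : (k : ℝ) * ((k - 1) * M'.card) ≤ k * ((k - 1) * M.card + N) :=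
      mul_le_mul_of_nonneg_left hle2 hk0.le
    have h2 : ((k : ℝ) - 1) * ((1 - ε / 4) * (n + N)) ≤ (k - 1) * (k * M'.card) :=
      mul_le_mul_of_nonneg_left hle' (by linarith)
    -- `N ≤ k n`
    have hn1' : 1 ≤ n := by
      have h3 : δ ≤ 1 := hδδ₂.trans hδ₂1
      have h4 : δ * n ≤ 1 * n := mul_le_mul_of_nonneg_right h3 hn0.le
      linarith
    have h4 : (N : ℝ) ≤ k * n := by
      have h3 : ((k : ℝ) - 1) * d ≤ (k - 1) * n := mul_le_mul_of_nonneg_left hdn (by linarith)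
      linarith
    have h5 : ((k : ℝ) - 1) * (ε / 4 * (n + N)) ≤ (k - 1) * (ε / 4 * (n + k * n)) := by
      apply mul_le_mul_of_nonneg_left _ (by linarith)
      apply mul_le_mul_of_nonneg_left _ (by positivity)
      linarith
    have h6 : 1 ≤ ε / 4 * n := hn1.trans hεn
    have h7 : ((k : ℝ) - 1) * (ε / 4 * (n + k * n)) ≤ 3 / 4 * (k * (k - 1) * (ε * n)) - ε * n / 4 := by
      have h8 : 0 ≤ ε * n := by positivity
      have h10 : 3 / 4 * (k * (k - 1) * (ε * n)) - ε * n / 4 -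
          ((k : ℝ) - 1) * (ε / 4 * (n + k * n)) = (ε * n) / 4 * (2 * (k : ℝ) ^ 2 - 3 * k) := by ring
      have h11 : 0 ≤ 2 * (k : ℝ) ^ 2 - 3 * k := by
        have h9 : 0 ≤ (k : ℝ) * (2 * k - 3) := mul_nonneg hk0.le (by linarith)
        linarith
      have h12 : 0 ≤ (ε * n) / 4 * (2 * (k : ℝ) ^ 2 - 3 * k) := mul_nonneg (by linarith) h11
      linarith
    have h13 : 0 ≤ (k : ℝ) * (k - 1) * (ε * n) := mul_nonneg hkk.le (by positivity)
    linarith

end ES
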