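import Pool.Agent.Lib.MP_1f562f_co.Duality
import Pool.Agent.Lib.MP_1f562f_co.Count
import Pool.Agent.Lib.MP_1f562f_co.NibGen

/-!
# Erdős–Sauer: integral packing
-/

set_option autoImplicit false

open Finset

namespace ES

/-- Integral packings nearly as large as the spread fractional optimum.

Proof.  Let `k = C(p,r) ≥ 2` and let `δ` be the constant of `nibble_gen k (ε/2)`.
If `|H| < 1/δ` (or `|H| ≤ ε n^r`) then `M = ∅` works: `WW ≤ |H| ≤ ε n^r` for `n` large (`WW_le_card`).
Let `|H| ≥ 1/δ`.  If `WW - ε n^r ≤ 0` take `M = ∅`.  Otherwise take `s = WW - (ε/2) n^r ∈ [0, WW)` and `f` from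
`duality` with `κ = K / n^(p-r)` (`n ≥ 1`).  Apply `nibble_gen` with `V = H`, `I = copies p r H`,
`e Q = Q.powersetCard r`, `w = f`.  `NibSys k δ`: sub: definition of copies; card: `C(p,r)`; degrees `≤ 1`;
pair degrees: for `u ≠ v` in `H` (both of size `r`) `|u ∪ v| ≥ r+1`, the number of `Q` of size `p` containing
`u ∪ v` is at most `n^(p-r-1)` (`card_sup_le`; it is `0` if `|u ∪ v| > p`), so the pair degree is at most
`κ n^(p-r-1) = K / n ≤ δ` for `n ≥ K / δ`.
The matching `M` has `|M| ≥ s - (ε/2) |H| ≥ WW - ε n^r` since `|H| ≤ n^r` (`card_le_pow`). -/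
theorem packing (p r : ℕ) (hr : 2 ≤ r) (hrp : r < p) (K ε : ℝ) (hK : 0 < K) (hε : 0 < ε) :
    ∃ N : ℕ, ∀ n : ℕ, N ≤ n → ∀ H : Finset (Finset (Fin n)), (∀ e ∈ H, e.card = r) →
      ∃ M ⊆ copies p r H,
        (∀ Q ∈ M, ∀ Q' ∈ M, Q ≠ Q' → Disjoint (Q.powersetCard r) (Q'.powersetCard r)) ∧
        WW p r (K / (n : ℝ) ^ (p - r)) H - ε * (n : ℝ) ^ r ≤ M.card := by
  have hkr : r + 1 ≤ p.choose r := by
    calc r + 1 = (r + 1).choose r := (Nat.choose_succ_self_right r).symm
      _ ≤ p.choose r := Nat.choose_le_choose r hrp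
  obtain ⟨δ, hδ, hnib⟩ := nibble_gen (p.choose r) (by omega) (ε / 2) (by positivity)
  refine ⟨max 1 (max ⌈K / δ⌉₊ ⌈1 / (δ * ε)⌉₊), fun n hn H hH => ?_⟩
  have hn1 : 1 ≤ n := (le_max_left _ _).trans hn
  have hn2 : K / δ ≤ n := (Nat.le_ceil _).trans
    (by exact_mod_cast (le_max_left _ _).trans ((le_max_right _ _).trans hn))
  have hn3 : 1 / (δ * ε) ≤ n := (Nat.le_ceil _).trans
    (by exact_mod_cast (le_max_right _ _).trans ((le_max_right _ _).trans hn))
  have hn0 : (0 : ℝ) < n := by exact_mod_cast hn1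
  have hn1' : (1 : ℝ) ≤ n := by exact_mod_cast hn1
  have hnr : (0 : ℝ) < (n : ℝ) ^ r := by positivity
  obtain ⟨κ, hκdef⟩ : ∃ κ : ℝ, κ = K / (n : ℝ) ^ (p - r) := ⟨_, rfl⟩
  have hκ : 0 < κ := by rw [hκdef]; positivity
  rw [← hκdef]
  rcases le_or_gt (WW p r κ H - ε * (n : ℝ) ^ r) 0 with hneg | hpos
  · exact ⟨∅, empty_subset _, by simp, by simpa using hneg⟩
  have hs0 : 0 ≤ WW p r κ H - ε / 2 * (n : ℝ) ^ r := by
    have : 0 < ε * (n : ℝ) ^ r := by positivity
    linarith
  have hs1 : WW p r κ H - ε / 2 * (n : ℝ) ^ r < WW p r κ H := by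
    have : 0 < ε / 2 * (n : ℝ) ^ r := by positivity
    linarith
  obtain ⟨f, hf0, hfκ, hfdeg, hfsum⟩ := duality hκ H hs0 hs1
  have hHn : (H.card : ℝ) ≤ (n : ℝ) ^ r := card_le_pow hH
  have hHbig : 1 / δ ≤ H.card := by
    have h1 : WW p r κ H ≤ H.card := WW_le_card hκ.le hrp.le H
    have h2 : (n : ℝ) ≤ (n : ℝ) ^ r := le_self_pow₀ hn1' (by omega)
    have h3 : 1 / δ ≤ ε * (n : ℝ) := by
      rw [div_le_iff₀ (by positivity)] at hn3
      rw [div_le_iff₀ hδ]
      linarith
    have h4 : ε * (n : ℝ) ≤ ε * (n : ℝ) ^ r := mul_le_mul_of_nonneg_left h2 hε.le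
    linarith
  have hsys : SqCyc.NibSys (p.choose r) δ H (copies p r H)
      (fun Q : Finset (Fin n) => Q.powersetCard r) f := by
    refine ⟨fun Q hQ => (mem_copies.1 hQ).2, fun Q hQ => ?_, fun Q _ => hf0 Q, fun e he => ?_,
      fun u hu v hv huv => ?_⟩
    · rw [card_powersetCard, (mem_copies.1 hQ).1]
    · exact hfdeg e he
    · unfold SqCyc.pdeg
      have hsub : (copies p r H).filter (fun Q => u ∈ Q.powersetCard r ∧ v ∈ Q.powersetCard r) ⊆
          (univ.powersetCard p).filter (fun Q : Finset (Fin n) => u ∪ v ⊆ Q) := by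
        intro Q hQ
        rw [mem_filter] at hQ
        rw [mem_filter, mem_powersetCard]
        exact ⟨⟨subset_univ _, (mem_copies.1 hQ.1).1⟩,
          union_subset (mem_powersetCard.1 hQ.2.1).1 (mem_powersetCard.1 hQ.2.2).1⟩
      have hr1 : r + 1 ≤ (u ∪ v).card := by
        have h1 : u ⊂ u ∪ v := by
          rw [ssubset_iff_subset_ne]
          refine ⟨subset_union_left, fun h => huv ?_⟩
          have h2 : v ⊆ u := by
            rw [h]
            exact subset_union_right
          exact (eq_of_subset_of_card_le h2 (by rw [hH u hu, hH v hv])).symm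
        have h3 := card_lt_card h1
        rw [hH u hu] at h3
        exact h3
      have hsum : ∑ Q ∈ (copies p r H).filter (fun Q => u ∈ Q.powersetCard r ∧ v ∈ Q.powersetCard r), f Q ≤
          ((univ.powersetCard p).filter (fun Q : Finset (Fin n) => u ∪ v ⊆ Q)).card * κ := by
        refine (sum_le_card_nsmul _ _ κ fun Q _ => hfκ Q).trans ?_
        rw [nsmul_eq_mul]
        exact mul_le_mul_of_nonneg_right (by exact_mod_cast card_le_card hsub) hκ.le
      refine hsum.trans ?_
      rcases le_or_gt (u ∪ v).card p with hle | hgt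
      · have h1 := card_sup_le (p := p) (u ∪ v) hle
        have h2 : (n : ℝ) ^ (p - (u ∪ v).card) ≤ (n : ℝ) ^ (p - r - 1) :=
          pow_le_pow_right₀ hn1' (by omega)
        have h3 : (n : ℝ) ^ (p - r - 1) * κ = K / n := by
          have h4 : (n : ℝ) ^ (p - r) = (n : ℝ) ^ (p - r - 1) * n := by
            rw [← pow_succ]
            congr 1
            omega
          rw [hκdef, h4]
          field_simp
        have h4 : K / n ≤ δ := by
          rw [div_le_iff₀ hδ] at hn2
          rw [div_le_iff₀ hn0]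
          linarith
        calc _ ≤ (n : ℝ) ^ (p - r - 1) * κ := mul_le_mul_of_nonneg_right (h1.trans h2) hκ.le
          _ = K / n := h3
          _ ≤ δ := h4
      · have h1 : (univ.powersetCard p).filter (fun Q : Finset (Fin n) => u ∪ v ⊆ Q) = ∅ := by
          rw [filter_eq_empty_iff]
          intro Q hQ h2
          have h3 := card_le_card h2
          rw [(mem_powersetCard.1 hQ).2] at h3
          omega
        rw [h1, card_empty, Nat.cast_zero, zero_mul]
        exact hδ.le
  obtain ⟨M, hM, hdisj, hcard⟩ := hnib (Finset (Fin n)) (Finset (Fin n)) H (copies p r H)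
    (fun Q => Q.powersetCard r) f hsys hHbig
  refine ⟨M, hM, hdisj, ?_⟩
  rw [hfsum] at hcard
  have h1 : ε / 2 * (H.card : ℝ) ≤ ε / 2 * (n : ℝ) ^ r := mul_le_mul_of_nonneg_left hHn (by positivity)
  linarith

end ES
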