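import Pool.Agent.Lib.MP_1f562f_co.Basic

/-!
# Erdős–Sauer: from a packing to an admissible partition
-/

set_option autoImplicit false

open Finset

namespace ES

variable {n : ℕ}

/-- A family `M` of pairwise edge-disjoint copies gives an admissible partition of `H` with
`|H| - (C(p,r) - 1) |M|` parts: the edge sets of the copies in `M` and all the other edges as singletons. -/
theorem partition {p r : ℕ} (hr : 1 ≤ r) (hrp : r < p) (H M : Finset (Finset (Fin n)))
    (hM : M ⊆ copies p r H)
    (hdis : ∀ Q ∈ M, ∀ Q' ∈ M, Q ≠ Q' → Disjoint (Q.powersetCard r) (Q'.powersetCard r)) :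
    ∃ P : Finpartition H,
      (∀ B ∈ P.parts, B.card = 1 ∨ ∃ S : Finset (Fin n), S.card = p ∧ B = S.powersetCard r) ∧
      P.parts.card + (p.choose r - 1) * M.card ≤ H.card := by
  classical
  have hM' : ∀ S ∈ M, S.card = p ∧ S.powersetCard r ⊆ H := fun S hS => mem_copies.1 (hM hS)
  have hC : ∀ S ∈ M, (S.powersetCard r).card = p.choose r := fun S hS => by
    rw [card_powersetCard, (hM' S hS).1]
  have hCpos : 0 < p.choose r := Nat.choose_pos hrp.le
  set U : Finset (Finset (Fin n)) := M.biUnion (fun S => S.powersetCard r) with hU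
  have hUcard : U.card = p.choose r * M.card := by
    rw [hU, card_biUnion hdis, sum_congr rfl hC, sum_const, smul_eq_mul, mul_comm]
  have hUH : U ⊆ H := by
    intro e he
    rw [hU, mem_biUnion] at he
    obtain ⟨S, hS, he⟩ := he
    exact (hM' S hS).2 he
  set A : Finset (Finset (Finset (Fin n))) := M.image (fun S => S.powersetCard r) with hA
  set B : Finset (Finset (Finset (Fin n))) := (H \ U).image (fun e => {e}) with hB
  have hinj : Set.InjOn (fun S : Finset (Fin n) => S.powersetCard r)
      (M : Set (Finset (Fin n))) := by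
    intro S hS S' hS' h
    by_contra hne
    have h1 := hdis S hS S' hS' hne
    have h : S.powersetCard r = S'.powersetCard r := h
    rw [← h, disjoint_self_iff_empty] at h1
    have h2 := hC S hS
    rw [h1, card_empty] at h2
    omega
  have hAcard : A.card = M.card := card_image_of_injOn hinj
  have hBcard : B.card = H.card - U.card := by
    rw [hB, card_image_of_injective _ (fun a b h => by simpa using h), card_sdiff_of_subset hUH]
  refine ⟨Finpartition.ofExistsUnique (A ∪ B) ?_ ?_ ?_, ?_, ?_⟩
  · intro t ht
    rw [mem_union, hA, hB, mem_image, mem_image] at ht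
    rcases ht with ⟨S, hS, rfl⟩ | ⟨e, he, rfl⟩
    · exact (hM' S hS).2
    · rw [singleton_subset_iff]
      exact (mem_sdiff.mp he).1
  · intro e he
    by_cases heU : e ∈ U
    · have heU' := heU
      rw [hU, mem_biUnion] at heU'
      obtain ⟨S, hS, heS⟩ := heU'
      refine ⟨S.powersetCard r, ⟨?_, heS⟩, ?_⟩
      · rw [mem_union, hA]
        exact Or.inl (mem_image_of_mem _ hS)
      · rintro t ⟨ht, het⟩
        rw [mem_union, hA, hB, mem_image, mem_image] at ht
        rcases ht with ⟨S', hS', rfl⟩ | ⟨e', he', rfl⟩
        · by_contra hne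
          have hne' : S' ≠ S := fun h => hne (by rw [h])
          exact (disjoint_left.mp (hdis S' hS' S hS hne')) het heS
        · rw [mem_singleton] at het
          rw [← het] at he'
          exact absurd heU (mem_sdiff.mp he').2
    · refine ⟨{e}, ⟨?_, mem_singleton_self e⟩, ?_⟩
      · rw [mem_union, hB]
        exact Or.inr (mem_image_of_mem _ (mem_sdiff.mpr ⟨he, heU⟩))
      · rintro t ⟨ht, het⟩
        rw [mem_union, hA, hB, mem_image, mem_image] at ht
        rcases ht with ⟨S', hS', rfl⟩ | ⟨e', he', rfl⟩
        · exact absurd (mem_biUnion.mpr ⟨S', hS', het⟩) heU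
        · rw [mem_singleton] at het
          rw [het]
  · intro h
    rw [mem_union, hA, hB, mem_image, mem_image] at h
    rcases h with ⟨S, hS, h⟩ | ⟨e, he, h⟩
    · have h2 := hC S hS
      rw [h, card_empty] at h2
      omega
    · exact singleton_ne_empty e h
  · intro t ht
    have ht : t ∈ A ∪ B := ht
    rw [mem_union, hA, hB, mem_image, mem_image] at ht
    rcases ht with ⟨S, hS, rfl⟩ | ⟨e, he, rfl⟩
    · exact Or.inr ⟨S, (hM' S hS).1, rfl⟩
    · exact Or.inl (card_singleton e)
  · show (A ∪ B).card + _ ≤ _
    have hAB : Disjoint A B := by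
      rw [disjoint_left]
      intro t htA htB
      rw [hA, mem_image] at htA
      rw [hB, mem_image] at htB
      obtain ⟨S, hS, rfl⟩ := htA
      obtain ⟨e, he, h⟩ := htB
      have h1 : e ∈ S.powersetCard r := by
        rw [← h]
        exact mem_singleton_self e
      exact (mem_sdiff.mp he).2 (mem_biUnion.mpr ⟨S, hS, h1⟩)
    have hle := card_le_card hUH
    rw [card_union_of_disjoint hAB, hAcard, hBcard]
    have h3 : (p.choose r - 1) * M.card + M.card = p.choose r * M.card := by
      rw [← Nat.succ_mul, Nat.succ_eq_add_one, Nat.sub_add_cancel hCpos]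
    omega

end ES
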