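import Pool.Agent.Lib.MP_1f562f_co.Strict2
import Pool.Agent.Lib.MP_1f562f_co.Pack
import Pool.Agent.Lib.MP_1f562f_co.Part

/-!
# Erdős–Sauer: main theorem
-/

set_option autoImplicit false

open Finset

namespace ES

/-- many copies force a large dual optimum -/
theorem WW_large {n p r : ℕ} (hr : 2 ≤ r) (hrp : r < p) (hp : 4 ≤ p) {K ε : ℝ} (hK : 1 ≤ K)
    (hn : 1 ≤ n) (H : Finset (Finset (Fin n))) (hH : ∀ e ∈ H, e.card = r)
    (hcop : ε * (n : ℝ) ^ p ≤ (copies p r H).card) :
    ε * (n : ℝ) ^ r ≤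
      (2 * (p.choose r : ℝ) + 2) * (WW p r (K / (n : ℝ) ^ (p - r)) H + 1) := by
  classical
  obtain ⟨hk4, -⟩ := sn_choose hr hrp hp
  have hk4' : (4 : ℝ) ≤ (p.choose r : ℝ) := by exact_mod_cast hk4
  set k : ℝ := (p.choose r : ℝ) with hk
  set R : ℝ := (n : ℝ) ^ r with hRdef
  set q : ℝ := (n : ℝ) ^ (p - r) with hq
  have hnpos : (1 : ℝ) ≤ n := by exact_mod_cast hn
  have hq1 : 1 ≤ q := one_le_pow₀ hnpos
  have hRq : R * q = (n : ℝ) ^ p := by
    rw [hRdef, hq, ← pow_add]; congr 1; omega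
  set κ : ℝ := K / q with hκ
  have hκ0 : 0 < κ := by positivity
  obtain ⟨w, hw0, hwmin⟩ := exists_near (p := p) (r := r) (κ := κ) H (ξ := 1) one_pos
  set P : ℝ := Phi p r κ H w with hP
  have hP0 : 0 ≤ P := Phi_nonneg hκ0.le H hw0
  set Y : Finset (Finset (Fin n)) := H.filter (fun e => 1 / (2 * k) ≤ w e) with hY
  have hYc : (Y.card : ℝ) ≤ 2 * k * P := by
    have h1 := markov (p := p) (r := r) (c := 1 / (2 * k)) hκ0.le H hw0
    rw [one_div_mul_eq_div, div_le_iff₀ (by positivity)] at h1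
    linarith
  have hexc : (((copies p r H).filter (fun Q => wt r w Q < 1 - 1 / 2)).card : ℝ) ≤ 2 * P * q := by
    have h1 := exc_bound (p := p) (r := r) hκ0.le (by norm_num : (0 : ℝ) ≤ 1 / 2) H hw0
    have h2 : 1 / q ≤ κ := by
      rw [hκ]; exact div_le_div_of_nonneg_right hK (by linarith)
    set c : ℝ := (((copies p r H).filter (fun Q => wt r w Q < 1 - 1 / 2)).card : ℝ) with hc
    have hc0 : 0 ≤ c := Nat.cast_nonneg _
    have h3 : 1 / q * (1 / 2) * c ≤ κ * (1 / 2) * c := by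
      apply mul_le_mul_of_nonneg_right _ hc0
      linarith
    have h4 : 1 / q * (1 / 2) * c ≤ P := h3.trans h1
    have h5 : 1 / q * (1 / 2) * c = c / (2 * q) := by field_simp
    rw [h5, div_le_iff₀ (by positivity)] at h4
    linarith
  have hsub : copies p r H ⊆ (copies p r H).filter (fun Q => wt r w Q < 1 - 1 / 2) ∪
      (copies p r H).filter (fun Q => ∃ e ∈ Y, e ⊆ Q) := by
    intro Q hQ
    rw [mem_union, mem_filter, mem_filter]
    by_cases hlt : wt r w Q < 1 - 1 / 2
    · exact Or.inl ⟨hQ, hlt⟩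
    · refine Or.inr ⟨hQ, ?_⟩
      push Not at hlt
      by_contra hcon
      push Not at hcon
      have hQ' := mem_copies.1 hQ
      have h1 : wt r w Q < 1 / 2 := by
        unfold wt
        have hne : (Q.powersetCard r).Nonempty := powersetCard_nonempty.2 (by omega)
        calc ∑ e ∈ Q.powersetCard r, w e < ∑ e ∈ Q.powersetCard r, 1 / (2 * k) := by
              refine sum_lt_sum_of_nonempty hne fun e he => ?_
              by_contra hge
              push Not at hge
              exact hcon e (mem_filter.2 ⟨hQ'.2 he, hge⟩) (mem_powersetCard.1 he).1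
          _ = k * (1 / (2 * k)) := by
              rw [sum_const, card_powersetCard, hQ'.1, nsmul_eq_mul]
          _ = 1 / 2 := by field_simp
      linarith
  have h1 : ((copies p r H).card : ℝ) ≤
      (((copies p r H).filter (fun Q => wt r w Q < 1 - 1 / 2)).card : ℝ) +
      (((copies p r H).filter (fun Q => ∃ e ∈ Y, e ⊆ Q)).card : ℝ) := by
    exact_mod_cast (card_le_card hsub).trans (card_union_le _ _)
  have h2 := copies_meet_le hrp.le H Y (fun e he => hH e (mem_filter.1 he).1)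
  rw [← hq] at h2
  have h3 : (Y.card : ℝ) * q ≤ 2 * k * P * q := mul_le_mul_of_nonneg_right hYc (by linarith)
  have h4 : ε * R * q ≤ (2 * k + 2) * P * q := by
    rw [mul_assoc, hRq]
    calc ε * (n : ℝ) ^ p ≤ (copies p r H).card := hcop
      _ ≤ 2 * P * q + 2 * k * P * q := by linarith
      _ = (2 * k + 2) * P * q := by ring
  have h5 : ε * R ≤ (2 * k + 2) * P := le_of_mul_le_mul_right h4 (by linarith)
  refine h5.trans ?_
  apply mul_le_mul_of_nonneg_left hwmin (by linarith)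

/-- main theorem -/
theorem main (r p : ℕ) (hr : 2 ≤ r) (hrp : r < p) (hp : 4 ≤ p) (ε : ℝ) (hε : 0 < ε) :
    ∃ δ : ℝ, 0 < δ ∧ ∃ N : ℕ, ∀ n : ℕ, N ≤ n → ∀ H : Finset (Finset (Fin n)),
      (∀ e ∈ H, e.card = r) →
      ∃ P : Finpartition H,
        (∀ B ∈ P.parts, B.card = 1 ∨ ∃ S : Finset (Fin n), S.card = p ∧ B = S.powersetCard r) ∧
        ∃ G : Finset (Finset (Fin n)), (∀ e ∈ G, e.card = r) ∧
          (∀ S : Finset (Fin n), S.card = p → ¬ S.powersetCard r ⊆ G) ∧
          (P.parts.card : ℝ) ≤ G.card + ε * (n : ℝ) ^ r ∧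
          (ε * (n : ℝ) ^ p ≤ (copies p r H).card ∨ al n p r + ε * (n : ℝ) ^ r ≤ H.card →
            (P.parts.card : ℝ) + δ * (n : ℝ) ^ r ≤ G.card) := by
  obtain ⟨hk4, -⟩ := sn_choose hr hrp hp
  have hk4' : (4 : ℝ) ≤ (p.choose r : ℝ) := by exact_mod_cast hk4
  set k : ℝ := (p.choose r : ℝ) with hk
  set c : ℝ := ε / (2 * (2 * k + 2)) with hc
  have hc0 : 0 < c := by positivity
  have hcε : c ≤ ε := by
    rw [hc]
    apply div_le_self hε.le
    linarith
  obtain ⟨δ1, K, hδ1, hK, N1, hN1⟩ := strict hr hrp hp hc0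
  set ε2 : ℝ := min δ1 c / (2 * (k - 1)) with hε2
  have hk1 : 0 < k - 1 := by linarith
  have hmin0 : 0 < min δ1 c := lt_min hδ1 hc0
  have hε20 : 0 < ε2 := by positivity
  have hkε2 : (k - 1) * ε2 = min δ1 c / 2 := by
    rw [hε2]; field_simp
  obtain ⟨N2, hN2⟩ := packing p r hr hrp K ε2 (by linarith) hε20
  obtain ⟨N3, hN3⟩ := exists_nat_ge (1 / c)
  refine ⟨min δ1 c / 2, by positivity, N1 + N2 + N3 + 1, fun n hn H hH => ?_⟩
  have n0 : 1 ≤ n := by omega
  set R : ℝ := (n : ℝ) ^ r with hRdef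
  have hnR : (n : ℝ) ≤ R := by
    have h1 : (1 : ℝ) ≤ n := by exact_mod_cast n0
    calc (n : ℝ) = (n : ℝ) ^ 1 := (pow_one _).symm
      _ ≤ (n : ℝ) ^ r := pow_le_pow_right₀ h1 (by omega)
  have hR1 : 1 ≤ R := le_trans (by exact_mod_cast n0) hnR
  have hcR : 1 ≤ c * R := by
    have h1 : 1 / c ≤ n := hN3.trans (by exact_mod_cast (by omega : N3 ≤ n))
    rw [div_le_iff₀ hc0] at h1
    nlinarith
  obtain ⟨M, hM, hdis, hMc⟩ := hN2 n (by omega) H hH
  obtain ⟨P, hPparts, hPc⟩ := partition (by omega) hrp H M hM hdis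
  obtain ⟨G, hG, hGc⟩ := exists_al (n := n) hrp.le
  set W : ℝ := WW p r (K / (n : ℝ) ^ (p - r)) H with hW
  have hPc' : (P.parts.card : ℝ) + (k - 1) * M.card ≤ H.card := by
    have h1 : ((P.parts.card + (p.choose r - 1) * M.card : ℕ) : ℝ) ≤ (H.card : ℝ) := by
      exact_mod_cast hPc
    rw [Nat.cast_add, Nat.cast_mul, Nat.cast_sub (by omega), Nat.cast_one] at h1
    exact h1
  have hMW : (k - 1) * W - min δ1 c / 2 * R ≤ (k - 1) * M.card := by
    have h1 := mul_le_mul_of_nonneg_left hMc hk1.le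
    have h2 : (k - 1) * (W - ε2 * R) = (k - 1) * W - (k - 1) * ε2 * R := by ring
    rw [h2, hkε2] at h1
    exact h1
  refine ⟨P, hPparts, G, hG.1, hG.2, ?_⟩
  rw [hGc]
  by_cases hbig : al n p r + c * R ≤ H.card
  · have h1 := hN1 n (by omega) H hH hbig
    have h2 : (P.parts.card : ℝ) + min δ1 c / 2 * R ≤ al n p r := by
      have h3 : min δ1 c * R ≤ δ1 * R := mul_le_mul_of_nonneg_right (min_le_left _ _) (by linarith)
      linarith
    have h4 : 0 ≤ min δ1 c / 2 * R := by positivity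
    have h5 : 0 ≤ ε * R := by positivity
    exact ⟨by linarith, fun _ => h2⟩
  · push Not at hbig
    have h0 : 0 ≤ (k - 1) * (M.card : ℝ) := by positivity
    have h1 : c * R ≤ ε * R := mul_le_mul_of_nonneg_right hcε (by linarith)
    refine ⟨by linarith, fun hcop' => ?_⟩
    have hcop : ε * (n : ℝ) ^ p ≤ (copies p r H).card := by
      rcases hcop' with h | h
      · exact h
      · exfalso
        linarith
    have h2 := WW_large hr hrp hp hK n0 H hH hcop
    rw [← hk, ← hRdef, ← hW] at h2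
    -- W ≥ 2 c R - 1 ≥ c R
    have h3 : 2 * (c * R) ≤ W + 1 := by
      have h4 : ε * R = (2 * k + 2) * (2 * (c * R)) := by
        rw [hc]; field_simp
      rw [h4] at h2
      exact le_of_mul_le_mul_left h2 (by linarith)
    have h5 : 3 * (c * R) ≤ (k - 1) * W := by
      have h6 : c * R ≤ W := by linarith
      have h7 : (k - 1) * (c * R) ≤ (k - 1) * W := mul_le_mul_of_nonneg_left h6 hk1.le
      have h8 : 3 * (c * R) ≤ (k - 1) * (c * R) :=
        mul_le_mul_of_nonneg_right (by linarith) (by positivity)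
      linarith
    have h9 : min δ1 c * R ≤ c * R := mul_le_mul_of_nonneg_right (min_le_right _ _) (by linarith)
    linarith

end ES
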