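import Mathlib
import Pool.Agent.Lib.MP_1f562f_co.Main

/-!
# MP_1f562f_co: the Erdős–Sauer conjecture, asymptotically and for dense excess

Fix `2 ≤ r < p`, `p ≥ 4`. For large `n` every `r`-graph `H` on `n` vertices has an admissible partition
(parts: single edges or full edge sets of copies of `K_p^r`) with at most `α(n,p,r) + ε n^r` parts; and if
`H` contains at least `ε n^p` copies of `K_p^r`, or has at least `α(n,p,r) + ε n^r` edges, then with at most
`α(n,p,r) - δ n^r` parts.

Proof idea. A fractional packing of copies with all weights at most `K n^{-(p-r)}` (LP duality) is rounded to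
an integral one by the nibble. The dual solution is rounded to a cover: remove heavy edges as long as it
pays off, then the support of an optimal dual has size at most `k ν*` and contains a `K_{r+1}^r`-free subgraph
with a `1/r` proportion of its edges. Supersaturation turns covers of all but few copies into the Turán bound.
The strict saving comes from a rainbow subgraph of the heavy edges.
-/

set_option autoImplicit false

namespace Pool.Agent.Lib.MP_1f562f_co.DenseErdosSauer

open Finset

theorem result :
    ∀ r p : ℕ, 2 ≤ r → r < p → 4 ≤ p → ∀ ε : ℝ, 0 < ε →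
      ∃ δ : ℝ, 0 < δ ∧ ∃ N : ℕ, ∀ n : ℕ, N ≤ n →
        ∀ H : Finset (Finset (Fin n)), (∀ e ∈ H, e.card = r) →
          ∃ P : Finpartition H,
            (∀ B ∈ P.parts, B.card = 1 ∨
              ∃ S : Finset (Fin n), S.card = p ∧ B = S.powersetCard r) ∧
            ∃ G : Finset (Finset (Fin n)),
              (∀ e ∈ G, e.card = r) ∧
              (∀ S : Finset (Fin n), S.card = p → ¬ S.powersetCard r ⊆ G) ∧
              (P.parts.card : ℝ) ≤ G.card + ε * (n : ℝ) ^ r ∧
              ((ε * (n : ℝ) ^ p ≤
                  ((((univ : Finset (Fin n)).powersetCard p).filter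
                    (fun S => S.powersetCard r ⊆ H)).card : ℝ) ∨
                ∀ G' : Finset (Finset (Fin n)), (∀ e ∈ G', e.card = r) →
                  (∀ S : Finset (Fin n), S.card = p → ¬ S.powersetCard r ⊆ G') →
                    (G'.card : ℝ) + ε * (n : ℝ) ^ r ≤ H.card) →
                (P.parts.card : ℝ) + δ * (n : ℝ) ^ r ≤ G.card) := by
  intro r p hr hrp hp ε hε
  obtain ⟨δ, hδ, N, hN⟩ := ES.main r p hr hrp hp ε hε
  refine ⟨δ, hδ, N, fun n hn H hH => ?_⟩
  obtain ⟨P, hP, G, hG1, hG2, h1, h2⟩ := hN n hn H hH
  refine ⟨P, hP, G, hG1, hG2, h1, fun h => h2 ?_⟩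
  rcases h with h | h
  · exact Or.inl h
  · right
    obtain ⟨G', hG', hG'c⟩ := ES.exists_al (n := n) hrp.le
    have := h G' hG'.1 hG'.2
    rwa [hG'c] at this

end Pool.Agent.Lib.MP_1f562f_co.DenseErdosSauer
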