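import Pool.Agent.Lib.MP_1f562f_co.Basic

/-!
# Erdős–Sauer: the dual functional, infimum
-/

set_option autoImplicit false

open Finset

namespace ES

variable {n : ℕ}

theorem Phi_nonneg {p r : ℕ} {κ : ℝ} (hκ : 0 ≤ κ) (H : Finset (Finset (Fin n)))
    {w : Finset (Fin n) → ℝ} (hw : ∀ e, 0 ≤ w e) : 0 ≤ Phi p r κ H w := by
  unfold Phi
  have h1 : 0 ≤ ∑ e ∈ H, w e := sum_nonneg fun e _ => hw e
  have h2 : 0 ≤ ∑ Q ∈ copies p r H, max 0 (1 - wt r w Q) := sum_nonneg fun Q _ => le_max_left _ _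
  positivity

/-- the set in the definition of `WW` is bounded below by `0` (`Phi_nonneg`), so `WW ≤ Phi w` -/
theorem WW_le {p r : ℕ} {κ : ℝ} (hκ : 0 ≤ κ) (H : Finset (Finset (Fin n)))
    {w : Finset (Fin n) → ℝ} (hw : ∀ e, 0 ≤ w e) : WW p r κ H ≤ Phi p r κ H w := by
  unfold WW
  refine csInf_le ⟨0, ?_⟩ ⟨w, hw, rfl⟩
  rintro x ⟨w', hw', rfl⟩
  exact Phi_nonneg hκ H hw'

theorem WW_nonneg {p r : ℕ} {κ : ℝ} (hκ : 0 ≤ κ) (H : Finset (Finset (Fin n))) :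
    0 ≤ WW p r κ H := by
  unfold WW
  refine Real.sInf_nonneg ?_
  rintro x ⟨w', hw', rfl⟩
  exact Phi_nonneg hκ H hw'

/-- near minimizers -/
theorem exists_near {p r : ℕ} {κ : ℝ} (H : Finset (Finset (Fin n))) {ξ : ℝ}
    (hξ : 0 < ξ) : ∃ w : Finset (Fin n) → ℝ, (∀ e, 0 ≤ w e) ∧ Phi p r κ H w ≤ WW p r κ H + ξ := by
  have hne : {x | ∃ w : Finset (Fin n) → ℝ, (∀ e, 0 ≤ w e) ∧ x = Phi p r κ H w}.Nonempty :=
    ⟨_, fun _ => 0, fun _ => le_rfl, rfl⟩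
  obtain ⟨x, ⟨w, hw, rfl⟩, hx⟩ := exists_lt_of_csInf_lt hne
    (show WW p r κ H < WW p r κ H + ξ by linarith)
  exact ⟨w, hw, hx.le⟩

/-- `WW ≤ |H|` (take `w = 1`: every copy `Q` has weight `C(p,r) ≥ 1`, so there is no penalty) -/
theorem WW_le_card {p r : ℕ} {κ : ℝ} (hκ : 0 ≤ κ) (hrp : r ≤ p) (H : Finset (Finset (Fin n))) :
    WW p r κ H ≤ H.card := by
  refine (WW_le hκ H (w := fun _ => 1) fun _ => zero_le_one).trans (le_of_eq ?_)
  unfold Phi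
  have h : ∀ Q ∈ copies p r H, max 0 (1 - wt r (fun _ => (1 : ℝ)) Q) = 0 := by
    intro Q hQ
    rw [mem_copies] at hQ
    have h1 : (1 : ℝ) ≤ wt r (fun _ => (1 : ℝ)) Q := by
      unfold wt
      rw [sum_const, card_powersetCard, hQ.1, nsmul_eq_mul, mul_one]
      exact_mod_cast Nat.choose_pos hrp
    exact max_eq_left (by linarith)
  rw [sum_congr rfl h]
  simp

end ES
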