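import Pool.Agent.Lib.MP_1f562f_co.Dual1
import Pool.Agent.Lib.MP_5f0bce_co.Minimax

/-!
# Erdős–Sauer: duality (existence of a spread fractional packing)
-/

set_option autoImplicit false

open Finset

namespace ES

variable {n : ℕ}

/-- For every `0 ≤ s < WW κ H` there is a fractional packing `f` of the copies with total weight `s` and
all weights at most `κ`.

Proof.  If `s = 0` take `f = 0`; let `s > 0`.  Use `Pool.Agent.MP5f0bce.minimax` with
`X` = the subtype of `copies p r H` (it is nonempty: otherwise `WW ≤ Phi 0 = 0`),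
`P` = subtype of `H` ⊕ `X`,
`A Q (inl e) = - s [e ∈ powersetCard r Q]`, `A Q (inr Q') = - (s / κ) [Q = Q']` and `δ = -1`.

First alternative: `ν ∈ stdSimplex` with `-1 ≤ ∑ ν A`: put `f Q = s ν Q` for copies `Q` (and `0` otherwise):
`∑ f = s`, `f Q ≤ κ` (row `inr Q`), and the degree condition (row `inl e`).

Second alternative: `μ ∈ stdSimplex P` with `∑_p μ p A Q p < -1` for all copies `Q`, i.e.
`s ∑_{e ⊆ Q} μ (inl e) + (s / κ) μ (inr Q) > 1`.  Put `w e = s μ (inl e)` for `e ∈ H` (and `0` otherwise).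
For a copy `Q` all edges are in `H`, so `wt w Q > 1 - (s / κ) μ (inr Q)`, hence
`max 0 (1 - wt w Q) ≤ (s / κ) μ (inr Q)` and
`Phi w ≤ s ∑_e μ (inl e) + κ ∑_Q (s / κ) μ (inr Q) = s`.  So `WW ≤ s`, a contradiction. -/
theorem duality {p r : ℕ} {κ s : ℝ} (hκ : 0 < κ) (H : Finset (Finset (Fin n)))
    (hs0 : 0 ≤ s) (hs : s < WW p r κ H) :
    ∃ f : Finset (Fin n) → ℝ, (∀ Q, 0 ≤ f Q) ∧ (∀ Q, f Q ≤ κ) ∧
      (∀ e ∈ H, ∑ Q ∈ (copies p r H).filter (fun Q => e ∈ Q.powersetCard r), f Q ≤ 1) ∧
      ∑ Q ∈ copies p r H, f Q = s := by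
  classical
  rcases hs0.eq_or_lt with h0 | hspos
  · refine ⟨fun _ => 0, fun _ => le_rfl, fun _ => hκ.le, fun e _ => ?_, ?_⟩
    · rw [sum_const_zero]
      exact zero_le_one
    · rw [sum_const_zero]
      exact h0
  have hne : (copies p r H).Nonempty := by
    by_contra hcon
    rw [not_nonempty_iff_eq_empty] at hcon
    have h1 : WW p r κ H ≤ Phi p r κ H (fun _ => 0) := WW_le hκ.le H fun _ => le_rfl
    have h2 : Phi p r κ H (fun _ => 0) = 0 := by
      unfold Phi
      rw [hcon]
      simp
    linarith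
  obtain ⟨Q0, hQ0⟩ := hne
  have : Nonempty {Q // Q ∈ copies p r H} := ⟨⟨Q0, hQ0⟩⟩
  have hsκ : 0 < s / κ := div_pos hspos hκ
  rcases Pool.Agent.MP5f0bce.minimax (X := {Q // Q ∈ copies p r H})
    (P := {e // e ∈ H} ⊕ {Q // Q ∈ copies p r H})
    (fun Q P => Sum.elim (fun e => -(s * if e.1 ∈ Q.1.powersetCard r then 1 else 0))
      (fun Q' => -((s / κ) * if Q = Q' then 1 else 0)) P) (-1) with ⟨ν, hν, h⟩ | ⟨μ, hμ, h⟩
  · have hν0 : ∀ x, 0 ≤ ν x := hν.1
    have hν1 : ∑ x, ν x = 1 := hν.2
    let f : Finset (Fin n) → ℝ := fun Q => if h : Q ∈ copies p r H then s * ν ⟨Q, h⟩ else 0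
    have hf : ∀ x : {Q // Q ∈ copies p r H}, f x.1 = s * ν x := by
      intro x
      simp only [f, dif_pos x.2]
    have hfκ : ∀ x : {Q // Q ∈ copies p r H}, s * ν x ≤ κ := by
      intro x
      have h1 := h (Sum.inr x)
      simp only [Sum.elim_inr] at h1
      have h2 : ∑ y : {Q // Q ∈ copies p r H}, ν y * -((s / κ) * if y = x then 1 else 0) =
          -((s / κ) * ν x) := by
        rw [sum_eq_single x]
        · rw [if_pos rfl]
          ring
        · intro y _ hy
          rw [if_neg hy]
          ring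
        · intro hx
          exact absurd (mem_univ x) hx
      rw [h2] at h1
      have h3 : s / κ * ν x ≤ 1 := by linarith
      have h4 : s / κ * ν x = s * ν x / κ := by ring
      rw [h4, div_le_one hκ] at h3
      exact h3
    refine ⟨f, ?_, ?_, ?_, ?_⟩
    · intro Q
      by_cases hQ : Q ∈ copies p r H
      · rw [hf ⟨Q, hQ⟩]
        exact mul_nonneg hs0 (hν0 _)
      · simp only [f, dif_neg hQ]
        exact le_rfl
    · intro Q
      by_cases hQ : Q ∈ copies p r H
      · rw [hf ⟨Q, hQ⟩]
        exact hfκ _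
      · simp only [f, dif_neg hQ]
        exact hκ.le
    · intro e he
      have h1 := h (Sum.inl ⟨e, he⟩)
      simp only [Sum.elim_inl] at h1
      rw [sum_filter, ← sum_coe_sort]
      have h2 : ∑ x : {Q // Q ∈ copies p r H}, ν x * -(s * if e ∈ x.1.powersetCard r then 1 else 0) =
          -∑ x : {Q // Q ∈ copies p r H}, if e ∈ x.1.powersetCard r then f x.1 else 0 := by
        rw [← sum_neg_distrib]
        refine sum_congr rfl fun x _ => ?_
        rw [hf x]
        by_cases hx : e ∈ x.1.powersetCard r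
        · rw [if_pos hx, if_pos hx]
          ring
        · rw [if_neg hx, if_neg hx]
          ring
      rw [h2] at h1
      linarith
    · rw [← sum_coe_sort]
      rw [sum_congr rfl fun x _ => hf x, ← mul_sum, hν1, mul_one]
  · exfalso
    have hμ0 : ∀ x, 0 ≤ μ x := hμ.1
    have hμ1 : ∑ x, μ x = 1 := hμ.2
    rw [Fintype.sum_sum_type] at hμ1
    let w : Finset (Fin n) → ℝ := fun e => if h : e ∈ H then s * μ (Sum.inl ⟨e, h⟩) else 0
    have hw : ∀ e, 0 ≤ w e := by
      intro e
      by_cases he : e ∈ H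
      · simp only [w, dif_pos he]
        exact mul_nonneg hs0 (hμ0 _)
      · simp only [w, dif_neg he]
        exact le_rfl
    have hwe : ∀ e : {e // e ∈ H}, w e.1 = s * μ (Sum.inl e) := by
      intro e
      simp only [w, dif_pos e.2]
    have hpen : ∀ x : {Q // Q ∈ copies p r H}, max 0 (1 - wt r w x.1) ≤ (s / κ) * μ (Sum.inr x) := by
      intro x
      refine max_le (mul_nonneg hsκ.le (hμ0 _)) ?_
      have h1 := h x
      rw [Fintype.sum_sum_type] at h1
      simp only [Sum.elim_inl, Sum.elim_inr] at h1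
      have h2 : ∑ y : {Q // Q ∈ copies p r H}, μ (Sum.inr y) * -((s / κ) * if x = y then 1 else 0) =
          -((s / κ) * μ (Sum.inr x)) := by
        rw [sum_eq_single x]
        · rw [if_pos rfl]
          ring
        · intro y _ hy
          rw [if_neg (fun hxy => hy hxy.symm)]
          ring
        · intro hx
          exact absurd (mem_univ x) hx
      have hx := mem_copies.1 x.2
      have h3 : ∑ e : {e // e ∈ H}, μ (Sum.inl e) * -(s * if e.1 ∈ x.1.powersetCard r then 1 else 0) =
          -wt r w x.1 := by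
        unfold wt
        have h4 : ∑ e ∈ x.1.powersetCard r, w e = ∑ e ∈ H, if e ∈ x.1.powersetCard r then w e else 0 := by
          rw [← sum_filter, filter_mem_eq_inter, inter_eq_right.2 hx.2]
        rw [h4, ← sum_coe_sort H, ← sum_neg_distrib]
        refine sum_congr rfl fun e _ => ?_
        rw [hwe e]
        by_cases he : e.1 ∈ x.1.powersetCard r
        · rw [if_pos he, if_pos he]
          ring
        · rw [if_neg he, if_neg he]
          ring
      rw [h2, h3] at h1
      linarith
    have hPhi : Phi p r κ H w ≤ s := by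
      unfold Phi
      have h1 : ∑ e ∈ H, w e = s * ∑ e : {e // e ∈ H}, μ (Sum.inl e) := by
        rw [← sum_coe_sort H, mul_sum]
        exact sum_congr rfl fun e _ => hwe e
      have h2 : ∑ Q ∈ copies p r H, max 0 (1 - wt r w Q) ≤
          (s / κ) * ∑ x : {Q // Q ∈ copies p r H}, μ (Sum.inr x) := by
        rw [← sum_coe_sort (copies p r H), mul_sum]
        exact sum_le_sum fun x _ => hpen x
      have h3 := mul_le_mul_of_nonneg_left h2 hκ.le
      have h4 : κ * ((s / κ) * ∑ x : {Q // Q ∈ copies p r H}, μ (Sum.inr x)) =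
          s * ∑ x : {Q // Q ∈ copies p r H}, μ (Sum.inr x) := by
        rw [← mul_assoc, mul_div_cancel₀ _ hκ.ne']
      rw [h4] at h3
      rw [h1]
      have h5 : s * ∑ e : {e // e ∈ H}, μ (Sum.inl e) +
          s * ∑ x : {Q // Q ∈ copies p r H}, μ (Sum.inr x) = s := by
        rw [← mul_add, hμ1, mul_one]
      linarith
    have hWW := WW_le (p := p) (r := r) hκ.le H hw
    linarith

end ES
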