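import Mathlib

/-!
# Erdős–Sauer: numerical inequalities used in `Strict.lean`
-/

set_option autoImplicit false

namespace ES

theorem sn_choose {p r : ℕ} (hr : 2 ≤ r) (hrp : r < p) (hp : 4 ≤ p) :
    4 ≤ p.choose r ∧ r + 1 ≤ p.choose r := by
  have h1 : ∀ m r : ℕ, 1 ≤ r → r < m → m ≤ m.choose r := by
    intro m
    induction m with
    | zero => intro r _ h; omega
    | succ m ih =>
      intro r h1 h2
      obtain ⟨r, rfl⟩ : ∃ r', r = r' + 1 := ⟨r - 1, by omega⟩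
      rw [Nat.choose_succ_succ']
      rcases Nat.lt_or_ge (r + 1) m with h | h
      · have := ih (r + 1) (by omega) h
        have h3 : 0 < m.choose r := Nat.choose_pos (by omega)
        omega
      · have hm : m = r + 1 := by omega
        subst hm
        simp
  have := h1 p r (by omega) hrp
  exact ⟨by omega, by omega⟩

theorem sn_gm {θ x y : ℝ} (hθ : 0 < θ) (hx : 2 ≤ x) (hy : y = θ / 2 / x) : y ≤ θ / 4 := by
  have hx0 : 0 < x := by linarith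
  rw [hy, div_le_iff₀ hx0]
  nlinarith

theorem sn_F {k R β N : ℝ} (hR : 0 ≤ R) (h : 8 * (k - 1) ≤ β * N) :
    2 * (4 * (k - 1) * R) ≤ β * R * N := by
  have := mul_le_mul_of_nonneg_right h hR
  linarith

theorem sn_hs2 {k A L W s δR : ℝ} (hk : 4 ≤ k) (hAL : L + A ≤ W + 1)
    (hcon : (k - 1) * W < s + δR) : (k - 1) * (A + L) < s + δR + (k - 1) := by
  have := mul_le_mul_of_nonneg_left hAL (by linarith : 0 ≤ k - 1)
  linarith

theorem sn_gap {k A L W1 s F τ R δR : ℝ} (hk : 4 ≤ k) (hδ : 0 ≤ δR) (ht : 0 ≤ τ)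
    (hW : W1 ≤ R)
    (hs1 : s ≤ (k - 1) * (A + F) + ((k - 1) * (1 + τ) * W1 + 2) + δR)
    (hs2 : (k - 1) * (A + L) < s + δR + (k - 1)) : L ≤ W1 + (F + τ * R + δR + 2) := by
  have h1 : (k - 1) * L < (k - 1) * F + (k - 1) * (1 + τ) * W1 + 2 + 2 * δR + (k - 1) := by
    linarith
  have h2 : (k - 1) * (τ * W1) ≤ (k - 1) * (τ * R) := by
    apply mul_le_mul_of_nonneg_left _ (by linarith)
    exact mul_le_mul_of_nonneg_left hW ht
  have h3 : 2 * δR ≤ (k - 1) * δR := mul_le_mul_of_nonneg_right (by linarith) hδ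
  have h4 : (k - 1) * L < (k - 1) * (W1 + (F + τ * R + δR + 2)) := by
    have e1 : (k - 1) * (W1 + (F + τ * R + δR + 2)) =
      (k - 1) * W1 + (k - 1) * F + (k - 1) * (τ * R) + (k - 1) * δR + 2 * (k - 1) := by ring
    have e2 : (k - 1) * (1 + τ) * W1 = (k - 1) * W1 + (k - 1) * (τ * W1) := by ring
    rw [e1]
    rw [e2] at h1
    linarith
  exact (lt_of_mul_lt_mul_left h4 (by linarith)).le

theorem sn_supp {g gm β R τ δR F : ℝ} (hgm : gm ≤ g) (hβR : 0 ≤ β * R) (hR : 0 ≤ R)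
    (hF : F ≤ g * (β * R)) (hτ : τ ≤ β * gm / 4) (hδ : δR ≤ β * gm / 4 * R)
    (h4 : 4 ≤ β * gm * R) : F + τ * R + δR + 2 ≤ g * (2 * (β * R)) := by
  have e1 : τ * R ≤ β * gm / 4 * R := mul_le_mul_of_nonneg_right hτ hR
  have e3 : gm * (β * R) ≤ g * (β * R) := mul_le_mul_of_nonneg_right hgm hβR
  have e4 : β * gm * R = gm * (β * R) := by ring
  have e5 : β * gm / 4 * R = gm * (β * R) / 4 := by ring
  rw [e5] at e1 hδ
  rw [e4] at h4
  linarith

theorem sn_light {k θ g gm x : ℝ} (hk : 4 ≤ k) (hkθ : (k - 1) * θ = 1) (hg : 0 < g)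
    (hgm : gm ≤ g) (h : 1 - gm - (k - 1) * (θ - g) ≤ x) : g ≤ x := by
  have h2 : (k - 1) * (θ - g) = 1 - (k - 1) * g := by rw [mul_sub, hkθ]
  rw [h2] at h
  have : 3 * g ≤ (k - 1) * g := mul_le_mul_of_nonneg_right (by linarith) hg.le
  linarith

theorem sn_L {r k A L F s δR βR X D : ℝ} (hr : 1 ≤ r) (hk : 4 ≤ k) (hkr : r + 1 ≤ k)
    (hL0 : 0 ≤ L) (hβ : 0 ≤ βR) (hδβ : 2 * δR ≤ βR) (hkβ : k ≤ βR) (hF : F ≤ βR)
    (hX : X ≤ (k - 1) * (A + F)) (hD : r * D ≤ (r - 1) * (k * L + 2 * βR))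
    (hs3 : s ≤ X + D + δR) (hs2 : (k - 1) * (A + L) < s + δR + (k - 1)) :
    L ≤ r * (k + 3) * βR := by
  have h1 : r * s ≤ r * ((k - 1) * (A + F)) + (r - 1) * (k * L + 2 * βR) + r * δR := by
    have e1 : r * s ≤ r * (X + D + δR) := mul_le_mul_of_nonneg_left hs3 (by linarith)
    have e2 : r * X ≤ r * ((k - 1) * (A + F)) := mul_le_mul_of_nonneg_left hX (by linarith)
    have e3 : r * (X + D + δR) = r * X + r * D + r * δR := by ring
    linarith
  have h2 : r * ((k - 1) * (A + L)) ≤ r * (s + δR + (k - 1)) :=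
    mul_le_mul_of_nonneg_left hs2.le (by linarith)
  have h4 : (k - r) * L ≤ r * ((k - 1) * F) + (r - 1) * (2 * βR) + r * (2 * δR) + r * (k - 1) := by
    have e1 : (k - r) * L = r * ((k - 1) * (A + L)) - r * ((k - 1) * A) - (r - 1) * (k * L) := by
      ring
    have e2 : r * (s + δR + (k - 1)) = r * s + r * δR + r * (k - 1) := by ring
    have e3 : r * ((k - 1) * (A + F)) = r * ((k - 1) * A) + r * ((k - 1) * F) := by ring
    have e4 : (r - 1) * (k * L + 2 * βR) = (r - 1) * (k * L) + (r - 1) * (2 * βR) := by ring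
    rw [e1]
    rw [e2] at h2
    rw [e3, e4] at h1
    linarith
  have h5 : L ≤ (k - r) * L := le_mul_of_one_le_left hL0 (by linarith)
  have h6 : (k - 1) * F ≤ (k - 1) * βR := mul_le_mul_of_nonneg_left hF (by linarith)
  have h7 : r * ((k - 1) * F) ≤ r * ((k - 1) * βR) := mul_le_mul_of_nonneg_left h6 (by linarith)
  have h8 : r * (k - 1) ≤ r * βR := mul_le_mul_of_nonneg_left (by linarith) (by linarith)
  have h9 : r * (2 * δR) ≤ r * βR := mul_le_mul_of_nonneg_left hδβ (by linarith)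
  have e : r * (k + 3) * βR = r * ((k - 1) * βR) + (r - 1) * (2 * βR) + r * βR + r * βR + 2 * βR := by
    ring
  rw [e]
  linarith

theorem sn_Xlow {k C1 L δR βR D X s : ℝ} (hD : D ≤ k * L + 2 * βR) (hkL : k * L ≤ k * (C1 * βR))
    (hδβ : 2 * δR ≤ βR) (hβ : 0 ≤ βR) (hs3 : s ≤ X + D + δR) : s - (k * C1 + 3) * βR ≤ X := by
  have e : (k * C1 + 3) * βR = k * (C1 * βR) + 3 * βR := by ring
  rw [e]; linarith

theorem sn_X2b {k θ C1 A F X bX s δR βR : ℝ} (hθ0 : 0 < θ) (hθ : θ ≤ 1 / 3)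
    (hkθ : (k - 1) * θ = 1) (hC : 0 ≤ k * C1)
    (hheavy : θ * X + bX ≤ A + F) (hA : (k - 1) * A ≤ s + δR + (k - 1))
    (hX : s - (k * C1 + 3) * βR ≤ X) (hF : F ≤ βR) (hβ : 1 ≤ βR) (hδ0 : 0 ≤ δR)
    (hδβ : 2 * δR ≤ βR) : bX ≤ (k * C1 + 6) * βR := by
  have h1 : A ≤ θ * (s + δR) + 1 := by
    have h2 := mul_le_mul_of_nonneg_left hA hθ0.le
    have h3 : θ * ((k - 1) * A) = A := by rw [← mul_assoc, mul_comm θ, hkθ, one_mul]
    have h4 : θ * (s + δR + (k - 1)) = θ * (s + δR) + 1 := by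
      rw [mul_add θ (s + δR), mul_comm θ (k - 1), hkθ]
    linarith
  have h5 : θ * (s - (k * C1 + 3) * βR) ≤ θ * X := mul_le_mul_of_nonneg_left hX hθ0.le
  have h6 : θ * δR ≤ 1 * δR := mul_le_mul_of_nonneg_right (by linarith) hδ0
  have h7 : θ * ((k * C1 + 3) * βR) ≤ 1 * ((k * C1 + 3) * βR) := by
    apply mul_le_mul_of_nonneg_right (by linarith)
    apply mul_nonneg <;> linarith
  have e1 : θ * (s - (k * C1 + 3) * βR) = θ * s - θ * ((k * C1 + 3) * βR) := by ring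
  have e2 : θ * (s + δR) = θ * s + θ * δR := by ring
  have e3 : (k * C1 + 6) * βR = (k * C1 + 3) * βR + 3 * βR := by ring
  rw [e3]
  rw [e1] at h5
  rw [e2] at h1
  linarith

theorem sn_Xup {k A F X s δR βR : ℝ} (hk : 4 ≤ k) (hF : F ≤ βR)
    (hA : (k - 1) * A ≤ s + δR + (k - 1)) (hX : X ≤ (k - 1) * (A + F)) (hkβ : k ≤ βR)
    (hδβ : 2 * δR ≤ βR) (hβ : 0 ≤ βR) : X ≤ s + (k + 1) * βR := by
  have h6 : (k - 1) * F ≤ (k - 1) * βR := mul_le_mul_of_nonneg_left hF (by linarith)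
  have e1 : (k - 1) * (A + F) = (k - 1) * A + (k - 1) * F := by ring
  have e2 : (k + 1) * βR = (k - 1) * βR + 2 * βR := by ring
  rw [e1] at hX
  rw [e2]
  linarith

theorem sn_H2 {k C1 ρ ε R β H X X2 H2 s al : ℝ} (hρ0 : 0 < ρ) (hρ1 : ρ ≤ 1) (hε : 0 < ε)
    (hR : 0 < R) (hX2 : 0 ≤ X2) (hβR : 0 ≤ β * R) (hk : 0 ≤ k)
    (h1 : H2 ≥ H - X + ρ * (X - X2)) (hXup : X ≤ s + (k + 1) * (β * R))
    (hX2card : X2 ≤ (k * C1 + 6) * (8 * k * (k - 1)) * (β * R))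
    (hβ2 : (k + 1 + (k * C1 + 6) * (8 * k * (k - 1))) * β ≤ ρ * ε / 2)
    (hs : ε * R ≤ s) (hH : H = s + al) : al + ρ * ε / 4 * R < H2 := by
  have h3 : (1 - ρ) * X ≤ (1 - ρ) * (s + (k + 1) * (β * R)) :=
    mul_le_mul_of_nonneg_left hXup (by linarith)
  have h4 : ρ * X2 ≤ 1 * X2 := mul_le_mul_of_nonneg_right hρ1 hX2
  have h5 : (1 - ρ) * ((k + 1) * (β * R)) ≤ 1 * ((k + 1) * (β * R)) := by
    apply mul_le_mul_of_nonneg_right (by linarith)
    apply mul_nonneg (by linarith) hβR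
  have h6 : (k + 1 + (k * C1 + 6) * (8 * k * (k - 1))) * (β * R) ≤ ρ * ε / 2 * R := by
    have := mul_le_mul_of_nonneg_right hβ2 hR.le
    have e : (k + 1 + (k * C1 + 6) * (8 * k * (k - 1))) * (β * R) =
      (k + 1 + (k * C1 + 6) * (8 * k * (k - 1))) * β * R := by ring
    rw [e]; exact this
  have h7 : ρ * (ε * R) ≤ ρ * s := mul_le_mul_of_nonneg_left hs hρ0.le
  have h8 : 0 < ρ * ε * R := by positivity
  have e1 : H - X + ρ * (X - X2) = H - (1 - ρ) * X - ρ * X2 := by ring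
  have e2 : (1 - ρ) * (s + (k + 1) * (β * R)) = s - ρ * s + (1 - ρ) * ((k + 1) * (β * R)) := by ring
  have e3 : (k + 1 + (k * C1 + 6) * (8 * k * (k - 1))) * (β * R) =
    (k + 1) * (β * R) + (k * C1 + 6) * (8 * k * (k - 1)) * (β * R) := by ring
  rw [e1] at h1
  rw [e2] at h3
  rw [e3] at h6
  have e4 : ρ * (ε * R) = ρ * ε * R := by ring
  rw [e4] at h7
  linarith

theorem sn_b {k θ b : ℝ} (hk : 4 ≤ k) (hθ : 0 < θ) (hb : b = θ / (8 * k)) :
    (k - 2) * b ≤ θ / 8 := by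
  have hk0 : 0 < k := by linarith
  rw [hb, mul_div_assoc', div_le_div_iff₀ (by positivity) (by norm_num)]
  nlinarith

theorem sn_Y {k x : ℝ} (hk : 4 ≤ k) (hx : 0 ≤ x) : (2 * k * (k - 1)) * x ≤ 2 * k ^ 2 * x := by
  apply mul_le_mul_of_nonneg_right _ hx
  nlinarith

end ES
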