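import Pool.Agent.Lib.MP_1f562f_co.Avg

/-!
# Erdős–Sauer: supersaturation
-/

set_option autoImplicit false

open Finset

namespace ES

theorem Supersat_aux (a b c d e k x : ℝ) (ha : 0 < a) (hc : 0 < c) (he : 0 < e) :
    b * x + c * (k * (b * d / e)) = (a * (x / c) + a * d * (k / e)) * (b * c / a) := by
  have h1 : a * (x / c) * (b * c / a) = b * x := by field_simp
  have h2 : a * d * (k / e) * (b * c / a) = c * (k * (b * d / e)) := by field_simp
  rw [add_mul, h1, h2]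

/-- Supersaturation.

Proof.  Let `L = inf_{m ≥ p} α(m,p,r)/C(m,r)` (a real number in `[0,1]`), choose `m ≥ p` with
`α(m,p,r)/C(m,r) ≤ L + ε/2`, and `γ = (ε/4) / (C(m,p) p^p)` or smaller.  For `n ≥ m` divide `averaging` by
`C(n,m) C(m,r) / C(n,r) = C(n-r,m-r)` (`Nat.choose_mul`), and `C(n-p,m-p) C(n,p) = C(n,m) C(m,p)`:
`|H| ≤ C(n,r) (α(m,p,r)/C(m,r)) + C(n,r) C(m,p) |copies H| / C(n,p)`.
Here `C(n,r) ≤ n^r`, `C(n,p) ≥ (n/p)^p` (`Nat.pow_le_choose` or `Nat.choose_le..`; `n ≥ p`), so the second term is at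
most `n^r C(m,p) γ p^p ≤ (ε/2) n^r`, and the first is at most `C(n,r) L + (ε/2) n^r ≤ α(n,p,r) + (ε/2) n^r`
because `n ≥ p`. -/
theorem supersat (p r : ℕ) (hr : 1 ≤ r) (hrp : r < p) (ε : ℝ) (hε : 0 < ε) :
    ∃ γ : ℝ, 0 < γ ∧ ∃ N : ℕ, ∀ n : ℕ, N ≤ n → ∀ H : Finset (Finset (Fin n)),
      (∀ e ∈ H, e.card = r) → ((copies p r H).card : ℝ) ≤ γ * (n : ℝ) ^ p →
      (H.card : ℝ) ≤ al n p r + ε * (n : ℝ) ^ r := by
  classical
  let A : Set ℝ := {x | ∃ m : ℕ, p ≤ m ∧ x = (al m p r : ℝ) / (m.choose r : ℝ)}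
  have hA0 : ∀ x ∈ A, (0:ℝ) ≤ x := by
    rintro x ⟨m, _, rfl⟩
    positivity
  have hAb : BddBelow A := ⟨0, fun x hx => hA0 x hx⟩
  have hAne : A.Nonempty := ⟨_, p, le_rfl, rfl⟩
  obtain ⟨x, ⟨m, hpm, rfl⟩, hx⟩ := exists_lt_of_csInf_lt hAne (show sInf A < sInf A + ε / 2 by linarith)
  have hCmp : (0:ℝ) < (m.choose p : ℝ) := by exact_mod_cast Nat.choose_pos hpm
  have hCmr : (0:ℝ) < (m.choose r : ℝ) := by exact_mod_cast Nat.choose_pos (hrp.le.trans hpm)
  have hfac : (0:ℝ) < (p.factorial : ℝ) := by exact_mod_cast Nat.factorial_pos p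
  refine ⟨(ε / 2) / ((m.choose p : ℝ) * ((p.factorial : ℝ) * 2 ^ p)), by positivity, max m (2 * p),
    fun n hn H hH hcop => ?_⟩
  have hmn : m ≤ n := (le_max_left _ _).trans hn
  have h2pn : 2 * p ≤ n := (le_max_right _ _).trans hn
  have hav := averaging (n := n) hrp.le hpm H hH
  have hC1 : n.choose m * m.choose r = n.choose r * (n - r).choose (m - r) :=
    Nat.choose_mul (hrp.le.trans hpm)
  have hC2 : n.choose m * m.choose p = n.choose p * (n - p).choose (m - p) :=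
    Nat.choose_mul hpm
  have hCnr : (0:ℝ) < (n.choose r : ℝ) := by exact_mod_cast Nat.choose_pos (by omega)
  have hCnp : (0:ℝ) < (n.choose p : ℝ) := by exact_mod_cast Nat.choose_pos (by omega)
  have hCnm : (0:ℝ) < (n.choose m : ℝ) := by exact_mod_cast Nat.choose_pos hmn
  have hCd : (0:ℝ) < ((n - r).choose (m - r) : ℝ) := by exact_mod_cast Nat.choose_pos (by omega)
  have hC1' : (n.choose m : ℝ) * (m.choose r : ℝ) = (n.choose r : ℝ) * ((n - r).choose (m - r) : ℝ) := by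
    exact_mod_cast hC1
  have hC2' : (n.choose m : ℝ) * (m.choose p : ℝ) = (n.choose p : ℝ) * ((n - p).choose (m - p) : ℝ) := by
    exact_mod_cast hC2
  have hav' : (H.card : ℝ) * ((n - r).choose (m - r) : ℝ) ≤
      (n.choose m : ℝ) * (al m p r : ℝ) +
        (m.choose r : ℝ) * (((copies p r H).card : ℝ) * ((n - p).choose (m - p) : ℝ)) := by
    exact_mod_cast hav
  have hlow : ((n : ℝ) / 2) ^ p ≤ (p.factorial : ℝ) * (n.choose p : ℝ) := by
    have h2 : ((n + 1 - p : ℕ) : ℝ) ^ p ≤ (p.factorial : ℝ) * (n.choose p : ℝ) := by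
      have h1 := Nat.pow_le_choose (α := ℝ) p n
      rw [div_le_iff₀ hfac] at h1
      have h1' : (((n + 1 - p) ^ p : ℕ) : ℝ) = ((n + 1 - p : ℕ) : ℝ) ^ p := by push_cast; rfl
      linarith
    refine le_trans ?_ h2
    refine pow_le_pow_left₀ (by positivity) ?_ p
    have h3 : (n : ℝ) ≤ 2 * ((n + 1 - p : ℕ) : ℝ) := by
      have : n ≤ 2 * (n + 1 - p) := by omega
      exact_mod_cast this
    linarith
  have hdiv : ((n - p).choose (m - p) : ℝ) = (n.choose m : ℝ) * (m.choose p : ℝ) / (n.choose p : ℝ) := by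
    rw [hC2']
    field_simp
  have hdiv1 : ((n - r).choose (m - r) : ℝ) = (n.choose m : ℝ) * (m.choose r : ℝ) / (n.choose r : ℝ) := by
    rw [hC1']
    field_simp
  have hmain : (H.card : ℝ) ≤ (n.choose r : ℝ) * ((al m p r : ℝ) / (m.choose r : ℝ)) +
      (n.choose r : ℝ) * (m.choose p : ℝ) * (((copies p r H).card : ℝ) / (n.choose p : ℝ)) := by
    rw [hdiv, hdiv1] at hav'
    have h4 : (H.card : ℝ) * ((n.choose m : ℝ) * (m.choose r : ℝ) / (n.choose r : ℝ)) ≤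
        ((n.choose r : ℝ) * ((al m p r : ℝ) / (m.choose r : ℝ)) +
          (n.choose r : ℝ) * (m.choose p : ℝ) * (((copies p r H).card : ℝ) / (n.choose p : ℝ))) *
          ((n.choose m : ℝ) * (m.choose r : ℝ) / (n.choose r : ℝ)) := by
      exact hav'.trans_eq (Supersat_aux _ _ _ _ _ _ _ hCnr hCmr hCnp)
    exact le_of_mul_le_mul_right h4 (by positivity)
  have hn0 : (0:ℝ) < n := by
    have : 0 < n := by omega
    exact_mod_cast this
  have hCnr2 : (n.choose r : ℝ) ≤ (n : ℝ) ^ r := by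
    exact_mod_cast Nat.choose_le_pow n r
  have hL : sInf A ≤ (al n p r : ℝ) / (n.choose r : ℝ) :=
    csInf_le hAb ⟨n, by omega, rfl⟩
  have h5 : (n.choose r : ℝ) * ((al m p r : ℝ) / (m.choose r : ℝ)) ≤ al n p r + (ε / 2) * (n : ℝ) ^ r := by
    calc (n.choose r : ℝ) * ((al m p r : ℝ) / (m.choose r : ℝ)) ≤ (n.choose r : ℝ) * (sInf A + ε / 2) :=
          mul_le_mul_of_nonneg_left hx.le hCnr.le
      _ = (n.choose r : ℝ) * sInf A + (n.choose r : ℝ) * (ε / 2) := by ring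
      _ ≤ (n.choose r : ℝ) * ((al n p r : ℝ) / (n.choose r : ℝ)) + (n : ℝ) ^ r * (ε / 2) :=
          add_le_add (mul_le_mul_of_nonneg_left hL hCnr.le) (mul_le_mul_of_nonneg_right hCnr2 (by positivity))
      _ = al n p r + (ε / 2) * (n : ℝ) ^ r := by
          rw [mul_div_cancel₀ _ hCnr.ne']
          ring
  have h6 : ((copies p r H).card : ℝ) / (n.choose p : ℝ) ≤ (ε / 2) / (m.choose p : ℝ) := by
    rw [div_le_div_iff₀ hCnp hCmp]
    have h7 : (n : ℝ) ^ p ≤ (p.factorial : ℝ) * 2 ^ p * (n.choose p : ℝ) := by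
      rw [div_pow, div_le_iff₀ (by positivity)] at hlow
      linarith
    calc ((copies p r H).card : ℝ) * (m.choose p : ℝ)
        ≤ (ε / 2) / ((m.choose p : ℝ) * ((p.factorial : ℝ) * 2 ^ p)) * (n : ℝ) ^ p * (m.choose p : ℝ) :=
          mul_le_mul_of_nonneg_right hcop hCmp.le
      _ ≤ (ε / 2) / ((m.choose p : ℝ) * ((p.factorial : ℝ) * 2 ^ p)) *
            ((p.factorial : ℝ) * 2 ^ p * (n.choose p : ℝ)) * (m.choose p : ℝ) := by gcongr
      _ = (ε / 2) * (n.choose p : ℝ) := by field_simp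
  have h8 : (n.choose r : ℝ) * (m.choose p : ℝ) * (((copies p r H).card : ℝ) / (n.choose p : ℝ)) ≤
      (ε / 2) * (n : ℝ) ^ r := by
    calc (n.choose r : ℝ) * (m.choose p : ℝ) * (((copies p r H).card : ℝ) / (n.choose p : ℝ))
        ≤ (n.choose r : ℝ) * (m.choose p : ℝ) * ((ε / 2) / (m.choose p : ℝ)) :=
          mul_le_mul_of_nonneg_left h6 (by positivity)
      _ = (n.choose r : ℝ) * (ε / 2) := by field_simp
      _ ≤ (n : ℝ) ^ r * (ε / 2) := mul_le_mul_of_nonneg_right hCnr2 (by positivity)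
      _ = (ε / 2) * (n : ℝ) ^ r := by ring
  linarith

end ES
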