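import Mathlib

/-!
# Erdős–Sauer: choice of the threshold (dyadic pigeonhole)
-/

set_option autoImplicit false

open Finset

namespace ES

theorem dyadic_sum {u g : ℝ} (hu : 0 < u) (hg : 0 < g) (N : ℕ) :
    ∑ i ∈ range N, (if u ≤ g / 2 ^ i then u / (g / 2 ^ i) else 0) ≤ min (u * 2 ^ N / g) 2 := by
  induction N with
  | zero => simp; positivity
  | succ N ih =>
    rw [sum_range_succ]
    have h1 := ih.trans (min_le_left _ _)
    have h2 := ih.trans (min_le_right _ _)
    have h3 : u / (g / 2 ^ N) = u * 2 ^ N / g := by field_simp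
    have h4 : u * 2 ^ (N + 1) / g = u * 2 ^ N / g + u * 2 ^ N / g := by
      rw [pow_succ]; ring
    have h5 : 0 < u * 2 ^ N / g := by positivity
    split_ifs with h
    · have h6 : u * 2 ^ N / g ≤ 1 := by
        rw [div_le_one hg]
        rwa [le_div_iff₀ (by positivity)] at h
      rw [h3]
      refine le_min ?_ ?_
      · rw [h4]; linarith
      · linarith
    · rw [add_zero]
      refine le_min ?_ h2
      rw [h4]; linarith

/-- there is a dyadic threshold `g` such that the total deficit of the weights in the window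
`[θ - g, θ)` is at most `g · 2 C / N` -/
theorem window {ι : Type} (H : Finset ι) (w : ι → ℝ) {θ C : ℝ} (hθ : 0 < θ)
    {N : ℕ} (hN : 0 < N)
    (hC : ((H.filter (fun e => θ / 2 ≤ w e ∧ w e < θ)).card : ℝ) ≤ C) :
    ∃ i < N, ∑ e ∈ H.filter (fun e => θ - θ / 2 / 2 ^ i ≤ w e ∧ w e < θ), (θ - w e) ≤
      (θ / 2 / 2 ^ i) * (2 * C / N) := by
  classical
  by_contra hcon
  push Not at hcon
  set g : ℕ → ℝ := fun i => θ / 2 / 2 ^ i with hg
  have hgpos : ∀ i, 0 < g i := fun i => by simp only [hg]; positivity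
  have hg0 : ∀ i, g i ≤ θ / 2 := by
    intro i
    simp only [hg]
    exact div_le_self (by positivity) (one_le_pow₀ (by norm_num))
  set U := H.filter (fun e => θ / 2 ≤ w e ∧ w e < θ) with hU
  have hF : ∀ i, ∑ e ∈ H.filter (fun e => θ - g i ≤ w e ∧ w e < θ), (θ - w e) =
      ∑ e ∈ U, (if θ - w e ≤ g i then (θ - w e) else 0) := by
    intro i
    rw [← sum_filter]
    refine sum_congr ?_ fun _ _ => rfl
    ext e
    simp only [hU, mem_filter]
    have := hg0 i
    constructor
    · rintro ⟨h1, h2, h3⟩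
      exact ⟨⟨h1, by linarith, h3⟩, by linarith⟩
    · rintro ⟨⟨h1, h2, h3⟩, h4⟩
      exact ⟨h1, by linarith, h3⟩
  have hsum1 : ∑ i ∈ range N, (∑ e ∈ U, (if θ - w e ≤ g i then (θ - w e) else 0)) / g i ≤
      2 * C := by
    have e1 : ∑ i ∈ range N, (∑ e ∈ U, (if θ - w e ≤ g i then (θ - w e) else 0)) / g i =
        ∑ e ∈ U, ∑ i ∈ range N, (if θ - w e ≤ g i then (θ - w e) / g i else 0) := by
      rw [sum_comm]
      refine sum_congr rfl fun i _ => ?_
      rw [sum_div]
      refine sum_congr rfl fun e _ => ?_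
      split_ifs <;> simp
    rw [e1]
    calc ∑ e ∈ U, ∑ i ∈ range N, (if θ - w e ≤ g i then (θ - w e) / g i else 0) ≤
        ∑ e ∈ U, (2 : ℝ) := by
          refine sum_le_sum fun e he => ?_
          have hpos : 0 < θ - w e := by
            have := (mem_filter.1 he).2.2
            linarith
          exact (dyadic_sum hpos (by positivity : (0 : ℝ) < θ / 2) N).trans (min_le_right _ _)
      _ = 2 * U.card := by rw [sum_const, nsmul_eq_mul]; ring
      _ ≤ 2 * C := by linarith
  have hsum2 : 2 * C < ∑ i ∈ range N,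
      (∑ e ∈ U, (if θ - w e ≤ g i then (θ - w e) else 0)) / g i := by
    have h0 : ∑ i ∈ range N, (2 * C / N : ℝ) = 2 * C := by
      rw [sum_const, card_range, nsmul_eq_mul]
      have : (N : ℝ) ≠ 0 := by exact_mod_cast hN.ne'
      field_simp
    rw [← h0]
    refine sum_lt_sum_of_nonempty (nonempty_range_iff.2 hN.ne') fun i hi => ?_
    rw [mem_range] at hi
    have := hcon i hi
    rw [hF i] at this
    rw [lt_div_iff₀ (hgpos i)]
    linarith
  linarith

end ES
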