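import Pool.Agent.Lib.MP_1f562f_co.StrictAux
import Pool.Agent.Lib.MP_1f562f_co.StrictNum
import Pool.Agent.Lib.MP_1f562f_co.Window
import Pool.Agent.Lib.MP_1f562f_co.Cover
import Pool.Agent.Lib.MP_1f562f_co.Pat2
import Pool.Agent.Lib.MP_1f562f_co.Supersat

/-!
# Erdős–Sauer: the strict saving for dense excess
-/

set_option autoImplicit false

open Finset

namespace ES

variable {n : ℕ}

/-- bookkeeping of the constants: everything that is needed in `strict_core` -/
structure Consts (p r : ℕ) (K τ δ β γ γ0 ε : ℝ) (N n : ℕ) : Prop where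
  K0 : 0 < K
  t0 : 0 < τ
  t1 : τ ≤ 1
  d0 : 0 < δ
  b0 : 0 < β
  g0 : 0 < γ
  e0 : 0 < ε
  N0 : 0 < N
  n0 : 1 ≤ n
  hN : 8 * ((p.choose r : ℝ) - 1) ≤ β * N
  hτ : τ ≤ β * (1 / ((p.choose r : ℝ) - 1) / 2 / 2 ^ N) / 4
  hδ : δ ≤ β * (1 / ((p.choose r : ℝ) - 1) / 2 / 2 ^ N) / 4
  hR : 4 ≤ β * (1 / ((p.choose r : ℝ) - 1) / 2 / 2 ^ N) * (n : ℝ) ^ r
  hR2 : (p.choose r : ℝ) ≤ β * (n : ℝ) ^ r
  hK0 : 16 / (K * τ) ≤ γ0
  hK1 : 2 / (K * (1 / ((p.choose r : ℝ) - 1) / 2 / 2 ^ N)) ≤ γ0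
  hK2 : 4 / (K * (1 / ((p.choose r : ℝ) - 1) / 2 / 2 ^ N)) ≤ γ
  hβ1 : 4 * (p.choose r : ℝ) ^ 2 * (r * ((p.choose r : ℝ) + 3)) * β ≤ γ
  hβ2 : ((p.choose r : ℝ) + 1 + ((p.choose r : ℝ) * (r * ((p.choose r : ℝ) + 3)) + 6) *
      (8 * (p.choose r : ℝ) * ((p.choose r : ℝ) - 1))) * β ≤ (r.factorial / r ^ r : ℝ) * ε / 2

theorem strict_core {p r : ℕ} (hr : 2 ≤ r) (hrp : r < p) (hp : 4 ≤ p)
    {K τ δ β γ γ0 ε : ℝ} {N : ℕ} (hC : Consts p r K τ δ β γ γ0 ε N n)
    (hsat0 : ∀ H' : Finset (Finset (Fin n)), (∀ e ∈ H', e.card = r) →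
      ((copies p r H').card : ℝ) ≤ γ0 * (n : ℝ) ^ p → (H'.card : ℝ) ≤ al n p r + δ * (n : ℝ) ^ r)
    (hsat1 : ∀ H' : Finset (Finset (Fin n)), (∀ e ∈ H', e.card = r) →
      ((copies p r H').card : ℝ) ≤ γ * (n : ℝ) ^ p →
        (H'.card : ℝ) ≤ al n p r + ((r.factorial / r ^ r : ℝ) * ε / 4) * (n : ℝ) ^ r)
    (H : Finset (Finset (Fin n))) (hH : ∀ e ∈ H, e.card = r)
    (hs : al n p r + ε * (n : ℝ) ^ r ≤ H.card) :
    (H.card : ℝ) + δ * (n : ℝ) ^ r ≤
      al n p r + ((p.choose r : ℝ) - 1) * WW p r (K / (n : ℝ) ^ (p - r)) H := by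
  classical
  obtain ⟨K0, t0, t1, d0, b0, g0, e0, N0, n0, hN, hτ, hδ, hR, hR2, hK0, hK1, hK2, hβ1, hβ2⟩ := hC
  by_contra hcon
  push Not at hcon
  -- notation
  obtain ⟨hk4, hkr⟩ := sn_choose hr hrp hp
  have hk4' : (4 : ℝ) ≤ (p.choose r : ℝ) := by exact_mod_cast hk4
  have hkr' : (r : ℝ) + 1 ≤ (p.choose r : ℝ) := by exact_mod_cast hkr
  set k : ℝ := (p.choose r : ℝ) with hk
  set R : ℝ := (n : ℝ) ^ r with hRdef
  set q : ℝ := (n : ℝ) ^ (p - r) with hq
  have hnpos : (1 : ℝ) ≤ n := by exact_mod_cast n0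
  have hR1 : 1 ≤ R := one_le_pow₀ hnpos
  have hq1 : 1 ≤ q := one_le_pow₀ hnpos
  have hRq : R * q = (n : ℝ) ^ p := by
    rw [hRdef, hq, ← pow_add]; congr 1; omega
  set κ : ℝ := K / q with hκ
  have hκ0 : 0 < κ := by positivity
  set θ : ℝ := 1 / (k - 1) with hθ
  have hk1 : 0 < k - 1 := by linarith
  have hθ0 : 0 < θ := by positivity
  have hkθ : (k - 1) * θ = 1 := by rw [hθ]; field_simp
  have hθ3 : θ ≤ 1 / 3 := by
    rw [hθ]; apply one_div_le_one_div_of_le <;> linarith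
  set gm : ℝ := θ / 2 / 2 ^ N with hgm
  have hgm0 : 0 < gm := by positivity
  have hgm1 : gm ≤ θ / 4 := by
    have h2 : (2 : ℝ) ≤ 2 ^ N := by
      calc (2 : ℝ) = 2 ^ 1 := by norm_num
        _ ≤ 2 ^ N := pow_le_pow_right₀ (by norm_num) N0
    exact sn_gm hθ0 h2 hgm
  set W : ℝ := WW p r κ H with hW
  set s : ℝ := (H.card : ℝ) - al n p r with hsdef
  set ρ : ℝ := (r.factorial / r ^ r : ℝ) with hρ
  have hρ0 : 0 < ρ := by
    have : 0 < r := by omega
    positivity
  have hρ1 : ρ ≤ 1 := by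
    rw [hρ, div_le_one (by positivity)]
    exact_mod_cast Nat.factorial_le_pow r
  have hcon' : (k - 1) * W < s + δ * R := by rw [hsdef]; linarith
  have hsR : ε * R ≤ s := by rw [hsdef]; linarith
  -- step 1: near minimizer
  obtain ⟨w, hw0, hwmin⟩ := exists_near (p := p) (r := r) (κ := κ) H (ξ := 1) one_pos
  have hcardH : (H.card : ℝ) ≤ R := card_le_pow hH
  have hWR : W ≤ R := (WW_le_card hκ0.le hrp.le H).trans hcardH
  have hW0 : 0 ≤ W := WW_nonneg hκ0.le H
  have hPhi2 : Phi p r κ H w ≤ 2 * R := by linarith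
  have hPhi0 : 0 ≤ Phi p r κ H w := Phi_nonneg hκ0.le H hw0
  -- step 2: window
  have hUcard : ((H.filter (fun e => θ / 2 ≤ w e ∧ w e < θ)).card : ℝ) ≤ 4 * (k - 1) * R := by
    have h1 : ((H.filter (fun e => θ / 2 ≤ w e ∧ w e < θ)).card : ℝ) ≤
        (H.filter (fun e => θ / 2 ≤ w e)).card := by
      exact_mod_cast card_le_card (fun e he => by
        simp only [mem_filter] at he ⊢
        exact ⟨he.1, he.2.1⟩)
    have h2 := markov (p := p) (r := r) (c := θ / 2) hκ0.le H hw0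
    have h3 : θ / 2 * ((H.filter (fun e => θ / 2 ≤ w e)).card : ℝ) ≤ 2 * R := h2.trans hPhi2
    have h4 : ((H.filter (fun e => θ / 2 ≤ w e)).card : ℝ) ≤ 4 * (k - 1) * R := by
      have h5 : (2 * (k - 1)) * (θ / 2 * ((H.filter (fun e => θ / 2 ≤ w e)).card : ℝ)) ≤
          (2 * (k - 1)) * (2 * R) := mul_le_mul_of_nonneg_left h3 (by linarith)
      have h6 : (2 * (k - 1)) * (θ / 2 * ((H.filter (fun e => θ / 2 ≤ w e)).card : ℝ)) =
          ((k - 1) * θ) * ((H.filter (fun e => θ / 2 ≤ w e)).card : ℝ) := by ring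
      rw [h6, hkθ, one_mul] at h5
      linarith
    linarith
  obtain ⟨i, hiN, hFi⟩ := window H w hθ0 N0 hUcard
  set g : ℝ := θ / 2 / 2 ^ i with hg
  have hgpos : 0 < g := by positivity
  have hggm : gm ≤ g := by
    rw [hgm, hg]
    apply div_le_div_of_nonneg_left (by positivity) (by positivity)
    exact pow_le_pow_right₀ (by norm_num) hiN.le
  have hgθ : g ≤ θ / 2 := div_le_self (by positivity) (one_le_pow₀ (by norm_num))
  set F : ℝ := ∑ e ∈ H.filter (fun e => θ - g ≤ w e ∧ w e < θ), (θ - w e) with hF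
  have hF1 : F ≤ g * (β * R) := by
    refine hFi.trans ?_
    apply mul_le_mul_of_nonneg_left _ hgpos.le
    have hN' : (0 : ℝ) < N := by exact_mod_cast N0
    rw [div_le_iff₀ hN']
    exact sn_F (by linarith) hN
  have hF0 : 0 ≤ F := by
    rw [hF]
    refine sum_nonneg fun e he => ?_
    have := (mem_filter.1 he).2.2
    linarith
  have hFβ : F ≤ β * R := by
    have : g * (β * R) ≤ 1 * (β * R) := by
      apply mul_le_mul_of_nonneg_right _ (by positivity)
      linarith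
    linarith
  -- step 3: X and H1
  set X : Finset (Finset (Fin n)) := H.filter (fun e => θ - g ≤ w e) with hX
  have hXH : X ⊆ H := filter_subset _ _
  set H1 : Finset (Finset (Fin n)) := H \ X with hH1
  have hH1r : ∀ e ∈ H1, e.card = r := fun e he => hH e (mem_sdiff.1 he).1
  have hH1lt : ∀ e ∈ H1, w e < θ - g := by
    intro e he
    rw [hH1, mem_sdiff] at he
    by_contra hge
    push Not at hge
    exact he.2 (mem_filter.2 ⟨he.1, hge⟩)
  set A : ℝ := ∑ e ∈ X, w e with hA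
  set L : ℝ := Phi p r κ H1 w with hL
  have hAL : L + A ≤ W + 1 := (Phi_sdiff hκ0.le hXH w).trans hwmin
  have hL0 : 0 ≤ L := Phi_nonneg hκ0.le H1 hw0
  have hA0 : 0 ≤ A := sum_nonneg fun e _ => hw0 e
  set b : ℝ := θ / (8 * k) with hb
  have hb0 : 0 < b := by positivity
  set X2 : Finset (Finset (Fin n)) := H.filter (fun e => θ + b ≤ w e) with hX2
  have hheavy : θ * (X.card : ℝ) + b * (X2.card : ℝ) ≤ A + F :=
    heavy_sum H w hb0.le hgpos.le
  have hXcard : (X.card : ℝ) ≤ (k - 1) * (A + F) := by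
    have h0 : 0 ≤ b * (X2.card : ℝ) := by positivity
    have h1 : θ * (X.card : ℝ) ≤ A + F := by linarith
    have h2 := mul_le_mul_of_nonneg_left h1 hk1.le
    rw [← mul_assoc, hkθ, one_mul] at h2
    exact h2
  have hcardsplit : (H1.card : ℝ) + X.card = H.card := by
    have := card_sdiff_add_card_eq_card hXH
    exact_mod_cast this
  -- step 4: first cover
  set W1 : ℝ := WW p r κ H1 with hW1
  have hW1R : W1 ≤ R := (WW_le_card hκ0.le hrp.le H1).trans (card_le_pow hH1r)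
  have hW10 : 0 ≤ W1 := WW_nonneg hκ0.le H1
  obtain ⟨D1, hD1H, hD1c, hD1cop⟩ := cover hr hrp K0 t0 t1 n0 H1 hH1r
  have hsat_D1 := hsat0 (H1 \ D1) (fun e he => hH1r e (mem_sdiff.1 he).1) (by
    refine hD1cop.trans ?_
    apply mul_le_mul_of_nonneg_right hK0
    positivity)
  have hcD1 : ((H1 \ D1).card : ℝ) + D1.card = H1.card := by
    have := card_sdiff_add_card_eq_card hD1H
    exact_mod_cast this
  have hs1 : s ≤ (k - 1) * (A + F) + ((k - 1) * (1 + τ) * W1 + 2) + δ * R := by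
    have : (D1.card : ℝ) ≤ (k - 1) * (1 + τ) * W1 + 2 := hD1c
    rw [hsdef]
    linarith
  have hs2 : (k - 1) * (A + L) < s + δ * R + (k - 1) := sn_hs2 hk4' hAL hcon'
  have hgap : L ≤ W1 + (F + τ * R + δ * R + 2) :=
    sn_gap hk4' (by positivity) t0.le hW1R hs1 hs2
  -- step 5: support bound
  set E : Finset (Finset (Fin n)) := H1.filter (fun e => g ≤ w e) with hE
  have hEcard : (E.card : ℝ) ≤ k * L + 2 * (β * R) := by
    have h1 := supp_bound hκ0.le hgpos.le H1 hw0 hgap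
    have h2 : g * (E.card : ℝ) ≤ g * (k * L) + (F + τ * R + δ * R + 2) := by
      rw [← mul_assoc]; exact h1
    have h3 : F + τ * R + δ * R + 2 ≤ g * (2 * (β * R)) :=
      sn_supp hggm (by positivity) (by linarith) hF1 hτ
        (mul_le_mul_of_nonneg_right hδ (by linarith)) hR
    have h4 : g * (E.card : ℝ) ≤ g * (k * L + 2 * (β * R)) := by
      rw [mul_add]; linarith
    exact le_of_mul_le_mul_left h4 hgpos
  obtain ⟨D2, hD2E, hD2c, hD2hit⟩ := pattern_cover (p := p) hr hrp E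
    (fun e he => hH1r e (mem_filter.1 he).1)
  have hD2H1 : D2 ⊆ H1 := hD2E.trans (filter_subset _ _)
  -- exceptional copies
  have hexc : (((copies p r H).filter (fun Q => wt r w Q < 1 - gm)).card : ℝ) ≤
      2 / (K * gm) * (n : ℝ) ^ p := by
    have h1 := exc_bound (p := p) (r := r) hκ0.le hgm0.le H hw0
    have h2 : κ * gm * (((copies p r H).filter (fun Q => wt r w Q < 1 - gm)).card : ℝ) ≤ 2 * R :=
      h1.trans hPhi2
    have h3 : (((copies p r H).filter (fun Q => wt r w Q < 1 - gm)).card : ℝ) ≤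
        2 * R / (κ * gm) := by
      rw [le_div_iff₀ (by positivity)]; linarith
    have h4 : 2 * R / (κ * gm) = 2 / (K * gm) * (n : ℝ) ^ p := by
      rw [← hRq, hκ]; field_simp
    linarith
  have hcopD2 : ((copies p r (H1 \ D2)).card : ℝ) ≤ γ0 * (n : ℝ) ^ p := by
    have hsub : copies p r (H1 \ D2) ⊆ (copies p r H).filter (fun Q => wt r w Q < 1 - gm) := by
      intro Q hQ
      rw [mem_filter]
      have hQ' := mem_copies.1 hQ
      have hQH1 : Q.powersetCard r ⊆ H1 := hQ'.2.trans sdiff_subset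
      refine ⟨mem_copies.2 ⟨hQ'.1, hQH1.trans sdiff_subset⟩, ?_⟩
      by_contra hge
      push Not at hge
      have hall : Q.powersetCard r ⊆ E := by
        intro e he
        rw [hE, mem_filter]
        refine ⟨hQH1 he, ?_⟩
        have h1 := light_copy hQ'.1 (fun e he => hH1lt e (hQH1 he)) hge he
        rw [← hk] at h1
        exact sn_light hk4' hkθ hgpos hggm h1
      obtain ⟨e, he1, he2⟩ := hD2hit Q hQ'.1 hall
      exact (mem_sdiff.1 (hQ'.2 he2)).2 he1
    have h1 : ((copies p r (H1 \ D2)).card : ℝ) ≤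
        ((copies p r H).filter (fun Q => wt r w Q < 1 - gm)).card := by
      exact_mod_cast card_le_card hsub
    refine h1.trans (hexc.trans ?_)
    apply mul_le_mul_of_nonneg_right hK1
    positivity
  have hsat_D2 := hsat0 (H1 \ D2) (fun e he => hH1r e (mem_sdiff.1 he).1) hcopD2
  have hcD2 : ((H1 \ D2).card : ℝ) + D2.card = H1.card := by
    have := card_sdiff_add_card_eq_card hD2H1
    exact_mod_cast this
  have hr0 : (0 : ℝ) < r := by
    have : 0 < r := by omega
    exact_mod_cast this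
  have hD2c' : (r : ℝ) * D2.card ≤ (r - 1) * (k * L + 2 * (β * R)) := by
    have h1 : (r : ℝ) * D2.card ≤ ((r : ℝ) - 1) * E.card := by
      have := hD2c
      have h2 : ((r * D2.card : ℕ) : ℝ) ≤ (((r - 1) * E.card : ℕ) : ℝ) := by exact_mod_cast this
      rw [Nat.cast_mul, Nat.cast_mul, Nat.cast_sub (by omega), Nat.cast_one] at h2
      exact h2
    refine h1.trans ?_
    apply mul_le_mul_of_nonneg_left hEcard
    have : (1 : ℝ) ≤ r := by exact_mod_cast (by omega : 1 ≤ r)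
    linarith
  have hs3 : s ≤ X.card + D2.card + δ * R := by rw [hsdef]; linarith
  -- bounds on L
  have hδβ : 2 * (δ * R) ≤ β * R := by
    have e2 : δ * R ≤ β * gm / 4 * R := mul_le_mul_of_nonneg_right hδ (by positivity)
    have e3 : gm * (β * R) ≤ 1 * (β * R) := by
      apply mul_le_mul_of_nonneg_right _ (by positivity)
      linarith
    have e4 : β * gm / 4 * R = gm * (β * R) / 4 := by ring
    rw [e4] at e2
    linarith
  have hLbd : L ≤ r * (k + 3) * (β * R) :=
    sn_L (by exact_mod_cast (by omega : 1 ≤ r)) hk4' hkr' hL0 (by positivity) hδβ hR2 hFβ hXcard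
      hD2c' hs3 hs2
  set C1 : ℝ := r * (k + 3) with hC1
  have hC10 : 0 < C1 := by positivity
  -- step 6: bounds on X and X2
  have hD2le : (D2.card : ℝ) ≤ k * L + 2 * (β * R) := by
    have : (D2.card : ℝ) ≤ E.card := by exact_mod_cast card_le_card hD2E
    linarith
  have hkL : k * L ≤ k * (C1 * (β * R)) := mul_le_mul_of_nonneg_left hLbd (by linarith)
  have hXlow : s - (k * C1 + 3) * (β * R) ≤ X.card :=
    sn_Xlow hD2le hkL hδβ (by positivity) hs3
  have hAup : (k - 1) * A ≤ s + δ * R + (k - 1) := by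
    have h1 : 0 ≤ (k - 1) * L := by positivity
    have h2 : (k - 1) * (A + L) = (k - 1) * A + (k - 1) * L := by ring
    rw [h2] at hs2
    linarith
  have hX2b : b * (X2.card : ℝ) ≤ (k * C1 + 6) * (β * R) :=
    sn_X2b hθ0 hθ3 hkθ (by positivity) hheavy hAup hXlow hFβ (by linarith) (by positivity) hδβ
  have hX2card : (X2.card : ℝ) ≤ (k * C1 + 6) * (8 * k * (k - 1)) * (β * R) := by
    have h1 : (8 * k * (k - 1)) * (b * (X2.card : ℝ)) ≤
        (8 * k * (k - 1)) * ((k * C1 + 6) * (β * R)) := by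
      apply mul_le_mul_of_nonneg_left hX2b
      positivity
    have h2 : (8 * k * (k - 1)) * b = 1 := by
      rw [hb]
      field_simp
      linarith
    rw [← mul_assoc, h2, one_mul] at h1
    linarith
  have hXup : (X.card : ℝ) ≤ s + (k + 1) * (β * R) :=
    sn_Xup hk4' hFβ hAup hXcard hR2 hδβ (by positivity)
  -- step 7: rainbow
  obtain ⟨X', hX'sub, hX'rain, hX'card⟩ := pattern_rainbow hr (X \ X2)
    (fun e he => hH e (hXH (mem_sdiff.1 he).1))
  have hX'X : X' ⊆ X := hX'sub.trans sdiff_subset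
  have hX'card' : ρ * ((X \ X2).card : ℝ) ≤ X'.card := by
    have h1 : ((r.factorial * (X \ X2).card : ℕ) : ℝ) ≤ ((r ^ r * X'.card : ℕ) : ℝ) := by
      exact_mod_cast hX'card
    rw [Nat.cast_mul, Nat.cast_mul, Nat.cast_pow] at h1
    have h2 : (0 : ℝ) < (r : ℝ) ^ r := by positivity
    rw [hρ, div_mul_eq_mul_div, div_le_iff₀ h2]
    linarith
  have hXX2 : (X.card : ℝ) - X2.card ≤ (X \ X2).card := by
    have := le_card_sdiff X2 X
    have h1 : X.card ≤ (X \ X2).card + X2.card := by omega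
    have h2 : (X.card : ℝ) ≤ (X \ X2).card + X2.card := by exact_mod_cast h1
    linarith
  set H2 : Finset (Finset (Fin n)) := H1 ∪ X' with hH2
  have hH2r : ∀ e ∈ H2, e.card = r := by
    intro e he
    rcases mem_union.1 he with h | h
    · exact hH1r e h
    · exact hH e (hXH (hX'X h))
  have hH2card : (H2.card : ℝ) = H1.card + X'.card := by
    have : Disjoint H1 X' := by
      rw [hH1]
      exact (disjoint_sdiff_self_left).mono_right hX'X
    rw [hH2, card_union_of_disjoint this]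
    push_cast; ring
  have hH2H : H2 ⊆ H := union_subset sdiff_subset (hX'X.trans hXH)
  have hH2big : al n p r + (ρ * ε / 4) * R < H2.card := by
    have hβR : 0 < β * R := by positivity
    have h1 : (H2.card : ℝ) ≥ H.card - X.card + ρ * (X.card - X2.card) := by
      have h2 : ρ * ((X.card : ℝ) - X2.card) ≤ ρ * ((X \ X2).card : ℝ) :=
        mul_le_mul_of_nonneg_left hXX2 hρ0.le
      rw [hH2card]
      linarith
    have h9 : (H.card : ℝ) = s + al n p r := by rw [hsdef]; ring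
    exact sn_H2 hρ0 hρ1 e0 (by linarith) (Nat.cast_nonneg _) hβR.le (by linarith) h1 hXup hX2card
      hβ2 hsR h9
  have hcopH2 : γ * (n : ℝ) ^ p < (copies p r H2).card := by
    by_contra hle
    push Not at hle
    have := hsat1 H2 hH2r hle
    linarith
  -- step 8: few copies in H2
  set Y : Finset (Finset (Fin n)) := H1.filter (fun e => θ / (2 * k) ≤ w e) with hY
  have hYr : ∀ e ∈ Y, e.card = r := fun e he => hH1r e (mem_filter.1 he).1
  have hYcard : (Y.card : ℝ) ≤ 2 * k ^ 2 * (C1 * (β * R)) := by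
    have h1 := markov (p := p) (r := r) (c := θ / (2 * k)) hκ0.le H1 hw0
    have h2 : θ / (2 * k) * (Y.card : ℝ) ≤ C1 * (β * R) := h1.trans hLbd
    have h3 : (2 * k * (k - 1)) * (θ / (2 * k) * (Y.card : ℝ)) ≤
        (2 * k * (k - 1)) * (C1 * (β * R)) := by
      apply mul_le_mul_of_nonneg_left h2
      positivity
    have h4 : (2 * k * (k - 1)) * (θ / (2 * k)) = 1 := by
      field_simp
      linarith
    rw [← mul_assoc, h4, one_mul] at h3
    have h5 : (2 * k * (k - 1)) * (C1 * (β * R)) ≤ 2 * k ^ 2 * (C1 * (β * R)) :=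
      sn_Y hk4' (by positivity)
    linarith
  have hsubH2 : copies p r H2 ⊆ (copies p r H).filter (fun Q => wt r w Q < 1 - gm) ∪
      (copies p r H).filter (fun Q => ∃ e ∈ Y, e ⊆ Q) := by
    intro Q hQ
    have hQH : Q ∈ copies p r H := copies_mono hH2H hQ
    rw [mem_union, mem_filter, mem_filter]
    by_cases hlt : wt r w Q < 1 - gm
    · exact Or.inl ⟨hQH, hlt⟩
    · push Not at hlt
      refine Or.inr ⟨hQH, ?_⟩
      have hηb : gm + (k - 2) * b ≤ θ / 2 := by
        have : (k - 2) * b ≤ θ / 8 := sn_b hk4' hθ0 hb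
        linarith
      exact copy_in_H2 hr hrp hp hw0 hb0.le hθ0 hkθ hηb hX'rain
        (fun e he => by
          have h1 := mem_sdiff.1 (hX'sub he)
          by_contra hge
          push Not at hge
          exact h1.2 (mem_filter.2 ⟨hXH h1.1, hge⟩)) hQ hlt
  have hcopH2' : ((copies p r H2).card : ℝ) ≤ γ * (n : ℝ) ^ p := by
    have h1 : ((copies p r H2).card : ℝ) ≤
        (((copies p r H).filter (fun Q => wt r w Q < 1 - gm)).card : ℝ) +
        (((copies p r H).filter (fun Q => ∃ e ∈ Y, e ⊆ Q)).card : ℝ) := by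
      exact_mod_cast (card_le_card hsubH2).trans (card_union_le _ _)
    have h2 := copies_meet_le hrp.le H Y hYr
    have h3 : (Y.card : ℝ) * q ≤ 2 * k ^ 2 * (C1 * (β * R)) * q :=
      mul_le_mul_of_nonneg_right hYcard (by positivity)
    have h4 : 2 * k ^ 2 * (C1 * (β * R)) * q = (2 * k ^ 2 * C1 * β) * (n : ℝ) ^ p := by
      rw [← hRq]; ring
    have h5 : (2 * k ^ 2 * C1 * β) * (n : ℝ) ^ p ≤ (γ / 2) * (n : ℝ) ^ p := by
      apply mul_le_mul_of_nonneg_right _ (by positivity)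
      linarith
    have h6 : 2 / (K * gm) * (n : ℝ) ^ p ≤ (γ / 2) * (n : ℝ) ^ p := by
      apply mul_le_mul_of_nonneg_right _ (by positivity)
      have : 4 / (K * gm) = 2 * (2 / (K * gm)) := by ring
      linarith
    rw [← hq] at h2
    linarith
  linarith

end ES
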