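import Pool.Agent.Lib.MP_1f562f_co.Strict

/-!
# Erdős–Sauer: the strict saving, choice of the constants
-/

set_option autoImplicit false

open Finset

namespace ES

theorem strict {p r : ℕ} (hr : 2 ≤ r) (hrp : r < p) (hp : 4 ≤ p) {ε : ℝ} (hε : 0 < ε) :
    ∃ δ K : ℝ, 0 < δ ∧ 1 ≤ K ∧ ∃ N : ℕ, ∀ n : ℕ, N ≤ n → ∀ H : Finset (Finset (Fin n)),
      (∀ e ∈ H, e.card = r) → al n p r + ε * (n : ℝ) ^ r ≤ H.card →
      (H.card : ℝ) + δ * (n : ℝ) ^ r ≤
        al n p r + ((p.choose r : ℝ) - 1) * WW p r (K / (n : ℝ) ^ (p - r)) H := by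
  obtain ⟨hk4, -⟩ := sn_choose hr hrp hp
  have hk4' : (4 : ℝ) ≤ (p.choose r : ℝ) := by exact_mod_cast hk4
  have hr0 : (0 : ℝ) < r := by exact_mod_cast (by omega : 0 < r)
  have hρ0 : (0 : ℝ) < (r.factorial / r ^ r : ℝ) := by positivity
  obtain ⟨γ, g0, N1, hN1⟩ := supersat p r (by omega) hrp ((r.factorial / r ^ r : ℝ) * ε / 4)
    (by positivity)
  -- β
  have hk1 : (0 : ℝ) < (p.choose r : ℝ) - 1 := by linarith
  have hc1 : (0 : ℝ) < 4 * (p.choose r : ℝ) ^ 2 * (r * ((p.choose r : ℝ) + 3)) := by positivity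
  have hc2 : (0 : ℝ) < ((p.choose r : ℝ) + 1 + ((p.choose r : ℝ) * (r * ((p.choose r : ℝ) + 3)) + 6) *
      (8 * (p.choose r : ℝ) * ((p.choose r : ℝ) - 1))) := by positivity
  obtain ⟨β, b0, b1, hb1, hb2⟩ : ∃ β : ℝ, 0 < β ∧ β ≤ 1 ∧
      4 * (p.choose r : ℝ) ^ 2 * (r * ((p.choose r : ℝ) + 3)) * β ≤ γ ∧
      ((p.choose r : ℝ) + 1 + ((p.choose r : ℝ) * (r * ((p.choose r : ℝ) + 3)) + 6) *
      (8 * (p.choose r : ℝ) * ((p.choose r : ℝ) - 1))) * β ≤ (r.factorial / r ^ r : ℝ) * ε / 2 := by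
    refine ⟨min 1 (min (γ / (4 * (p.choose r : ℝ) ^ 2 * (r * ((p.choose r : ℝ) + 3))))
      ((r.factorial / r ^ r : ℝ) * ε / 2 / ((p.choose r : ℝ) + 1 +
        ((p.choose r : ℝ) * (r * ((p.choose r : ℝ) + 3)) + 6) *
      (8 * (p.choose r : ℝ) * ((p.choose r : ℝ) - 1))))), ?_, min_le_left _ _, ?_, ?_⟩
    · exact lt_min one_pos (lt_min (div_pos g0 hc1) (div_pos (by positivity) hc2))
    · rw [mul_comm, ← le_div_iff₀ hc1]
      exact (min_le_right _ _).trans (min_le_left _ _)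
    · rw [mul_comm, ← le_div_iff₀ hc2]
      exact (min_le_right _ _).trans (min_le_right _ _)
  obtain ⟨N0, hN0⟩ := exists_nat_ge (8 * ((p.choose r : ℝ) - 1) / β)
  have hN0' : 8 * ((p.choose r : ℝ) - 1) ≤ β * ((N0 + 1 : ℕ) : ℝ) := by
    rw [div_le_iff₀ b0] at hN0
    push_cast
    nlinarith
  set gm : ℝ := 1 / ((p.choose r : ℝ) - 1) / 2 / 2 ^ (N0 + 1) with hgm
  have gm0 : 0 < gm := by positivity
  have gm1 : gm ≤ 1 := by
    rw [hgm]
    have h1 : 1 / ((p.choose r : ℝ) - 1) ≤ 1 := by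
      rw [div_le_one hk1]; linarith
    have h2 : 1 / ((p.choose r : ℝ) - 1) / 2 ≤ 1 := by linarith
    exact (div_le_self (by positivity) (one_le_pow₀ (by norm_num))).trans h2
  set τ : ℝ := β * gm / 4 with hτ
  have t0 : 0 < τ := by positivity
  have t1 : τ ≤ 1 := by
    have : β * gm ≤ 1 * 1 := mul_le_mul b1 gm1 gm0.le (by norm_num)
    rw [hτ]; linarith
  obtain ⟨γ0, g00, N2, hN2⟩ := supersat p r (by omega) hrp τ t0
  obtain ⟨K, hK1, hKa, hKb, hKc⟩ : ∃ K : ℝ, 1 ≤ K ∧ 16 / (K * τ) ≤ γ0 ∧ 2 / (K * gm) ≤ γ0 ∧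
      4 / (K * gm) ≤ γ := by
    refine ⟨max 1 (max (16 / (τ * γ0)) (max (2 / (gm * γ0)) (4 / (gm * γ)))), le_max_left _ _,
      ?_, ?_, ?_⟩
    · rw [div_le_iff₀ (by positivity)]
      have : 16 / (τ * γ0) ≤ max 1 (max (16 / (τ * γ0)) (max (2 / (gm * γ0)) (4 / (gm * γ)))) :=
        (le_max_left _ _).trans (le_max_right _ _)
      rw [div_le_iff₀ (by positivity)] at this
      linarith
    · rw [div_le_iff₀ (by positivity)]
      have : 2 / (gm * γ0) ≤ max 1 (max (16 / (τ * γ0)) (max (2 / (gm * γ0)) (4 / (gm * γ)))) :=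
        ((le_max_left _ _).trans (le_max_right _ _)).trans (le_max_right _ _)
      rw [div_le_iff₀ (by positivity)] at this
      linarith
    · rw [div_le_iff₀ (by positivity)]
      have : 4 / (gm * γ) ≤ max 1 (max (16 / (τ * γ0)) (max (2 / (gm * γ0)) (4 / (gm * γ)))) :=
        ((le_max_right _ _).trans (le_max_right _ _)).trans (le_max_right _ _)
      rw [div_le_iff₀ (by positivity)] at this
      linarith
  obtain ⟨N3, hN3⟩ := exists_nat_ge (4 / (β * gm))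
  obtain ⟨N4, hN4⟩ := exists_nat_ge ((p.choose r : ℝ) / β)
  refine ⟨τ, K, t0, hK1, N1 + N2 + N3 + N4 + 1, fun n hn H hH hs => ?_⟩
  have n0 : 1 ≤ n := by omega
  have hnR : (n : ℝ) ≤ (n : ℝ) ^ r := by
    have h1 : (1 : ℝ) ≤ n := by exact_mod_cast n0
    calc (n : ℝ) = (n : ℝ) ^ 1 := (pow_one _).symm
      _ ≤ (n : ℝ) ^ r := pow_le_pow_right₀ h1 (by omega)
  have h3 : 4 ≤ β * gm * (n : ℝ) ^ r := by
    have h1 : 4 / (β * gm) ≤ n := hN3.trans (by exact_mod_cast (by omega : N3 ≤ n))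
    rw [div_le_iff₀ (by positivity)] at h1
    have h2 : (n : ℝ) * (β * gm) ≤ (n : ℝ) ^ r * (β * gm) :=
      mul_le_mul_of_nonneg_right hnR (by positivity)
    linarith
  have h4 : (p.choose r : ℝ) ≤ β * (n : ℝ) ^ r := by
    have h1 : (p.choose r : ℝ) / β ≤ n := hN4.trans (by exact_mod_cast (by omega : N4 ≤ n))
    rw [div_le_iff₀ b0] at h1
    have h2 : (n : ℝ) * β ≤ (n : ℝ) ^ r * β := mul_le_mul_of_nonneg_right hnR b0.le
    linarith
  have hC : Consts p r K τ τ β γ γ0 ε (N0 + 1) n :=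
    { K0 := by linarith
      t0 := t0
      t1 := t1
      d0 := t0
      b0 := b0
      g0 := g0
      e0 := hε
      N0 := Nat.succ_pos _
      n0 := n0
      hN := hN0'
      hτ := le_refl _
      hδ := le_refl _
      hR := h3
      hR2 := h4
      hK0 := hKa
      hK1 := hKb
      hK2 := hKc
      hβ1 := hb1
      hβ2 := hb2 }
  exact strict_core hr hrp hp hC (hN2 n (by omega)) (hN1 n (by omega)) H hH hs

end ES
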