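import Pool.Agent.Lib.MP_1f562f_co.Dual1
import Pool.Agent.Lib.MP_1f562f_co.Dual2
import Pool.Agent.Lib.MP_1f562f_co.Dual3
import Pool.Agent.Lib.MP_1f562f_co.Count
import Pool.Agent.Lib.MP_1f562f_co.Pat3

/-!
# Erdős–Sauer: auxiliary statements for the strict saving
-/

set_option autoImplicit false

open Finset

namespace ES

variable {n : ℕ}

/-- weights near the threshold -/
theorem heavy_sum {ι : Type} (H : Finset ι) (w : ι → ℝ) {θ g b : ℝ} (hb : 0 ≤ b) (hg : 0 ≤ g) :
    θ * (H.filter (fun e => θ - g ≤ w e)).card + b * (H.filter (fun e => θ + b ≤ w e)).card ≤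
      ∑ e ∈ H.filter (fun e => θ - g ≤ w e), w e +
        ∑ e ∈ H.filter (fun e => θ - g ≤ w e ∧ w e < θ), (θ - w e) := by
  classical
  have h1 : (θ * (H.filter (fun e => θ - g ≤ w e)).card : ℝ) =
      ∑ e ∈ H.filter (fun e => θ - g ≤ w e), θ := by
    rw [sum_const, nsmul_eq_mul]; ring
  have h2 : (b * (H.filter (fun e => θ + b ≤ w e)).card : ℝ) =
      ∑ e ∈ H.filter (fun e => θ - g ≤ w e), (if θ + b ≤ w e then b else 0) := by
    rw [← sum_filter, filter_filter, sum_const, nsmul_eq_mul]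
    have : H.filter (fun e => θ - g ≤ w e ∧ θ + b ≤ w e) = H.filter (fun e => θ + b ≤ w e) := by
      ext e
      simp only [mem_filter]
      constructor
      · rintro ⟨h1, -, h2⟩; exact ⟨h1, h2⟩
      · rintro ⟨h1, h2⟩; exact ⟨h1, by linarith, h2⟩
    rw [this]; ring
  have h3 : ∑ e ∈ H.filter (fun e => θ - g ≤ w e ∧ w e < θ), (θ - w e) =
      ∑ e ∈ H.filter (fun e => θ - g ≤ w e), (if w e < θ then θ - w e else 0) := by
    rw [← sum_filter, filter_filter]
  rw [h1, h2, h3, ← sum_add_distrib, ← sum_add_distrib]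
  refine sum_le_sum fun e _ => ?_
  split_ifs <;> linarith

/-- in a copy of weight at least `1 - η` all whose edges have weight less than `θ`, every edge has weight at
least `1 - η - (k-1) θ` -/
theorem light_copy {p r : ℕ} {w : Finset (Fin n) → ℝ} {θ η : ℝ} {Q : Finset (Fin n)}
    (hQ : Q.card = p) (hlt : ∀ e ∈ Q.powersetCard r, w e < θ) (hwt : 1 - η ≤ wt r w Q)
    {e : Finset (Fin n)} (he : e ∈ Q.powersetCard r) :
    1 - η - ((p.choose r : ℝ) - 1) * θ ≤ w e := by
  classical
  unfold wt at hwt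
  rw [← add_sum_erase _ _ he] at hwt
  have h1 : ∑ x ∈ (Q.powersetCard r).erase e, w x ≤ ∑ x ∈ (Q.powersetCard r).erase e, θ :=
    sum_le_sum fun x hx => (hlt x (mem_of_mem_erase hx)).le
  rw [sum_const, card_erase_of_mem he, card_powersetCard, hQ, nsmul_eq_mul] at h1
  have hpos : 1 ≤ p.choose r := by
    rw [← hQ, ← card_powersetCard]
    exact card_pos.2 ⟨e, he⟩
  rw [Nat.cast_sub hpos, Nat.cast_one] at h1
  linarith

/-- copies in `H₁ ∪ X'` where the edges of `X'` are rainbow and have weight `< θ + b`: such a copy has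
small weight or contains an edge of `H₁` of weight at least `θ / (2k)` -/
theorem copy_in_H2 {p r : ℕ} (hr : 2 ≤ r) (hrp : r < p) (hp : 4 ≤ p)
    {H1 X' : Finset (Finset (Fin n))} {w : Finset (Fin n) → ℝ} {θ η b : ℝ}
    (hw : ∀ e, 0 ≤ w e) (hb : 0 ≤ b) (hθ : 0 < θ)
    (hk : ((p.choose r : ℝ) - 1) * θ = 1)
    (hηb : η + ((p.choose r : ℝ) - 2) * b ≤ θ / 2)
    (hX' : ∀ S : Finset (Fin n), S.card = r + 1 → (S.powersetCard r ∩ X').card ≤ 2)
    (hwX' : ∀ e ∈ X', w e < θ + b) {Q : Finset (Fin n)} (hQ : Q ∈ copies p r (H1 ∪ X'))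
    (hwt : 1 - η ≤ wt r w Q) :
    ∃ e ∈ H1.filter (fun e => θ / (2 * (p.choose r : ℝ)) ≤ w e), e ⊆ Q := by
  classical
  rw [mem_copies] at hQ
  obtain ⟨hQc, hQs⟩ := hQ
  set k : ℝ := (p.choose r : ℝ) with hkdef
  have hcardle := rainbow_copies hr hrp hp hX' Q hQc
  have hcard2 : ((Q.powersetCard r ∩ X').card : ℝ) + 2 ≤ k := by
    rw [hkdef]
    exact_mod_cast hcardle
  have hk0 : 0 < k := by
    have := Nat.cast_nonneg (α := ℝ) ((Q.powersetCard r ∩ X').card)
    linarith
  by_contra hcon
  push Not at hcon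
  -- split
  have hsplit : wt r w Q = ∑ e ∈ Q.powersetCard r ∩ X', w e + ∑ e ∈ Q.powersetCard r \ X', w e := by
    unfold wt
    exact (sum_inter_add_sum_sdiff _ _ _).symm
  have h1 : ∑ e ∈ Q.powersetCard r ∩ X', w e ≤ (k - 2) * (θ + b) := by
    calc ∑ e ∈ Q.powersetCard r ∩ X', w e ≤ ∑ e ∈ Q.powersetCard r ∩ X', (θ + b) :=
          sum_le_sum fun e he => (hwX' e (mem_inter.1 he).2).le
      _ = (Q.powersetCard r ∩ X').card * (θ + b) := by rw [sum_const, nsmul_eq_mul]
      _ ≤ (k - 2) * (θ + b) := by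
          apply mul_le_mul_of_nonneg_right <;> linarith
  have h2 : ∑ e ∈ Q.powersetCard r \ X', w e < θ / 2 := by
    have hne : (Q.powersetCard r \ X').Nonempty := by
      rw [← card_pos]
      have := card_sdiff_add_card_inter (Q.powersetCard r) X'
      rw [card_powersetCard, hQc] at this
      omega
    have hcs : ((Q.powersetCard r \ X').card : ℝ) ≤ k := by
      have := card_le_card (sdiff_subset (s := Q.powersetCard r) (t := X'))
      rw [card_powersetCard, hQc] at this
      rw [hkdef]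
      exact_mod_cast this
    calc ∑ e ∈ Q.powersetCard r \ X', w e < ∑ e ∈ Q.powersetCard r \ X', θ / (2 * k) := by
          refine sum_lt_sum_of_nonempty hne fun e he => ?_
          rw [mem_sdiff] at he
          have heH : e ∈ H1 := by
            rcases mem_union.1 (hQs he.1) with h | h
            · exact h
            · exact absurd h he.2
          have hsub : e ⊆ Q := (mem_powersetCard.1 he.1).1
          by_contra hge
          push Not at hge
          exact hcon e (mem_filter.2 ⟨heH, hge⟩) hsub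
      _ = (Q.powersetCard r \ X').card * (θ / (2 * k)) := by rw [sum_const, nsmul_eq_mul]
      _ ≤ k * (θ / (2 * k)) := by
          apply mul_le_mul_of_nonneg_right hcs
          positivity
      _ = θ / 2 := by field_simp
  rw [hsplit] at hwt
  nlinarith

end ES
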