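import Mathlib
import Pool.Agent.Lib.SqCyc.NibDefs
import Pool.Agent.Lib.MP_1f562f_co.Basic

section

section

/-! # Approximate linear programming duality by a penalty function -/

set_option autoImplicit false

open Finset

namespace ES

section
variable {α ι : Type} [DecidableEq α] [DecidableEq ι]

theorem sq_up (a h : ℝ) (hh : 0 ≤ h) :
    (max 0 (a + h)) ^ 2 ≤ (max 0 a) ^ 2 + (2 * h * max 0 a + h ^ 2) := by
  have h1 : max 0 (a + h) ≤ max 0 a + h := by
    refine max_le (by positivity) ?_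
    have := le_max_right 0 a
    linarith
  have h0 : 0 ≤ max 0 (a + h) := le_max_left _ _
  nlinarith

theorem sq_down (a h : ℝ) (hh : 0 ≤ h) :
    (max 0 (a - h)) ^ 2 ≤ (max 0 a) ^ 2 + (-(2 * h * max 0 a) + h ^ 2) := by
  rcases le_total 0 a with ha | ha
  · rw [max_eq_right ha]
    rcases le_total 0 (a - h) with hb | hb
    · rw [max_eq_right hb]
      nlinarith
    · rw [max_eq_left hb]
      nlinarith
  · rw [max_eq_left ha, max_eq_left (by linarith)]
    nlinarith

theorem deg_update {I : Finset ι} {e : ι → Finset α} (y : ι → ℝ) {i : ι} (hi : i ∈ I) (t : ℝ)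
    (v : α) : SqCyc.deg I e (Function.update y i (y i + t)) v =
      SqCyc.deg I e y v + if v ∈ e i then t else 0 := by
  unfold SqCyc.deg
  have h1 : ∀ j, Function.update y i (y i + t) j = y j + if j = i then t else 0 := by
    intro j
    by_cases hj : j = i
    · subst hj
      simp
    · simp [hj]
  simp_rw [h1, sum_add_distrib]
  congr 1
  rw [sum_ite_eq' (I.filter (fun j => v ∈ e j)) i (fun _ => t)]
  simp [hi]

/-- the penalised objective function -/
noncomputable def pen (V : Finset α) (I : Finset ι) (e : ι → Finset α) (lam : ℝ) (y : ι → ℝ) :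
    ℝ := -∑ i ∈ I, y i + lam / 2 * ∑ v ∈ V, (max 0 (SqCyc.deg I e y v - 1)) ^ 2

theorem pen_continuous (V : Finset α) (I : Finset ι) (e : ι → Finset α) (lam : ℝ) :
    Continuous (pen V I e lam) := by
  unfold pen SqCyc.deg
  fun_prop

theorem sum_update {I : Finset ι} (y : ι → ℝ) {i : ι} (hi : i ∈ I) (t : ℝ) :
    ∑ j ∈ I, Function.update y i (y i + t) j = ∑ j ∈ I, y j + t := by
  have h1 : ∀ j, Function.update y i (y i + t) j = y j + if j = i then t else 0 := by
    intro j
    by_cases hj : j = i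
    · subst hj
      simp
    · simp [hj]
  simp_rw [h1, sum_add_distrib]
  rw [sum_ite_eq' I i (fun _ => t), if_pos hi]

theorem sum_ite_sub {V s : Finset α} (hs : s ⊆ V) (f : α → ℝ) :
    ∑ v ∈ V, (if v ∈ s then f v else 0) = ∑ v ∈ s, f v := by
  rw [← sum_filter, filter_mem_eq_inter, inter_eq_right.mpr hs]

theorem pen_up {V : Finset α} {I : Finset ι} {e : ι → Finset α} {lam : ℝ} (hlam : 0 < lam)
    (y : ι → ℝ) {i : ι} (hi : i ∈ I) (hV : e i ⊆ V) {h : ℝ} (hh : 0 ≤ h) :
    pen V I e lam (Function.update y i (y i + h)) ≤ pen V I e lam y - h +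
      h * ∑ v ∈ e i, lam * max 0 (SqCyc.deg I e y v - 1) + lam / 2 * (e i).card * h ^ 2 := by
  unfold pen
  rw [sum_update y hi h]
  have h1 : ∑ v ∈ V, (max 0 (SqCyc.deg I e (Function.update y i (y i + h)) v - 1)) ^ 2 ≤
      ∑ v ∈ V, (max 0 (SqCyc.deg I e y v - 1)) ^ 2 +
      ∑ v ∈ e i, (2 * h * max 0 (SqCyc.deg I e y v - 1) + h ^ 2) := by
    rw [← sum_ite_sub hV, ← sum_add_distrib]
    refine sum_le_sum fun v _ => ?_
    rw [deg_update y hi h v]
    by_cases hv : v ∈ e i
    · rw [if_pos hv, if_pos hv]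
      have := sq_up (SqCyc.deg I e y v - 1) h hh
      have h2 : SqCyc.deg I e y v + h - 1 = SqCyc.deg I e y v - 1 + h := by ring
      rw [h2]
      exact this
    · rw [if_neg hv, if_neg hv, add_zero, add_zero]
  have h2 : ∑ v ∈ e i, (2 * h * max 0 (SqCyc.deg I e y v - 1) + h ^ 2) =
      2 * h * ∑ v ∈ e i, max 0 (SqCyc.deg I e y v - 1) + (e i).card * h ^ 2 := by
    rw [sum_add_distrib, ← mul_sum, sum_const, nsmul_eq_mul]
  rw [h2] at h1
  rw [← mul_sum]
  have h3 := mul_le_mul_of_nonneg_left h1 (by positivity : 0 ≤ lam / 2)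
  linarith

theorem pen_down {V : Finset α} {I : Finset ι} {e : ι → Finset α} {lam : ℝ} (hlam : 0 < lam)
    (y : ι → ℝ) {i : ι} (hi : i ∈ I) (hV : e i ⊆ V) {h : ℝ} (hh : 0 ≤ h) :
    pen V I e lam (Function.update y i (y i + (-h))) ≤ pen V I e lam y + h -
      h * ∑ v ∈ e i, lam * max 0 (SqCyc.deg I e y v - 1) + lam / 2 * (e i).card * h ^ 2 := by
  unfold pen
  rw [sum_update y hi (-h)]
  have h1 : ∑ v ∈ V, (max 0 (SqCyc.deg I e (Function.update y i (y i + (-h))) v - 1)) ^ 2 ≤
      ∑ v ∈ V, (max 0 (SqCyc.deg I e y v - 1)) ^ 2 +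
      ∑ v ∈ e i, (-(2 * h * max 0 (SqCyc.deg I e y v - 1)) + h ^ 2) := by
    rw [← sum_ite_sub hV, ← sum_add_distrib]
    refine sum_le_sum fun v _ => ?_
    rw [deg_update y hi (-h) v]
    by_cases hv : v ∈ e i
    · rw [if_pos hv, if_pos hv]
      have := sq_down (SqCyc.deg I e y v - 1) h hh
      have h2 : SqCyc.deg I e y v + -h - 1 = SqCyc.deg I e y v - 1 - h := by ring
      rw [h2]
      exact this
    · rw [if_neg hv, if_neg hv, add_zero, add_zero]
  have h2 : ∑ v ∈ e i, (-(2 * h * max 0 (SqCyc.deg I e y v - 1)) + h ^ 2) =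
      -(2 * h * ∑ v ∈ e i, max 0 (SqCyc.deg I e y v - 1)) + (e i).card * h ^ 2 := by
    rw [sum_add_distrib, sum_neg_distrib, ← mul_sum, sum_const, nsmul_eq_mul]
  rw [h2] at h1
  rw [← mul_sum]
  have h3 := mul_le_mul_of_nonneg_left h1 (by positivity : 0 ≤ lam / 2)
  linarith

theorem le_of_small {a b R : ℝ} (hR : 0 < R)
    (h : ∀ t : ℝ, 0 < t → t < R → a ≤ b * t) : a ≤ 0 := by
  by_contra hcon
  push Not at hcon
  rcases le_or_gt b 0 with hb | hb
  · have h1 := h (R / 2) (by linarith) (by linarith)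
    have : b * (R / 2) ≤ 0 := mul_nonpos_of_nonpos_of_nonneg hb (by linarith)
    linarith
  · set t := min (R / 2) (a / (2 * b)) with ht
    have ht0 : 0 < t := lt_min (by linarith) (by positivity)
    have h1 := h t ht0 (lt_of_le_of_lt (min_le_left _ _) (by linarith))
    have h2 : b * t ≤ b * (a / (2 * b)) := mul_le_mul_of_nonneg_left (min_le_right _ _) hb.le
    have h3 : b * (a / (2 * b)) = a / 2 := by field_simp
    linarith

/-- approximate duality for fractional packings of a hypergraph -/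
theorem penalised (V : Finset α) (I : Finset ι) (e : ι → Finset α)
    (he : ∀ i ∈ I, (e i).Nonempty) (heV : ∀ i ∈ I, e i ⊆ V) (lam : ℝ) (hlam : 0 < lam) :
    ∃ (y : ι → ℝ) (w : α → ℝ), (∀ i ∈ I, 0 ≤ y i) ∧ (∀ v, 0 ≤ w v) ∧
      (∀ i ∈ I, 1 ≤ ∑ v ∈ e i, w v) ∧ (∀ i ∈ I, 0 < y i → ∑ v ∈ e i, w v = 1) ∧
      (∀ v, 0 < w v → 1 ≤ SqCyc.deg I e y v) ∧
      (∀ v ∈ V, SqCyc.deg I e y v ≤ 1 + 1 / lam) := by
  set R : ℝ := 1 + 2 / lam with hR
  have hR0 : 0 < R := by positivity
  set K : Set (ι → ℝ) := Set.univ.pi (fun i => if i ∈ I then Set.Icc 0 R else {0}) with hK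
  have hKc : IsCompact K := by
    refine isCompact_univ_pi fun i => ?_
    by_cases hi : i ∈ I
    · rw [if_pos hi]
      exact isCompact_Icc
    · rw [if_neg hi]
      exact isCompact_singleton
  have hKn : K.Nonempty := by
    refine ⟨0, fun i _ => ?_⟩
    by_cases hi : i ∈ I
    · simp only [Pi.zero_apply]
      rw [if_pos hi]
      exact ⟨le_rfl, hR0.le⟩
    · simp only [Pi.zero_apply]
      rw [if_neg hi]
      exact rfl
  obtain ⟨y, hyK, hmin⟩ := hKc.exists_isMinOn hKn (pen_continuous V I e lam).continuousOn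
  have hy : ∀ i ∈ I, 0 ≤ y i ∧ y i ≤ R := by
    intro i hi
    have := hyK i (Set.mem_univ i)
    simp only at this
    rw [if_pos hi] at this
    exact this
  have hup : ∀ i ∈ I, ∀ t : ℝ, 0 ≤ y i + t → y i + t ≤ R →
      pen V I e lam y ≤ pen V I e lam (Function.update y i (y i + t)) := by
    intro i hi t h0 h1
    refine hmin ?_
    intro j _
    by_cases hj : j = i
    · subst hj
      simp only [Function.update_self]
      rw [if_pos hi]
      exact ⟨h0, h1⟩
    · rw [Function.update_of_ne hj]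
      exact hyK j (Set.mem_univ j)
  set w : α → ℝ := fun v => lam * max 0 (SqCyc.deg I e y v - 1) with hw
  have hw0 : ∀ v, 0 ≤ w v := fun v => mul_nonneg hlam.le (le_max_left _ _)
  have hB : ∀ i ∈ I, 0 < y i → ∑ v ∈ e i, w v ≤ 1 := by
    intro i hi hyi
    have := le_of_small (a := ∑ v ∈ e i, w v - 1) (b := lam / 2 * (e i).card) hyi
      (fun t ht0 ht1 => by
        have h1 := hup i hi (-t) (by linarith) (by linarith [(hy i hi).2])
        have h2 := pen_down hlam y hi (heV i hi) ht0.le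
        have h3 : 0 ≤ t - t * ∑ v ∈ e i, w v + lam / 2 * (e i).card * t ^ 2 := by
          simp only [hw]
          linarith
        have h4 : 0 ≤ t * (1 - ∑ v ∈ e i, w v + lam / 2 * (e i).card * t) := by
          linarith [h3, sq t]
        have h5 := nonneg_of_mul_nonneg_right h4 ht0
        linarith)
    linarith
  have hC : ∀ i ∈ I, y i < R := by
    intro i hi
    refine lt_of_le_of_ne (hy i hi).2 fun hcon => ?_
    obtain ⟨v, hv⟩ := he i hi
    have h1 := hB i hi (by rw [hcon]; exact hR0)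
    have h2 : R ≤ SqCyc.deg I e y v := by
      rw [← hcon]
      unfold SqCyc.deg
      exact single_le_sum (f := y) (fun j hj => (hy j (mem_filter.mp hj).1).1)
        (mem_filter.mpr ⟨hi, hv⟩)
    have h3 : 2 ≤ w v := by
      have h4 : R - 1 ≤ max 0 (SqCyc.deg I e y v - 1) := le_trans (by linarith) (le_max_right _ _)
      have h5 : lam * (R - 1) ≤ w v := mul_le_mul_of_nonneg_left h4 hlam.le
      have h6 : lam * (R - 1) = 2 := by
        rw [hR]
        field_simp
        ring
      linarith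
    have h7 : w v ≤ ∑ v ∈ e i, w v := single_le_sum (fun u _ => hw0 u) hv
    linarith
  have hA : ∀ i ∈ I, 1 ≤ ∑ v ∈ e i, w v := by
    intro i hi
    have hlt : 0 < R - y i := by linarith [hC i hi]
    have := le_of_small (a := 1 - ∑ v ∈ e i, w v) (b := lam / 2 * (e i).card) hlt
      (fun t ht0 ht1 => by
        have h1 := hup i hi t (by linarith [(hy i hi).1]) (by linarith)
        have h2 := pen_up hlam y hi (heV i hi) ht0.le
        have h3 : 0 ≤ - t + t * ∑ v ∈ e i, w v + lam / 2 * (e i).card * t ^ 2 := by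
          simp only [hw]
          linarith
        have h4 : 0 ≤ t * (-1 + ∑ v ∈ e i, w v + lam / 2 * (e i).card * t) := by
          linarith [h3, sq t]
        have h5 := nonneg_of_mul_nonneg_right h4 ht0
        linarith)
    linarith
  refine ⟨y, w, fun i hi => (hy i hi).1, hw0, hA, fun i hi h => le_antisymm (hB i hi h) (hA i hi),
    ?_, ?_⟩
  · intro v hv
    by_contra hcon
    push Not at hcon
    have : w v = 0 := by
      simp only [hw]
      rw [max_eq_left (by linarith), mul_zero]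
    linarith
  · intro v _
    rcases le_or_gt (SqCyc.deg I e y v) 1 with h1 | h1
    · have : 0 < 1 / lam := by positivity
      linarith
    · obtain ⟨i, hi, hvi, hyi⟩ : ∃ i ∈ I, v ∈ e i ∧ 0 < y i := by
        by_contra hcon
        push Not at hcon
        have : SqCyc.deg I e y v ≤ 0 := by
          unfold SqCyc.deg
          refine sum_nonpos fun i hi => ?_
          rw [mem_filter] at hi
          exact hcon i hi.1 hi.2
        linarith
      have h2 : w v ≤ ∑ v ∈ e i, w v := single_le_sum (fun u _ => hw0 u) hvi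
      have h3 := hB i hi hyi
      have h4 : lam * (SqCyc.deg I e y v - 1) ≤ 1 := by
        have : w v = lam * (SqCyc.deg I e y v - 1) := by
          simp only [hw]
          rw [max_eq_right (by linarith)]
        linarith
      have h5 : SqCyc.deg I e y v - 1 ≤ 1 / lam := by
        rw [le_div_iff₀ hlam]
        linarith
      linarith

end

end ES
end

section

/-!
# Erdős–Sauer: counting supersets
-/

set_option autoImplicit false

open Finset

namespace ES

variable {n : ℕ}

/-- exact number of `p`-sets containing a given set `T` -/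
theorem card_sup_eq {p : ℕ} (T : Finset (Fin n)) (hT : T.card ≤ p) :
    ((univ.powersetCard p).filter (fun Q : Finset (Fin n) => T ⊆ Q)).card =
      (n - T.card).choose (p - T.card) := by
  classical
  have h1 : (univ \ T : Finset (Fin n)).card = n - T.card := by
    rw [card_sdiff_of_subset (subset_univ _), card_univ, Fintype.card_fin]
  rw [← h1, ← card_powersetCard]
  refine card_nbij' (fun Q => Q \ T) (fun S => S ∪ T) ?_ ?_ ?_ ?_
  · intro Q hQ
    simp only [coe_filter, mem_powersetCard, Set.mem_setOf_eq] at hQ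
    simp only [mem_coe, mem_powersetCard]
    refine ⟨sdiff_subset_sdiff (subset_univ _) (le_refl _), ?_⟩
    rw [card_sdiff_of_subset hQ.2, hQ.1.2]
  · intro S hS
    simp only [mem_coe, mem_powersetCard] at hS
    simp only [coe_filter, mem_powersetCard, Set.mem_setOf_eq]
    have hdis : Disjoint S T := by
      rw [disjoint_left]
      intro x hx hxT
      exact (mem_sdiff.1 (hS.1 hx)).2 hxT
    refine ⟨⟨subset_univ _, ?_⟩, subset_union_right⟩
    rw [card_union_of_disjoint hdis, hS.2]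
    omega
  · intro Q hQ
    simp only [coe_filter, mem_powersetCard, Set.mem_setOf_eq] at hQ
    exact sdiff_union_of_subset hQ.2
  · intro S hS
    simp only [mem_coe, mem_powersetCard] at hS
    have hdis : Disjoint S T := by
      rw [disjoint_left]
      intro x hx hxT
      exact (mem_sdiff.1 (hS.1 hx)).2 hxT
    change (S ∪ T) \ T = S
    rw [union_sdiff_right, sdiff_eq_self_of_disjoint hdis]

/-- number of `p`-sets containing a given set `T`: it is `C(n-|T|, p-|T|) ≤ n^(p-|T|)`.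
(`Q ↦ Q \ T` is injective on the supersets of `T` into the `(p-|T|)`-subsets of `univ \ T`.) -/
theorem card_sup_le {p : ℕ} (T : Finset (Fin n)) (hT : T.card ≤ p) :
    (((univ.powersetCard p).filter (fun Q : Finset (Fin n) => T ⊆ Q)).card : ℝ) ≤
      (n : ℝ) ^ (p - T.card) := by
  rw [card_sup_eq T hT]
  have h1 : (n - T.card).choose (p - T.card) ≤ (n - T.card) ^ (p - T.card) :=
    Nat.choose_le_pow _ _
  have h2 : (n - T.card) ^ (p - T.card) ≤ n ^ (p - T.card) :=
    Nat.pow_le_pow_left (Nat.sub_le _ _) _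
  exact_mod_cast h1.trans h2

/-- few copies contain an edge of `Y` (sum `card_sup_le` over `e ∈ Y`) -/
theorem copies_meet_le {p r : ℕ} (hrp : r ≤ p) (H Y : Finset (Finset (Fin n)))
    (hY : ∀ e ∈ Y, e.card = r) :
    (((copies p r H).filter (fun Q => ∃ e ∈ Y, e ⊆ Q)).card : ℝ) ≤
      Y.card * (n : ℝ) ^ (p - r) := by
  classical
  have hsub : (copies p r H).filter (fun Q => ∃ e ∈ Y, e ⊆ Q) ⊆
      Y.biUnion (fun e => (univ.powersetCard p).filter (fun Q : Finset (Fin n) => e ⊆ Q)) := by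
    intro Q hQ
    rw [mem_filter] at hQ
    obtain ⟨hQc, e, he, heQ⟩ := hQ
    rw [mem_biUnion]
    refine ⟨e, he, ?_⟩
    rw [mem_filter, mem_powersetCard]
    exact ⟨⟨subset_univ _, (mem_copies.1 hQc).1⟩, heQ⟩
  have h1 : (((copies p r H).filter (fun Q => ∃ e ∈ Y, e ⊆ Q)).card : ℝ) ≤
      ∑ e ∈ Y, (((univ.powersetCard p).filter (fun Q : Finset (Fin n) => e ⊆ Q)).card : ℝ) := by
    exact_mod_cast (card_le_card hsub).trans card_biUnion_le
  refine h1.trans ?_
  calc ∑ e ∈ Y, (((univ.powersetCard p).filter (fun Q : Finset (Fin n) => e ⊆ Q)).card : ℝ) ≤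
      ∑ e ∈ Y, (n : ℝ) ^ (p - r) := by
        refine sum_le_sum fun e he => ?_
        have := card_sup_le (p := p) e ((hY e he).le.trans hrp)
        rwa [hY e he] at this
    _ = Y.card * (n : ℝ) ^ (p - r) := by rw [sum_const, nsmul_eq_mul]

end ES
end

section

/-!
# Erdős–Sauer: cloning a vertex
-/

set_option autoImplicit false

open Finset

namespace ES

theorem w_z_notMem_map {n : ℕ} (e : Finset (Fin n)) :
    Fin.last n ∉ e.map Fin.castSuccEmb := by
  intro h
  obtain ⟨a, _, ha⟩ := Finset.mem_map.1 h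
  exact (Fin.castSucc_lt_last a).ne ha

theorem w_f_mem_map {n : ℕ} (e : Finset (Fin n)) (a : Fin n) :
    Fin.castSuccEmb a ∈ e.map Fin.castSuccEmb ↔ a ∈ e :=
  Finset.mem_map' _

/-- members of the clone part -/
theorem w_clone_inj {n : ℕ} {x : Fin n} {e e' : Finset (Fin n)} (hx : x ∈ e) (hx' : x ∈ e')
    (h : insert (Fin.last n) ((e.erase x).map Fin.castSuccEmb)
      = insert (Fin.last n) ((e'.erase x).map Fin.castSuccEmb)) : e = e' := by
  have h1 : (e.erase x).map Fin.castSuccEmb = (e'.erase x).map Fin.castSuccEmb := by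
    have := congrArg (fun s => s.erase (Fin.last n)) h
    simpa [erase_insert (w_z_notMem_map (e.erase x)), erase_insert (w_z_notMem_map (e'.erase x))]
      using this
  have h2 : e.erase x = e'.erase x := Finset.map_injective _ h1
  rw [← insert_erase hx, ← insert_erase hx', h2]

theorem w_sum_deg {n : ℕ} (G : Finset (Finset (Fin n))) (r : ℕ) (hG : ∀ e ∈ G, e.card = r) :
    ∑ x : Fin n, (G.filter (fun e => x ∈ e)).card = r * G.card := by
  have h := Finset.sum_card_bipartiteAbove_eq_sum_card_bipartiteBelow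
    (s := (univ : Finset (Fin n))) (t := G) (fun x e => x ∈ e)
  have h1 : ∀ x : Fin n, (G.filter (fun e => x ∈ e)).card
      = (Finset.bipartiteAbove (fun x e => x ∈ e) G x).card := fun x => rfl
  rw [Finset.sum_congr rfl (fun x _ => h1 x), h]
  have h2 : ∀ e ∈ G, (Finset.bipartiteBelow (fun x e => x ∈ e) (univ : Finset (Fin n)) e).card
      = r := by
    intro e he
    rw [← hG e he]
    congr 1
    ext a
    simp [Finset.bipartiteBelow]
  rw [Finset.sum_congr rfl h2, sum_const, smul_eq_mul, mul_comm]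

theorem w_exists_deg {n : ℕ} (hn : 0 < n) (G : Finset (Finset (Fin n))) (r : ℕ)
    (hG : ∀ e ∈ G, e.card = r) :
    ∃ x : Fin n, r * G.card ≤ n * (G.filter (fun e => x ∈ e)).card := by
  by_contra hcon
  push Not at hcon
  have hne : (univ : Finset (Fin n)).Nonempty := ⟨⟨0, hn⟩, mem_univ _⟩
  have h1 := Finset.sum_lt_sum_of_nonempty hne (fun x _ => hcon x)
  rw [← Finset.mul_sum, w_sum_deg G r hG, sum_const, card_univ, Fintype.card_fin,
    smul_eq_mul] at h1
  exact lt_irrefl _ h1

open Classical in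
/-- the cloned family -/
noncomputable def wClone {n : ℕ} (G : Finset (Finset (Fin n))) (x : Fin n) :
    Finset (Finset (Fin (n + 1))) :=
  (G.image (fun e => e.map Fin.castSuccEmb)) ∪
    ((G.filter (fun e => x ∈ e)).image
      (fun e => insert (Fin.last n) ((e.erase x).map Fin.castSuccEmb)))

theorem w_card_clone {n : ℕ} (G : Finset (Finset (Fin n))) (x : Fin n) :
    (wClone G x).card = G.card + (G.filter (fun e => x ∈ e)).card := by
  classical
  unfold wClone
  rw [card_union_of_disjoint, card_image_of_injective _ (Finset.map_injective _),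
    card_image_of_injOn]
  · intro e he e' he' h
    simp only [coe_filter, Set.mem_setOf_eq] at he he'
    exact w_clone_inj he.2 he'.2 h
  · rw [Finset.disjoint_left]
    intro T hT hT'
    obtain ⟨e, _, rfl⟩ := mem_image.1 hT
    obtain ⟨e', _, h⟩ := mem_image.1 hT'
    apply w_z_notMem_map e
    rw [← h]
    exact mem_insert_self _ _

theorem w_mem_of_notMem {n : ℕ} {G : Finset (Finset (Fin n))} {x : Fin n} {e : Finset (Fin n)}
    (h : e.map Fin.castSuccEmb ∈ wClone G x) : e ∈ G := by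
  classical
  unfold wClone at h
  rcases mem_union.1 h with h | h
  · obtain ⟨e', he', h'⟩ := mem_image.1 h
    rw [← Finset.map_injective _ h']
    exact he'
  · obtain ⟨e', _, h'⟩ := mem_image.1 h
    exact absurd (h' ▸ mem_insert_self _ _) (w_z_notMem_map e)

theorem w_mem_of_mem {n : ℕ} {G : Finset (Finset (Fin n))} {x : Fin n} {T : Finset (Fin (n + 1))}
    (h : T ∈ wClone G x) (hz : Fin.last n ∈ T) :
    ∃ e ∈ G, x ∈ e ∧ T = insert (Fin.last n) ((e.erase x).map Fin.castSuccEmb) := by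
  classical
  unfold wClone at h
  rcases mem_union.1 h with h | h
  · obtain ⟨e', he', rfl⟩ := mem_image.1 h
    exact absurd hz (w_z_notMem_map e')
  · obtain ⟨e', he', h'⟩ := mem_image.1 h
    rw [mem_filter] at he'
    exact ⟨e', he'.1, he'.2, h'.symm⟩

theorem w_card_ins {n : ℕ} {x : Fin n} {e : Finset (Fin n)} (hx : x ∈ e) :
    (insert (Fin.last n) ((e.erase x).map Fin.castSuccEmb)).card = e.card := by
  rw [card_insert_of_notMem (w_z_notMem_map _), card_map, card_erase_of_mem hx]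
  have : 0 < e.card := card_pos.2 ⟨x, hx⟩
  omega

theorem w_clone_card_mem {n r : ℕ} {G : Finset (Finset (Fin n))} (hG : ∀ e ∈ G, e.card = r)
    (x : Fin n) : ∀ T ∈ wClone G x, T.card = r := by
  classical
  intro T hT
  unfold wClone at hT
  rcases mem_union.1 hT with h | h
  · obtain ⟨e', he', rfl⟩ := mem_image.1 h
    rw [card_map, hG _ he']
  · obtain ⟨e', he', rfl⟩ := mem_image.1 h
    rw [mem_filter] at he'
    rw [w_card_ins he'.2, hG _ he'.1]

theorem w_preimage {n : ℕ} (S : Finset (Fin (n + 1))) :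
    (univ.filter (fun i : Fin n => Fin.castSuccEmb i ∈ S)).map Fin.castSuccEmb
      = S.erase (Fin.last n) := by
  ext a
  rw [mem_map, mem_erase]
  constructor
  · rintro ⟨i, hi, rfl⟩
    rw [mem_filter] at hi
    exact ⟨(Fin.castSucc_lt_last i).ne, hi.2⟩
  · rintro ⟨ha, haS⟩
    obtain ⟨i, rfl⟩ := Fin.exists_castSucc_eq.2 ha
    exact ⟨i, by simpa using haS, rfl⟩

theorem w_clone_free {n p r : ℕ} (hr : 2 ≤ r) (hrp : r < p) {G : Finset (Finset (Fin n))}
    (hG : Free p r G) (x : Fin n) : Free p r (wClone G x) := by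
  classical
  refine ⟨w_clone_card_mem hG.1 x, fun S hS hsub => ?_⟩
  have hin : ∀ T, T ⊆ S → T.card = r → T ∈ wClone G x := fun T hT hc =>
    hsub (mem_powersetCard.2 ⟨hT, hc⟩)
  set S0 : Finset (Fin n) := univ.filter (fun i : Fin n => Fin.castSuccEmb i ∈ S) with hS0
  have hmap : S0.map Fin.castSuccEmb = S.erase (Fin.last n) := w_preimage S
  have hmapsub : ∀ e : Finset (Fin n), e ⊆ S0 → e.map Fin.castSuccEmb ⊆ S := by
    intro e he a ha
    obtain ⟨i, hi, rfl⟩ := mem_map.1 ha
    have := he hi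
    rw [hS0, mem_filter] at this
    exact this.2
  have hsmall : ∀ e : Finset (Fin n), e ⊆ S0 → e.card = r → e ∈ G := fun e he hc =>
    w_mem_of_notMem (hin _ (hmapsub e he) (by rw [card_map, hc]))
  by_cases hz : Fin.last n ∈ S
  · have hc0 : S0.card + 1 = p := by
      rw [← card_map Fin.castSuccEmb, hmap, card_erase_of_mem hz, hS]
      omega
    by_cases hx : Fin.castSuccEmb x ∈ S
    · have hne : Fin.last n ≠ Fin.castSuccEmb x := fun h => (Fin.castSucc_lt_last x).ne h.symm
      have hpair : ({Fin.last n, Fin.castSuccEmb x} : Finset (Fin (n + 1))) ⊆ S := by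
        intro a ha
        rw [mem_insert, mem_singleton] at ha
        rcases ha with rfl | rfl
        · exact hz
        · exact hx
      obtain ⟨T, hT1, hT2, hT3⟩ := Finset.exists_subsuperset_card_eq (n := r) hpair
        (by rw [card_pair hne]; exact hr) (by rw [hS]; exact hrp.le)
      have hTm := hin T hT2 hT3
      obtain ⟨e, he, hxe, hTe⟩ := w_mem_of_mem hTm (hT1 (mem_insert_self _ _))
      have hxT : Fin.castSuccEmb x ∈ T := hT1 (mem_insert_of_mem (mem_singleton_self _))
      rw [hTe, mem_insert] at hxT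
      rcases hxT with h | h
      · exact hne h.symm
      · rw [w_f_mem_map] at h
        exact notMem_erase _ _ h
    · have hxS0 : x ∉ S0 := by
        rw [hS0, mem_filter]
        exact fun h => hx h.2
      refine hG.2 (insert x S0) ?_ ?_
      · rw [card_insert_of_notMem hxS0, hc0]
      · intro e he
        rw [mem_powersetCard] at he
        by_cases hxe : x ∈ e
        · have hsubS0 : e.erase x ⊆ S0 := by
            intro a ha
            rw [mem_erase] at ha
            have := he.1 ha.2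
            rw [mem_insert] at this
            exact this.resolve_left ha.1
          have hTm := hin (insert (Fin.last n) ((e.erase x).map Fin.castSuccEmb))
            (insert_subset hz (hmapsub _ hsubS0)) (by rw [w_card_ins hxe, he.2])
          obtain ⟨e', he', hxe', h⟩ := w_mem_of_mem hTm (mem_insert_self _ _)
          rw [w_clone_inj hxe hxe' h]
          exact he'
        · refine hsmall e ?_ he.2
          intro a ha
          have := he.1 ha
          rw [mem_insert] at this
          rcases this with rfl | h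
          · exact absurd ha hxe
          · exact h
  · refine hG.2 S0 ?_ ?_
    · rw [← card_map Fin.castSuccEmb, hmap, erase_eq_of_notMem hz, hS]
    · intro e he
      rw [mem_powersetCard] at he
      exact hsmall e he.1 he.2

/-- Cloning a vertex of maximum degree: `α(n,p,r) (n + r) ≤ α(n+1,p,r) n`.

Proof.  `n = 0`: `α(0,p,r) * r ≤ 0` since a free `r`-graph on `Fin 0` is empty (`r ≥ 1`).  Let `n ≥ 1` and `G` free
with `|G| = α(n,p,r)` (`exists_al`).  `∑_x deg x = r |G|`, so some `x` has `n * deg x ≥ r |G|`.  Let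
`f = Fin.castSuccEmb : Fin n ↪ Fin (n+1)`, `z = Fin.last n`, and
`G' = G.map/image (·.map f) ∪ (G.filter (x ∈ ·)).image (fun e => insert z ((e.erase x).map f))`.
The two parts are disjoint (`z`), both maps are injective on their domains, so `|G'| = |G| + deg x`, all members
have `r` elements.  `G'` is free: let `|S| = p` with all `r`-subsets in `G'`.
If `z ∉ S` then `S = S₀.map f`, and all `r`-subsets of `S₀` are in `G`; contradiction.
If `z ∈ S` and `f x ∈ S`: take an `r`-subset of `S` containing `z` and `f x` (`2 ≤ r ≤ p`); it contains `z`, so it is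
`insert z ((e.erase x).map f)`, which does not contain `f x`.  Contradiction.
If `z ∈ S`, `f x ∉ S`: let `S₀` be the preimage of `S` together with `x`; `|S₀| = p`.  Let `e ⊆ S₀`, `|e| = r`.  If `x ∉ e` then
`e.map f ⊆ S` so `e.map f ∈ G'`, and `e ∈ G`.  If `x ∈ e` then `insert z ((e.erase x).map f) ⊆ S` has `r` elements, so it is
in `G'` and contains `z`: it is `insert z ((e'.erase x).map f)` with `x ∈ e' ∈ G`, so `e = e' ∈ G`.  Contradiction.
Hence `α(n+1,p,r) n ≥ |G'| n ≥ |G| n + r |G|`. -/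
theorem al_succ {n p r : ℕ} (hr : 2 ≤ r) (hrp : r < p) :
    al n p r * (n + r) ≤ al (n + 1) p r * n := by
  classical
  obtain ⟨G, hG, hc⟩ := exists_al (n := n) (p := p) (r := r) hrp.le
  rcases Nat.eq_zero_or_pos n with rfl | hn
  · have hG0 : G = ∅ := by
      rw [Finset.eq_empty_iff_forall_notMem]
      intro e he
      have h1 := hG.1 e he
      have h2 : e = ∅ := Finset.eq_empty_of_isEmpty e
      rw [h2, card_empty] at h1
      omega
    rw [← hc, hG0]
    simp
  · obtain ⟨x, hx⟩ := w_exists_deg hn G r hG.1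
    have h1 := card_le_al (w_clone_free hr hrp hG x)
    rw [w_card_clone] at h1
    rw [← hc]
    calc G.card * (n + r) = G.card * n + r * G.card := by ring
      _ ≤ G.card * n + n * (G.filter (fun e => x ∈ e)).card := by omega
      _ = (G.card + (G.filter (fun e => x ∈ e)).card) * n := by ring
      _ ≤ al (n + 1) p r * n := Nat.mul_le_mul_right n h1

end ES
end

section

/-!
# Erdős–Sauer: the cost of one copy in the mixture of two covers
-/

set_option autoImplicit false

open Finset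

namespace ES

/-- Cost of one copy.  `E` is a set of `C ≥ 4` edges with weights `w ≥ 0`, `∑ w = 1`.

Proof.  Let `a`, `b`, `a'`, `b'` be the four cardinalities.  `a + b ≤ C`, `a' + b' ≤ C` (disjoint subsets of
`E`), and `a / (C - 1) ≤ ∑ w = 1`, so `a ≤ C - 1`.
Case `a ≤ C - 2`: `a + (4/9) b ≤ a + (4/9)(C - a) = (5/9) a + (4/9) C ≤ C - 10/9`; `a' + (1-ρ) b' ≤ C`.  So the
left side is at most `(19/20)(C - 10/9) + C/20 = C - 19/18 = C - 1 - 1/18 ≤ C - 1 - ρ/10`.
Case `a = C - 1`: the sum over the `a` edges with `w ≥ 1/(C-1)` is already `≥ 1`, so these weights are exactly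
`1/(C-1)` and the remaining edge has weight `0`; `b = 0`; since `1/(C-1) < 1/(C-2)`, `a' = 0` and `b' = C - 1`.
The left side is `(19/20)(C-1) + (1/20)(1-ρ)(C-1) = C - 1 - ρ(C-1)/20 ≤ C - 1 - 3ρ/20`. -/
theorem cost_le {β : Type} [DecidableEq β] (E : Finset β) (w : β → ℝ) (hw : ∀ e ∈ E, 0 ≤ w e)
    (hsum : ∑ e ∈ E, w e = 1) {C : ℕ} (hC : E.card = C) (hC4 : 4 ≤ C) {ρ : ℝ} (hρ0 : 0 ≤ ρ)
    (hρ1 : ρ ≤ 1 / 2) :
    19 / 20 * (((E.filter (fun e => 1 / ((C : ℝ) - 1) ≤ w e)).card : ℝ) +
        4 / 9 * ((E.filter (fun e => 0 < w e ∧ w e < 1 / ((C : ℝ) - 1))).card : ℝ)) +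
      1 / 20 * (((E.filter (fun e => 1 / ((C : ℝ) - 2) ≤ w e)).card : ℝ) +
        (1 - ρ) * ((E.filter (fun e => 0 < w e ∧ w e < 1 / ((C : ℝ) - 2))).card : ℝ)) ≤
      (C : ℝ) - 1 - ρ / 10 := by
  have hC' : (4 : ℝ) ≤ (C : ℝ) := by exact_mod_cast hC4
  have hC1 : (0 : ℝ) < (C : ℝ) - 1 := by linarith
  have hC2 : (0 : ℝ) < (C : ℝ) - 2 := by linarith
  have hlt : 1 / ((C : ℝ) - 1) < 1 / ((C : ℝ) - 2) := one_div_lt_one_div_of_lt hC2 (by linarith)
  have hpos1 : 0 < 1 / ((C : ℝ) - 1) := by positivity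
  have hpos2 : 0 < 1 / ((C : ℝ) - 2) := by positivity
  set A := E.filter (fun e => 1 / ((C : ℝ) - 1) ≤ w e) with hA
  set B := E.filter (fun e => 0 < w e ∧ w e < 1 / ((C : ℝ) - 1)) with hB
  set A' := E.filter (fun e => 1 / ((C : ℝ) - 2) ≤ w e) with hA'
  set B' := E.filter (fun e => 0 < w e ∧ w e < 1 / ((C : ℝ) - 2)) with hB'
  have hab : A.card + B.card ≤ C := by
    rw [← hC, ← card_union_of_disjoint]
    · exact card_le_card (union_subset (filter_subset _ _) (filter_subset _ _))
    · rw [disjoint_left]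
      intro e h1 h2
      rw [hA, mem_filter] at h1
      rw [hB, mem_filter] at h2
      linarith [h1.2, h2.2.2]
  have hab' : A'.card + B'.card ≤ C := by
    rw [← hC, ← card_union_of_disjoint]
    · exact card_le_card (union_subset (filter_subset _ _) (filter_subset _ _))
    · rw [disjoint_left]
      intro e h1 h2
      rw [hA', mem_filter] at h1
      rw [hB', mem_filter] at h2
      linarith [h1.2, h2.2.2]
  have habR : (A.card : ℝ) + (B.card : ℝ) ≤ (C : ℝ) := by exact_mod_cast hab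
  have habR' : (A'.card : ℝ) + (B'.card : ℝ) ≤ (C : ℝ) := by exact_mod_cast hab'
  -- the sum over `A`
  have hAsum : ∑ e ∈ A, w e ≤ 1 := by
    rw [← hsum]
    exact sum_le_sum_of_subset_of_nonneg (filter_subset _ _) (fun e he _ => hw e he)
  have hAge : (A.card : ℝ) * (1 / ((C : ℝ) - 1)) ≤ ∑ e ∈ A, w e := by
    rw [← nsmul_eq_mul]
    exact card_nsmul_le_sum A w _ (fun e he => (mem_filter.1 he).2)
  have hAle : (A.card : ℝ) ≤ (C : ℝ) - 1 := by
    have h := hAge.trans hAsum
    rw [mul_one_div, div_le_one hC1] at h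
    exact h
  rcases Nat.lt_or_ge A.card (C - 1) with hlt2 | hge2
  · -- `a ≤ C - 2`
    have h2 : A.card + 2 ≤ C := by omega
    have h2R : (A.card : ℝ) + 2 ≤ (C : ℝ) := by exact_mod_cast h2
    have hb0 : (0 : ℝ) ≤ (B'.card : ℝ) := by positivity
    nlinarith [mul_nonneg hρ0 hb0]
  · have h2 : C ≤ A.card + 1 := by omega
    have h2R : (C : ℝ) ≤ (A.card : ℝ) + 1 := by exact_mod_cast h2
    have hAeq : (A.card : ℝ) = (C : ℝ) - 1 := by linarith
    have hA1 : (1 : ℝ) ≤ ∑ e ∈ A, w e := by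
      refine le_trans (le_of_eq ?_) hAge
      rw [hAeq, mul_one_div, div_self hC1.ne']
    have hAsumeq : ∑ e ∈ A, w e = 1 := le_antisymm hAsum hA1
    -- the weights in `A` are exactly `1/(C-1)`
    have hex : ∀ e ∈ A, w e = 1 / ((C : ℝ) - 1) := by
      have h0 : ∑ e ∈ A, (w e - 1 / ((C : ℝ) - 1)) = 0 := by
        rw [sum_sub_distrib, hAsumeq, sum_const, nsmul_eq_mul, hAeq, mul_one_div, div_self hC1.ne',
          sub_self]
      intro e he
      have h := (sum_eq_zero_iff_of_nonneg (fun e he => ?_)).1 h0 e he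
      · linarith
      · linarith [(mem_filter.1 he).2]
    -- the weights outside `A` vanish
    have hout : ∀ e ∈ E, e ∉ A → w e = 0 := by
      have h0 : ∑ e ∈ E \ A, w e = 0 := by
        have h := sum_sdiff (f := w) (filter_subset (fun e => 1 / ((C : ℝ) - 1) ≤ w e) E)
        rw [← hA, hAsumeq, hsum] at h
        linarith
      intro e he hne
      exact (sum_eq_zero_iff_of_nonneg (fun e he => hw e (mem_sdiff.1 he).1)).1 h0 e
        (mem_sdiff.2 ⟨he, hne⟩)
    have hA'0 : A'.card = 0 := by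
      rw [card_eq_zero, hA', filter_eq_empty_iff]
      intro e he h
      by_cases hmem : e ∈ A
      · rw [hex e hmem] at h
        linarith
      · rw [hout e he hmem] at h
        linarith
    have hB'le : B'.card ≤ A.card := by
      apply card_le_card
      intro e he
      rw [hB', mem_filter] at he
      by_contra hne
      have := hout e he.1 hne
      linarith [he.2.1]
    have hB'leR : (B'.card : ℝ) ≤ (C : ℝ) - 1 := by
      rw [← hAeq]; exact_mod_cast hB'le
    have hb0 : (B.card : ℝ) ≤ 0 := by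
      have hBe : B.card = 0 := by
        rw [card_eq_zero, hB, filter_eq_empty_iff]
        intro e he h
        by_cases hmem : e ∈ A
        · rw [hex e hmem] at h
          linarith [h.2]
        · rw [hout e he hmem] at h
          linarith [h.1]
      rw [hBe]; norm_num
    have hA'R : (A'.card : ℝ) = 0 := by rw [hA'0]; norm_num
    have h1ρ : 0 ≤ 1 - ρ := by linarith
    have hmul : (1 - ρ) * (B'.card : ℝ) ≤ (1 - ρ) * ((C : ℝ) - 1) :=
      mul_le_mul_of_nonneg_left hB'leR h1ρ
    have h3 : 3 * ρ ≤ ρ * ((C : ℝ) - 1) := by nlinarith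
    nlinarith

end ES
end

section

/-!
# Erdős–Sauer: comparing Turán densities for different numbers of vertices
-/

set_option autoImplicit false

open Finset

namespace ES

/-- iterate: `α(m) C(n+r-1, r) ≤ α(n) C(m+r-1, r)` for `1 ≤ m ≤ n`.

Proof.  Induction on `n` from `m`: `C(n+r, r) n = C(n+r-1, r) (n+r)` and `al_succ`; cancel `n ≥ 1`. -/
theorem al_ratio {m n p r : ℕ} (hr : 2 ≤ r) (hrp : r < p) (hm : 1 ≤ m) (hmn : m ≤ n) :
    al m p r * (n + r - 1).choose r ≤ al n p r * (m + r - 1).choose r := by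
  induction n, hmn using Nat.le_induction with
  | base => exact le_rfl
  | succ n hn ih =>
    have hn0 : 0 < n := by omega
    have h1 := Nat.choose_mul_succ_eq (n + r - 1) r
    rw [show n + r - 1 + 1 = n + r by omega, show n + r - r = n by omega] at h1
    rw [show n + 1 + r - 1 = n + r by omega]
    refine Nat.le_of_mul_le_mul_right ?_ hn0
    calc al m p r * (n + r).choose r * n = al m p r * ((n + r).choose r * n) := by ring
      _ = al m p r * ((n + r - 1).choose r * (n + r)) := by rw [h1]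
      _ = al m p r * (n + r - 1).choose r * (n + r) := by ring
      _ ≤ al n p r * (m + r - 1).choose r * (n + r) := Nat.mul_le_mul_right _ ih
      _ = al n p r * (n + r) * (m + r - 1).choose r := by ring
      _ ≤ al (n + 1) p r * n * (m + r - 1).choose r := Nat.mul_le_mul_right _ (al_succ hr hrp)
      _ = al (n + 1) p r * (m + r - 1).choose r * n := by ring

theorem w_one_add_pow (x : ℝ) (hx0 : 0 ≤ x) (hx1 : x ≤ 1) (k : ℕ) :
    (1 + x) ^ k ≤ 1 + (2 ^ k - 1) * x := by
  induction k with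
  | zero => simp
  | succ k ih =>
    have h1 : (1 : ℝ) ≤ 2 ^ k := one_le_pow₀ (by norm_num)
    calc (1 + x) ^ (k + 1) = (1 + x) ^ k * (1 + x) := pow_succ _ _
      _ ≤ (1 + (2 ^ k - 1) * x) * (1 + x) := mul_le_mul_of_nonneg_right ih (by linarith)
      _ = 1 + x + (2 ^ k - 1) * x + (2 ^ k - 1) * (x * x) := by ring
      _ ≤ 1 + x + (2 ^ k - 1) * x + (2 ^ k - 1) * (x * 1) := by
          have h2 : x * x ≤ x * 1 := mul_le_mul_of_nonneg_left hx1 hx0
          have h3 := mul_le_mul_of_nonneg_left h2 (show (0 : ℝ) ≤ 2 ^ k - 1 by linarith)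
          linarith
      _ = 1 + (2 ^ (k + 1) - 1) * x := by rw [pow_succ]; ring

theorem w_choose_add (m r j : ℕ) (hm : 2 * r ≤ m) (hm1 : 1 ≤ m) :
    (((m + j).choose r : ℕ) : ℝ) ≤ (1 + 2 * r / m) ^ j * (m.choose r : ℝ) := by
  have hm0 : (0 : ℝ) < m := by exact_mod_cast hm1
  induction j with
  | zero => simp
  | succ j ih =>
    have h1 := Nat.choose_mul_succ_eq (m + j) r
    have h2 : (((m + j).choose r : ℕ) : ℝ) * ((m : ℝ) + j + 1)
        = (((m + j + 1).choose r : ℕ) : ℝ) * ((m : ℝ) + j + 1 - r) := by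
      have h3 : (((m + j).choose r * (m + j + 1) : ℕ) : ℝ)
          = (((m + j + 1).choose r * (m + j + 1 - r) : ℕ) : ℝ) := by rw [h1]
      push_cast [Nat.cast_sub (show r ≤ m + j + 1 by omega)] at h3
      exact h3
    have hmr : 2 * (r : ℝ) ≤ m := by exact_mod_cast hm
    have hj : (0 : ℝ) ≤ j := Nat.cast_nonneg j
    have hr0 : (0 : ℝ) ≤ r := Nat.cast_nonneg r
    have hpos : (0 : ℝ) < (m : ℝ) + j + 1 - r := by linarith
    have h4 : (m : ℝ) + j + 1 ≤ (1 + 2 * r / m) * ((m : ℝ) + j + 1 - r) := by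
      have h5 : (2 * (r : ℝ) / m) * ((m : ℝ) + j + 1 - r) ≥ (2 * (r : ℝ) / m) * (m / 2) := by
        apply mul_le_mul_of_nonneg_left
        · linarith
        · positivity
      have h6 : (2 * (r : ℝ) / m) * (m / 2) = r := by field_simp
      have h7 : (1 + 2 * (r : ℝ) / m) * ((m : ℝ) + j + 1 - r)
          = ((m : ℝ) + j + 1 - r) + (2 * (r : ℝ) / m) * ((m : ℝ) + j + 1 - r) := by ring
      rw [h7]
      linarith
    have h8 : (((m + j + 1).choose r : ℕ) : ℝ) * ((m : ℝ) + j + 1 - r)
        ≤ (1 + 2 * r / m) * (((m + j).choose r : ℕ) : ℝ) * ((m : ℝ) + j + 1 - r) := by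
      rw [← h2]
      have h9 := mul_le_mul_of_nonneg_left h4
        (show (0 : ℝ) ≤ (((m + j).choose r : ℕ) : ℝ) from Nat.cast_nonneg _)
      linarith
    have h10 := le_of_mul_le_mul_right h8 hpos
    have h11 : (0 : ℝ) ≤ 1 + 2 * r / m := by positivity
    calc (((m + (j + 1)).choose r : ℕ) : ℝ) = (((m + j + 1).choose r : ℕ) : ℝ) := rfl
      _ ≤ (1 + 2 * r / m) * (((m + j).choose r : ℕ) : ℝ) := h10
      _ ≤ (1 + 2 * r / m) * ((1 + 2 * r / m) ^ j * (m.choose r : ℝ)) :=
          mul_le_mul_of_nonneg_left ih h11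
      _ = (1 + 2 * r / m) ^ (j + 1) * (m.choose r : ℝ) := by rw [pow_succ]; ring

/-- `C(m+r-1, r) ≤ (1 + K₀/m) C(m, r)` for `m ≥ 2 r`.

Proof.  `C(m+r-1,r) r! = ∏_{i<r} (m+r-1-i)`, `C(m,r) r! = ∏_{i<r} (m-i)`, and
`(m+r-1-i)/(m-i) = 1 + (r-1)/(m-i) ≤ 1 + 2r/m`; `x = 2r/m ≤ 1`, `(1+x)^r ≤ 1 + 2^r x`.
(Any other explicit constant in place of `2 ^ r * (2 * r)` is fine too if this one is inconvenient, but keep
the form of the statement; the constant is existential.) -/
theorem choose_ratio (r : ℕ) : ∃ K₀ : ℝ, 0 < K₀ ∧ ∀ m : ℕ, 2 * r ≤ m → 1 ≤ m →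
    (((m + r - 1).choose r : ℕ) : ℝ) ≤ (1 + K₀ / m) * (m.choose r : ℝ) := by
  refine ⟨2 ^ r * (2 * r) + 1, by positivity, fun m hm hm1 => ?_⟩
  have hm0 : (0 : ℝ) < m := by exact_mod_cast hm1
  have h1 := w_choose_add m r r hm hm1
  have h2 : (((m + r - 1).choose r : ℕ) : ℝ) ≤ (((m + r).choose r : ℕ) : ℝ) := by
    exact_mod_cast Nat.choose_le_choose r (by omega)
  have hmr : 2 * (r : ℝ) ≤ m := by exact_mod_cast hm
  have hx1 : 2 * (r : ℝ) / m ≤ 1 := by
    rw [div_le_one hm0]
    exact hmr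
  have h3 := w_one_add_pow (2 * (r : ℝ) / m) (by positivity) hx1 r
  have h4 : 1 + (2 ^ r - 1) * (2 * (r : ℝ) / m) ≤ 1 + (2 ^ r * (2 * r) + 1) / m := by
    have h5 : (2 ^ r - 1) * (2 * (r : ℝ) / m) ≤ 2 ^ r * (2 * (r : ℝ) / m) := by
      have : (0 : ℝ) ≤ 2 * (r : ℝ) / m := by positivity
      nlinarith
    have h6 : 2 ^ r * (2 * (r : ℝ) / m) = (2 ^ r * (2 * r)) / m := by ring
    have h7 : (2 ^ r * (2 * (r : ℝ))) / m ≤ (2 ^ r * (2 * r) + 1) / m := by
      apply div_le_div_of_nonneg_right _ hm0.le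
      linarith
    linarith
  have hC : (0 : ℝ) ≤ (m.choose r : ℝ) := Nat.cast_nonneg _
  calc (((m + r - 1).choose r : ℕ) : ℝ) ≤ (((m + r).choose r : ℕ) : ℝ) := h2
    _ ≤ (1 + 2 * r / m) ^ r * (m.choose r : ℝ) := h1
    _ ≤ (1 + (2 ^ r - 1) * (2 * (r : ℝ) / m)) * (m.choose r : ℝ) :=
        mul_le_mul_of_nonneg_right h3 hC
    _ ≤ (1 + (2 ^ r * (2 * r) + 1) / m) * (m.choose r : ℝ) :=
        mul_le_mul_of_nonneg_right h4 hC

/-- `α(m) C(n,r)/C(m,r) ≤ α(n) + K n^(r-1)` for `m ≥ δ n`.

Proof.  `al_ratio` and `C(n,r) ≤ C(n+r-1,r)`: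
`α(m) C(n,r)/C(m,r) ≤ α(n) C(m+r-1,r)/C(m,r) ≤ α(n) (1 + K₀/m) ≤ α(n) + α(n) K₀/(δ n)`, and
`α(n) ≤ C(n,r) ≤ n^r` (`card_le_pow` for an extremal family), `K = K₀/δ`. -/
theorem al_transfer (p r : ℕ) (hr : 2 ≤ r) (hrp : r < p) (δ : ℝ) (hδ : 0 < δ) :
    ∃ K : ℝ, 0 < K ∧ ∀ m n : ℕ, m ≤ n → 2 * r ≤ m → δ * n ≤ m →
      (al m p r : ℝ) * (n.choose r : ℝ) / (m.choose r : ℝ) ≤ al n p r + K * (n : ℝ) ^ (r - 1) := by
  obtain ⟨K₀, hK₀, hK⟩ := choose_ratio r
  refine ⟨K₀ / δ, by positivity, fun m n hmn hm hδm => ?_⟩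
  have hm1 : 1 ≤ m := by omega
  have hn1 : 1 ≤ n := by omega
  have hm0 : (0 : ℝ) < m := by exact_mod_cast hm1
  have hn0 : (0 : ℝ) < n := by exact_mod_cast hn1
  have hCm : (0 : ℝ) < (m.choose r : ℝ) := by
    exact_mod_cast Nat.choose_pos (show r ≤ m by omega)
  have h1 : (al m p r : ℝ) * (((n + r - 1).choose r : ℕ) : ℝ)
      ≤ (al n p r : ℝ) * (((m + r - 1).choose r : ℕ) : ℝ) := by
    exact_mod_cast al_ratio hr hrp hm1 hmn
  have h2 : (n.choose r : ℝ) ≤ (((n + r - 1).choose r : ℕ) : ℝ) := by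
    exact_mod_cast Nat.choose_le_choose r (by omega)
  have h3 := hK m hm hm1
  have hal : (al n p r : ℝ) ≤ (n : ℝ) ^ r := by
    obtain ⟨G, hG, hc⟩ := exists_al (n := n) (p := p) (r := r) hrp.le
    rw [← hc]
    exact card_le_pow hG.1
  have hα : (0 : ℝ) ≤ (al m p r : ℝ) := Nat.cast_nonneg _
  have hα' : (0 : ℝ) ≤ (al n p r : ℝ) := Nat.cast_nonneg _
  have h4 : (al m p r : ℝ) * (n.choose r : ℝ) ≤ (al n p r : ℝ) * ((1 + K₀ / m) * (m.choose r : ℝ)) :=
    calc (al m p r : ℝ) * (n.choose r : ℝ)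
        ≤ (al m p r : ℝ) * (((n + r - 1).choose r : ℕ) : ℝ) := mul_le_mul_of_nonneg_left h2 hα
      _ ≤ (al n p r : ℝ) * (((m + r - 1).choose r : ℕ) : ℝ) := h1
      _ ≤ _ := mul_le_mul_of_nonneg_left h3 hα'
  have h5 : (al m p r : ℝ) * (n.choose r : ℝ) / (m.choose r : ℝ)
      ≤ (al n p r : ℝ) * (1 + K₀ / m) := by
    rw [div_le_iff₀ hCm]
    linarith
  have h6 : K₀ / m ≤ K₀ / (δ * n) := by
    apply div_le_div_of_nonneg_left hK₀.le (by positivity) hδm
  have h7 : (al n p r : ℝ) * (K₀ / m) ≤ (n : ℝ) ^ r * (K₀ / (δ * n)) :=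
    mul_le_mul hal h6 (by positivity) (by positivity)
  have h8 : (n : ℝ) ^ r * (K₀ / (δ * n)) = K₀ / δ * (n : ℝ) ^ (r - 1) := by
    obtain ⟨k, rfl⟩ : ∃ k, r = k + 1 := ⟨r - 1, by omega⟩
    rw [show k + 1 - 1 = k by omega, pow_succ]
    field_simp
  calc (al m p r : ℝ) * (n.choose r : ℝ) / (m.choose r : ℝ) ≤ (al n p r : ℝ) * (1 + K₀ / m) := h5
    _ = al n p r + (al n p r : ℝ) * (K₀ / m) := by ring
    _ ≤ al n p r + K₀ / δ * (n : ℝ) ^ (r - 1) := by linarith

end ES
end

section

/-!
# Erdős–Sauer: Turán numbers of arbitrary vertex sets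
-/

set_option autoImplicit false

open Finset

namespace ES

/-- the Turán number bounds the size of a free family on an arbitrary `m`-set of vertices: if all edges of
`G` are `r`-subsets of `M`, `|M| = m`, and `G` contains no `K_p^r`, then `|G| ≤ α(m,p,r)`.
(Transport `G` along a bijection `M ≃ Fin m`.) -/
theorem card_le_al_of_subset {n p r m : ℕ} (M : Finset (Fin n)) (hM : M.card = m)
    (G : Finset (Finset (Fin n))) (hG : Free p r G) (hsub : ∀ e ∈ G, e ⊆ M) :
    G.card ≤ al m p r := by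
  classical
  set o : Fin m ≃o M := M.orderIsoOfFin hM with ho
  set f : Fin m ↪ Fin n := o.toEquiv.toEmbedding.trans (Function.Embedding.subtype _) with hf
  have hfM : ∀ x, f x ∈ M := fun x => (o x).2
  have hfs : ∀ e : Finset (Fin n), e ⊆ M → ∃ e' : Finset (Fin m), e'.map f = e := by
    intro e he
    refine ⟨univ.filter (fun x => f x ∈ e), ?_⟩
    ext y
    simp only [mem_map, mem_filter, mem_univ, true_and]
    constructor
    · rintro ⟨x, hx, rfl⟩
      exact hx
    · intro hy
      obtain ⟨x, hx⟩ := o.surjective ⟨y, he hy⟩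
      have h1 : f x = y := by
        show ((o x : M) : Fin n) = y
        rw [hx]
      exact ⟨x, by rw [h1]; exact hy, h1⟩
  set G' : Finset (Finset (Fin m)) := univ.filter (fun e => e.map f ∈ G) with hG'
  have hcard : G.card = G'.card := by
    symm
    refine card_bij (fun e _ => e.map f) ?_ ?_ ?_
    · intro e he
      exact (mem_filter.1 he).2
    · intro a _ b _ hab
      exact map_injective f hab
    · intro e he
      obtain ⟨e', he'⟩ := hfs e (hsub e he)
      exact ⟨e', by rw [hG', mem_filter]; exact ⟨mem_univ _, by rw [he']; exact he⟩, he'⟩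
  rw [hcard]
  refine card_le_al ⟨?_, ?_⟩
  · intro e he
    have h1 := hG.1 _ (mem_filter.1 he).2
    rwa [card_map] at h1
  · intro S hS hcon
    refine hG.2 (S.map f) (by rw [card_map, hS]) ?_
    intro e he
    rw [mem_powersetCard] at he
    obtain ⟨e', he'⟩ := hfs e (he.1.trans (fun x hx => by
      obtain ⟨y, _, rfl⟩ := mem_map.1 hx
      exact hfM y))
    subst he'
    have h2 : e' ∈ S.powersetCard r := by
      rw [mem_powersetCard]
      exact ⟨map_subset_map.1 he.1, by rw [card_map] at he; exact he.2⟩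
    exact (mem_filter.1 (hcon h2)).2

end ES
end
end

section

section

/-!
# Erdős–Sauer: the rainbow pattern
-/

set_option autoImplicit false

open Finset

namespace ES

variable {n : ℕ}

private theorem pat2_count {r : ℕ} (e : Finset (Fin n)) (he : e.card = r) :
    r.factorial * r ^ n ≤ r ^ r * ((univ : Finset (Fin n → Fin r)).filter
      (fun c => Set.InjOn c (e : Set (Fin n)))).card := by
  classical
  let A : (e ≃ Fin r) → Finset (Fin n → Fin r) := fun σ =>
    Fintype.piFinset (fun u => if h : u ∈ e then {σ ⟨u, h⟩} else univ)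
  have hA : ∀ σ ∈ (univ : Finset (e ≃ Fin r)), (A σ).card = r ^ (n - r) := by
    intro σ _
    have h1 : (A σ).card = ∏ u : Fin n, (if u ∈ e then 1 else r) := by
      simp only [A]
      rw [Fintype.card_piFinset]
      refine prod_congr rfl fun u _ => ?_
      split_ifs
      · simp
      · simp
    rw [h1, prod_ite, prod_const_one, one_mul, prod_const]
    congr 1
    have : (univ.filter (fun u : Fin n => u ∉ e)) = univ \ e := by
      ext u; simp
    rw [this, card_sdiff_of_subset (subset_univ _), he]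
    simp
  have hd : ∀ σ ∈ (univ : Finset (e ≃ Fin r)), ∀ τ ∈ (univ : Finset (e ≃ Fin r)), σ ≠ τ →
      Disjoint (A σ) (A τ) := by
    intro σ _ τ _ hne
    rw [Finset.disjoint_left]
    intro c h1 h2
    apply hne
    ext ⟨u, hu⟩
    simp only [A, Fintype.mem_piFinset] at h1 h2
    have a1 := h1 u
    have a2 := h2 u
    rw [dif_pos hu, mem_singleton] at a1 a2
    rw [← a1, a2]
  have hsub : (univ : Finset (e ≃ Fin r)).biUnion A ⊆ (univ : Finset (Fin n → Fin r)).filter
      (fun c => Set.InjOn c (e : Set (Fin n))) := by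
    intro c hc
    rw [mem_biUnion] at hc
    obtain ⟨σ, -, hc⟩ := hc
    simp only [A, Fintype.mem_piFinset] at hc
    simp only [mem_filter, mem_univ, true_and]
    intro u hu v hv huv
    rw [mem_coe] at hu hv
    have a1 := hc u
    have a2 := hc v
    rw [dif_pos hu, mem_singleton] at a1
    rw [dif_pos hv, mem_singleton] at a2
    rw [a1, a2] at huv
    simpa using σ.injective huv
  have hcard : ((univ : Finset (e ≃ Fin r)).biUnion A).card = r.factorial * r ^ (n - r) := by
    rw [card_biUnion hd, sum_congr rfl hA, sum_const, smul_eq_mul, card_univ,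
      Fintype.card_equiv (Fintype.equivFinOfCardEq (by simp [he]))]
    simp [he]
  have hle := card_le_card hsub
  rw [hcard] at hle
  have hrn : r ≤ n := by
    rw [← he]
    simpa using card_le_univ e
  calc r.factorial * r ^ n = r ^ r * (r.factorial * r ^ (n - r)) := by
        rw [mul_left_comm, ← pow_add]; congr 2; omega
    _ ≤ _ := Nat.mul_le_mul_left _ hle

/-- Every `r`-graph `E` contains a subgraph `R` with at least `(r!/r^r) |E|` edges such that every
`(r+1)`-set contains at most two edges of `R`.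

Proof.  For `c : Fin n → Fin r` let `R_c` be the set of the `e ∈ E` on which `c` is injective (rainbow edges).
If `|S| = r + 1` then `c` is not injective on `S`: `c x = c y`, `x ≠ y ∈ S`; an `r`-subset `S \ {v}` on which `c`
is injective must omit `x` or `y`, so `v ∈ {x, y}`: at most two.
Counting: for `|e| = r` the number of `c` injective on `e` is `r! · r^(n-r)`.  Average over the `r^n` colorings. -/
theorem pattern_rainbow {r : ℕ} (hr : 2 ≤ r) (E : Finset (Finset (Fin n)))
    (hE : ∀ e ∈ E, e.card = r) :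
    ∃ R ⊆ E, (∀ S : Finset (Fin n), S.card = r + 1 → (S.powersetCard r ∩ R).card ≤ 2) ∧
      r.factorial * E.card ≤ r ^ r * R.card := by
  classical
  have havg : ∃ c ∈ (univ : Finset (Fin n → Fin r)),
      r.factorial * E.card ≤ r ^ r * (E.filter (fun e : Finset (Fin n) => Set.InjOn c (e : Set (Fin n)))).card := by
    refine Finset.exists_le_of_sum_le ⟨fun _ => ⟨0, by omega⟩, mem_univ _⟩ ?_
    rw [sum_const, smul_eq_mul, ← mul_sum]
    have h1 : ∑ c : Fin n → Fin r, (E.filter (fun e : Finset (Fin n) => Set.InjOn c (e : Set (Fin n)))).card =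
        ∑ e ∈ E, ((univ : Finset (Fin n → Fin r)).filter
          (fun c => Set.InjOn c (e : Set (Fin n)))).card := by
      simp only [card_filter]
      rw [sum_comm]
    rw [h1, mul_sum]
    have h2 : (univ : Finset (Fin n → Fin r)).card * (r.factorial * E.card) =
        ∑ e ∈ E, r.factorial * r ^ n := by
      rw [sum_const, smul_eq_mul]
      simp
      ring
    rw [h2]
    exact sum_le_sum fun e he => pat2_count e (hE e he)
  obtain ⟨c, -, hc⟩ := havg
  refine ⟨_, filter_subset _ _, ?_, hc⟩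
  intro S hS
  have hex : ∃ x ∈ S, ∃ y ∈ S, x ≠ y ∧ c x = c y :=
    exists_ne_map_eq_of_card_lt_of_maps_to (t := univ) (by simp [hS]) (fun _ _ => by simp)
  obtain ⟨x, hx, y, hy, hxy, hcxy⟩ := hex
  have hsub : (S.powersetCard r ∩ E.filter (fun e : Finset (Fin n) => Set.InjOn c (e : Set (Fin n)))) ⊆
      {S.erase x, S.erase y} := by
    intro f hf
    rw [mem_inter, mem_powersetCard, mem_filter] at hf
    obtain ⟨⟨hfS, hfc⟩, -, hinj⟩ := hf
    rw [mem_insert, mem_singleton]
    have hcard : ∀ v ∈ S, v ∉ f → f = S.erase v := by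
      intro v hv hvf
      apply eq_of_subset_of_card_le
      · intro u hu
        rw [mem_erase]
        exact ⟨by rintro rfl; exact hvf hu, hfS hu⟩
      · rw [card_erase_of_mem hv, hS, hfc]; rfl
    by_cases h1 : x ∈ f
    · by_cases h2 : y ∈ f
      · exact absurd (hinj (by exact_mod_cast h1) (by exact_mod_cast h2) hcxy) hxy
      · exact Or.inr (hcard y hy h2)
    · exact Or.inl (hcard x hx h1)
  exact (card_le_card hsub).trans card_le_two

end ES
end

section

/-!
# Erdős–Sauer: rainbow edges in a copy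
-/

set_option autoImplicit false

open Finset

namespace ES

variable {n : ℕ}

/-- If every `(r+1)`-set contains at most two edges of `R` then every `p`-set (`p > r ≥ 2`, `p ≥ 4`) contains at
least two `r`-sets outside `R`.

Proof.  If `p = r + 1` then `C(p,r) = r + 1 = p ≥ 4` and at most `2` of them are in `R`.
If `p ≥ r + 2`: take `S ⊆ Q` with `|S| = r + 1 ≥ 3`; one of its `r + 1` `r`-subsets, `f`, is not in `R`.  Let
`v ∈ f` and let `S' ⊆ Q \ {v}` with `|S'| = r + 1`; one of its `r`-subsets, `f'`, is not in `R`; `v ∉ f'`, so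
`f' ≠ f`. -/
theorem rainbow_copies {p r : ℕ} (hr : 2 ≤ r) (hrp : r < p) (hp : 4 ≤ p)
    {R : Finset (Finset (Fin n))}
    (hR : ∀ S : Finset (Fin n), S.card = r + 1 → (S.powersetCard r ∩ R).card ≤ 2)
    (Q : Finset (Fin n)) (hQ : Q.card = p) :
    (Q.powersetCard r ∩ R).card + 2 ≤ p.choose r := by
  classical
  rcases Nat.lt_or_ge (r + 1) p with h | h
  · -- p ≥ r + 2
    have key : ∀ T : Finset (Fin n), T ⊆ Q → r + 1 ≤ T.card →
        ∃ f ∈ T.powersetCard r, f ∉ R := by
      intro T _ hTc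
      obtain ⟨S, hST, hS⟩ := exists_subset_card_eq hTc
      by_contra hcon
      push Not at hcon
      have h1 := hR S hS
      have h2 : S.powersetCard r ⊆ R := fun f hf => hcon f (powersetCard_mono hST hf)
      rw [inter_eq_left.2 h2, card_powersetCard, hS, Nat.choose_succ_self_right] at h1
      omega
    obtain ⟨f, hf, hfR⟩ := key Q subset_rfl (by omega)
    rw [mem_powersetCard] at hf
    have hfne : f.Nonempty := card_pos.1 (by omega)
    obtain ⟨v, hv⟩ := hfne
    have hvQ : v ∈ Q := hf.1 hv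
    obtain ⟨f', hf', hfR'⟩ := key (Q.erase v) (erase_subset _ _)
      (by rw [card_erase_of_mem hvQ]; omega)
    rw [mem_powersetCard] at hf'
    have hne : f ≠ f' := by
      rintro rfl
      exact notMem_erase v Q (hf'.1 hv)
    have hsub : ({f, f'} : Finset (Finset (Fin n))) ⊆ Q.powersetCard r \ R := by
      intro g hg
      rw [mem_insert, mem_singleton] at hg
      rw [mem_sdiff, mem_powersetCard]
      rcases hg with rfl | rfl
      · exact ⟨hf, hfR⟩
      · exact ⟨⟨hf'.1.trans (erase_subset _ _), hf'.2⟩, hfR'⟩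
    have h3 := card_le_card hsub
    rw [card_pair hne] at h3
    have h4 := card_inter_add_card_sdiff (Q.powersetCard r) R
    rw [card_powersetCard, hQ] at h4
    omega
  · have hpr : p = r + 1 := by omega
    subst hpr
    have h1 := hR Q hQ
    rw [Nat.choose_succ_self_right]
    omega

end ES
end

section

/-!
# Erdős–Sauer: the 4/9 pattern (Turán's three colour construction)
-/

set_option autoImplicit false

open Finset

namespace ES

variable {n : ℕ}

private def w_bad (a b d : ZMod 3) : Prop :=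
  (a = b ∧ (d = a ∨ d = a + 1)) ∨ (a = d ∧ b = a + 1) ∨ (b = d ∧ a = b + 1)

private instance (a b d : ZMod 3) : Decidable (w_bad a b d) := by
  unfold w_bad
  infer_instance

private theorem w_four_bad : ∀ a b c d : ZMod 3,
    w_bad b c d ∨ w_bad a c d ∨ w_bad a b d ∨ w_bad a b c := by decide

private theorem w_count12 : ∀ a b d : ZMod 3,
    ((univ : Finset (ZMod 3 × ZMod 3 × ZMod 3)).filter
      (fun q => w_bad (a + q.1) (b + q.2.1) (d + q.2.2))).card = 12 := by decide

private theorem w_count {x y z : Fin n} (hxy : x ≠ y) (hxz : x ≠ z) (hyz : y ≠ z) :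
    9 * ((univ : Finset (Fin n → ZMod 3)).filter (fun c => w_bad (c x) (c y) (c z))).card =
      4 * 3 ^ n := by
  classical
  have h1 : ∀ q : ZMod 3 × ZMod 3 × ZMod 3,
      ∑ c : Fin n → ZMod 3, (if w_bad (c x) (c y) (c z) then 1 else 0) =
      ∑ c : Fin n → ZMod 3, (if w_bad (c x + q.1) (c y + q.2.1) (c z + q.2.2) then 1 else 0) := by
    intro q
    refine (Fintype.sum_equiv (Equiv.addRight
      (Pi.single x q.1 + Pi.single y q.2.1 + Pi.single z q.2.2 : Fin n → ZMod 3)) _ _ ?_).symm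
    intro c
    simp [Pi.single_apply, hxy, hxz, hyz, hxy.symm, hxz.symm, hyz.symm]
  have h2 : 27 * ((univ : Finset (Fin n → ZMod 3)).filter
      (fun c => w_bad (c x) (c y) (c z))).card = 12 * 3 ^ n := by
    rw [card_filter]
    calc 27 * ∑ c : Fin n → ZMod 3, (if w_bad (c x) (c y) (c z) then 1 else 0)
        = ∑ q : ZMod 3 × ZMod 3 × ZMod 3,
          ∑ c : Fin n → ZMod 3, (if w_bad (c x) (c y) (c z) then 1 else 0) := by
          rw [sum_const, smul_eq_mul, card_univ]
          simp [ZMod.card]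
      _ = ∑ q : ZMod 3 × ZMod 3 × ZMod 3, ∑ c : Fin n → ZMod 3,
          (if w_bad (c x + q.1) (c y + q.2.1) (c z + q.2.2) then 1 else 0) :=
          sum_congr rfl fun q _ => h1 q
      _ = ∑ c : Fin n → ZMod 3, ∑ q : ZMod 3 × ZMod 3 × ZMod 3,
          (if w_bad (c x + q.1) (c y + q.2.1) (c z + q.2.2) then 1 else 0) := sum_comm
      _ = ∑ c : Fin n → ZMod 3, 12 := by
          refine sum_congr rfl fun c _ => ?_
          rw [← card_filter]
          exact w_count12 _ _ _
      _ = 12 * 3 ^ n := by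
          rw [sum_const, smul_eq_mul, card_univ, mul_comm]
          simp [ZMod.card]
  omega

private theorem w_min {S : Finset (Fin n)} (h : 0 < S.card) :
    ∃ x ∈ S, ∀ w ∈ S, w = x ∨ x < w := by
  have hne : S.Nonempty := card_pos.1 h
  refine ⟨S.min' hne, S.min'_mem hne, fun w hw => ?_⟩
  rcases (S.min'_le w hw).eq_or_lt with h1 | h1
  · exact Or.inl h1.symm
  · exact Or.inr h1

private theorem w_three {S : Finset (Fin n)} (h : 3 ≤ S.card) :
    ∃ x ∈ S, ∃ y ∈ S, ∃ z ∈ S, x < y ∧ y < z ∧ ∀ w ∈ S, w = x ∨ w = y ∨ w = z ∨ z < w := by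
  obtain ⟨x, hx, h1⟩ := w_min (S := S) (by omega)
  obtain ⟨y, hy, h2⟩ := w_min (S := S.erase x) (by rw [card_erase_of_mem hx]; omega)
  obtain ⟨z, hz, h3⟩ := w_min (S := (S.erase x).erase y) (by
    rw [card_erase_of_mem hy, card_erase_of_mem hx]; omega)
  have hy' := mem_erase.1 hy
  have hz' := mem_erase.1 hz
  have hz'' := mem_erase.1 hz'.2
  refine ⟨x, hx, y, hy'.2, z, hz''.2, (h1 y hy'.2).resolve_left hy'.1,
    (h2 z hz'.2).resolve_left hz'.1, fun w hw => ?_⟩
  by_cases e1 : w = x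
  · exact Or.inl e1
  · by_cases e2 : w = y
    · exact Or.inr (Or.inl e2)
    · exact Or.inr (Or.inr (h3 w (mem_erase.2 ⟨e2, mem_erase.2 ⟨e1, hw⟩⟩)))

private theorem w_four {S : Finset (Fin n)} (h : 4 ≤ S.card) :
    ∃ a ∈ S, ∃ x ∈ S, ∃ y ∈ S, ∃ z ∈ S, a < x ∧ x < y ∧ y < z ∧
      ∀ w ∈ S, w = a ∨ w = x ∨ w = y ∨ w = z ∨ z < w := by
  obtain ⟨a, ha, h1⟩ := w_min (S := S) (by omega)
  obtain ⟨x, hx, y, hy, z, hz, hxy, hyz, h2⟩ := w_three (S := S.erase a)
    (by rw [card_erase_of_mem ha]; omega)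
  refine ⟨a, ha, x, (mem_erase.1 hx).2, y, (mem_erase.1 hy).2, z, (mem_erase.1 hz).2,
    (h1 x (mem_erase.1 hx).2).resolve_left (mem_erase.1 hx).1, hxy, hyz, fun w hw => ?_⟩
  by_cases e1 : w = a
  · exact Or.inl e1
  · exact Or.inr (h2 w (mem_erase.2 ⟨e1, hw⟩))

private theorem w_uniq {e : Finset (Fin n)} {x y z x' y' z' : Fin n} (hx : x ∈ e) (hy : y ∈ e)
    (hz : z ∈ e) (hxy : x < y) (hyz : y < z) (h : ∀ w ∈ e, w = x ∨ w = y ∨ w = z ∨ z < w)
    (hx' : x' ∈ e) (hy' : y' ∈ e) (hz' : z' ∈ e) (hxy' : x' < y') (hyz' : y' < z')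
    (h' : ∀ w ∈ e, w = x' ∨ w = y' ∨ w = z' ∨ z' < w) : x' = x ∧ y' = y ∧ z' = z := by
  have a1 := h x' hx'
  have a2 := h y' hy'
  have a3 := h z' hz'
  have b1 := h' x hx
  have b2 := h' y hy
  have b3 := h' z hz
  simp only [Fin.ext_iff, Fin.lt_def] at *
  have e1 : (x' : ℕ) = x := by omega
  have e2 : (y' : ℕ) = y := by omega
  refine ⟨e1, e2, by omega⟩

private theorem w_count_e {e : Finset (Fin n)} (he : 3 ≤ e.card) :
    9 * ((univ : Finset (Fin n → ZMod 3)).filter (fun c => ∃ x ∈ e, ∃ y ∈ e, ∃ z ∈ e,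
      x < y ∧ y < z ∧ (∀ w ∈ e, w = x ∨ w = y ∨ w = z ∨ z < w) ∧
      w_bad (c x) (c y) (c z))).card = 4 * 3 ^ n := by
  classical
  obtain ⟨x, hx, y, hy, z, hz, hxy, hyz, h⟩ := w_three he
  rw [← w_count (n := n) hxy.ne (hxy.trans hyz).ne hyz.ne]
  congr 2
  refine filter_congr fun c _ => ?_
  constructor
  · rintro ⟨x', hx', y', hy', z', hz', hxy', hyz', h', hb⟩
    obtain ⟨rfl, rfl, rfl⟩ := w_uniq hx hy hz hxy hyz h hx' hy' hz' hxy' hyz' h'
    exact hb
  · intro hb
    exact ⟨x, hx, y, hy, z, hz, hxy, hyz, h, hb⟩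

/-- For `r ≥ 3` every `r`-graph `B` contains `T ⊆ B` with `|T| ≤ (4/9) |B|` that meets every `K_{r+1}^r` in `B`.

Proof.  For a colouring `c : Fin n → Fin 3` (or `ZMod 3`) call a triple `{x, y, z}` of three different
vertices bad if all three have the same colour, or two of them have colour `i` and the third has colour `i + 1`,
for some `i : ZMod 3`.  `4` points always contain a bad triple (finite check over all colourings of `4` points,
`decide`: colour classes of sizes `(4)`, `(3,1)`: a monochromatic triple; `(2,2)`: colours `i`, `i+1`, take two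
of colour `i` and one of `i+1`; `(2,1,1)`: two of colour `i` and the one of colour `i+1`).
Let `T_c` be the set of the `e ∈ B` such that the triple of the three smallest elements of `e` is bad.
If `|S| = r + 1 ≥ 4` and all `r`-subsets of `S` are in `B`, let `a < b < c < d` be the four smallest elements of
`S`; for `v ∈ {a,b,c,d}` the three smallest elements of `S \ {v}` are `{a,b,c,d} \ {v}`; one of these four
triples is bad, so `S \ {v} ∈ T_c` for one `v`.
Counting: for fixed `e`, exactly `12` of the `27` colourings of its three smallest elements are bad, so the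
number of `c` with `e ∈ T_c` is `12 * 3 ^ (n - 3)`, `9 * (12 * 3 ^ (n-3)) = 4 * 3 ^ n`.  Average over the `3 ^ n`
colourings: some `c` has `9 |T_c| ≤ 4 |B|`.  (See `Pat2.lean` for a similar proof in Lean; one may also sum
over colourings of the form: `e ∈ T_c` iff `c ∘ (order embedding of the three smallest elements)` lies in a
set of `12` functions `Fin 3 → ZMod 3`; use `Finset.orderEmbOfFin e`.) -/
theorem turan3 {r : ℕ} (hr : 3 ≤ r) (B : Finset (Finset (Fin n))) (hB : ∀ e ∈ B, e.card = r) :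
    ∃ T ⊆ B, 9 * T.card ≤ 4 * B.card ∧
      ∀ S : Finset (Fin n), S.card = r + 1 → S.powersetCard r ⊆ B → ∃ e ∈ T, e ⊆ S := by
  classical
  have havg : ∃ c ∈ (univ : Finset (Fin n → ZMod 3)),
      9 * (B.filter (fun e => ∃ x ∈ e, ∃ y ∈ e, ∃ z ∈ e,
      x < y ∧ y < z ∧ (∀ w ∈ e, w = x ∨ w = y ∨ w = z ∨ z < w) ∧
      w_bad (c x) (c y) (c z))).card ≤ 4 * B.card := by
    refine Finset.exists_le_of_sum_le ⟨0, mem_univ _⟩ ?_
    rw [sum_const, smul_eq_mul, ← mul_sum]
    have h1 : ∑ c : Fin n → ZMod 3, (B.filter (fun e => ∃ x ∈ e, ∃ y ∈ e, ∃ z ∈ e,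
        x < y ∧ y < z ∧ (∀ w ∈ e, w = x ∨ w = y ∨ w = z ∨ z < w) ∧
        w_bad (c x) (c y) (c z))).card =
        ∑ e ∈ B, ((univ : Finset (Fin n → ZMod 3)).filter (fun c => ∃ x ∈ e, ∃ y ∈ e, ∃ z ∈ e,
        x < y ∧ y < z ∧ (∀ w ∈ e, w = x ∨ w = y ∨ w = z ∨ z < w) ∧
        w_bad (c x) (c y) (c z))).card := by
      simp only [card_filter]
      rw [sum_comm]
    rw [h1, mul_sum]
    have h2 : (univ : Finset (Fin n → ZMod 3)).card * (4 * B.card) =
        ∑ e ∈ B, 4 * 3 ^ n := by
      rw [sum_const, smul_eq_mul, card_univ]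
      simp [ZMod.card]
      ring
    rw [h2]
    refine sum_le_sum fun e he => ?_
    exact (w_count_e (by rw [hB e he]; exact hr)).le
  obtain ⟨c, -, hc⟩ := havg
  refine ⟨_, filter_subset _ _, hc, ?_⟩
  intro S hS hSB
  obtain ⟨a, ha, x, hx, y, hy, z, hz, hax, hxy, hyz, h⟩ := w_four (S := S) (by omega)
  have hmem : ∀ v ∈ S, S.erase v ∈ B := by
    intro v hv
    apply hSB
    rw [mem_powersetCard]
    exact ⟨erase_subset _ _, by rw [card_erase_of_mem hv, hS]; rfl⟩
  have key : ∀ v ∈ S, ∀ p ∈ S, ∀ q ∈ S, ∀ s ∈ S, p ≠ v → q ≠ v → s ≠ v → p < q → q < s →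
      (∀ w ∈ S, w = v ∨ w = p ∨ w = q ∨ w = s ∨ s < w) → w_bad (c p) (c q) (c s) →
      ∃ e ∈ B.filter (fun e => ∃ x ∈ e, ∃ y ∈ e, ∃ z ∈ e,
        x < y ∧ y < z ∧ (∀ w ∈ e, w = x ∨ w = y ∨ w = z ∨ z < w) ∧
        w_bad (c x) (c y) (c z)), e ⊆ S := by
    intro v hv p hp q hq s hs h1 h2 h3 h4 h5 h6 h7
    refine ⟨S.erase v, mem_filter.2 ⟨hmem v hv, p, mem_erase.2 ⟨h1, hp⟩, q,
      mem_erase.2 ⟨h2, hq⟩, s, mem_erase.2 ⟨h3, hs⟩, h4, h5, ?_, h7⟩, erase_subset _ _⟩
    intro w hw
    have hw' := mem_erase.1 hw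
    exact (h6 w hw'.2).resolve_left hw'.1
  rcases w_four_bad (c a) (c x) (c y) (c z) with hb | hb | hb | hb
  · exact key a ha x hx y hy z hz hax.ne' (hax.trans hxy).ne' ((hax.trans hxy).trans hyz).ne'
      hxy hyz h hb
  · refine key x hx a ha y hy z hz hax.ne hxy.ne' (hxy.trans hyz).ne' (hax.trans hxy) hyz ?_ hb
    intro w hw
    have := h w hw
    tauto
  · refine key y hy a ha x hx z hz (hax.trans hxy).ne hxy.ne hyz.ne' hax (hxy.trans hyz) ?_ hb
    intro w hw
    have := h w hw
    tauto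
  · refine key z hz a ha x hx y hy ((hax.trans hxy).trans hyz).ne (hxy.trans hyz).ne hyz.ne
      hax hxy ?_ hb
    intro w hw
    have h1 := h w hw
    rcases h1 with h1 | h1 | h1 | h1 | h1
    · exact Or.inr (Or.inl h1)
    · exact Or.inr (Or.inr (Or.inl h1))
    · exact Or.inr (Or.inr (Or.inr (Or.inl h1)))
    · exact Or.inl h1
    · exact Or.inr (Or.inr (Or.inr (Or.inr (hyz.trans h1))))

end ES
end

section

/-!
# Erdős–Sauer: the two covers given by a fractional cover
-/

set_option autoImplicit false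

open Finset

namespace ES

variable {n : ℕ}

private theorem w_four_le {p r : ℕ} (hr : 3 ≤ r) (hrp : r < p) : 4 ≤ p.choose r := by
  have h1 : (r + 1).choose r ≤ p.choose r := Nat.choose_le_choose r hrp
  rw [Nat.choose_succ_self_right] at h1
  omega

/-- if all the terms of a sum over a finset are `< 1/m` and the sum is at least one, then more than `m` terms
are positive -/
private theorem w_many {α : Type*} [DecidableEq α] (s : Finset α) (w : α → ℝ) (hw : ∀ e, 0 ≤ w e) (m : ℝ)
    (hm : 0 < m) (hlt : ∀ e ∈ s, w e < 1 / m) (hsum : 1 ≤ ∑ e ∈ s, w e) :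
    m < ((s.filter (fun e => 0 < w e)).card : ℝ) := by
  have h1 : ∑ e ∈ s, w e = ∑ e ∈ s.filter (fun e => 0 < w e), w e := by
    refine (sum_filter_of_ne fun e _ he => ?_).symm
    exact lt_of_le_of_ne (hw e) (Ne.symm he)
  have hne : (s.filter (fun e => 0 < w e)).Nonempty := by
    by_contra h
    rw [not_nonempty_iff_eq_empty] at h
    rw [h1, h, sum_empty] at hsum
    linarith
  have h2 : ∑ e ∈ s.filter (fun e => 0 < w e), w e <
      ∑ e ∈ s.filter (fun e => 0 < w e), 1 / m :=
    sum_lt_sum_of_nonempty hne fun e he => hlt e (mem_filter.1 he).1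
  rw [sum_const, nsmul_eq_mul] at h2
  rw [h1] at hsum
  have h3 : 1 < ((s.filter (fun e => 0 < w e)).card : ℝ) * (1 / m) := lt_of_le_of_lt hsum h2
  rw [mul_one_div, lt_div_iff₀ hm, one_mul] at h3
  exact h3

private theorem w_copy {p r : ℕ} {H : Finset (Finset (Fin n))} {Q : Finset (Fin n)}
    (hQ : Q ∈ copies p r H) : Q.card = p ∧ Q.powersetCard r ⊆ H := by
  unfold copies at hQ
  rw [mem_filter, mem_powersetCard_univ] at hQ
  exact hQ

/-- First cover.  `w ≥ 0` with `∑_{e ⊆ Q} w e ≥ 1` for every copy `Q` in `H`.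

Proof.  `C = C(p,r) ≥ r + 1 ≥ 4`.  `A = {e ∈ H : w e ≥ 1/(C-1)}`, `B = {e ∈ H : 0 < w e < 1/(C-1)}`, `T₀` from
`turan3` for `B`, `T = A ∪ T₀`.  Let `Q` be a copy without an edge in `A`.  All its `C` edges have
`w < 1/(C-1)`, and `∑ w ≥ 1`; if one of them had `w = 0` then `1 ≤ ∑ w < (C-1)/(C-1) = 1` (strict since `C - 1 ≥ 1`
terms remain).  So all edges are in `B`; take `S ⊆ Q` with `|S| = r+1`: `S.powersetCard r ⊆ B`, so some
`e ∈ T₀` has `e ⊆ S ⊆ Q`. -/
theorem cover_two {p r : ℕ} (hr : 3 ≤ r) (hrp : r < p) (H : Finset (Finset (Fin n)))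
    (hH : ∀ e ∈ H, e.card = r) (w : Finset (Fin n) → ℝ) (hw : ∀ e, 0 ≤ w e)
    (hcov : ∀ Q ∈ copies p r H, 1 ≤ ∑ e ∈ Q.powersetCard r, w e) :
    ∃ T ⊆ H, (∀ Q ∈ copies p r H, ∃ e ∈ T, e ⊆ Q) ∧
      (T.card : ℝ) ≤ ((H.filter (fun e => 1 / ((p.choose r : ℝ) - 1) ≤ w e)).card : ℝ) +
        4 / 9 * ((H.filter (fun e => 0 < w e ∧ w e < 1 / ((p.choose r : ℝ) - 1))).card : ℝ) := by
  classical
  have hC := w_four_le hr hrp
  have hC' : (4 : ℝ) ≤ (p.choose r : ℝ) := by exact_mod_cast hC
  obtain ⟨T₀, hT₀B, hcard, hS⟩ := turan3 (n := n) hr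
    (H.filter (fun e => 0 < w e ∧ w e < 1 / ((p.choose r : ℝ) - 1)))
    (fun e he => hH e (mem_filter.1 he).1)
  refine ⟨H.filter (fun e => 1 / ((p.choose r : ℝ) - 1) ≤ w e) ∪ T₀,
    union_subset (filter_subset _ _) (hT₀B.trans (filter_subset _ _)), ?_, ?_⟩
  · intro Q hQ
    obtain ⟨hQc, hQH⟩ := w_copy hQ
    by_cases h : ∃ e ∈ Q.powersetCard r, 1 / ((p.choose r : ℝ) - 1) ≤ w e
    · obtain ⟨e, he, hwe⟩ := h
      exact ⟨e, mem_union_left _ (mem_filter.2 ⟨hQH he, hwe⟩), (mem_powersetCard.1 he).1⟩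
    · push Not at h
      have h1 := w_many (Q.powersetCard r) w hw ((p.choose r : ℝ) - 1) (by linarith) h (hcov Q hQ)
      have h2 : (Q.powersetCard r).card = p.choose r := by rw [card_powersetCard, hQc]
      have h3 : (p.choose r : ℝ) < (((Q.powersetCard r).filter (fun e => 0 < w e)).card : ℝ) + 1 := by
        linarith
      have h4 : p.choose r < ((Q.powersetCard r).filter (fun e => 0 < w e)).card + 1 := by
        exact_mod_cast h3
      have h5 : (Q.powersetCard r).filter (fun e => 0 < w e) = Q.powersetCard r :=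
        eq_of_subset_of_card_le (filter_subset _ _) (by omega)
      obtain ⟨S, hSQ, hScard⟩ := exists_subset_card_eq (s := Q) (n := r + 1) (by omega)
      obtain ⟨e, heT, heS⟩ := hS S hScard (by
        intro e he
        have he' : e ∈ Q.powersetCard r := powersetCard_mono hSQ he
        refine mem_filter.2 ⟨hQH he', ?_, h e he'⟩
        rw [← h5] at he'
        exact (mem_filter.1 he').2)
      exact ⟨e, mem_union_right _ heT, heS.trans hSQ⟩
  · have h1 : ((H.filter (fun e => 1 / ((p.choose r : ℝ) - 1) ≤ w e) ∪ T₀).card : ℝ) ≤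
        ((H.filter (fun e => 1 / ((p.choose r : ℝ) - 1) ≤ w e)).card : ℝ) + (T₀.card : ℝ) := by
      exact_mod_cast card_union_le _ _
    have h2 : (9 : ℝ) * (T₀.card : ℝ) ≤
        4 * ((H.filter (fun e => 0 < w e ∧ w e < 1 / ((p.choose r : ℝ) - 1))).card : ℝ) := by
      exact_mod_cast hcard
    linarith

/-- Second cover.

Proof.  `C = C(p,r) ≥ 4`.  `A' = {e ∈ H : w e ≥ 1/(C-2)}`, `B' = {e ∈ H : 0 < w e < 1/(C-2)}`, `R ⊆ B'` from
`pattern_rainbow` (`r! |B'| ≤ r^r |R|`), `T = A' ∪ (B' \ R)`.  Let `Q` be a copy without an edge in `A'`.  All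
its edges have `w < 1/(C-2)` and `∑ w ≥ 1`, so at least `C - 1` of its edges have `w > 0` (if at most `C - 2`
then `∑ w < 1`), i.e. are in `B'`.  By `rainbow_copies` at most `C - 2` edges of `Q` are in `R`; so one edge of
`Q` is in `B' \ R`. -/
theorem cover_three {p r : ℕ} (hr : 3 ≤ r) (hrp : r < p) (H : Finset (Finset (Fin n)))
    (hH : ∀ e ∈ H, e.card = r) (w : Finset (Fin n) → ℝ) (hw : ∀ e, 0 ≤ w e)
    (hcov : ∀ Q ∈ copies p r H, 1 ≤ ∑ e ∈ Q.powersetCard r, w e) :
    ∃ T ⊆ H, (∀ Q ∈ copies p r H, ∃ e ∈ T, e ⊆ Q) ∧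
      (T.card : ℝ) ≤ ((H.filter (fun e => 1 / ((p.choose r : ℝ) - 2) ≤ w e)).card : ℝ) +
        (1 - (r.factorial : ℝ) / (r : ℝ) ^ r) *
          ((H.filter (fun e => 0 < w e ∧ w e < 1 / ((p.choose r : ℝ) - 2))).card : ℝ) := by
  classical
  have hC := w_four_le hr hrp
  have hC' : (4 : ℝ) ≤ (p.choose r : ℝ) := by exact_mod_cast hC
  obtain ⟨R, hRB, hR2, hcard⟩ := pattern_rainbow (n := n) (r := r) (by omega)
    (H.filter (fun e => 0 < w e ∧ w e < 1 / ((p.choose r : ℝ) - 2)))
    (fun e he => hH e (mem_filter.1 he).1)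
  refine ⟨H.filter (fun e => 1 / ((p.choose r : ℝ) - 2) ≤ w e) ∪
      (H.filter (fun e => 0 < w e ∧ w e < 1 / ((p.choose r : ℝ) - 2)) \ R),
    union_subset (filter_subset _ _) (sdiff_subset.trans (filter_subset _ _)), ?_, ?_⟩
  · intro Q hQ
    obtain ⟨hQc, hQH⟩ := w_copy hQ
    by_cases h : ∃ e ∈ Q.powersetCard r, 1 / ((p.choose r : ℝ) - 2) ≤ w e
    · obtain ⟨e, he, hwe⟩ := h
      exact ⟨e, mem_union_left _ (mem_filter.2 ⟨hQH he, hwe⟩), (mem_powersetCard.1 he).1⟩
    · push Not at h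
      have h1 := w_many (Q.powersetCard r) w hw ((p.choose r : ℝ) - 2) (by linarith) h (hcov Q hQ)
      have h3 : (p.choose r : ℝ) < (((Q.powersetCard r).filter (fun e => 0 < w e)).card : ℝ) + 2 := by
        linarith
      have h4 : p.choose r < ((Q.powersetCard r).filter (fun e => 0 < w e)).card + 2 := by
        exact_mod_cast h3
      have h5 := rainbow_copies (n := n) (p := p) (r := r) (by omega) hrp (by omega) hR2 Q hQc
      by_contra hcon
      push Not at hcon
      have h6 : (Q.powersetCard r).filter (fun e => 0 < w e) ⊆ Q.powersetCard r ∩ R := by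
        intro e he
        obtain ⟨he1, he2⟩ := mem_filter.1 he
        refine mem_inter.2 ⟨he1, ?_⟩
        by_contra heR
        exact hcon e (mem_union_right _ (mem_sdiff.2 ⟨mem_filter.2 ⟨hQH he1, he2, h e he1⟩, heR⟩))
          (mem_powersetCard.1 he1).1
      have h7 := card_le_card h6
      omega
  · have h1 : ((H.filter (fun e => 1 / ((p.choose r : ℝ) - 2) ≤ w e) ∪
        (H.filter (fun e => 0 < w e ∧ w e < 1 / ((p.choose r : ℝ) - 2)) \ R)).card : ℝ) ≤
        ((H.filter (fun e => 1 / ((p.choose r : ℝ) - 2) ≤ w e)).card : ℝ) +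
        ((H.filter (fun e => 0 < w e ∧ w e < 1 / ((p.choose r : ℝ) - 2)) \ R).card : ℝ) := by
      exact_mod_cast card_union_le _ _
    have h2 : ((H.filter (fun e => 0 < w e ∧ w e < 1 / ((p.choose r : ℝ) - 2)) \ R).card : ℝ) +
        (R.card : ℝ) = ((H.filter (fun e => 0 < w e ∧ w e < 1 / ((p.choose r : ℝ) - 2))).card : ℝ) := by
      exact_mod_cast card_sdiff_add_card_eq_card hRB
    have h3 : (r.factorial : ℝ) * ((H.filter (fun e => 0 < w e ∧ w e < 1 / ((p.choose r : ℝ) - 2))).card : ℝ) ≤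
        (r : ℝ) ^ r * (R.card : ℝ) := by
      exact_mod_cast hcard
    have hrr : (0 : ℝ) < (r : ℝ) ^ r := by
      have : (0 : ℝ) < (r : ℝ) := by exact_mod_cast (by omega : 0 < r)
      positivity
    have h4 : (r.factorial : ℝ) / (r : ℝ) ^ r *
        ((H.filter (fun e => 0 < w e ∧ w e < 1 / ((p.choose r : ℝ) - 2))).card : ℝ) ≤ (R.card : ℝ) := by
      rw [div_mul_eq_mul_div, div_le_iff₀ hrr]
      linarith
    linarith

end ES
end
end
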