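import Pool.Agent.Lib.MP_1f562f_co.WCov2
import Pool.Agent.Lib.SqCyc.NibDefs
import Pool.Agent.Lib.SqCyc.Nib5
import Pool.Agent.Lib.MP_1f562f_co.Part

section

/-!
# Erdős–Sauer: nibble systems from fractional packings
-/

set_option autoImplicit false

open Finset

namespace ES

/-- a fractional packing with small pair degrees as a nibble system (all fields by definition; `deg` and
`pdeg` are the sums over the filtered copies) -/
theorem nibSys_of {n p r : ℕ} (H : Finset (Finset (Fin n))) (Y : Finset (Fin n) → ℝ) (δ : ℝ)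
    (hY : ∀ Q, 0 ≤ Y Q)
    (hdeg : ∀ e ∈ H, ∑ Q ∈ (copies p r H).filter (fun Q => e ∈ Q.powersetCard r), Y Q ≤ 1)
    (hpair : ∀ e ∈ H, ∀ e' ∈ H, e ≠ e' →
      ∑ Q ∈ (copies p r H).filter (fun Q => e ∈ Q.powersetCard r ∧ e' ∈ Q.powersetCard r), Y Q
        ≤ δ) :
    SqCyc.NibSys (p.choose r) δ H (copies p r H) (fun Q => Q.powersetCard r) Y := by
  refine ⟨fun Q hQ => (mem_copies.1 hQ).2, fun Q hQ => ?_, fun Q _ => hY Q, hdeg, hpair⟩
  rw [card_powersetCard, (mem_copies.1 hQ).1]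

/-- the uniform packing `Y = n^{-(p-r)}`.

Proof.  `e ∈ Q.powersetCard r` implies `e ⊆ Q`; the number of `p`-sets containing `e` (`|e| = r`) is at most
`n^(p-r)` (`card_sup_le`); for `e ≠ e'`, `|e ∪ e'| ≥ r + 1`, take an `(r+1)`-set `T ⊆ e ∪ e'`: at most `n^(p-r-1)`
(`p ≥ r + 1`), times `n^{-(p-r)}` is `1/n`. -/
theorem uniform {n p r : ℕ} (hrp : r < p) (hn : 1 ≤ n) (H : Finset (Finset (Fin n)))
    (hH : ∀ e ∈ H, e.card = r) :
    SqCyc.NibSys (p.choose r) (1 / (n : ℝ)) H (copies p r H) (fun Q => Q.powersetCard r)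
      (fun _ => 1 / (n : ℝ) ^ (p - r)) := by
  classical
  have hn0 : (0 : ℝ) < n := by exact_mod_cast hn
  refine nibSys_of H _ _ (fun Q => by positivity) ?_ ?_
  · intro e he
    rw [sum_const, nsmul_eq_mul]
    have h1 : (copies p r H).filter (fun Q => e ∈ Q.powersetCard r) ⊆
        (univ.powersetCard p).filter (fun Q : Finset (Fin n) => e ⊆ Q) := by
      intro Q hQ
      rw [mem_filter, mem_powersetCard] at hQ
      rw [mem_filter, mem_powersetCard]
      exact ⟨⟨subset_univ _, (mem_copies.1 hQ.1).1⟩, hQ.2.1⟩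
    have h2 : (((copies p r H).filter (fun Q => e ∈ Q.powersetCard r)).card : ℝ) ≤
        (n : ℝ) ^ (p - r) := by
      have h3 := card_sup_le (p := p) e (by rw [hH e he]; omega)
      rw [hH e he] at h3
      exact le_trans (by exact_mod_cast card_le_card h1) h3
    rw [mul_one_div, div_le_one (by positivity)]
    exact h2
  · intro e he e' he' hne
    rw [sum_const, nsmul_eq_mul]
    have hcard : r + 1 ≤ (e ∪ e').card := by
      by_contra hlt
      have h1 : e = e ∪ e' := eq_of_subset_of_card_le subset_union_left (by rw [hH e he]; omega)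
      have h2 : e' = e ∪ e' := eq_of_subset_of_card_le subset_union_right (by rw [hH e' he']; omega)
      exact hne (h1.trans h2.symm)
    obtain ⟨T, hT, hTc⟩ := exists_subset_card_eq hcard
    have h1 : (copies p r H).filter (fun Q => e ∈ Q.powersetCard r ∧ e' ∈ Q.powersetCard r) ⊆
        (univ.powersetCard p).filter (fun Q : Finset (Fin n) => T ⊆ Q) := by
      intro Q hQ
      rw [mem_filter, mem_powersetCard, mem_powersetCard] at hQ
      rw [mem_filter, mem_powersetCard]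
      exact ⟨⟨subset_univ _, (mem_copies.1 hQ.1).1⟩,
        hT.trans (union_subset hQ.2.1.1 hQ.2.2.1)⟩
    have h2 : (((copies p r H).filter
        (fun Q => e ∈ Q.powersetCard r ∧ e' ∈ Q.powersetCard r)).card : ℝ) ≤
        (n : ℝ) ^ (p - (r + 1)) := by
      have h3 := card_sup_le (p := p) T (by rw [hTc]; omega)
      rw [hTc] at h3
      exact le_trans (by exact_mod_cast card_le_card h1) h3
    have h4 : (n : ℝ) ^ (p - r) = (n : ℝ) ^ (p - (r + 1)) * n := by
      rw [← pow_succ]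
      congr 1
      omega
    rw [mul_one_div, div_le_div_iff₀ (by positivity) hn0, h4, one_mul]
    exact mul_le_mul_of_nonneg_right h2 hn0.le

end ES
end

section

/-!
# Erdős–Sauer: covers against fractional packings, with slack
-/

set_option autoImplicit false

open Finset

namespace ES

/-- the slack: every `r`-graph has `|H| - α ≤ (C(p,r) - 1 - kap r) ν*(H)` -/
noncomputable def kap (r : ℕ) : ℝ := (r.factorial : ℝ) / (20 * (r : ℝ) ^ r)

theorem kap_pos {r : ℕ} (hr : 1 ≤ r) : 0 < kap r := by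
  unfold kap
  have h1 : (0 : ℝ) < r := by exact_mod_cast hr
  have h2 : (0 : ℝ) < (r.factorial : ℝ) := by exact_mod_cast Nat.factorial_pos r
  positivity

/-- `kap r ≤ 1/40` for `r ≥ 2` (`r! / r^r ≤ 1/2`: `r! ≤ 1 * r ^ (r-1)` and more precisely
`2 * r! ≤ r ^ r`) -/
theorem kap_le {r : ℕ} (hr : 2 ≤ r) : kap r ≤ 1 / 40 := by
  have h1 : 2 * r.factorial ≤ r ^ r := by
    induction r, hr using Nat.le_induction with
    | base => decide
    | succ r hr ih =>
      rw [Nat.factorial_succ, pow_succ']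
      have h2 : r ^ r ≤ (r + 1) ^ r := Nat.pow_le_pow_left (Nat.le_succ r) r
      calc 2 * ((r + 1) * r.factorial) = (r + 1) * (2 * r.factorial) := by ring
        _ ≤ (r + 1) * (r + 1) ^ r := Nat.mul_le_mul_left _ (ih.trans h2)
  have h2 : (2 : ℝ) * (r.factorial : ℝ) ≤ (r : ℝ) ^ r := by exact_mod_cast h1
  have h3 : (0 : ℝ) < (r : ℝ) ^ r := by
    have : (0 : ℝ) < r := by exact_mod_cast (by omega : 0 < r)
    positivity
  unfold kap
  rw [div_le_div_iff₀ (by positivity) (by norm_num)]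
  linarith

/-- counting with an almost tight fractional packing: if all `v ∈ X` have degree at least `1` then
`|X| ≤ ∑_Q y_Q |E(Q) ∩ X|`.

Proof.  `|X| = ∑_{v ∈ X} 1 ≤ ∑_{v ∈ X} deg v`, exchange the sums. -/
theorem card_le_sum_inter {α ι : Type} [DecidableEq α] [DecidableEq ι] (X : Finset α)
    (I : Finset ι) (e : ι → Finset α) (y : ι → ℝ) (h : ∀ v ∈ X, 1 ≤ SqCyc.deg I e y v) :
    (X.card : ℝ) ≤ ∑ i ∈ I, y i * ((e i ∩ X).card : ℝ) := by
  have h1 : (X.card : ℝ) ≤ ∑ v ∈ X, SqCyc.deg I e y v := by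
    rw [card_eq_sum_ones, Nat.cast_sum]
    exact sum_le_sum fun v hv => by simpa using h v hv
  refine h1.trans (le_of_eq ?_)
  unfold SqCyc.deg
  simp_rw [sum_filter]
  rw [sum_comm]
  refine sum_congr rfl fun i _ => ?_
  rw [← sum_filter, sum_const, nsmul_eq_mul, mul_comm]
  congr 3
  ext v
  rw [mem_filter, mem_inter, and_comm]

theorem w_free_sdiff {n p r : ℕ} {H T : Finset (Finset (Fin n))} (hH : ∀ e ∈ H, e.card = r)
    (hT : T ⊆ H) (h : ∀ Q ∈ copies p r H, ∃ e ∈ T, e ⊆ Q) : Free p r (H \ T) := by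
  refine ⟨fun e he => hH e (mem_sdiff.1 he).1, fun S hS hsub => ?_⟩
  obtain ⟨e, heT, heS⟩ := h S (mem_copies.2 ⟨hS, hsub.trans sdiff_subset⟩)
  have h1 : e ∈ S.powersetCard r := mem_powersetCard.2 ⟨heS, hH e (hT heT)⟩
  exact (mem_sdiff.1 (hsub h1)).2 heT

theorem w_card_sub_le {n p r : ℕ} {H T : Finset (Finset (Fin n))} {A : ℝ}
    (hH : ∀ e ∈ H, e.card = r) (hA : ∀ G ⊆ H, Free p r G → (G.card : ℝ) ≤ A)
    (hT : T ⊆ H) (h : ∀ Q ∈ copies p r H, ∃ e ∈ T, e ⊆ Q) : (H.card : ℝ) - A ≤ T.card := by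
  have h1 := hA _ sdiff_subset (w_free_sdiff hH hT h)
  have h2 := card_sdiff_add_card_eq_card hT
  have h3 : (H.card : ℝ) = ((H \ T).card : ℝ) + T.card := by exact_mod_cast h2.symm
  linarith

theorem w_inter {β : Type} [DecidableEq β] {E H : Finset β} (hE : E ⊆ H) (P : β → Prop)
    [DecidablePred P] : E ∩ H.filter P = E.filter P := by
  ext e
  rw [mem_inter, mem_filter, mem_filter]
  exact ⟨fun h => ⟨h.1, h.2.2⟩, fun h => ⟨h.1, hE h.1, h.2⟩⟩

theorem w_arith {h t2 t3 a1 a2 a3 a4 s1 s2 s3 s4 k R : ℝ} (h1 : h ≤ 19 / 20 * t2 + 1 / 20 * t3)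
    (hb2 : t2 ≤ a1 + 4 / 9 * a2) (hb3 : t3 ≤ a3 + (1 - 20 * k) * a4) (x1 : a1 ≤ s1) (x2 : a2 ≤ s2)
    (x3 : a3 ≤ s3) (x4 : a4 ≤ s4) (h4 : 0 ≤ 1 - 20 * k)
    (h2 : 19 / 20 * s1 + 19 / 20 * (4 / 9 * s2) + (1 / 20 * s3 + 1 / 20 * ((1 - 20 * k) * s4)) ≤ R) :
    h ≤ R := by
  have h5 : (1 - 20 * k) * a4 ≤ (1 - 20 * k) * s4 := mul_le_mul_of_nonneg_left x4 h4
  linarith

/-- **Covers against fractional packings, with slack.**  `A` bounds the size of all `K_p^r`-free subfamilies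
of `H`.  Then `|H| - A ≤ (C(p,r) - 1 - kap r) ∑ y` for a fractional packing `y`.

Proof.  Let `C = C(p,r) ≥ 4`, `ρ = r!/r^r = 20 kap r ≤ 1/2`, `lam = (C-1) / kap r`.  `penalised` for `V = H`,
`I = copies p r H`, `e Q = Q.powersetCard r` gives `y`, `w`.  (`Q.powersetCard r` is nonempty and contained in
`H`.)  Replace `w` by `fun e => w e` (it is `≥ 0` everywhere).  `cover_two` and `cover_three` give `T2`, `T3`.  For a
cover `T`, `H \ T` is `K_p^r`-free, so `|H| - |T| ≤ A`.  Hence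
`|H| - A ≤ (19/20) |T2| + (1/20) |T3|
   ≤ (19/20)(|X_A| + (4/9)|X_B|) + (1/20)(|X_A'| + (1-ρ)|X_B'|)` with the four filtered subsets of `H`; on all of
them `w > 0` (`1/(C-1) > 0`, `1/(C-2) > 0`), so the degrees are at least `1` and by `card_le_sum_inter` this is
at most `∑_Q y_Q cost(Q)`, where `cost(Q)` is the left side of `cost_le` for `E = Q.powersetCard r` (note that
`E ∩ H.filter P = E.filter P` since `E ⊆ H`).  If `y_Q > 0` then `∑_{e ∈ E} w e = 1` and `cost_le` gives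
`cost(Q) ≤ C - 1 - 2 kap r` (`ρ / 10 = 2 kap r`); if `y_Q = 0` the term is `0`.  So
`|H| - A ≤ (C - 1 - 2 kap r) ∑ y`.  Take `y' Q = y Q / (1 + 1/lam)` for `Q ∈ copies p r H` and `0` otherwise.
All degrees of `y'` are at most `1`, and `(C - 1 - 2 kap r)(1 + kap r/(C-1)) ≤ C - 1 - kap r`. -/
theorem frac_cover {n p r : ℕ} (hr : 3 ≤ r) (hrp : r < p) (H : Finset (Finset (Fin n)))
    (hH : ∀ e ∈ H, e.card = r) (A : ℝ) (hA : ∀ G ⊆ H, Free p r G → (G.card : ℝ) ≤ A) :
    ∃ y : Finset (Fin n) → ℝ, (∀ Q, 0 ≤ y Q) ∧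
      (∀ e ∈ H, ∑ Q ∈ (copies p r H).filter (fun Q => e ∈ Q.powersetCard r), y Q ≤ 1) ∧
      (H.card : ℝ) - A ≤
        ((p.choose r : ℝ) - 1 - kap r) * ∑ Q ∈ copies p r H, y Q := by
  classical
  obtain ⟨C, hC⟩ : ∃ C, C = p.choose r := ⟨_, rfl⟩
  have hC4 : 4 ≤ C := by
    have h1 : (r + 1).choose r ≤ p.choose r := Nat.choose_le_choose r hrp
    rw [Nat.choose_succ_self_right] at h1
    omega
  have hC4' : (4 : ℝ) ≤ C := by exact_mod_cast hC4
  have hk0 := kap_pos (r := r) (by omega)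
  have hk1 := kap_le (r := r) (by omega)
  obtain ⟨κ, hκ⟩ : ∃ κ, κ = kap r := ⟨_, rfl⟩
  have hρ : (r.factorial : ℝ) / (r : ℝ) ^ r = 20 * κ := by
    have h3 : (0 : ℝ) < (r : ℝ) ^ r := by
      have : (0 : ℝ) < r := by exact_mod_cast (by omega : 0 < r)
      positivity
    rw [hκ]
    unfold kap
    field_simp
  rw [← hκ] at hk0 hk1 ⊢
  rw [← hC]
  have hlam : 0 < ((C : ℝ) - 1) / κ := div_pos (by linarith) hk0
  obtain ⟨y, w, hy0, hw0, hcov, hsum, hdeg, hdeg'⟩ := penalised H (copies p r H)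
    (fun Q => Q.powersetCard r)
    (fun Q hQ => powersetCard_nonempty.2 (by rw [(mem_copies.1 hQ).1]; omega))
    (fun Q hQ => (mem_copies.1 hQ).2) (((C : ℝ) - 1) / κ) hlam
  obtain ⟨T2, hT2, hc2, hb2⟩ := cover_two hr hrp H hH w hw0 hcov
  obtain ⟨T3, hT3, hc3, hb3⟩ := cover_three hr hrp H hH w hw0 hcov
  have g2 := w_card_sub_le hH hA hT2 hc2
  have g3 := w_card_sub_le hH hA hT3 hc3
  rw [← hC] at hb2 hb3
  rw [hρ] at hb3
  have hpos1 : (0 : ℝ) < 1 / ((C : ℝ) - 1) := by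
    have : (0 : ℝ) < (C : ℝ) - 1 := by linarith
    positivity
  have hpos2 : (0 : ℝ) < 1 / ((C : ℝ) - 2) := by
    have : (0 : ℝ) < (C : ℝ) - 2 := by linarith
    positivity
  have hX : ∀ (P : Finset (Fin n) → Prop) [DecidablePred P], (∀ e, P e → 0 < w e) →
      ((H.filter P).card : ℝ) ≤
        ∑ Q ∈ copies p r H, y Q * (((Q.powersetCard r).filter P).card : ℝ) := by
    intro P _ hP
    refine (card_le_sum_inter (H.filter P) (copies p r H) (fun Q => Q.powersetCard r) y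
      (fun e he => hdeg e (hP e (mem_filter.1 he).2))).trans (le_of_eq ?_)
    refine sum_congr rfl fun Q hQ => ?_
    rw [w_inter (mem_copies.1 hQ).2]
  have x1 := hX (fun e => 1 / ((C : ℝ) - 1) ≤ w e) (fun e he => hpos1.trans_le he)
  have x2 := hX (fun e => 0 < w e ∧ w e < 1 / ((C : ℝ) - 1)) (fun e he => he.1)
  have x3 := hX (fun e => 1 / ((C : ℝ) - 2) ≤ w e) (fun e he => hpos2.trans_le he)
  have x4 := hX (fun e => 0 < w e ∧ w e < 1 / ((C : ℝ) - 2)) (fun e he => he.1)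
  have hcost : ∀ Q ∈ copies p r H, y Q *
      (19 / 20 * ((((Q.powersetCard r).filter (fun e => 1 / ((C : ℝ) - 1) ≤ w e)).card : ℝ) +
        4 / 9 * (((Q.powersetCard r).filter
          (fun e => 0 < w e ∧ w e < 1 / ((C : ℝ) - 1))).card : ℝ)) +
      1 / 20 * ((((Q.powersetCard r).filter (fun e => 1 / ((C : ℝ) - 2) ≤ w e)).card : ℝ) +
        (1 - 20 * κ) * (((Q.powersetCard r).filter
          (fun e => 0 < w e ∧ w e < 1 / ((C : ℝ) - 2))).card : ℝ))) ≤
      y Q * ((C : ℝ) - 1 - 2 * κ) := by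
    intro Q hQ
    rcases (hy0 Q hQ).eq_or_lt with h0 | h0
    · rw [← h0, zero_mul, zero_mul]
    · refine mul_le_mul_of_nonneg_left ?_ h0.le
      have h1 := cost_le (Q.powersetCard r) w (fun e _ => hw0 e) (hsum Q hQ h0) (C := C)
        (by rw [card_powersetCard, (mem_copies.1 hQ).1, hC]) hC4 (ρ := 20 * κ)
        (by linarith) (by linarith)
      linarith
  have hmain : (H.card : ℝ) - A ≤ ((C : ℝ) - 1 - 2 * κ) * ∑ Q ∈ copies p r H, y Q := by
    have h1 : (H.card : ℝ) - A ≤ 19 / 20 * (T2.card : ℝ) + 1 / 20 * (T3.card : ℝ) := by linarith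
    have h2 := sum_le_sum hcost
    rw [← sum_mul] at h2
    simp only [mul_add, sum_add_distrib] at h2
    have h3 : ∀ (c : ℝ) (f : Finset (Fin n) → ℝ), ∑ Q ∈ copies p r H, y Q * (c * f Q) =
        c * ∑ Q ∈ copies p r H, y Q * f Q := by
      intro c f
      rw [mul_sum]
      exact sum_congr rfl fun Q _ => by ring
    simp only [h3] at h2
    have h4 : 0 ≤ 1 - 20 * κ := by linarith
    rw [mul_comm]
    exact w_arith h1 hb2 hb3 x1 x2 x3 x4 h4 h2
  have hs0 : 0 ≤ ∑ Q ∈ copies p r H, y Q := sum_nonneg hy0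
  have hlam' : 1 / (((C : ℝ) - 1) / κ) = κ / ((C : ℝ) - 1) := one_div_div _ _
  rw [hlam'] at hdeg'
  have hC1 : (0 : ℝ) < (C : ℝ) - 1 := by linarith
  have hD : (0 : ℝ) < 1 + κ / ((C : ℝ) - 1) := by positivity
  refine ⟨fun Q => if Q ∈ copies p r H then y Q / (1 + κ / ((C : ℝ) - 1)) else 0, ?_, ?_, ?_⟩
  · intro Q
    simp only
    split_ifs with hQ
    · exact div_nonneg (hy0 Q hQ) hD.le
    · exact le_rfl
  · intro e he
    have h1 : ∑ Q ∈ (copies p r H).filter (fun Q => e ∈ Q.powersetCard r),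
        (if Q ∈ copies p r H then y Q / (1 + κ / ((C : ℝ) - 1)) else 0) =
        (SqCyc.deg (copies p r H) (fun Q => Q.powersetCard r) y e) /
          (1 + κ / ((C : ℝ) - 1)) := by
      unfold SqCyc.deg
      rw [sum_div]
      exact sum_congr rfl fun Q hQ => by rw [if_pos (mem_filter.1 hQ).1]
    rw [h1, div_le_one hD]
    exact hdeg' e he
  · have h1 : ∑ Q ∈ copies p r H,
        (if Q ∈ copies p r H then y Q / (1 + κ / ((C : ℝ) - 1)) else 0) =
        (∑ Q ∈ copies p r H, y Q) / (1 + κ / ((C : ℝ) - 1)) := by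
      rw [sum_div]
      exact sum_congr rfl fun Q hQ => by rw [if_pos hQ]
    rw [h1]
    refine hmain.trans ?_
    rw [← mul_div_assoc, le_div_iff₀ hD]
    have h2 : ((C : ℝ) - 1 - 2 * κ) * (1 + κ / ((C : ℝ) - 1)) ≤ (C : ℝ) - 1 - κ := by
      have h3 : ((C : ℝ) - 1 - 2 * κ) * (1 + κ / ((C : ℝ) - 1)) =
          (C : ℝ) - 1 - κ - 2 * κ ^ 2 / ((C : ℝ) - 1) := by
        field_simp
        ring
      have h4 : 0 ≤ 2 * κ ^ 2 / ((C : ℝ) - 1) := by positivity
      linarith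
    calc ((C : ℝ) - 1 - 2 * κ) * (∑ Q ∈ copies p r H, y Q) * (1 + κ / ((C : ℝ) - 1)) =
        (((C : ℝ) - 1 - 2 * κ) * (1 + κ / ((C : ℝ) - 1))) * ∑ Q ∈ copies p r H, y Q := by ring
      _ ≤ _ := mul_le_mul_of_nonneg_right h2 hs0

end ES
end

section

/-!
# Multiplicative nibble (Kahn's form)

The one step lemma of the weighted nibble with an error proportional to the total weight of the fractional
matching instead of the number of vertices: after one step a vertex can only be overloaded if its degree was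
larger than `1 / lam`.
-/

set_option autoImplicit false

open Finset SqCyc

namespace ES

section
variable {α ι : Type} [DecidableEq α] [DecidableEq ι]

private lemma wnb_one_sub_sum_le (s : Finset ι) (x : ι → ℝ) (h : ∀ i ∈ s, 0 ≤ x i ∧ x i ≤ 1) :
    1 - ∑ i ∈ s, x i ≤ ∏ i ∈ s, (1 - x i) := by
  induction s using Finset.induction_on with
  | empty => simp
  | insert a s ha ih =>
    rw [Finset.sum_insert ha, Finset.prod_insert ha]
    have h1 := h a (Finset.mem_insert_self a s)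
    have h2 := ih fun i hi => h i (Finset.mem_insert_of_mem hi)
    have h3 : 0 ≤ ∑ i ∈ s, x i := Finset.sum_nonneg fun i hi =>
      (h i (Finset.mem_insert_of_mem hi)).1
    have h4 : (1 - x a) * (1 - ∑ i ∈ s, x i) ≤ (1 - x a) * ∏ i ∈ s, (1 - x i) :=
      mul_le_mul_of_nonneg_left h2 (by linarith [h1.2])
    nlinarith [mul_nonneg h1.1 h3]

private lemma wnb_congr (θ : ℝ) (V : Finset α) (I : Finset ι) (e : ι → Finset α) (w : ι → ℝ)
    {f g : Finset ι → Finset α → ℝ} (h : ∀ S ⊆ I, ∀ R ⊆ V, f S R = g S R) :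
    nE θ V I e w f = nE θ V I e w g := by
  unfold nE
  refine Finset.sum_congr rfl fun S hS => Finset.sum_congr rfl fun R hR => ?_
  rw [h S (Finset.mem_powerset.1 hS) R (Finset.mem_powerset.1 hR)]

private lemma wnb_bern_one (V : Finset α) (p : α → ℝ) : ∑ R ∈ V.powerset, bern V p R = 1 := by
  have h := bern_sum V ∅ ∅ p (Finset.empty_subset _) (Finset.empty_subset _)
    (Finset.disjoint_empty_left _)
  have h1 : V.powerset.filter (fun S => ∅ ⊆ S ∧ Disjoint S ∅) = V.powerset := by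
    apply Finset.filter_true_of_mem
    intro S _
    exact ⟨Finset.empty_subset _, Finset.disjoint_empty_right _⟩
  rw [h1] at h
  simpa using h

/-- the edges meeting `e i` -/
private def wnbN (I : Finset ι) (e : ι → Finset α) (i : ι) : Finset ι :=
  I.filter (fun j => j ≠ i ∧ ¬ Disjoint (e i) (e j))

private lemma wnb_mem_isol {I : Finset ι} {e : ι → Finset α} {S : Finset ι} (hS : S ⊆ I) (i : ι) :
    i ∈ isol e S ↔ ({i} ⊆ S ∧ Disjoint S (wnbN I e i)) := by
  unfold isol wnbN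
  rw [Finset.mem_filter, Finset.singleton_subset_iff, Finset.disjoint_left]
  refine and_congr_right fun _ => ?_
  constructor
  · intro h j hj hj'
    rw [Finset.mem_filter] at hj'
    exact hj'.2.2 (h j hj hj'.2.1)
  · intro h j hj hji
    by_contra hne
    exact h hj (Finset.mem_filter.2 ⟨hS hj, hji, hne⟩)

open Classical in
private lemma wnb_prob (θ : ℝ) (V : Finset α) (I : Finset ι) (e : ι → Finset α) (w : ι → ℝ)
    (i : ι) (hi : i ∈ I) :
    nE θ V I e w (fun S _ => if i ∈ isol e S then 1 else 0) =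
      θ * w i * ∏ j ∈ wnbN I e i, (1 - θ * w j) := by
  have h1 : nE θ V I e w (fun S _ => if i ∈ isol e S then 1 else 0) =
      ∑ S ∈ I.powerset, bern I (fun i => θ * w i) S * (if i ∈ isol e S then 1 else 0) := by
    unfold nE nP
    refine Finset.sum_congr rfl fun S _ => ?_
    have h2 : ∀ R ∈ V.powerset, bern I (fun i => θ * w i) S * bern V (nxi θ I e w) R *
        (if i ∈ isol e S then (1 : ℝ) else 0) =
        (bern I (fun i => θ * w i) S * (if i ∈ isol e S then 1 else 0)) *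
          bern V (nxi θ I e w) R := fun R _ => by ring
    rw [Finset.sum_congr rfl h2, ← Finset.mul_sum, wnb_bern_one, mul_one]
  rw [h1]
  have h3 := bern_sum I {i} (wnbN I e i) (fun i => θ * w i)
    (Finset.singleton_subset_iff.2 hi) (Finset.filter_subset _ _) (by
      rw [Finset.disjoint_singleton_left]
      unfold wnbN
      rw [Finset.mem_filter]
      rintro ⟨-, h, -⟩
      exact h rfl)
  rw [Finset.prod_singleton] at h3
  rw [← h3, Finset.sum_filter]
  refine Finset.sum_congr rfl fun S hS => ?_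
  have h4 := wnb_mem_isol (e := e) (Finset.mem_powerset.1 hS) i
  by_cases h5 : i ∈ isol e S
  · rw [if_pos h5, if_pos (h4.1 h5), mul_one]
  · rw [if_neg h5, if_neg (fun h => h5 (h4.2 h)), mul_zero]

private lemma wnb_w_le {r : ℕ} {δ : ℝ} {V : Finset α} {I : Finset ι} {e : ι → Finset α}
    {w : ι → ℝ} (hs : NibSys r δ V I e w) (hr : 1 ≤ r) (i : ι) (hi : i ∈ I) : w i ≤ 1 := by
  have h1 : (e i).Nonempty := by
    rw [← Finset.card_pos, hs.card i hi]
    omega
  obtain ⟨v, hv⟩ := h1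
  refine le_trans ?_ (hs.deg_le v (hs.sub i hi hv))
  unfold deg
  exact Finset.single_le_sum (f := w)
    (fun j hj => hs.nonneg j (Finset.mem_filter.1 hj).1) (Finset.mem_filter.2 ⟨hi, hv⟩)

private lemma wnb_sumN {r : ℕ} {δ : ℝ} {V : Finset α} {I : Finset ι} {e : ι → Finset α}
    {w : ι → ℝ} (hs : NibSys r δ V I e w) (i : ι) (hi : i ∈ I) :
    ∑ j ∈ wnbN I e i, w j ≤ r := by
  have h1 : ∑ j ∈ wnbN I e i, w j ≤ ∑ v ∈ e i, deg I e w v := by
    unfold deg
    have h2 : ∑ v ∈ e i, ∑ j ∈ I.filter (fun j => v ∈ e j), w j =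
        ∑ j ∈ I, ∑ v ∈ (e i).filter (fun v => v ∈ e j), w j := by
      apply Finset.sum_comm'
      intro v j
      simp only [Finset.mem_filter]
      tauto
    rw [h2]
    calc ∑ j ∈ wnbN I e i, w j ≤ ∑ j ∈ wnbN I e i, ∑ v ∈ (e i).filter (fun v => v ∈ e j), w j := by
          refine Finset.sum_le_sum fun j hj => ?_
          unfold wnbN at hj
          rw [Finset.mem_filter] at hj
          obtain ⟨hjI, -, hnd⟩ := hj
          rw [Finset.not_disjoint_iff] at hnd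
          obtain ⟨v, hv, hv'⟩ := hnd
          rw [Finset.sum_const, nsmul_eq_mul]
          have h3 : 1 ≤ ((e i).filter (fun v => v ∈ e j)).card :=
            Finset.card_pos.2 ⟨v, Finset.mem_filter.2 ⟨hv, hv'⟩⟩
          have h4 : (1 : ℝ) ≤ (((e i).filter (fun v => v ∈ e j)).card : ℝ) := by exact_mod_cast h3
          have h5 := hs.nonneg j hjI
          nlinarith
      _ ≤ ∑ j ∈ I, ∑ v ∈ (e i).filter (fun v => v ∈ e j), w j := by
          apply Finset.sum_le_sum_of_subset_of_nonneg (Finset.filter_subset _ _)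
          intro j hj _
          exact Finset.sum_nonneg fun _ _ => hs.nonneg j hj
  refine h1.trans ?_
  calc ∑ v ∈ e i, deg I e w v ≤ ∑ v ∈ e i, (1 : ℝ) :=
        Finset.sum_le_sum fun v hv => hs.deg_le v (hs.sub i hi hv)
    _ = r := by
        rw [Finset.sum_const, hs.card i hi]
        simp

private lemma wnb_sum_deg {r : ℕ} {δ : ℝ} {V : Finset α} {I : Finset ι} {e : ι → Finset α}
    {w : ι → ℝ} (hs : NibSys r δ V I e w) : ∑ v ∈ V, deg I e w v = (r : ℝ) * ∑ i ∈ I, w i := by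
  have h1 : ∑ v ∈ V, deg I e w v = ∑ i ∈ I, ∑ v ∈ e i, w i := by
    unfold deg
    apply Finset.sum_comm'
    intro v j
    simp only [Finset.mem_filter]
    constructor
    · rintro ⟨hv, hj, hvj⟩
      exact ⟨hvj, hj⟩
    · rintro ⟨hvj, hj⟩
      exact ⟨hs.sub j hj hvj, hj, hvj⟩
  rw [h1, Finset.mul_sum]
  refine Finset.sum_congr rfl fun i hi => ?_
  rw [Finset.sum_const, hs.card i hi, nsmul_eq_mul]

/-- expected number of isolated selected edges -/
theorem wnb_isol {r : ℕ} {δ θ : ℝ} {V : Finset α} {I : Finset ι} {e : ι → Finset α} {w : ι → ℝ}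
    (hs : NibSys r δ V I e w) (hr : 1 ≤ r) (hθ : 0 ≤ θ) (hθ1 : θ ≤ 1 / 2) :
    θ * (1 - r * θ) * ∑ i ∈ I, w i ≤ nE θ V I e w (fun S _ => ((isol e S).card : ℝ)) := by
  classical
  have h1 : nE θ V I e w (fun S _ => ((isol e S).card : ℝ)) =
      nE θ V I e w (fun S _ => ∑ i ∈ I, (if i ∈ isol e S then (1 : ℝ) else 0)) := by
    apply wnb_congr
    intro S hS R _
    rw [Finset.sum_boole]
    congr 2
    ext v
    simp only [Finset.mem_filter]
    constructor
    · intro h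
      exact ⟨hS (Finset.mem_filter.1 h).1, h⟩
    · exact fun h => h.2
  rw [h1, nE_sum θ V I e w I (fun i S _ => if i ∈ isol e S then (1 : ℝ) else 0), Finset.mul_sum]
  refine Finset.sum_le_sum fun i hi => ?_
  rw [wnb_prob θ V I e w i hi]
  have h8 : ∀ j ∈ wnbN I e i, 0 ≤ θ * w j ∧ θ * w j ≤ 1 := by
    intro j hj
    have hjI := (Finset.mem_filter.1 hj).1
    have h9 := hs.nonneg j hjI
    have h10 := wnb_w_le hs hr j hjI
    exact ⟨by positivity, by nlinarith⟩
  have h9 := wnb_one_sub_sum_le (wnbN I e i) (fun j => θ * w j) h8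
  rw [← Finset.mul_sum] at h9
  have h10 := wnb_sumN hs i hi
  have h11 : 1 - r * θ ≤ ∏ j ∈ wnbN I e i, (1 - θ * w j) := by
    have : θ * ∑ j ∈ wnbN I e i, w j ≤ θ * r := by gcongr
    linarith
  have h12 : 0 ≤ θ * w i := mul_nonneg hθ (hs.nonneg i hi)
  calc θ * (1 - r * θ) * w i = θ * w i * (1 - r * θ) := by ring
    _ ≤ θ * w i * ∏ j ∈ wnbN I e i, (1 - θ * w j) := mul_le_mul_of_nonneg_left h11 h12

/-- total weight of the new weights -/
theorem wnb_weight {r : ℕ} {δ lam : ℝ} {V : Finset α} {I : Finset ι} {e : ι → Finset α}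
    {w : ι → ℝ} (hs : NibSys r δ V I e w) (hlam : 0 ≤ lam) (V' : Finset α) (hV' : V' ⊆ V) :
    lam * ∑ i ∈ inside I e V', w i -
        lam * ∑ u ∈ V', max 0 (lam * deg (inside I e V') e w u - 1) ≤
      ∑ i ∈ inside I e V', nw lam (inside I e V') e w i := by
  set I' := inside I e V' with hI'
  have hI'I : ∀ i ∈ I', i ∈ I := fun i hi => (Finset.mem_filter.mp hi).1
  have hI'V : ∀ i ∈ I', e i ⊆ V' := fun i hi => (Finset.mem_filter.mp hi).2
  have hw : ∀ i ∈ I', 0 ≤ w i := fun i hi => hs.nonneg i (hI'I i hi)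
  have hD1 : ∀ i, 1 ≤ nD lam I' e w i := fun i => nwf_D_ge_one lam I' e w i
  have hD0 : ∀ i, 0 < nD lam I' e w i := fun i => lt_of_lt_of_le one_pos (hD1 i)
  have hlw : ∀ i ∈ I', 0 ≤ lam * w i := fun i hi => mul_nonneg hlam (hw i hi)
  have hS1 : ∀ v ∈ V', deg I' e w v ≤ 1 := fun v hv =>
    (nwf_deg_inside_le hs V' v).trans (hs.deg_le v (hV' hv))
  have key : ∀ i ∈ I', lam * w i - nw lam I' e w i ≤
      lam * w i * ∑ u ∈ e i, max 0 (lam * deg I' e w u - 1) := by
    intro i hi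
    have h2 : nD lam I' e w i - 1 = ∑ u ∈ e i, max 0 (lam * deg I' e w u - 1) := by
      unfold nD
      ring
    rw [← h2]
    have h3 : lam * w i - nw lam I' e w i = lam * w i * (1 - 1 / nD lam I' e w i) := by
      unfold nw
      ring
    rw [h3]
    apply mul_le_mul_of_nonneg_left _ (hlw i hi)
    have hd := hD0 i
    have hd1 := hD1 i
    have h4 : 1 - 1 / nD lam I' e w i = (nD lam I' e w i - 1) / nD lam I' e w i := by
      field_simp
    rw [h4]
    exact div_le_self (by linarith) hd1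
  have hsum2 : ∑ i ∈ I', lam * w i * ∑ u ∈ e i, max 0 (lam * deg I' e w u - 1)
      = lam * ∑ u ∈ V', max 0 (lam * deg I' e w u - 1) * deg I' e w u := by
    have h6 : ∀ i ∈ I', lam * w i * ∑ u ∈ e i, max 0 (lam * deg I' e w u - 1)
        = lam * ∑ u ∈ V', (if u ∈ e i then max 0 (lam * deg I' e w u - 1) * w i else 0) := by
      intro i hi
      rw [← Finset.sum_filter]
      have h5 : V'.filter (fun v => v ∈ e i) = e i := by
        ext v
        simp only [Finset.mem_filter]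
        exact ⟨fun h => h.2, fun h => ⟨hI'V i hi h, h⟩⟩
      rw [h5, ← Finset.sum_mul]
      ring
    rw [Finset.sum_congr rfl h6, ← Finset.mul_sum, Finset.sum_comm]
    congr 1
    apply Finset.sum_congr rfl
    intro u hu
    rw [← Finset.sum_filter, ← Finset.mul_sum]
    rfl
  have hle : ∑ u ∈ V', max 0 (lam * deg I' e w u - 1) * deg I' e w u
      ≤ ∑ u ∈ V', max 0 (lam * deg I' e w u - 1) := by
    apply Finset.sum_le_sum
    intro u hu
    calc max 0 (lam * deg I' e w u - 1) * deg I' e w u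
        ≤ max 0 (lam * deg I' e w u - 1) * 1 :=
          mul_le_mul_of_nonneg_left (hS1 u hu) (le_max_left _ _)
      _ = _ := mul_one _
  have h7 := Finset.sum_le_sum key
  rw [Finset.sum_sub_distrib, ← Finset.mul_sum, hsum2] at h7
  have h8 := mul_le_mul_of_nonneg_left hle hlam
  linarith

/-- expected excess at a vertex, proportional to its degree -/
theorem wnb_exc {r : ℕ} {δ θ : ℝ} {V : Finset α} {I : Finset ι} {e : ι → Finset α}
    {w : ι → ℝ} (hs : NibSys r δ V I e w) (hr : 2 ≤ r) (hθ : 0 ≤ θ) (hθ1 : θ ≤ 1 / 2)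
    (hδ : 0 ≤ δ) {u : α} (hu : u ∈ V) :
    nE θ V I e w (fun S R => if u ∈ surv V e S R then
        max 0 (((1 - θ) ^ (r - 1))⁻¹ * deg (inside I e (surv V e S R)) e w u - 1) else 0)
      ≤ Real.sqrt (Real.exp (4 * r ^ 2 * δ) - 1 + (((1 - θ) ^ (r - 1))⁻¹) ^ 2 * r * δ) *
        (((1 - θ) ^ (r - 1))⁻¹ * deg I e w u) := by
  have hq0 : 0 < 1 - θ := by linarith
  set lam : ℝ := ((1 - θ) ^ (r - 1))⁻¹ with hlam
  set s : ℝ := Real.sqrt (Real.exp (4 * r ^ 2 * δ) - 1 + lam ^ 2 * r * δ) with hsdef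
  have hs0 : 0 ≤ s := Real.sqrt_nonneg _
  have hlam0 : 0 < lam := by positivity
  have hd0 : 0 ≤ deg I e w u := by
    unfold deg
    exact Finset.sum_nonneg fun i hi => hs.nonneg i (Finset.mem_filter.1 hi).1
  rcases le_or_gt (lam * deg I e w u) 1 with h1 | h1
  · have h2 : nE θ V I e w (fun S R => if u ∈ surv V e S R then
        max 0 (lam * deg (inside I e (surv V e S R)) e w u - 1) else 0) ≤
        nE θ V I e w (fun _ _ => (0 : ℝ) * 1) := by
      apply nE_mono hs (by omega) hθ hθ1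
      intro S _ R _
      split_ifs with h
      · rw [zero_mul]
        refine max_le le_rfl ?_
        have h3 := mul_le_mul_of_nonneg_left (nwf_deg_inside_le hs (surv V e S R) u) hlam0.le
        linarith
      · simp
    rw [nE_smul θ V I e w 0 (fun _ _ => (1 : ℝ)), zero_mul] at h2
    exact h2.trans (by positivity)
  · have h2 := nE_excess hs hr hθ hθ1 hδ hu
    rw [← hlam, ← hsdef] at h2
    refine h2.trans ?_
    have h3 : s * 1 ≤ s * (lam * deg I e w u) := mul_le_mul_of_nonneg_left h1.le hs0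
    nlinarith

/-- one step of the nibble, multiplicative form -/
theorem wnb_step {r : ℕ} {δ θ K : ℝ} {V : Finset α} {I : Finset ι} {e : ι → Finset α}
    {w : ι → ℝ} (hs : NibSys r δ V I e w) (hr : 2 ≤ r) (hθ : 0 ≤ θ) (hθ1 : θ ≤ 1 / 2)
    (hδ : 0 ≤ δ) (hK : 0 ≤ K) :
    ∃ (V' : Finset α) (M I' : Finset ι) (w' : ι → ℝ), V' ⊆ V ∧ M ⊆ I ∧ I' ⊆ I ∧
      (∀ i ∈ M, ∀ j ∈ M, i ≠ j → Disjoint (e i) (e j)) ∧
      (∀ i ∈ M, Disjoint (e i) V') ∧
      NibSys r (((1 - θ) ^ (r - 1))⁻¹ * δ) V' I' e w' ∧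
      (θ * (1 - r * θ) + K * ((1 - θ) - r * (((1 - θ) ^ (r - 1))⁻¹) ^ 2 * Real.sqrt
            (Real.exp (4 * r ^ 2 * δ) - 1 + (((1 - θ) ^ (r - 1))⁻¹) ^ 2 * r * δ))) *
          ∑ i ∈ I, w i ≤ (M.card : ℝ) + K * ∑ i ∈ I', w' i := by
  have hr1 : 1 ≤ r := by omega
  set lam : ℝ := ((1 - θ) ^ (r - 1))⁻¹ with hlam
  set s : ℝ := Real.sqrt (Real.exp (4 * r ^ 2 * δ) - 1 + lam ^ 2 * r * δ) with hsdef
  have hs0 : 0 ≤ s := Real.sqrt_nonneg _
  have hq0 : 0 < 1 - θ := by linarith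
  have hlam1 : 1 ≤ lam := by
    rw [hlam]
    exact (one_le_inv₀ (by positivity)).2 (pow_le_one₀ hq0.le (by linarith))
  have hlam0 : 0 ≤ lam := by linarith
  have hsub : ∀ S R, surv V e S R ⊆ V := fun S R => Finset.filter_subset _ _
  have hsum : ∀ S R (g : α → ℝ), ∑ u ∈ V, (if u ∈ surv V e S R then g u else 0) =
      ∑ u ∈ surv V e S R, g u := by
    intro S R g
    rw [Finset.sum_ite_mem, Finset.inter_eq_right.2 (hsub S R)]
  set W : ℝ := ∑ i ∈ I, w i with hW
  -- expectations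
  have hin : (1 - θ) * W ≤ lam * nE θ V I e w (fun S R => ∑ i ∈ I, w i *
      (if e i ⊆ surv V e S R then (1 : ℝ) else 0)) := by
    rw [nE_sum θ V I e w I (fun i S R => w i * (if e i ⊆ surv V e S R then (1 : ℝ) else 0))]
    have h1 : (1 - θ) ^ r * W ≤ ∑ i ∈ I,
        nE θ V I e w (fun S R => w i * (if e i ⊆ surv V e S R then (1 : ℝ) else 0)) := by
      rw [hW, Finset.mul_sum]
      apply Finset.sum_le_sum
      intro i hi
      rw [nE_smul, mul_comm]
      apply mul_le_mul_of_nonneg_left _ (hs.nonneg i hi)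
      have h2 := nE_surv_ge hs hr1 hθ hθ1 (hs.sub i hi)
      rwa [hs.card i hi] at h2
    have h3 : lam * ((1 - θ) ^ r * W) = (1 - θ) * W := by
      rw [← mul_assoc]
      congr 1
      rw [hlam]
      obtain ⟨k, rfl⟩ : ∃ k, r = k + 1 := ⟨r - 1, by omega⟩
      rw [Nat.add_sub_cancel, pow_succ]
      field_simp
    rw [← h3]
    exact mul_le_mul_of_nonneg_left h1 hlam0
  have hex : ∑ u ∈ V, nE θ V I e w (fun S R => if u ∈ surv V e S R then
        max 0 (lam * deg (inside I e (surv V e S R)) e w u - 1) else 0) ≤ s * lam * (r * W) := by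
    have h1 : ∑ u ∈ V, nE θ V I e w (fun S R => if u ∈ surv V e S R then
        max 0 (lam * deg (inside I e (surv V e S R)) e w u - 1) else 0) ≤
        ∑ u ∈ V, s * lam * deg I e w u := by
      refine Finset.sum_le_sum fun u hu => ?_
      have h2 := wnb_exc hs hr hθ hθ1 hδ hu
      rw [← hlam, ← hsdef] at h2
      rw [mul_assoc]
      exact h2
    rw [← Finset.mul_sum, wnb_sum_deg hs] at h1
    exact h1
  have hE : nE θ V I e w (fun S R =>
      (-1) * ((isol e S).card : ℝ) +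
      ((-(K * lam)) * (∑ i ∈ I, w i * (if e i ⊆ surv V e S R then (1 : ℝ) else 0)) +
      (K * lam) * ∑ u ∈ V, (if u ∈ surv V e S R then
        max 0 (lam * deg (inside I e (surv V e S R)) e w u - 1) else 0))) ≤
      -((θ * (1 - r * θ) + K * ((1 - θ) - r * lam ^ 2 * s)) * W) := by
    rw [nE_add, nE_add, nE_smul, nE_smul, nE_smul,
      nE_sum θ V I e w V (fun u S R => if u ∈ surv V e S R then
        max 0 (lam * deg (inside I e (surv V e S R)) e w u - 1) else 0)]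
    have h1 := wnb_isol hs hr1 hθ hθ1
    have h2 := mul_le_mul_of_nonneg_left hin hK
    have h3 := mul_le_mul_of_nonneg_left hex (mul_nonneg hK hlam0)
    rw [← hW] at h1
    have h4 : K * lam * (s * lam * (r * W)) = K * (r * lam ^ 2 * s) * W := by ring
    rw [h4] at h3
    have h5 : (θ * (1 - r * θ) + K * ((1 - θ) - r * lam ^ 2 * s)) * W =
        θ * (1 - r * θ) * W + (K * ((1 - θ) * W) - K * (r * lam ^ 2 * s) * W) := by ring
    rw [h5]
    linarith
  obtain ⟨S, hS, R, hR, hf⟩ := exists_le_nE hs hr1 hθ hθ1 _ _ hE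
  have hfacts := nw_facts hs hr1 hlam1 (surv V e S R) (hsub S R)
  refine ⟨surv V e S R, isol e S, inside I e (surv V e S R),
    nw lam (inside I e (surv V e S R)) e w, hsub S R,
    (Finset.filter_subset _ _).trans hS, Finset.filter_subset _ _, ?_, ?_, hfacts.1, ?_⟩
  · intro i hi j hj hij
    have h1 := (Finset.mem_filter.1 hi).2
    exact h1 j (Finset.mem_filter.1 hj).1 hij.symm
  · intro i hi
    have h1 := (Finset.mem_filter.1 hi).1
    rw [Finset.disjoint_left]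
    intro v hv hv'
    exact (Finset.mem_filter.1 hv').2.2 i h1 hv
  · have h1 := wnb_weight hs hlam0 (surv V e S R) (hsub S R)
    have h2 := hsum S R (fun u => max 0 (lam * deg (inside I e (surv V e S R)) e w u - 1))
    have h3 : ∑ i ∈ I, w i * (if e i ⊆ surv V e S R then (1 : ℝ) else 0) =
        ∑ i ∈ inside I e (surv V e S R), w i := by
      unfold inside
      rw [Finset.sum_filter]
      refine Finset.sum_congr rfl fun i _ => ?_
      split_ifs <;> simp
    rw [h2, h3] at hf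
    have h4 := mul_le_mul_of_nonneg_left h1 hK
    linarith

private theorem wnb_iter {r : ℕ} (hr : 2 ≤ r) {θ : ℝ} (hθ : 0 < θ) (hθ1 : θ ≤ 1 / 2)
    (Δ b : ℝ) (hb0 : 0 ≤ b) (hb : b + r * (((1 - θ) ^ (r - 1))⁻¹) ^ 2 * Real.sqrt
        (Real.exp (4 * r ^ 2 * Δ) - 1 + (((1 - θ) ^ (r - 1))⁻¹) ^ 2 * r * Δ) ≤
        θ * (1 - r * θ)) (T : ℕ) :
    ∀ (δ : ℝ), 0 ≤ δ → ∀ (V : Finset α) (I : Finset ι) (e : ι → Finset α)
      (w : ι → ℝ), NibSys r δ V I e w → ((1 - θ) ^ (r - 1))⁻¹ ^ T * δ ≤ Δ →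
    ∃ M ⊆ I, (∀ i ∈ M, ∀ j ∈ M, i ≠ j → Disjoint (e i) (e j)) ∧
      b / θ * (1 - (1 - θ) ^ T) * ∑ i ∈ I, w i ≤ M.card := by
  have hq0 : 0 < 1 - θ := by linarith
  have hq1 : 1 - θ ≤ 1 := by linarith
  have hlam : 1 ≤ ((1 - θ) ^ (r - 1))⁻¹ := by
    rw [one_le_inv₀ (by positivity)]
    exact pow_le_one₀ hq0.le hq1
  have hr0 : (0 : ℝ) ≤ r := by positivity
  induction T with
  | zero =>
    intro δ _ V I e w hs _
    refine ⟨∅, empty_subset _, by simp, ?_⟩
    simp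
  | succ T ih =>
    intro δ hδ V I e w hs hΔ
    have hpT : (1 - θ) ^ T ≤ 1 := pow_le_one₀ hq0.le hq1
    have hpT0 : 0 < (1 - θ) ^ T := by positivity
    have hbθ : b ≤ θ := by
      have h1 : 0 ≤ r * (((1 - θ) ^ (r - 1))⁻¹) ^ 2 * Real.sqrt
        (Real.exp (4 * r ^ 2 * Δ) - 1 + (((1 - θ) ^ (r - 1))⁻¹) ^ 2 * r * Δ) := by positivity
      have h2 : 0 ≤ θ * (r * θ) := by positivity
      nlinarith
    have hK : 0 ≤ b / θ * (1 - (1 - θ) ^ T) := mul_nonneg (by positivity) (by linarith)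
    have hK1 : b / θ * (1 - (1 - θ) ^ T) ≤ 1 := by
      have h1 : b / θ ≤ 1 := by rw [div_le_one hθ]; exact hbθ
      have h2 : 1 - (1 - θ) ^ T ≤ 1 := by linarith
      have h3 : 0 ≤ 1 - (1 - θ) ^ T := by linarith
      calc b / θ * (1 - (1 - θ) ^ T) ≤ 1 * 1 := mul_le_mul h1 h2 h3 (by norm_num)
        _ = 1 := by norm_num
    obtain ⟨V', M, I', w', hV', hM, hI', hMd, hMV, hs', hle⟩ := wnb_step hs hr hθ.le hθ1 hδ hK
    have hδΔ : δ ≤ Δ := by
      refine le_trans ?_ hΔ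
      have := one_le_pow₀ (n := T + 1) hlam
      nlinarith
    obtain ⟨M₂, hM₂, hM₂d, hM₂le⟩ := ih (((1 - θ) ^ (r - 1))⁻¹ * δ) (by positivity) V' I' e w' hs'
      (by rw [← mul_assoc, ← pow_succ]; exact hΔ)
    have hcross : ∀ i ∈ M, ∀ j ∈ M₂, Disjoint (e i) (e j) := fun i hi j hj =>
      disjoint_of_subset_right (hs'.sub j (hM₂ hj)) (hMV i hi)
    have hdis : Disjoint M M₂ := by
      rw [disjoint_left]
      intro i hi hi2
      have h1 := hcross i hi i hi2
      rw [disjoint_self_iff_empty] at h1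
      have h2 := hs.card i (hM hi)
      rw [h1, card_empty] at h2
      omega
    refine ⟨M ∪ M₂, union_subset hM (hM₂.trans hI'), ?_, ?_⟩
    · intro i hi j hj hij
      rcases mem_union.1 hi with hi | hi <;> rcases mem_union.1 hj with hj | hj
      · exact hMd i hi j hj hij
      · exact hcross i hi j hj
      · exact (hcross j hj i hi).symm
      · exact hM₂d i hi j hj hij
    · rw [card_union_of_disjoint hdis, Nat.cast_add]
      have hs1 : Real.sqrt
            (Real.exp (4 * r ^ 2 * δ) - 1 + (((1 - θ) ^ (r - 1))⁻¹) ^ 2 * r * δ) ≤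
          Real.sqrt
            (Real.exp (4 * r ^ 2 * Δ) - 1 + (((1 - θ) ^ (r - 1))⁻¹) ^ 2 * r * Δ) := by
        apply Real.sqrt_le_sqrt
        have e1 : Real.exp (4 * r ^ 2 * δ) ≤ Real.exp (4 * r ^ 2 * Δ) := by
          apply Real.exp_le_exp.2
          exact mul_le_mul_of_nonneg_left hδΔ (by positivity)
        have e2 : (((1 - θ) ^ (r - 1))⁻¹) ^ 2 * r * δ ≤ (((1 - θ) ^ (r - 1))⁻¹) ^ 2 * r * Δ :=
          mul_le_mul_of_nonneg_left hδΔ (by positivity)
        linarith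
      have hW0 : 0 ≤ ∑ i ∈ I, w i := Finset.sum_nonneg fun i hi => hs.nonneg i hi
      obtain ⟨L, hL⟩ : ∃ L : ℝ, L = r * (((1 - θ) ^ (r - 1))⁻¹) ^ 2 := ⟨_, rfl⟩
      have hL0 : 0 ≤ L := by rw [hL]; positivity
      rw [← hL] at hb hle
      obtain ⟨K, hKdef⟩ : ∃ K : ℝ, K = b / θ * (1 - (1 - θ) ^ T) := ⟨_, rfl⟩
      rw [← hKdef] at hle hK hK1 hM₂le
      obtain ⟨s₁, hs₁⟩ : ∃ s₁ : ℝ, s₁ = Real.sqrt
            (Real.exp (4 * r ^ 2 * δ) - 1 + (((1 - θ) ^ (r - 1))⁻¹) ^ 2 * r * δ) := ⟨_, rfl⟩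
      obtain ⟨s₂, hs₂⟩ : ∃ s₂ : ℝ, s₂ = Real.sqrt
            (Real.exp (4 * r ^ 2 * Δ) - 1 + (((1 - θ) ^ (r - 1))⁻¹) ^ 2 * r * Δ) := ⟨_, rfl⟩
      rw [← hs₁] at hs1 hle
      rw [← hs₂] at hs1 hb
      have hs20 : 0 ≤ s₂ := by rw [hs₂]; exact Real.sqrt_nonneg _
      have hcoef : b / θ * (1 - (1 - θ) ^ (T + 1)) ≤
          θ * (1 - r * θ) + K * ((1 - θ) - L * s₁) := by
        have e1 : b / θ * (1 - (1 - θ) ^ (T + 1)) = b + (1 - θ) * K := by
          rw [hKdef, pow_succ]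
          field_simp
          ring
        have e2 : K * (L * s₁) ≤ 1 * (L * s₂) :=
          mul_le_mul hK1 (mul_le_mul_of_nonneg_left hs1 hL0)
            (mul_nonneg hL0 (by rw [hs₁]; exact Real.sqrt_nonneg _)) (by norm_num)
        rw [e1]
        have e3 : K * ((1 - θ) - L * s₁) = (1 - θ) * K - K * (L * s₁) := by ring
        rw [e3]
        linarith
      have h5 := mul_le_mul_of_nonneg_right hcoef hW0
      linarith

end

/-- Fractional matchings with small pair degrees can be rounded with a multiplicative loss. -/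
theorem nib_mult (k : ℕ) (hk : 2 ≤ k) (ε : ℝ) (hε : 0 < ε) : ∃ δ : ℝ, 0 < δ ∧
    ∀ (α ι : Type) [DecidableEq α] [DecidableEq ι] (V : Finset α) (I : Finset ι)
      (e : ι → Finset α) (w : ι → ℝ), NibSys k δ V I e w →
      ∃ M ⊆ I, (∀ i ∈ M, ∀ j ∈ M, i ≠ j → Disjoint (e i) (e j)) ∧
        (1 - ε) * ∑ i ∈ I, w i ≤ M.card := by
  rcases le_or_gt 1 ε with h1 | h1
  · refine ⟨1, one_pos, fun α ι _ _ V I e w hs => ⟨∅, empty_subset _, by simp, ?_⟩⟩
    have hW0 : 0 ≤ ∑ i ∈ I, w i := Finset.sum_nonneg fun i hi => hs.nonneg i hi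
    rw [card_empty, Nat.cast_zero]
    exact mul_nonpos_of_nonpos_of_nonneg (by linarith) hW0
  have hk0 : (0 : ℝ) < k := by
    have : 0 < k := by omega
    exact_mod_cast this
  have hk2 : (2 : ℝ) ≤ k := by exact_mod_cast hk
  obtain ⟨θ, hθ⟩ : ∃ θ : ℝ, θ = ε / (4 * k) := ⟨_, rfl⟩
  have hθ0 : 0 < θ := by rw [hθ]; positivity
  have hkθ : k * θ = ε / 4 := by rw [hθ]; field_simp
  have hθ1 : θ ≤ 1 / 2 := by
    have : 2 * θ ≤ k * θ := mul_le_mul_of_nonneg_right hk2 hθ0.le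
    linarith
  have hq0 : 0 < 1 - θ := by linarith
  obtain ⟨T, hT⟩ : ∃ T : ℕ, (1 - θ) ^ T < ε / 4 :=
    exists_pow_lt_of_lt_one (by positivity) (by linarith)
  obtain ⟨Δ, hΔ0, hΔ⟩ : ∃ Δ : ℝ, 0 < Δ ∧ k * (((1 - θ) ^ (k - 1))⁻¹) ^ 2 * Real.sqrt
        (Real.exp (4 * k ^ 2 * Δ) - 1 + (((1 - θ) ^ (k - 1))⁻¹) ^ 2 * k * Δ) < θ * ε / 4 := by
    have hcont : Continuous (fun Δ : ℝ => k * (((1 - θ) ^ (k - 1))⁻¹) ^ 2 * Real.sqrt
        (Real.exp (4 * k ^ 2 * Δ) - 1 + (((1 - θ) ^ (k - 1))⁻¹) ^ 2 * k * Δ)) := by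
      fun_prop
    have hlim := hcont.tendsto 0
    simp only [mul_zero, Real.exp_zero, sub_self, add_zero, Real.sqrt_zero] at hlim
    have h2 := (hlim.mono_left nhdsWithin_le_nhds : Filter.Tendsto _ (nhdsWithin (0:ℝ) (Set.Ioi 0)) _)
    have h3 := h2.eventually (gt_mem_nhds (show (0 : ℝ) < θ * ε / 4 by positivity))
    obtain ⟨Δ, h4, h5⟩ := (h3.and self_mem_nhdsWithin).exists
    exact ⟨Δ, h5, h4⟩
  have hlam0 : 0 < ((1 - θ) ^ (k - 1))⁻¹ ^ T := by positivity
  refine ⟨Δ / ((1 - θ) ^ (k - 1))⁻¹ ^ T, by positivity, fun α ι _ _ V I e w hs => ?_⟩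
  obtain ⟨b, hbdef⟩ : ∃ b : ℝ, b = θ * (1 - ε / 2) := ⟨_, rfl⟩
  have hb0 : 0 ≤ b := by
    rw [hbdef]
    exact mul_nonneg hθ0.le (by linarith)
  have hb : b + k * (((1 - θ) ^ (k - 1))⁻¹) ^ 2 * Real.sqrt
        (Real.exp (4 * k ^ 2 * Δ) - 1 + (((1 - θ) ^ (k - 1))⁻¹) ^ 2 * k * Δ) ≤
        θ * (1 - k * θ) := by
    rw [hkθ, hbdef]
    have e1 : θ * (1 - ε / 4) = θ * (1 - ε / 2) + θ * ε / 4 := by ring
    rw [e1]
    linarith
  obtain ⟨M, hM, hMd, hMc⟩ := wnb_iter hk hθ0 hθ1 Δ b hb0 hb T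
    (Δ / ((1 - θ) ^ (k - 1))⁻¹ ^ T) (by positivity) V I e w hs
    (by rw [mul_div_cancel₀ _ hlam0.ne'])
  refine ⟨M, hM, hMd, le_trans ?_ hMc⟩
  have hW0 : 0 ≤ ∑ i ∈ I, w i := Finset.sum_nonneg fun i hi => hs.nonneg i hi
  refine mul_le_mul_of_nonneg_right ?_ hW0
  have e2 : b / θ = 1 - ε / 2 := by rw [hbdef]; field_simp
  rw [e2]
  have h6 : (1 - ε / 2) * (1 - ε / 4) ≤ (1 - ε / 2) * (1 - (1 - θ) ^ T) :=
    mul_le_mul_of_nonneg_left (by linarith) (by linarith)
  nlinarith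

end ES
end

section

/-!
# Erdős–Sauer: spread fractional packings by sampling vertices
-/

set_option autoImplicit false

open Finset

namespace ES

/-- a copy in the edges inside `S` lies inside `S` -/
theorem copy_subset {n p r : ℕ} (hr : 1 ≤ r) (hrp : r < p) (H : Finset (Finset (Fin n)))
    (S Q : Finset (Fin n)) (hQ : Q ∈ copies p r (H.filter (fun e => e ⊆ S))) : Q ⊆ S := by
  rw [mem_copies] at hQ
  intro x hx
  obtain ⟨e, hxe, heQ, hec⟩ := exists_subsuperset_card_eq (n := r) (singleton_subset_iff.2 hx)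
    (by rw [card_singleton]; exact hr) (by rw [hQ.1]; exact hrp.le)
  have h1 : e ∈ Q.powersetCard r := mem_powersetCard.2 ⟨heQ, hec⟩
  exact (mem_filter.1 (hQ.2 h1)).2 (singleton_subset_iff.1 hxe)

/-- **Sampling.**  A fractional packing of `H` with pair degrees at most `m / n`.

Proof.  Let `D = C(n-r, m-r) > 0`.  For an `m`-set `S` let `H_S = {e ∈ H : e ⊆ S}`; `frac_cover` for `H_S` with
`A = α(m,p,r)` (`card_le_al_of_subset`) gives `y^S`.  Put
`Y Q = D⁻¹ ∑_{S, |S| = m, Q ∈ copies p r H_S} y^S Q`.  For `e ∈ H`: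
`∑_{Q ∋ e} Y Q = D⁻¹ ∑_S ∑_{Q ∈ copies H_S, e ∈ Q} y^S Q`; the inner sum is empty if `e ⊄ S` (`copy_subset`, or:
`e ∈ Q.powersetCard r ⊆ H_S`) and at most `1` otherwise, and there are `D` sets `S ⊇ e` (`card_sup_eq`).
For `e ≠ e'`: in the same way at most `D⁻¹ #{S ⊇ e ∪ e'}`; `u = |e ∪ e'| ≥ r + 1`; the number of these `S` is
`C(n-u, m-u) ≤ C(n-r-1, m-r-1)` if `m ≥ u` (choose an `(r+1)`-subset of `e ∪ e'`) and `0` if `m < u`, and
`C(n-r-1, m-r-1) / C(n-r, m-r) = (m-r)/(n-r) ≤ m/n` (if `m = r` there is no such `S`).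
Total: `(C(p,r) - 1 - kap r) ∑_Q Y Q = D⁻¹ ∑_S (C(p,r) - 1 - kap r) ∑_{Q ∈ copies H_S} y^S Q
≥ D⁻¹ ∑_S (|H_S| - α(m,p,r)) = |H| - α(m,p,r) C(n,m)/D`, because every `e ∈ H` is in `D` of the `H_S`, and
`C(n,m) C(m,r) = C(n,r) D` (`Nat.choose_mul`).  (All copies of `H_S` are copies of `H`, `copies_mono`.) -/
theorem sample {n m p r : ℕ} (hr : 3 ≤ r) (hrp : r < p) (hrm : r ≤ m) (hmn : m ≤ n)
    (H : Finset (Finset (Fin n))) (hH : ∀ e ∈ H, e.card = r) :
    ∃ Y : Finset (Fin n) → ℝ, (∀ Q, 0 ≤ Y Q) ∧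
      (∀ e ∈ H, ∑ Q ∈ (copies p r H).filter (fun Q => e ∈ Q.powersetCard r), Y Q ≤ 1) ∧
      (∀ e ∈ H, ∀ e' ∈ H, e ≠ e' →
        ∑ Q ∈ (copies p r H).filter (fun Q => e ∈ Q.powersetCard r ∧ e' ∈ Q.powersetCard r), Y Q
          ≤ (m : ℝ) / n) ∧
      (H.card : ℝ) - (al m p r : ℝ) * (n.choose r : ℝ) / (m.choose r : ℝ) ≤
        ((p.choose r : ℝ) - 1 - kap r) * ∑ Q ∈ copies p r H, Y Q := by
  classical
  set D : ℝ := ((n - r).choose (m - r) : ℝ) with hD
  have hDpos : 0 < D := by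
    rw [hD]
    exact_mod_cast Nat.choose_pos (by omega)
  set HS : Finset (Fin n) → Finset (Finset (Fin n)) := fun S => H.filter (fun e => e ⊆ S) with hHS
  set 𝒮 : Finset (Finset (Fin n)) := univ.powersetCard m with h𝒮
  have hex : ∀ S : Finset (Fin n), ∃ y : Finset (Fin n) → ℝ, S.card = m → (∀ Q, 0 ≤ y Q) ∧
      (∀ e ∈ HS S, ∑ Q ∈ (copies p r (HS S)).filter (fun Q => e ∈ Q.powersetCard r), y Q ≤ 1) ∧
      ((HS S).card : ℝ) - (al m p r : ℝ) ≤
        ((p.choose r : ℝ) - 1 - kap r) * ∑ Q ∈ copies p r (HS S), y Q := by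
    intro S
    by_cases hS : S.card = m
    · obtain ⟨y, hy⟩ := frac_cover hr hrp (HS S) (fun e he => hH e (mem_filter.1 he).1)
        (al m p r : ℝ) (fun G hG hfree => by
          exact_mod_cast card_le_al_of_subset S hS G hfree
            (fun e he => (mem_filter.1 (hG he)).2))
      exact ⟨y, fun _ => hy⟩
    · exact ⟨fun _ => 0, fun h => absurd h hS⟩
  choose y hy using hex
  have h𝒮c : ∀ S ∈ 𝒮, S.card = m := fun S hS => (mem_powersetCard.1 hS).2
  have hsubHS : ∀ S, HS S ⊆ H := fun S => filter_subset _ _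
  set Y : Finset (Fin n) → ℝ := fun Q =>
    D⁻¹ * ∑ S ∈ 𝒮, if Q ∈ copies p r (HS S) then y S Q else 0 with hY
  -- exchange of the sums
  have hexch : ∀ (P : Finset (Fin n) → Prop) [DecidablePred P], ∑ Q ∈ (copies p r H).filter P, Y Q =
      D⁻¹ * ∑ S ∈ 𝒮, ∑ Q ∈ (copies p r (HS S)).filter P, y S Q := by
    intro P _
    rw [hY, ← mul_sum, sum_comm]
    congr 1
    refine sum_congr rfl fun S _ => ?_
    rw [← sum_filter]
    refine sum_congr ?_ fun _ _ => rfl
    ext Q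
    simp only [mem_filter]
    constructor
    · rintro ⟨⟨_, h2⟩, h3⟩
      exact ⟨h3, h2⟩
    · rintro ⟨h1, h2⟩
      exact ⟨⟨copies_mono (hsubHS S) h1, h2⟩, h1⟩
  have hYnn : ∀ Q, 0 ≤ Y Q := by
    intro Q
    refine mul_nonneg (inv_nonneg.2 hDpos.le) (sum_nonneg fun S hS => ?_)
    split_ifs
    · exact (hy S (h𝒮c S hS)).1 Q
    · exact le_rfl
  -- number of sets containing an edge
  have hcnt : ∀ e ∈ H, ((𝒮.filter (fun S => e ⊆ S)).card : ℝ) = D := by
    intro e he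
    rw [h𝒮, card_sup_eq e (by rw [hH e he]; exact hrm), hH e he]
  have hmem : ∀ S Q e, Q ∈ copies p r (HS S) → e ∈ Q.powersetCard r → e ∈ HS S :=
    fun S Q e hQ he => (mem_copies.1 hQ).2 he
  refine ⟨Y, hYnn, ?_, ?_, ?_⟩
  · intro e he
    rw [hexch]
    have h1 : ∑ S ∈ 𝒮, ∑ Q ∈ (copies p r (HS S)).filter (fun Q => e ∈ Q.powersetCard r), y S Q
        ≤ ∑ S ∈ 𝒮, (if e ⊆ S then (1 : ℝ) else 0) := by
      refine sum_le_sum fun S hS => ?_
      split_ifs with h
      · exact (hy S (h𝒮c S hS)).2.1 e (mem_filter.2 ⟨he, h⟩)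
      · rw [sum_eq_zero]
        intro Q hQ
        exfalso
        exact h (mem_filter.1 (hmem S Q e (mem_filter.1 hQ).1 (mem_filter.1 hQ).2)).2
    have h2 : ∑ S ∈ 𝒮, (if e ⊆ S then (1 : ℝ) else 0) = D := by
      rw [← sum_filter, sum_const, nsmul_eq_mul, mul_one]
      exact hcnt e he
    calc D⁻¹ * ∑ S ∈ 𝒮, ∑ Q ∈ (copies p r (HS S)).filter (fun Q => e ∈ Q.powersetCard r), y S Q
        ≤ D⁻¹ * D := by
          refine mul_le_mul_of_nonneg_left (h1.trans h2.le) (inv_nonneg.2 hDpos.le)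
      _ = 1 := inv_mul_cancel₀ hDpos.ne'
  · intro e he e' he' hne
    rw [hexch]
    obtain ⟨T, hTsub, hTc⟩ : ∃ T ⊆ e ∪ e', T.card = r + 1 := by
      apply exists_subset_card_eq
      have h1 : e ⊂ e ∪ e' := by
        refine Finset.ssubset_iff_subset_ne.2 ⟨subset_union_left, fun h => hne ?_⟩
        have h2 : e' ⊆ e := by
          intro x hx
          rw [h]
          exact mem_union_right _ hx
        exact (eq_of_subset_of_card_le h2 (by rw [hH e he, hH e' he'])).symm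
      have h3 := card_lt_card h1
      rw [hH e he] at h3
      omega
    have h1 : ∑ S ∈ 𝒮, ∑ Q ∈ (copies p r (HS S)).filter
        (fun Q => e ∈ Q.powersetCard r ∧ e' ∈ Q.powersetCard r), y S Q
        ≤ ∑ S ∈ 𝒮, (if T ⊆ S then (1 : ℝ) else 0) := by
      refine sum_le_sum fun S hS => ?_
      split_ifs with h
      · by_cases heS : e ⊆ S
        · refine le_trans (sum_le_sum_of_subset_of_nonneg ?_ fun Q _ _ =>
            (hy S (h𝒮c S hS)).1 Q) ((hy S (h𝒮c S hS)).2.1 e (mem_filter.2 ⟨he, heS⟩))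
          intro Q hQ
          rw [mem_filter] at hQ ⊢
          exact ⟨hQ.1, hQ.2.1⟩
        · rw [sum_eq_zero]
          · norm_num
          intro Q hQ
          exfalso
          rw [mem_filter] at hQ
          exact heS (mem_filter.1 (hmem S Q e hQ.1 hQ.2.1)).2
      · rw [sum_eq_zero]
        intro Q hQ
        exfalso
        rw [mem_filter] at hQ
        refine h (hTsub.trans (union_subset ?_ ?_))
        · exact (mem_filter.1 (hmem S Q e hQ.1 hQ.2.1)).2
        · exact (mem_filter.1 (hmem S Q e' hQ.1 hQ.2.2)).2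
    have h2 : ∑ S ∈ 𝒮, (if T ⊆ S then (1 : ℝ) else 0) ≤ D * ((m : ℝ) / n) := by
      rw [← sum_filter, sum_const, nsmul_eq_mul, mul_one]
      rcases Nat.lt_or_ge r m with hlt | hge
      · rw [h𝒮, card_sup_eq T (by omega), hTc]
        obtain ⟨N, hN⟩ : ∃ N, n = N + r + 1 := ⟨n - r - 1, by omega⟩
        obtain ⟨K, hK⟩ : ∃ K, m = K + r + 1 := ⟨m - r - 1, by omega⟩
        have e1 : n - (r + 1) = N := by omega
        have e2 : m - (r + 1) = K := by omega
        have e3 : n - r = N + 1 := by omega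
        have e4 : m - r = K + 1 := by omega
        rw [hD, e1, e2, e3, e4]
        have h5 := Nat.add_one_mul_choose_eq N K
        have h6 : ((N : ℝ) + 1) * (N.choose K : ℝ) = ((N + 1).choose (K + 1) : ℝ) * ((K : ℝ) + 1) := by
          exact_mod_cast h5
        have hKN : (K : ℝ) ≤ N := by
          have : K ≤ N := by omega
          exact_mod_cast this
        have hn : (n : ℝ) = N + r + 1 := by rw [hN]; push_cast; ring
        have hm : (m : ℝ) = K + r + 1 := by rw [hK]; push_cast; ring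
        have hn0 : (0 : ℝ) < n := by
          rw [hn]
          positivity
        rw [← mul_div_assoc, le_div_iff₀ hn0, hn, hm]
        have hc0 : (0 : ℝ) ≤ ((N + 1).choose (K + 1) : ℝ) := Nat.cast_nonneg _
        have hN1 : (0 : ℝ) < (N : ℝ) + 1 := by positivity
        have h7 : (N.choose K : ℝ) = ((N + 1).choose (K + 1) : ℝ) * ((K : ℝ) + 1) / ((N : ℝ) + 1) := by
          rw [eq_div_iff hN1.ne']
          linarith
        rw [h7, div_mul_eq_mul_div, div_le_iff₀ hN1]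
        have hr0 : (0 : ℝ) ≤ r := Nat.cast_nonneg _
        have h8 : ((K : ℝ) + 1) * (N + r + 1) ≤ (K + r + 1) * (N + 1) := by
          nlinarith [mul_nonneg hr0 (sub_nonneg.2 hKN)]
        calc ((N + 1).choose (K + 1) : ℝ) * ((K : ℝ) + 1) * (N + r + 1)
            = ((N + 1).choose (K + 1) : ℝ) * (((K : ℝ) + 1) * (N + r + 1)) := by ring
          _ ≤ ((N + 1).choose (K + 1) : ℝ) * ((K + r + 1) * (N + 1)) :=
              mul_le_mul_of_nonneg_left h8 hc0
          _ = ((N + 1).choose (K + 1) : ℝ) * (K + r + 1) * (N + 1) := by ring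
      · have h3 : 𝒮.filter (fun S => T ⊆ S) = ∅ := by
          rw [filter_eq_empty_iff]
          intro S hS hTS
          have h4 := card_le_card hTS
          rw [h𝒮c S hS, hTc] at h4
          omega
        rw [h3, card_empty, Nat.cast_zero]
        positivity
    calc D⁻¹ * ∑ S ∈ 𝒮, ∑ Q ∈ (copies p r (HS S)).filter
          (fun Q => e ∈ Q.powersetCard r ∧ e' ∈ Q.powersetCard r), y S Q
        ≤ D⁻¹ * (D * ((m : ℝ) / n)) :=
          mul_le_mul_of_nonneg_left (h1.trans h2) (inv_nonneg.2 hDpos.le)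
      _ = (m : ℝ) / n := by rw [← mul_assoc, inv_mul_cancel₀ hDpos.ne', one_mul]
  · have h0 := hexch (fun _ => True)
    simp only [filter_true] at h0
    rw [h0]
    have h1 : ∑ S ∈ 𝒮, (((HS S).card : ℝ) - (al m p r : ℝ)) ≤
        ∑ S ∈ 𝒮, ((p.choose r : ℝ) - 1 - kap r) * ∑ Q ∈ copies p r (HS S), y S Q :=
      sum_le_sum fun S hS => (hy S (h𝒮c S hS)).2.2
    rw [← mul_sum] at h1
    have h2 : ∑ S ∈ 𝒮, ((HS S).card : ℝ) = (H.card : ℝ) * D := by
      have h3 : ∀ S, ((HS S).card : ℝ) = ∑ e ∈ H, (if e ⊆ S then (1 : ℝ) else 0) := by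
        intro S
        rw [← sum_filter, sum_const, nsmul_eq_mul, mul_one]
      simp only [h3]
      rw [sum_comm]
      have h4 : ∀ e ∈ H, ∑ S ∈ 𝒮, (if e ⊆ S then (1 : ℝ) else 0) = D := by
        intro e he
        rw [← sum_filter, sum_const, nsmul_eq_mul, mul_one]
        exact hcnt e he
      rw [sum_congr rfl h4, sum_const, nsmul_eq_mul]
    have h5 : (𝒮.card : ℝ) = (n.choose m : ℝ) := by
      rw [h𝒮, card_powersetCard, card_univ, Fintype.card_fin]
    rw [sum_sub_distrib, h2, sum_const, nsmul_eq_mul, h5] at h1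
    have h6 : (n.choose m : ℝ) * (m.choose r : ℝ) = (n.choose r : ℝ) * D := by
      rw [hD]
      exact_mod_cast Nat.choose_mul (n := n) (k := m) (s := r) hrm
    have hmr : (0 : ℝ) < (m.choose r : ℝ) := by
      exact_mod_cast Nat.choose_pos hrm
    have h7 : (n.choose m : ℝ) = (n.choose r : ℝ) * D / (m.choose r : ℝ) := by
      rw [eq_div_iff hmr.ne']
      exact h6
    have h8 : (H.card : ℝ) - (al m p r : ℝ) * (n.choose r : ℝ) / (m.choose r : ℝ) =
        D⁻¹ * ((H.card : ℝ) * D - (n.choose m : ℝ) * (al m p r : ℝ)) := by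
      rw [h7]
      field_simp
    rw [h8]
    calc D⁻¹ * ((H.card : ℝ) * D - (n.choose m : ℝ) * (al m p r : ℝ))
        ≤ D⁻¹ * (((p.choose r : ℝ) - 1 - kap r) * ∑ S ∈ 𝒮, ∑ Q ∈ copies p r (HS S), y S Q) :=
          mul_le_mul_of_nonneg_left h1 (inv_nonneg.2 hDpos.le)
      _ = ((p.choose r : ℝ) - 1 - kap r) * (D⁻¹ * ∑ S ∈ 𝒮, ∑ Q ∈ copies p r (HS S), y S Q) := by
          ring

end ES
end

section

/-!
# Erdős–Sauer: main theorem
-/

set_option autoImplicit false

open Finset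

namespace ES

private theorem wm_mono {k : ℕ} {δ δ' : ℝ} (hδ : δ ≤ δ') {α ι : Type} [DecidableEq α]
    [DecidableEq ι] {V : Finset α} {I : Finset ι} {e : ι → Finset α} {w : ι → ℝ}
    (h : SqCyc.NibSys k δ V I e w) : SqCyc.NibSys k δ' V I e w where
  sub := h.sub
  card := h.card
  nonneg := h.nonneg
  deg_le := h.deg_le
  pdeg_le := fun u hu v hv huv => (h.pdeg_le u hu v hv huv).trans hδ

private theorem wm_num {C κ : ℝ} (hC : 4 ≤ C) (hκ : 0 < κ) (hκ1 : κ ≤ 1 / 40) :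
    (1 + κ / (2 * C)) * (C - 1 - κ) ≤ (C - 1) * (1 - κ / (2 * C)) := by
  have h1 : κ / (2 * C) * C = κ / 2 := by field_simp
  have h2 : 0 < κ / (2 * C) := by positivity
  nlinarith

/-- the packing: large if `H` has many edges, and large if `H` has many copies -/
private theorem wm_pack (r p : ℕ) (hr : 3 ≤ r) (hrp : r < p) :
    ∃ K₁ : ℝ, 0 < K₁ ∧ ∃ N : ℕ, ∀ n : ℕ, N ≤ n → ∀ H : Finset (Finset (Fin n)),
      (∀ e ∈ H, e.card = r) →
      ∃ M ⊆ copies p r H,
        (∀ Q ∈ M, ∀ Q' ∈ M, Q ≠ Q' → Disjoint (Q.powersetCard r) (Q'.powersetCard r)) ∧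
        (1 + kap r / (2 * p.choose r)) *
            ((H.card : ℝ) - al n p r - K₁ * (n : ℝ) ^ (r - 1)) ≤
          ((p.choose r : ℝ) - 1) * M.card ∧
        ((copies p r H).card : ℝ) / (n : ℝ) ^ (p - r) ≤ ((p.choose r : ℝ) - 1) * M.card := by
  have hC4 : 4 ≤ p.choose r := by
    calc 4 ≤ r + 1 := by omega
      _ = (r + 1).choose r := (Nat.choose_succ_self_right r).symm
      _ ≤ p.choose r := Nat.choose_le_choose r hrp
  have hC4' : (4 : ℝ) ≤ (p.choose r : ℝ) := by exact_mod_cast hC4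
  obtain ⟨C, hC⟩ : ∃ C : ℝ, C = (p.choose r : ℝ) := ⟨_, rfl⟩
  rw [← hC] at hC4' ⊢
  have hκ0 : 0 < kap r := kap_pos (by omega)
  have hκ1 : kap r ≤ 1 / 40 := kap_le (by omega)
  have hε0 : 0 < kap r / (2 * C) := by positivity
  have hε1 : kap r / (2 * C) ≤ 1 / 2 := by
    rw [div_le_iff₀ (by positivity)]
    linarith
  obtain ⟨δ, hδ0, hnib⟩ := nib_mult (p.choose r) (by omega) (kap r / (2 * C)) hε0
  obtain ⟨δ₁, hδ₁⟩ : ∃ δ₁ : ℝ, δ₁ = min δ 1 := ⟨_, rfl⟩
  have hδ₁0 : 0 < δ₁ := by rw [hδ₁]; exact lt_min hδ0 one_pos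
  have hδ₁1 : δ₁ ≤ 1 := by rw [hδ₁]; exact min_le_right _ _
  have hδ₁δ : δ₁ ≤ δ := by rw [hδ₁]; exact min_le_left _ _
  obtain ⟨K₁, hK₁, htr⟩ := al_transfer p r (by omega) hrp (δ₁ / 2) (by positivity)
  refine ⟨K₁, hK₁, ⌈(2 * (r : ℝ) + 2) / δ₁⌉₊, fun n hn H hH => ?_⟩
  have hn' : (2 * (r : ℝ) + 2) / δ₁ ≤ n := (Nat.le_ceil _).trans (by exact_mod_cast hn)
  rw [div_le_iff₀ hδ₁0] at hn'
  have hr0 : (3 : ℝ) ≤ r := by exact_mod_cast hr
  have hn0 : (0 : ℝ) < n := by
    by_contra hcon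
    push Not at hcon
    nlinarith
  have hn1 : 1 ≤ n := by
    have : 0 < n := by exact_mod_cast hn0
    omega
  -- the number of sampled vertices
  obtain ⟨m, hm⟩ : ∃ m : ℕ, m = ⌊δ₁ * n⌋₊ := ⟨_, rfl⟩
  have hm1 : (m : ℝ) ≤ δ₁ * n := by rw [hm]; exact Nat.floor_le (by positivity)
  have hm2 : δ₁ * n < m + 1 := by rw [hm]; exact Nat.lt_floor_add_one _
  have hmn : m ≤ n := by
    have : (m : ℝ) ≤ n := by nlinarith
    exact_mod_cast this
  have h2r : 2 * r ≤ m := by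
    have : (2 * (r : ℝ)) < m := by nlinarith
    have h' : ((2 * r : ℕ) : ℝ) < m := by push_cast; exact this
    exact (by exact_mod_cast h' : 2 * r < m).le
  have hδm : δ₁ / 2 * n ≤ m := by nlinarith
  obtain ⟨Y, hY0, hYd, hYp, hYs⟩ := sample hr hrp (by omega : r ≤ m) hmn H hH
  have htr' := htr m n hmn h2r hδm
  have hsys1 : SqCyc.NibSys (p.choose r) δ H (copies p r H) (fun Q => Q.powersetCard r) Y := by
    refine nibSys_of H Y δ hY0 hYd fun e he e' he' hne => (hYp e he e' he' hne).trans ?_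
    rw [div_le_iff₀ hn0]
    nlinarith
  have hsys2 : SqCyc.NibSys (p.choose r) δ H (copies p r H) (fun Q => Q.powersetCard r)
      (fun _ => 1 / (n : ℝ) ^ (p - r)) := by
    refine wm_mono ?_ (uniform hrp hn1 H hH)
    rw [div_le_iff₀ hn0]
    nlinarith
  obtain ⟨M₁, hM₁, hM₁d, hM₁c⟩ := hnib _ _ H (copies p r H) _ _ hsys1
  obtain ⟨M₂, hM₂, hM₂d, hM₂c⟩ := hnib _ _ H (copies p r H) _ _ hsys2
  have hY0' : 0 ≤ ∑ Q ∈ copies p r H, Y Q := sum_nonneg fun Q _ => hY0 Q
  have hone : (1 + kap r / (2 * C)) * ((H.card : ℝ) - al n p r - K₁ * (n : ℝ) ^ (r - 1)) ≤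
      (C - 1) * M₁.card := by
    rw [← hC] at hYs
    have h1 : (H.card : ℝ) - al n p r - K₁ * (n : ℝ) ^ (r - 1) ≤
        (C - 1 - kap r) * ∑ Q ∈ copies p r H, Y Q := by linarith
    calc (1 + kap r / (2 * C)) * ((H.card : ℝ) - al n p r - K₁ * (n : ℝ) ^ (r - 1))
        ≤ (1 + kap r / (2 * C)) * ((C - 1 - kap r) * ∑ Q ∈ copies p r H, Y Q) :=
          mul_le_mul_of_nonneg_left h1 (by linarith)
      _ = ((1 + kap r / (2 * C)) * (C - 1 - kap r)) * ∑ Q ∈ copies p r H, Y Q := by ring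
      _ ≤ ((C - 1) * (1 - kap r / (2 * C))) * ∑ Q ∈ copies p r H, Y Q :=
          mul_le_mul_of_nonneg_right (wm_num hC4' hκ0 hκ1) hY0'
      _ = (C - 1) * ((1 - kap r / (2 * C)) * ∑ Q ∈ copies p r H, Y Q) := by ring
      _ ≤ (C - 1) * M₁.card := mul_le_mul_of_nonneg_left hM₁c (by linarith)
  have htwo : ((copies p r H).card : ℝ) / (n : ℝ) ^ (p - r) ≤ (C - 1) * M₂.card := by
    have h1 : ∑ _Q ∈ copies p r H, 1 / (n : ℝ) ^ (p - r) =
        ((copies p r H).card : ℝ) / (n : ℝ) ^ (p - r) := by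
      rw [sum_const, nsmul_eq_mul, mul_one_div]
    rw [h1] at hM₂c
    have h2 : 0 ≤ ((copies p r H).card : ℝ) / (n : ℝ) ^ (p - r) := by positivity
    have h3 := mul_le_mul_of_nonneg_left hM₂c (by linarith : 0 ≤ C - 1)
    have h4 : 1 ≤ (C - 1) * (1 - kap r / (2 * C)) := by nlinarith
    have h5 := mul_le_mul_of_nonneg_right h4 h2
    linarith
  rcases le_total M₁.card M₂.card with h | h
  · refine ⟨M₂, hM₂, hM₂d, hone.trans ?_, htwo⟩
    exact mul_le_mul_of_nonneg_left (by exact_mod_cast h) (by linarith)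
  · refine ⟨M₁, hM₁, hM₁d, hone, htwo.trans ?_⟩
    exact mul_le_mul_of_nonneg_left (by exact_mod_cast h) (by linarith)

/-- main theorem -/
theorem wmain (r p : ℕ) (hr : 3 ≤ r) (hrp : r < p) :
    ∃ K : ℝ, 0 < K ∧ ∀ n : ℕ, ∀ H : Finset (Finset (Fin n)), (∀ e ∈ H, e.card = r) →
      ∃ P : Finpartition H,
        (∀ B ∈ P.parts, B.card = 1 ∨ ∃ S : Finset (Fin n), S.card = p ∧ B = S.powersetCard r) ∧
        (P.parts.card : ℝ) + kap r / (4 * p.choose r) *
            max ((H.card : ℝ) - al n p r) (((copies p r H).card : ℝ) / (n : ℝ) ^ (p - r)) ≤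
          al n p r + K * (n : ℝ) ^ (r - 1) ∧
        (H.card ≤ al n p r ∨ (al n p r : ℝ) + K * (n : ℝ) ^ (r - 1) ≤ H.card ∨
          K * (n : ℝ) ^ (p - 1) ≤ (copies p r H).card → P.parts.card ≤ al n p r) := by
  have hC4 : 4 ≤ p.choose r := by
    calc 4 ≤ r + 1 := by omega
      _ = (r + 1).choose r := (Nat.choose_succ_self_right r).symm
      _ ≤ p.choose r := Nat.choose_le_choose r hrp
  have hC4' : (4 : ℝ) ≤ (p.choose r : ℝ) := by exact_mod_cast hC4
  obtain ⟨K₁, hK₁, N, hN⟩ := wm_pack r p hr hrp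
  have hκ0 : 0 < kap r := kap_pos (by omega)
  have hκ1 : kap r ≤ 1 / 40 := kap_le (by omega)
  obtain ⟨c, hc⟩ : ∃ c : ℝ, c = kap r / (2 * p.choose r) := ⟨_, rfl⟩
  have hc' : kap r / (4 * p.choose r) = c / 2 := by
    rw [hc, div_div]
    congr 1
    ring
  have hc0 : 0 < c := by rw [hc]; positivity
  have hc1 : c ≤ 1 := by
    rw [hc, div_le_iff₀ (by positivity)]
    linarith
  rw [hc']
  rw [← hc] at hN
  obtain ⟨K₂, hK₂⟩ : ∃ K₂ : ℝ, K₂ = 2 * K₁ + 2 * N + 2 := ⟨_, rfl⟩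
  have hN0 : (0 : ℝ) ≤ N := Nat.cast_nonneg _
  have hK₂0 : 0 < K₂ := by rw [hK₂]; positivity
  have hKc : K₂ ≤ K₂ / (c / 2) := by
    rw [le_div_iff₀ (by positivity)]
    nlinarith
  refine ⟨K₂ / (c / 2), by positivity, fun n H hH => ?_⟩
  have hpn : ∀ M ⊆ copies p r H,
      (∀ Q ∈ M, ∀ Q' ∈ M, Q ≠ Q' → Disjoint (Q.powersetCard r) (Q'.powersetCard r)) →
      ∃ P : Finpartition H,
        (∀ B ∈ P.parts, B.card = 1 ∨ ∃ S : Finset (Fin n), S.card = p ∧ B = S.powersetCard r) ∧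
        (P.parts.card : ℝ) + ((p.choose r : ℝ) - 1) * M.card ≤ H.card := by
    intro M hM hMd
    obtain ⟨P, hP, hPc⟩ := partition (by omega : 1 ≤ r) hrp H M hM hMd
    refine ⟨P, hP, ?_⟩
    have h1 : ((P.parts.card + (p.choose r - 1) * M.card : ℕ) : ℝ) ≤ (H.card : ℝ) := by
      exact_mod_cast hPc
    rw [Nat.cast_add, Nat.cast_mul, Nat.cast_sub (by omega), Nat.cast_one] at h1
    exact h1
  have hHn : (H.card : ℝ) ≤ (n : ℝ) ^ r := card_le_pow hH
  have hal0 : (0 : ℝ) ≤ (al n p r : ℝ) := Nat.cast_nonneg _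
  have hR0 : (0 : ℝ) ≤ (n : ℝ) ^ (r - 1) := by positivity
  have hcopn : ((copies p r H).card : ℝ) ≤ (n : ℝ) ^ p := by
    have h1 : copies p r H ⊆ univ.powersetCard p := by
      intro Q hQ
      rw [mem_powersetCard]
      exact ⟨subset_univ _, (mem_copies.1 hQ).1⟩
    have h2 := card_le_card h1
    rw [card_powersetCard, card_univ, Fintype.card_fin] at h2
    exact_mod_cast h2.trans (Nat.choose_le_pow n p)
  obtain ⟨x, hx⟩ : ∃ x : ℝ, x = (H.card : ℝ) - al n p r := ⟨_, rfl⟩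
  obtain ⟨y, hy⟩ : ∃ y : ℝ, y = ((copies p r H).card : ℝ) / (n : ℝ) ^ (p - r) := ⟨_, rfl⟩
  have hy0 : 0 ≤ y := by rw [hy]; positivity
  -- the first part implies the second
  have hsecond : ∀ P : Finpartition H,
      (P.parts.card : ℝ) ≤ H.card →
      (P.parts.card : ℝ) + c / 2 * max x y ≤ al n p r + K₂ * (n : ℝ) ^ (r - 1) →
      (H.card ≤ al n p r ∨ (al n p r : ℝ) + K₂ / (c / 2) * (n : ℝ) ^ (r - 1) ≤ H.card ∨
          K₂ / (c / 2) * (n : ℝ) ^ (p - 1) ≤ (copies p r H).card → P.parts.card ≤ al n p r) := by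
    intro P hP1 hP2 h
    have hcK : c / 2 * (K₂ / (c / 2) * (n : ℝ) ^ (r - 1)) = K₂ * (n : ℝ) ^ (r - 1) := by
      field_simp
    rcases h with h | h | h
    · have h3 : (H.card : ℝ) ≤ al n p r := by exact_mod_cast h
      exact_mod_cast hP1.trans h3
    · have h3 : c / 2 * (K₂ / (c / 2) * (n : ℝ) ^ (r - 1)) ≤ c / 2 * max x y :=
        mul_le_mul_of_nonneg_left ((by rw [hx]; linarith :
          K₂ / (c / 2) * (n : ℝ) ^ (r - 1) ≤ x).trans (le_max_left _ _)) (by positivity)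
      rw [hcK] at h3
      have h4 : (P.parts.card : ℝ) ≤ al n p r := by linarith
      exact_mod_cast h4
    · rcases Nat.eq_zero_or_pos n with h0 | h0
      · subst h0
        have h1 : (H.card : ℝ) ≤ 0 := by
          refine hHn.trans ?_
          simp only [Nat.cast_zero]
          rw [zero_pow (by omega)]
        have h2 : (P.parts.card : ℝ) ≤ 0 := hP1.trans h1
        have h3 : P.parts.card ≤ 0 := by exact_mod_cast h2
        omega
      · have hn1 : (0 : ℝ) < n := by exact_mod_cast h0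
        have hpow : (n : ℝ) ^ (p - 1) = (n : ℝ) ^ (r - 1) * (n : ℝ) ^ (p - r) := by
          rw [← pow_add]
          congr 1
          omega
        have h3 : K₂ / (c / 2) * (n : ℝ) ^ (r - 1) ≤ y := by
          rw [hy, le_div_iff₀ (by positivity), mul_assoc, ← hpow]
          exact h
        have h4 : c / 2 * (K₂ / (c / 2) * (n : ℝ) ^ (r - 1)) ≤ c / 2 * max x y :=
          mul_le_mul_of_nonneg_left (h3.trans (le_max_right _ _)) (by positivity)
        rw [hcK] at h4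
        have h5 : (P.parts.card : ℝ) ≤ al n p r := by linarith
        exact_mod_cast h5
  -- it remains to prove the first part
  have hkey : ∃ P : Finpartition H,
        (∀ B ∈ P.parts, B.card = 1 ∨ ∃ S : Finset (Fin n), S.card = p ∧ B = S.powersetCard r) ∧
        (P.parts.card : ℝ) ≤ H.card ∧
        (P.parts.card : ℝ) + c / 2 * max x y ≤ al n p r + K₂ * (n : ℝ) ^ (r - 1) := by
    rcases Nat.lt_or_ge n N with hnN | hnN
    · -- few vertices
      obtain ⟨P, hP, hPc⟩ := hpn ∅ (empty_subset _) (by simp)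
      rw [card_empty, Nat.cast_zero, mul_zero, add_zero] at hPc
      have hRn : (n : ℝ) ^ r = n * (n : ℝ) ^ (r - 1) := by
        rw [← pow_succ']
        congr 1
        omega
      have hnN' : (n : ℝ) ≤ N := by exact_mod_cast hnN.le
      have hNR : (n : ℝ) ^ r ≤ N * (n : ℝ) ^ (r - 1) := by
        rw [hRn]; exact mul_le_mul_of_nonneg_right hnN' hR0
      have hH2 : (H.card : ℝ) ≤ N * (n : ℝ) ^ (r - 1) := hHn.trans hNR
      have hx2 : x ≤ N * (n : ℝ) ^ (r - 1) := by rw [hx]; linarith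
      have hy2 : y ≤ N * (n : ℝ) ^ (r - 1) := by
        rw [hy]
        rcases Nat.eq_zero_or_pos n with h0 | h0
        · subst h0
          rw [Nat.cast_zero, zero_pow (by omega), div_zero]
          positivity
        · have hn1 : (0 : ℝ) < n := by exact_mod_cast h0
          refine le_trans ?_ hNR
          rw [div_le_iff₀ (by positivity), ← pow_add]
          have : r + (p - r) = p := by omega
          rw [this]
          exact hcopn
      refine ⟨P, hP, hPc, ?_⟩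
      have h1 : (2 * (N : ℝ)) * (n : ℝ) ^ (r - 1) ≤ K₂ * (n : ℝ) ^ (r - 1) :=
        mul_le_mul_of_nonneg_right (by rw [hK₂]; linarith) hR0
      have h2 : c / 2 * max x y ≤ c / 2 * (N * (n : ℝ) ^ (r - 1)) :=
        mul_le_mul_of_nonneg_left (max_le hx2 hy2) (by positivity)
      have h3 : c / 2 * (N * (n : ℝ) ^ (r - 1)) ≤ 1 * (N * (n : ℝ) ^ (r - 1)) :=
        mul_le_mul_of_nonneg_right (by linarith) (by positivity)
      linarith
    · -- many vertices
      obtain ⟨M, hM, hMd, h1, h2⟩ := hN n hnN H hH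
      obtain ⟨P, hP, hPc⟩ := hpn M hM hMd
      obtain ⟨m, hm⟩ : ∃ m : ℝ, m = ((p.choose r : ℝ) - 1) * M.card := ⟨_, rfl⟩
      rw [← hx, ← hm] at h1
      rw [← hy, ← hm] at h2
      rw [← hm] at hPc
      have hm0 : 0 ≤ m := by
        rw [hm]
        exact mul_nonneg (by linarith) (Nat.cast_nonneg _)
      obtain ⟨R, hR⟩ : ∃ R : ℝ, R = (n : ℝ) ^ (r - 1) := ⟨_, rfl⟩
      rw [← hR] at h1 hR0 ⊢
      have hxH : (H.card : ℝ) = al n p r + x := by rw [hx]; ring
      rw [hxH] at hPc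
      have hK12 : 2 * K₁ * R ≤ K₂ * R :=
        mul_le_mul_of_nonneg_right (by rw [hK₂]; linarith) hR0
      have hKR : 0 ≤ K₁ * R := by positivity
      have hcR : c * (K₁ * R) ≤ 1 * (K₁ * R) := mul_le_mul_of_nonneg_right hc1 hKR
      refine ⟨P, hP, by rw [hxH]; linarith, ?_⟩
      rcases le_total x y with hxy | hxy
      · rw [max_eq_right hxy]
        -- `m ≥ (x - K₁ R) + c / 2 * y`
        have h3 : (1 + c) * (x - K₁ * R + c / 2 * y) ≤ (1 + c) * m := by
          have h4 : (1 + c) * (c / 2 * y) ≤ c * y := by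
            have h5 : c * c * y ≤ c * 1 * y :=
              mul_le_mul_of_nonneg_right (mul_le_mul_of_nonneg_left hc1 hc0.le) hy0
            nlinarith
          have h6 : c * y ≤ c * m := mul_le_mul_of_nonneg_left h2 hc0.le
          calc (1 + c) * (x - K₁ * R + c / 2 * y)
              = (1 + c) * (x - K₁ * R) + (1 + c) * (c / 2 * y) := by ring
            _ ≤ m + c * m := by linarith
            _ = (1 + c) * m := by ring
        have h7 : x - K₁ * R + c / 2 * y ≤ m := le_of_mul_le_mul_left h3 (by linarith)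
        linarith
      · rw [max_eq_left hxy]
        have hx0 : 0 ≤ x := hy0.trans hxy
        have h3 : c / 2 * x ≤ c * x := mul_le_mul_of_nonneg_right (by linarith) hx0
        have h4 : (1 + c) * (x - K₁ * R) = x + c * x - (K₁ * R + c * (K₁ * R)) := by ring
        rw [h4] at h1
        linarith
  obtain ⟨P, hP, hPc, hPf⟩ := hkey
  refine ⟨P, hP, ?_, hsecond P hPc hPf⟩
  rw [← hx, ← hy]
  have h1 : K₂ * (n : ℝ) ^ (r - 1) ≤ K₂ / (c / 2) * (n : ℝ) ^ (r - 1) :=
    mul_le_mul_of_nonneg_right hKc hR0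
  linarith

end ES
end
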